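import Mathlib

open Set Topology Filter

namespace Pool.Agent.Helper59.Pettis

/-- `S` is non-meagre in every nonempty open subset of `U`. -/
def P {W : Type*} [TopologicalSpace W] (S U : Set W) : Prop :=
  ∀ U' ⊆ U, IsOpen U' → U'.Nonempty → ¬ IsMeagre (S ∩ U')

lemma lemA {W : Type*} [TopologicalSpace W] [SecondCountableTopology W] (S U : Set W)
    (hU : IsOpen U) (h : ¬ IsMeagre (S ∩ U)) :
    ∃ U' ⊆ U, IsOpen U' ∧ U'.Nonempty ∧ P S U' := by
  by_contra hcon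
  push Not at hcon
  -- every nonempty open subset of U contains a nonempty open set where S is meagre
  have h1 : ∀ U' ⊆ U, IsOpen U' → U'.Nonempty →
      ∃ U'' ⊆ U', IsOpen U'' ∧ U''.Nonempty ∧ IsMeagre (S ∩ U'') := by
    intro U' h1 h2 h3
    have h4 := hcon U' h1 h2 h3
    unfold P at h4
    push Not at h4
    exact h4
  let B := TopologicalSpace.countableBasis W
  have hB := TopologicalSpace.isBasis_countableBasis W
  let C : Set (Set W) := {b | b ∈ B ∧ IsMeagre (S ∩ b)}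
  have hC : C.Countable := (TopologicalSpace.countable_countableBasis W).mono fun b hb => hb.1
  have hm1 : IsMeagre (S ∩ ⋃₀ C) := by
    rw [sUnion_eq_biUnion, inter_iUnion₂]
    exact isMeagre_biUnion hC fun b hb => hb.2
  have hnd : IsNowhereDense (U \ ⋃₀ C) := by
    rw [IsNowhereDense, ← not_nonempty_iff_eq_empty]
    rintro ⟨x, hx⟩
    obtain ⟨y, hy1, hy2⟩ := mem_closure_iff.1 (interior_subset hx) _ isOpen_interior hx
    obtain ⟨V, hV1, hV2, hV3, hV4⟩ := h1 (interior (closure (U \ ⋃₀ C)) ∩ U) inter_subset_right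
      (isOpen_interior.inter hU) ⟨y, hy1, hy2.1⟩
    obtain ⟨v, hv⟩ := hV3
    obtain ⟨b, hb1, hb2, hb3⟩ := hB.exists_subset_of_mem_open hv hV2
    have hbC : b ∈ C := ⟨hb1, hV4.mono (inter_subset_inter_right _ hb3)⟩
    have hvcl : v ∈ closure (U \ ⋃₀ C) := interior_subset (hV1 hv).1
    obtain ⟨y', hy'1, hy'2⟩ := mem_closure_iff.1 hvcl b (hB.isOpen hb1) hb2
    exact hy'2.2 ⟨b, hbC, hy'1⟩
  apply h
  refine (hm1.union hnd.isMeagre).mono ?_
  rintro x ⟨hx1, hx2⟩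
  by_cases hx : x ∈ ⋃₀ C
  · exact Or.inl ⟨hx1, hx⟩
  · exact Or.inr ⟨hx2, hx⟩

lemma lemB {W : Type*} [TopologicalSpace W] [SecondCountableTopology W] (S : Set W)
    (Si : ℕ → Set W) (hS : S ⊆ ⋃ i, Si i) (U : Set W) (hU : IsOpen U) (hne : U.Nonempty)
    (h : P S U) : ∃ i, ∃ U' ⊆ U, IsOpen U' ∧ U'.Nonempty ∧ P (Si i) U' := by
  have h1 : ∃ i, ¬ IsMeagre (Si i ∩ U) := by
    by_contra hcon
    push Not at hcon
    refine h U subset_rfl hU hne ((isMeagre_iUnion hcon).mono ?_)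
    rintro x ⟨hx1, hx2⟩
    obtain ⟨i, hi⟩ := mem_iUnion.1 (hS hx1)
    exact mem_iUnion.2 ⟨i, hi, hx2⟩
  obtain ⟨i, hi⟩ := h1
  exact ⟨i, lemA _ U hU hi⟩

lemma P_mono {W : Type*} [TopologicalSpace W] {S U V : Set W} (h : P S U) (hV : V ⊆ U) : P S V :=
  fun U' h1 h2 h3 => h U' (h1.trans hV) h2 h3

/-- refinement step -/
lemma step1 {Z W : Type*} [MetricSpace Z] [TopologicalSpace.SeparableSpace Z]
    [TopologicalSpace W] [SecondCountableTopology W] (ν : Z → W) (O : Set Z) (U : Set W)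
    (hU : IsOpen U) (hne : U.Nonempty) (h : P (ν '' O) U) (δ : ℝ) (hδ : 0 < δ) :
    ∃ O' ⊆ O, (∀ x ∈ O', ∀ y ∈ O', dist x y ≤ δ) ∧
      ∃ U' ⊆ U, IsOpen U' ∧ U'.Nonempty ∧ P (ν '' O') U' := by
  have hZ : Nonempty Z := by
    by_contra hcon
    rw [not_nonempty_iff] at hcon
    apply h U subset_rfl hU hne
    have : ν '' O ∩ U = ∅ := by
      rw [Set.eq_empty_of_isEmpty O, image_empty, empty_inter]
    rw [this]; exact IsMeagre.empty
  let Oi : ℕ → Set Z := fun i => O ∩ Metric.ball (TopologicalSpace.denseSeq Z i) (δ / 2)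
  have hcov : ν '' O ⊆ ⋃ i, ν '' Oi i := by
    rintro _ ⟨z, hz, rfl⟩
    obtain ⟨i, hi⟩ := (TopologicalSpace.denseRange_denseSeq Z).exists_dist_lt z
      (show 0 < δ / 2 by positivity)
    exact mem_iUnion.2 ⟨i, z, ⟨hz, hi⟩, rfl⟩
  obtain ⟨i, U', h1, h2, h3, h4⟩ := lemB _ _ hcov U hU hne h
  refine ⟨Oi i, inter_subset_left, ?_, U', h1, h2, h3, h4⟩
  intro x hx y hy
  have hx' : dist x (TopologicalSpace.denseSeq Z i) < δ / 2 := hx.2
  have hy' : dist y (TopologicalSpace.denseSeq Z i) < δ / 2 := hy.2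
  linarith [dist_triangle_right x y (TopologicalSpace.denseSeq Z i)]

/-- Continuous image of a Polish space which is non-meagre: its difference set is a neighbourhood of 0
(Lusin-Sierpinski Baire property of analytic sets + Pettis). -/
theorem analytic_difference_nhds {Z W : Type*} [MetricSpace Z] [CompleteSpace Z]
    [TopologicalSpace.SeparableSpace Z] [NormedAddCommGroup W]
    [TopologicalSpace.SeparableSpace W]
    (μ : Z → W) (hμ : Continuous μ) (hn : ¬ IsMeagre (range μ)) :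
    ∃ ε > 0, ∀ w : W, ‖w‖ < ε → ∃ z z' : Z, μ z - μ z' = w := by
  have hsc : SecondCountableTopology W := UniformSpace.secondCountable_of_separable W
  obtain ⟨U, _, hU1, ⟨u, hu⟩, hU3⟩ := lemA (range μ) univ isOpen_univ (by rwa [inter_univ])
  obtain ⟨ε, hε, hball⟩ := Metric.isOpen_iff.1 hU1 u hu
  refine ⟨ε, hε, fun w hw => ?_⟩
  -- translated map
  let μ' : Z → W := fun z => μ z + w
  have hμ' : Continuous μ' := hμ.add continuous_const
  have htr : P (range μ') ((fun x => x + w) '' U) := by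
    intro V hV hVo hVn hVm
    have hV' : (fun x => x + w) ⁻¹' V ⊆ U := by
      intro x hx
      obtain ⟨y, hy, hyx⟩ := hV hx
      have : y = x := add_right_cancel hyx
      rwa [← this]
    refine hU3 _ hV' (hVo.preimage (by fun_prop)) ?_ ?_
    · obtain ⟨v, hv⟩ := hVn
      exact ⟨v - w, by simpa using hv⟩
    · have : range μ ∩ (fun x => x + w) ⁻¹' V = (Homeomorph.addRight w) ⁻¹' (range μ' ∩ V) := by
        ext x
        constructor
        · rintro ⟨⟨z, rfl⟩, hx⟩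
          exact ⟨⟨z, rfl⟩, hx⟩
        · rintro ⟨⟨z, hz⟩, hx⟩
          exact ⟨⟨z, add_right_cancel hz⟩, hx⟩
      rw [this]
      exact hVm.preimage_of_isOpenMap (Homeomorph.addRight w).continuous
        (Homeomorph.addRight w).isOpenMap
  -- states
  let σ := {p : Set Z × Set Z × Set W // IsOpen p.2.2 ∧ p.2.2.Nonempty ∧
    P (μ '' p.1) p.2.2 ∧ P (μ' '' p.2.1) p.2.2}
  have hstep : ∀ (k : ℕ) (p : σ), ∃ q : σ, q.1.1 ⊆ p.1.1 ∧ q.1.2.1 ⊆ p.1.2.1 ∧
      (∀ x ∈ q.1.1, ∀ y ∈ q.1.1, dist x y ≤ (1 / 2 : ℝ) ^ k) ∧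
      (∀ x ∈ q.1.2.1, ∀ y ∈ q.1.2.1, dist x y ≤ (1 / 2 : ℝ) ^ k) ∧
      (∀ x ∈ q.1.2.2, ∀ y ∈ q.1.2.2, dist x y ≤ (1 / 2 : ℝ) ^ k) := by
    rintro k ⟨⟨O, O', V⟩, hV1, hV2, hV3, hV4⟩
    obtain ⟨O1, hO1, hd1, V1, hVV1, hVo1, hVn1, hP1⟩ :=
      step1 μ O V hV1 hV2 hV3 ((1 / 2 : ℝ) ^ k) (by positivity)
    obtain ⟨O2, hO2, hd2, V2, hVV2, hVo2, hVn2, hP2⟩ :=
      step1 μ' O' V1 hVo1 hVn1 (P_mono hV4 hVV1) ((1 / 2 : ℝ) ^ k) (by positivity)
    obtain ⟨x, hx⟩ := hVn2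
    refine ⟨⟨⟨O1, O2, V2 ∩ Metric.ball x ((1 / 2 : ℝ) ^ k / 2)⟩, hVo2.inter Metric.isOpen_ball,
      ⟨x, hx, Metric.mem_ball_self (by positivity)⟩,
      P_mono hP1 (inter_subset_left.trans hVV2), P_mono hP2 inter_subset_left⟩,
      hO1, hO2, hd1, hd2, ?_⟩
    intro y hy y' hy'
    have h1 : dist y x < (1 / 2 : ℝ) ^ k / 2 := hy.2
    have h2 : dist y' x < (1 / 2 : ℝ) ^ k / 2 := hy'.2
    linarith [dist_triangle_right y y' x]
  choose f hf1 hf2 hf3 hf4 hf5 using hstep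
  have hinit : IsOpen (U ∩ (fun x => x + w) '' U) ∧ (U ∩ (fun x => x + w) '' U).Nonempty ∧
      P (μ '' univ) (U ∩ (fun x => x + w) '' U) ∧ P (μ' '' univ) (U ∩ (fun x => x + w) '' U) := by
    refine ⟨hU1.inter ((Homeomorph.addRight w).isOpenMap U hU1), ⟨u, hu, u - w, ?_, by simp⟩, ?_, ?_⟩
    · apply hball
      rw [Metric.mem_ball, dist_eq_norm]
      simpa using hw
    · rw [image_univ]; exact P_mono hU3 inter_subset_left
    · rw [image_univ]; exact P_mono htr inter_subset_right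
  let s : ℕ → σ := fun n => Nat.rec ⟨⟨univ, univ, U ∩ (fun x => x + w) '' U⟩, hinit⟩ (fun k p => f k p) n
  have hs : ∀ n, s (n + 1) = f n (s n) := fun n => rfl
  have hex1 : ∀ n, ∃ z ∈ (s n).1.1, μ z ∈ (s n).1.2.2 := by
    intro n
    obtain ⟨h1, h2, h3, h4⟩ := (s n).2
    have h5 := h3 _ subset_rfl h1 h2
    by_contra hcon
    push Not at hcon
    apply h5
    have : μ '' (s n).1.1 ∩ (s n).1.2.2 = ∅ := by
      rw [eq_empty_iff_forall_notMem]
      rintro _ ⟨⟨z, hz, rfl⟩, hz'⟩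
      exact hcon z hz hz'
    rw [this]; exact IsMeagre.empty
  have hex2 : ∀ n, ∃ z ∈ (s n).1.2.1, μ' z ∈ (s n).1.2.2 := by
    intro n
    obtain ⟨h1, h2, h3, h4⟩ := (s n).2
    have h5 := h4 _ subset_rfl h1 h2
    by_contra hcon
    push Not at hcon
    apply h5
    have : μ' '' (s n).1.2.1 ∩ (s n).1.2.2 = ∅ := by
      rw [eq_empty_iff_forall_notMem]
      rintro _ ⟨⟨z, hz, rfl⟩, hz'⟩
      exact hcon z hz hz'
    rw [this]; exact IsMeagre.empty
  choose z hz1 hz2 using hex1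
  choose z' hz'1 hz'2 using hex2
  have hanti1 : Antitone fun n => (s n).1.1 :=
    antitone_nat_of_succ_le fun n => by rw [hs]; exact hf1 n (s n)
  have hanti2 : Antitone fun n => (s n).1.2.1 :=
    antitone_nat_of_succ_le fun n => by rw [hs]; exact hf2 n (s n)
  have hpow : Tendsto (fun n : ℕ => (1 / 2 : ℝ) ^ n) atTop (𝓝 0) :=
    tendsto_pow_atTop_nhds_zero_of_lt_one (by norm_num) (by norm_num)
  have hcau : ∀ (y : ℕ → Z) (O : ℕ → Set Z), Antitone O → (∀ n, y n ∈ O n) →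
      (∀ n, ∀ a ∈ O (n + 1), ∀ b ∈ O (n + 1), dist a b ≤ (1 / 2 : ℝ) ^ n) →
      ∃ l, Tendsto (fun n => y (n + 1)) atTop (𝓝 l) := by
    intro y O hO hy hd
    apply cauchySeq_tendsto_of_complete
    refine cauchySeq_of_le_tendsto_0' (fun n => (1 / 2 : ℝ) ^ n) ?_ hpow
    intro n k hnk
    exact hd n _ (hy _) _ (hO (by omega) (hy _))
  obtain ⟨l, hl⟩ := hcau z _ hanti1 hz1 (fun n => by rw [hs]; exact hf3 n (s n))
  obtain ⟨l', hl'⟩ := hcau z' _ hanti2 hz'1 (fun n => by rw [hs]; exact hf4 n (s n))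
  refine ⟨l, l', ?_⟩
  have h1 := (hμ.tendsto l).comp hl
  have h2 := (hμ'.tendsto l').comp hl'
  have h3 : Tendsto (fun n => dist (μ (z (n + 1))) (μ' (z' (n + 1)))) atTop (𝓝 0) := by
    refine squeeze_zero (fun _ => dist_nonneg) (fun n => ?_) hpow
    have h4 := hz2 (n + 1)
    have h5 := hz'2 (n + 1)
    rw [hs] at h4 h5
    exact hf5 n (s n) _ h4 _ h5
  have h4 := h1.dist h2
  have h5 : dist (μ l) (μ' l') = 0 := tendsto_nhds_unique h4 h3
  have h6 : μ l = μ l' + w := dist_eq_zero.1 h5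
  rw [h6]; simp

end Pool.Agent.Helper59.Pettis
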