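import Mathlib
import Pool.Agent.Helper59.Pettis

open Set Topology Filter MeasureTheory

namespace Pool.Agent.Helper59.AC

open Pool.Agent.Helper59.Pettis

/-- points at which `S` is locally non-meagre -/
def K {W : Type*} [TopologicalSpace W] (S : Set W) : Set W :=
  {x | ∀ V : Set W, IsOpen V → x ∈ V → ¬ IsMeagre (S ∩ V)}

lemma K_closed {W : Type*} [TopologicalSpace W] (S : Set W) : IsClosed (K S) := by
  rw [← isOpen_compl_iff, isOpen_iff_forall_mem_open]
  intro x hx
  have hx' : ∃ V : Set W, IsOpen V ∧ x ∈ V ∧ IsMeagre (S ∩ V) := by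
    by_contra hcon
    push Not at hcon
    exact hx hcon
  obtain ⟨V, hV, hxV, hm⟩ := hx'
  refine ⟨V, ?_, hV, hxV⟩
  intro y hy hyK
  exact hyK V hV hy hm

lemma K_sub_closure {W : Type*} [TopologicalSpace W] (S : Set W) : K S ⊆ closure S := by
  intro x hx
  rw [mem_closure_iff]
  intro V hV hxV
  obtain ⟨y, hy⟩ := nonempty_of_not_isMeagre (hx V hV hxV)
  exact ⟨y, hy.2, hy.1⟩

lemma K_iUnion {W : Type*} [TopologicalSpace W] [SecondCountableTopology W] (S : Set W)
    (Si : ℕ → Set W) (hS : S ⊆ ⋃ i, Si i) : IsMeagre (K S \ ⋃ i, K (Si i)) := by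
  have hnd : IsNowhereDense (K S \ ⋃ i, interior (K (Si i))) := by
    have hcl : IsClosed (K S \ ⋃ i, interior (K (Si i))) :=
      (K_closed S).sdiff (isOpen_iUnion fun i => isOpen_interior)
    rw [IsNowhereDense, hcl.closure_eq, ← not_nonempty_iff_eq_empty]
    rintro ⟨x, hx⟩
    have h1 := interior_subset hx
    have h2 := h1.1 _ isOpen_interior hx
    have h3 : ∃ i, ¬ IsMeagre (Si i ∩ interior (K S \ ⋃ i, interior (K (Si i)))) := by
      by_contra hcon
      push Not at hcon
      refine h2 ((isMeagre_iUnion hcon).mono ?_)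
      rintro y ⟨hy1, hy2⟩
      obtain ⟨i, hi⟩ := mem_iUnion.1 (hS hy1)
      exact mem_iUnion.2 ⟨i, hi, hy2⟩
    obtain ⟨i, hi⟩ := h3
    obtain ⟨U', hU1, hU2, ⟨u, hu⟩, hU4⟩ := lemA _ _ isOpen_interior hi
    have h4 : U' ⊆ K (Si i) := by
      intro y hy V hV hyV hm
      exact hU4 (V ∩ U') inter_subset_right (hV.inter hU2) ⟨y, hyV, hy⟩
        (hm.mono (inter_subset_inter_right _ inter_subset_left))
    have h5 : u ∈ interior (K (Si i)) := interior_maximal h4 hU2 hu
    exact (interior_subset (hU1 hu)).2 (mem_iUnion.2 ⟨i, h5⟩)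
  refine hnd.isMeagre.mono ?_
  rintro x ⟨hx1, hx2⟩
  refine ⟨hx1, fun hx3 => hx2 ?_⟩
  obtain ⟨i, hi⟩ := mem_iUnion.1 hx3
  exact mem_iUnion.2 ⟨i, interior_subset hi⟩

/-- cylinders -/
def N : List ℕ → Set (ℕ → ℕ)
  | [] => univ
  | (i :: σ) => {x | x ∈ N σ ∧ x σ.length = i}

/-- analytic sets have the Baire property -/
theorem bp {W : Type*} [MetricSpace W] [SecondCountableTopology W] (s : Set W)
    (hs : AnalyticSet s) : IsMeagre (K s \ s) := by
  rw [AnalyticSet] at hs
  rcases hs with rfl | ⟨f, hf, rfl⟩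
  · have : K (∅ : Set W) \ ∅ = ∅ := by
      rw [eq_empty_iff_forall_notMem]
      rintro x ⟨hx, -⟩
      have := K_sub_closure _ hx
      rw [closure_empty] at this
      exact this
    rw [this]
    exact IsMeagre.empty
  · have hQ : IsMeagre (⋃ σ : List ℕ, (K (f '' N σ) \ ⋃ i, K (f '' N (i :: σ)))) := by
      refine isMeagre_iUnion fun σ => K_iUnion _ _ ?_
      rintro _ ⟨x, hx, rfl⟩
      exact mem_iUnion.2 ⟨x σ.length, x, ⟨hx, rfl⟩, rfl⟩
    refine hQ.mono ?_
    rintro x ⟨hx1, hx2⟩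
    by_contra hxQ
    have hstep : ∀ σ : {σ : List ℕ // x ∈ K (f '' N σ)}, ∃ i, x ∈ K (f '' N (i :: σ.1)) := by
      intro σ
      by_contra hcon
      apply hxQ
      refine mem_iUnion.2 ⟨σ.1, σ.2, fun h => hcon ?_⟩
      exact mem_iUnion.1 h
    choose F hF using hstep
    have h0 : x ∈ K (f '' N []) := by
      have : f '' N [] = range f := by
        show f '' univ = range f
        exact image_univ
      rw [this]
      exact hx1
    let s : ℕ → {σ : List ℕ // x ∈ K (f '' N σ)} := fun n =>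
      Nat.rec ⟨[], h0⟩ (fun _ p => ⟨F p :: p.1, hF p⟩) n
    have hs : ∀ n, s (n + 1) = ⟨F (s n) :: (s n).1, hF (s n)⟩ := fun n => rfl
    have hlen : ∀ n, (s n).1.length = n := by
      intro n
      induction n with
      | zero => rfl
      | succ n ih => rw [hs, List.length_cons, ih]
    obtain ⟨a, ha⟩ : ∃ a : ℕ → ℕ, ∀ n, a n = F (s n) := ⟨_, fun _ => rfl⟩
    have hN : ∀ n, ∀ y ∈ N (s n).1, ∀ i < n, y i = a i := by
      intro n
      induction n with
      | zero => intro y _ i hi; omega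
      | succ n ih =>
        intro y hy i hi
        rw [hs] at hy
        have hy1 : y ∈ N (s n).1 := hy.1
        have hy2 : y (s n).1.length = F (s n) := hy.2
        rw [hlen] at hy2
        rcases Nat.lt_succ_iff_lt_or_eq.1 hi with h | h
        · exact ih y hy1 i h
        · rw [h, hy2, ha]
    have hy : ∀ n : ℕ, ∃ y ∈ N (s n).1, dist x (f y) < 1 / ((n : ℝ) + 1) := by
      intro n
      have h1 := K_sub_closure _ (s n).2
      obtain ⟨_, ⟨y, hy, rfl⟩, hd⟩ := Metric.mem_closure_iff.1 h1 (1 / ((n : ℝ) + 1))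
        (by positivity)
      exact ⟨y, hy, hd⟩
    choose y hy1 hy2 using hy
    have ht : Tendsto y atTop (𝓝 a) := by
      rw [tendsto_pi_nhds]
      intro i
      refine tendsto_const_nhds.congr' ?_
      filter_upwards [eventually_gt_atTop i] with n hn
      exact (hN n (y n) (hy1 n) i hn).symm
    have ht1 : Tendsto (fun n => f (y n)) atTop (𝓝 (f a)) := (hf.tendsto a).comp ht
    have ht2 : Tendsto (fun n => f (y n)) atTop (𝓝 x) := by
      rw [tendsto_iff_dist_tendsto_zero]
      refine squeeze_zero (fun _ => dist_nonneg) (fun n => ?_)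
        tendsto_one_div_add_atTop_nhds_zero_nat
      rw [dist_comm]
      exact (hy2 n).le
    exact hx2 ⟨a, tendsto_nhds_unique ht1 ht2⟩

/-- Kuratowski-Ulam for closed nowhere dense sets -/
lemma ku_closed {X Y : Type*} [TopologicalSpace X] [TopologicalSpace Y]
    [SecondCountableTopology Y] (C : Set (X × Y)) (hC : IsClosed C) (hnd : IsNowhereDense C) :
    IsMeagre {x | ¬ IsMeagre {y | (x, y) ∈ C}} := by
  have hB := TopologicalSpace.isBasis_countableBasis Y
  have h1 : IsMeagre (⋃ b ∈ {b ∈ TopologicalSpace.countableBasis Y | b.Nonempty},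
      {x : X | ∀ y ∈ b, (x, y) ∈ C}) := by
    refine isMeagre_biUnion ((TopologicalSpace.countable_countableBasis Y).mono
      fun b hb => hb.1) ?_
    rintro b ⟨hb, hbn⟩
    apply IsNowhereDense.isMeagre
    have hcl : IsClosed {x : X | ∀ y ∈ b, (x, y) ∈ C} := by
      have : {x : X | ∀ y ∈ b, (x, y) ∈ C} = ⋂ y ∈ b, (fun x : X => (x, y)) ⁻¹' C := by
        ext x
        simp
      rw [this]
      exact isClosed_biInter fun y _ => hC.preimage (by fun_prop)
    rw [IsNowhereDense, hcl.closure_eq, ← not_nonempty_iff_eq_empty]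
    rintro ⟨x, hx⟩
    obtain ⟨y, hy⟩ := hbn
    have h2 : interior {x : X | ∀ y ∈ b, (x, y) ∈ C} ×ˢ b ⊆ C := by
      rintro ⟨x', y'⟩ ⟨hx', hy'⟩
      exact interior_subset hx' y' hy'
    have h3 : (x, y) ∈ interior C :=
      interior_maximal h2 (isOpen_interior.prod (hB.isOpen hb)) ⟨hx, hy⟩
    have h4 : (x, y) ∈ interior (closure C) := interior_mono subset_closure h3
    rw [hnd] at h4
    exact h4
  refine h1.mono ?_
  intro x hx
  by_contra hcon
  apply hx
  apply IsNowhereDense.isMeagre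
  have hcl : IsClosed {y | (x, y) ∈ C} := hC.preimage (by fun_prop)
  rw [IsNowhereDense, hcl.closure_eq, ← not_nonempty_iff_eq_empty]
  rintro ⟨y, hy⟩
  obtain ⟨b, hb1, hb2, hb3⟩ := hB.exists_subset_of_mem_open hy isOpen_interior
  apply hcon
  refine mem_iUnion₂.2 ⟨b, ⟨hb1, ⟨y, hb2⟩⟩, ?_⟩
  intro y' hy'
  have h5 : y' ∈ {y | (x, y) ∈ C} := interior_subset (hb3 hy')
  exact h5

/-- Kuratowski-Ulam for meagre sets -/
theorem ku {X Y : Type*} [TopologicalSpace X] [TopologicalSpace Y]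
    [SecondCountableTopology Y] (C : Set (X × Y)) (hC : IsMeagre C) :
    IsMeagre {x | ¬ IsMeagre {y | (x, y) ∈ C}} := by
  obtain ⟨S, hS1, hS2, hS3⟩ := isMeagre_iff_countable_union_isNowhereDense.1 hC
  have h1 : IsMeagre (⋃ t ∈ S, {x : X | ¬ IsMeagre {y | (x, y) ∈ closure t}}) := by
    refine isMeagre_biUnion hS2 ?_
    intro t ht
    apply ku_closed _ isClosed_closure
    rw [IsNowhereDense, closure_closure]
    exact hS1 t ht
  refine h1.mono ?_
  intro x hx
  by_contra hcon
  apply hx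
  have h2 : IsMeagre (⋃ t ∈ S, {y | (x, y) ∈ closure t}) := by
    refine isMeagre_biUnion hS2 ?_
    intro t ht
    by_contra h
    exact hcon (mem_iUnion₂.2 ⟨t, ht, h⟩)
  refine h2.mono ?_
  intro y hy
  obtain ⟨t, ht, hyt⟩ := hS3 hy
  exact mem_iUnion₂.2 ⟨t, ht, subset_closure hyt⟩

theorem ku' {X Y : Type*} [TopologicalSpace X] [TopologicalSpace Y]
    [SecondCountableTopology X] (C : Set (X × Y)) (hC : IsMeagre C) :
    IsMeagre {y | ¬ IsMeagre {x | (x, y) ∈ C}} := by
  have h1 : IsMeagre (Prod.swap ⁻¹' C : Set (Y × X)) :=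
    hC.preimage_of_isOpenMap continuous_swap (Homeomorph.prodComm Y X).isOpenMap
  exact ku _ h1

end Pool.Agent.Helper59.AC
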