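import Mathlib
import Pool.Agent.Helper59.AC1

open Set Topology Filter MeasureTheory

namespace Pool.Agent.Helper59.AC

section
variable {E : Type*} [NormedAddCommGroup E] [CompleteSpace E] [SecondCountableTopology E]

/-- analyticity of the set of pairs -/
lemma pairs_analytic {Z : Type*} [TopologicalSpace Z] [PolishSpace Z] (μ : Z → E)
    (hμ : Continuous μ) (Y : Set E) (hY : AnalyticSet Y) :
    AnalyticSet {p : E × E | ∃ z z', μ z - μ z' = p.2 ∧ p.1 + μ z ∈ Y} := by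
  have hpol : PolishSpace E := inferInstance
  rw [AnalyticSet] at hY
  rcases hY with rfl | ⟨g, hg, rfl⟩
  · have : {p : E × E | ∃ z z', μ z - μ z' = p.2 ∧ p.1 + μ z ∈ (∅ : Set E)} = ∅ := by
      rw [eq_empty_iff_forall_notMem]
      rintro p ⟨z, z', -, h⟩
      exact h
    rw [this]
    exact analyticSet_empty
  · have hcl : IsClosed {q : E × Z × Z × (ℕ → ℕ) | q.1 + μ q.2.1 = g q.2.2.2} :=
      isClosed_eq (continuous_fst.add (hμ.comp (continuous_fst.comp continuous_snd)))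
        (hg.comp (continuous_snd.comp (continuous_snd.comp continuous_snd)))
    have hcf : Continuous fun q : E × Z × Z × (ℕ → ℕ) => (q.1, μ q.2.1 - μ q.2.2.1) :=
      continuous_fst.prodMk ((hμ.comp (continuous_fst.comp continuous_snd)).sub
        (hμ.comp (continuous_fst.comp (continuous_snd.comp continuous_snd))))
    have h1 := hcl.analyticSet.image_of_continuous hcf
    have h2 : (fun q : E × Z × Z × (ℕ → ℕ) => (q.1, μ q.2.1 - μ q.2.2.1)) ''
        {q : E × Z × Z × (ℕ → ℕ) | q.1 + μ q.2.1 = g q.2.2.2} =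
        {p : E × E | ∃ z z', μ z - μ z' = p.2 ∧ p.1 + μ z ∈ range g} := by
      ext ⟨d, y⟩
      constructor
      · rintro ⟨⟨d', z, z', a⟩, h, he⟩
        have h' : d' + μ z = g a := h
        simp only [Prod.mk.injEq] at he
        obtain ⟨rfl, rfl⟩ := he
        exact ⟨z, z', rfl, a, h'.symm⟩
      · rintro ⟨z, z', h, a, ha⟩
        refine ⟨(d, z, z', a), ha.symm, ?_⟩
        show (d, μ z - μ z') = (d, y)
        rw [h]
    rw [h2] at h1
    exact h1

/-- the key step -/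
theorem step_ku {Z : Type*} [TopologicalSpace Z] [PolishSpace Z] (μ : Z → E)
    (hμ : Continuous μ) (Y : Set E) (hY : AnalyticSet Y) (y0 : E) (ε δ : ℝ) (hε : 0 < ε)
    (hcm : IsMeagre (Metric.ball y0 (2 * ε) \ Y))
    (hδ : ∀ y : E, ‖y‖ < δ → ∃ z z', μ z - μ z' = y ∧ ‖μ z‖ < ε) :
    IsMeagre {d | ¬ (d ∈ Metric.ball y0 ε → IsMeagre (Metric.ball (0 : E) δ \
      {y | ∃ z z', μ z - μ z' = y ∧ d + μ z ∈ Y}))} := by
  obtain ⟨T, hT⟩ : ∃ T : Set (E × E), T = {p : E × E | ∃ z z', μ z - μ z' = p.2 ∧ p.1 + μ z ∈ Y} :=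
    ⟨_, rfl⟩
  have hTa : AnalyticSet T := by rw [hT]; exact pairs_analytic μ hμ Y hY
  have hK : Metric.ball y0 ε ×ˢ Metric.ball (0 : E) δ ⊆ K T := by
    rintro ⟨d, y⟩ ⟨hd, hy⟩ O hO hdy hm
    obtain ⟨V1, V2, hV1, hV2, hd1, hy2, hsub⟩ := isOpen_prod_iff.1 hO d y hdy
    have hm' : IsMeagre (T ∩ ((V1 ∩ Metric.ball y0 ε) ×ˢ (V2 ∩ Metric.ball (0 : E) δ))) := by
      refine hm.mono (inter_subset_inter_right _ ?_)
      exact (prod_mono inter_subset_left inter_subset_left).trans hsub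
    have h1 := ku' _ hm'
    have h2 : ¬ IsMeagre (V2 ∩ Metric.ball (0 : E) δ) :=
      not_isMeagre_of_isOpen (hV2.inter Metric.isOpen_ball) ⟨y, hy2, hy⟩
    have h3 : ∃ y' ∈ V2 ∩ Metric.ball (0 : E) δ, IsMeagre {x | (x, y') ∈
        T ∩ ((V1 ∩ Metric.ball y0 ε) ×ˢ (V2 ∩ Metric.ball (0 : E) δ))} := by
      by_contra hcon
      push Not at hcon
      exact h2 (h1.mono fun y' hy' => hcon y' hy')
    obtain ⟨y', hy', hm3⟩ := h3
    have hy'n : ‖y'‖ < δ := by simpa using hy'.2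
    obtain ⟨z, z', hzz, hzn⟩ := hδ y' hy'n
    have hm4 : IsMeagre ((fun x : E => x + μ z) ⁻¹' (Metric.ball y0 (2 * ε) \ Y)) :=
      hcm.preimage_of_isOpenMap (Homeomorph.addRight (μ z)).continuous
        (Homeomorph.addRight (μ z)).isOpenMap
    have hV : IsMeagre (V1 ∩ Metric.ball y0 ε) := by
      refine (hm3.union hm4).mono ?_
      intro x hx
      by_cases hxY : x + μ z ∈ Y
      · left
        refine ⟨?_, hx, hy'⟩
        rw [hT]
        exact ⟨z, z', hzz, hxY⟩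
      · right
        refine ⟨?_, hxY⟩
        have hx2 : ‖x - y0‖ < ε := by
          have := hx.2
          rwa [Metric.mem_ball, dist_eq_norm] at this
        rw [Metric.mem_ball, dist_eq_norm]
        calc ‖x + μ z - y0‖ = ‖(x - y0) + μ z‖ := by congr 1; abel
          _ ≤ ‖x - y0‖ + ‖μ z‖ := norm_add_le _ _
          _ < 2 * ε := by linarith
    exact not_isMeagre_of_isOpen (hV1.inter Metric.isOpen_ball) ⟨d, hd1, hd⟩ hV
  have hm : IsMeagre (Metric.ball y0 ε ×ˢ Metric.ball (0 : E) δ \ T) := by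
    refine (bp T hTa).mono ?_
    rintro p ⟨hp1, hp2⟩
    exact ⟨hK hp1, hp2⟩
  refine (ku _ hm).mono ?_
  intro d hd hcon
  apply hd
  intro hdb
  refine hcon.mono ?_
  rintro y ⟨hy1, hy2⟩
  refine ⟨⟨hdb, hy1⟩, ?_⟩
  rw [hT]
  exact hy2

/-- a discontinuous functional is large on non-meagre sets -/
theorem large [NormedSpace ℝ E] (f : E →ₗ[ℝ] ℝ) (hf : ¬ Continuous f) (O : Set E)
    (hO : IsOpen O) (hne : O.Nonempty) (C : Set E) (hC : IsMeagre C) :
    ∃ d ∈ O, d ∉ C ∧ 1 ≤ f d := by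
  by_contra hcon
  push Not at hcon
  apply hf
  obtain ⟨x0, hx0⟩ := hne
  obtain ⟨r, hr, hball⟩ := Metric.isOpen_iff.1 hO x0 hx0
  have key : ∀ h : E, ‖h‖ < r / 2 → f h ≤ 2 - 2 * f x0 := by
    intro h hh
    -- x ∈ ball x0 (r/2), x ∉ C, 2 x0 + h - x ∉ C
    have hm : IsMeagre (C ∪ (fun x : E => (2 : ℝ) • x0 + h - x) ⁻¹' C) := by
      refine hC.union ?_
      exact hC.preimage_of_isOpenMap (Homeomorph.subLeft ((2 : ℝ) • x0 + h)).continuous
        (Homeomorph.subLeft ((2 : ℝ) • x0 + h)).isOpenMap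
    have h1 : ∃ x ∈ Metric.ball x0 (r / 2), x ∉ C ∪ (fun x : E => (2 : ℝ) • x0 + h - x) ⁻¹' C := by
      by_contra hc
      push Not at hc
      exact not_isMeagre_of_isOpen Metric.isOpen_ball ⟨x0, Metric.mem_ball_self (by positivity)⟩
        (hm.mono hc)
    obtain ⟨x, hx, hxC⟩ := h1
    have hx' : ‖x - x0‖ < r / 2 := by rwa [Metric.mem_ball, dist_eq_norm] at hx
    have h2 : f x < 1 := hcon x (hball (by
      rw [Metric.mem_ball, dist_eq_norm]; linarith)) fun h => hxC (Or.inl h)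
    have h3 : f ((2 : ℝ) • x0 + h - x) < 1 := by
      refine hcon _ (hball ?_) fun h => hxC (Or.inr h)
      rw [Metric.mem_ball, dist_eq_norm]
      calc ‖(2 : ℝ) • x0 + h - x - x0‖ = ‖h - (x - x0)‖ := by
            congr 1
            rw [two_smul]
            abel
        _ ≤ ‖h‖ + ‖x - x0‖ := norm_sub_le _ _
        _ < r := by linarith
    rw [map_sub, map_add, map_smul, smul_eq_mul] at h3
    linarith
  have key2 : ∀ h : E, ‖h‖ < r / 2 → |f h| ≤ 2 - 2 * f x0 := by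
    intro h hh
    rw [abs_le]
    constructor
    · have := key (-h) (by rwa [norm_neg])
      rw [map_neg] at this
      linarith
    · exact key h hh
  have hC : ∀ x, ‖f x‖ ≤ ((2 - 2 * f x0) / (r / 4)) * ‖x‖ := by
    intro x
    by_cases hx : x = 0
    · subst hx; simp
    have hxn : 0 < ‖x‖ := norm_pos_iff.2 hx
    have h1 := key2 ((r / 4 / ‖x‖) • x) (by
      rw [norm_smul, Real.norm_of_nonneg (by positivity), div_mul_cancel₀ _ hxn.ne']
      linarith)
    rw [map_smul, smul_eq_mul, abs_mul, abs_of_pos (by positivity)] at h1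
    rw [div_mul_eq_mul_div, le_div_iff₀ (by positivity), Real.norm_eq_abs]
    calc |f x| * (r / 4) = (r / 4 / ‖x‖ * |f x|) * ‖x‖ := by field_simp
      _ ≤ (2 - 2 * f x0) * ‖x‖ := by gcongr
  exact (f.mkContinuous _ hC).continuous

end

end Pool.Agent.Helper59.AC
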