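import Mathlib
import Pool.Agent.Helper59.AC2

open Set Topology Filter MeasureTheory

namespace Pool.Agent.Helper59.AC

open Pool.Agent.Helper59.Pettis

section
variable {E : Type*} [NormedAddCommGroup E]
  {Z : Type*} (μ : Z → E)

/-- partial chains -/
def X (N : ℕ → Set (Z × Z)) (d : ℕ → E) (n : ℕ) : Set (ℕ → Z × Z) :=
  {ζ | (∀ k ≤ n, ζ k ∈ N k) ∧ ∀ k < n, μ (ζ k).1 - μ (ζ k).2 = d k + μ (ζ (k + 1)).1}

/-- values at the end of partial chains -/
def Y (N : ℕ → Set (Z × Z)) (d : ℕ → E) (n : ℕ) : Set E :=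
  (fun ζ : ℕ → Z × Z => μ (ζ n).1 - μ (ζ n).2) '' X μ N d n

lemma Y_analytic [MetricSpace Z] [CompleteSpace Z] [TopologicalSpace.SeparableSpace Z]
    (hμ : Continuous μ) (N : ℕ → Set (Z × Z)) (hN : ∀ k, IsClosed (N k)) (d : ℕ → E) (n : ℕ) :
    AnalyticSet (Y μ N d n) := by
  have : SecondCountableTopology Z := UniformSpace.secondCountable_of_separable Z
  have hpol : PolishSpace Z := inferInstance
  have hpol2 : PolishSpace (ℕ → Z × Z) := inferInstance
  have h1 : ∀ k, Continuous fun ζ : ℕ → Z × Z => μ (ζ k).1 := fun k =>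
    hμ.comp (continuous_fst.comp (continuous_apply k))
  have h2 : ∀ k, Continuous fun ζ : ℕ → Z × Z => μ (ζ k).2 := fun k =>
    hμ.comp (continuous_snd.comp (continuous_apply k))
  have hcl : IsClosed (X μ N d n) := by
    have : X μ N d n = (⋂ k, ⋂ (_ : k ≤ n), (fun ζ : ℕ → Z × Z => ζ k) ⁻¹' (N k)) ∩
        ⋂ k, ⋂ (_ : k < n), {ζ : ℕ → Z × Z | μ (ζ k).1 - μ (ζ k).2 = d k + μ (ζ (k + 1)).1} := by
      ext ζ
      simp only [X, mem_inter_iff, mem_iInter, mem_preimage]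
      exact Iff.rfl
    rw [this]
    refine IsClosed.inter ?_ ?_
    · exact isClosed_iInter fun k => isClosed_iInter fun _ => (hN k).preimage (continuous_apply k)
    · exact isClosed_iInter fun k => isClosed_iInter fun _ =>
        isClosed_eq ((h1 k).sub (h2 k)) (continuous_const.add (h1 (k + 1)))
  exact hcl.analyticSet.image_of_continuous ((h1 n).sub (h2 n))

/-- the invariant -/
def Inv (n : ℕ) (s : (ℕ → Set (Z × Z)) × (ℕ → E) × Set E) [TopologicalSpace Z] : Prop :=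
  (∀ k, IsClosed (s.1 k)) ∧ (∀ k, n < k → s.1 k = univ) ∧ IsOpen s.2.2 ∧ s.2.2.Nonempty ∧
    IsMeagre (s.2.2 \ Y μ s.1 s.2.1 n)

lemma Y_succ (N : ℕ → Set (Z × Z)) (d : ℕ → E) (n : ℕ) (hN : N (n + 1) = univ) (d' : E) :
    {y | ∃ z z', μ z - μ z' = y ∧ d' + μ z ∈ Y μ N d n} ⊆
      Y μ N (Function.update d n d') (n + 1) := by
  rintro y ⟨z, z', hy, ζ, ⟨hζ1, hζ2⟩, hζ3⟩
  have hζ3' : μ (ζ n).1 - μ (ζ n).2 = d' + μ z := hζ3
  refine ⟨Function.update ζ (n + 1) (z, z'), ⟨?_, ?_⟩, ?_⟩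
  · intro k hk
    rcases Nat.le_succ_iff.1 hk with h | h
    · rw [Function.update_of_ne (by omega)]
      exact hζ1 k h
    · rw [h, hN]
      trivial
  · intro k hk
    rcases Nat.lt_succ_iff_lt_or_eq.1 hk with h | h
    · rw [Function.update_of_ne (by omega), Function.update_of_ne (by omega),
        Function.update_of_ne (by omega)]
      exact hζ2 k h
    · subst h
      rw [Function.update_of_ne (by omega), Function.update_self, Function.update_self]
      exact hζ3'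
  · show μ (Function.update ζ (n + 1) (z, z') (n + 1)).1 -
      μ (Function.update ζ (n + 1) (z, z') (n + 1)).2 = y
    rw [Function.update_self]
    exact hy

/-- restriction of the first coordinates -/
noncomputable def res [MetricSpace Z] [TopologicalSpace.SeparableSpace Z] [Nonempty Z]
    (N : ℕ → Set (Z × Z)) (n : ℕ) (ρ : ℝ) (j : Fin (n + 2) → ℕ) (k : ℕ) : Set (Z × Z) :=
  if h : k < n + 2 then N k ∩ Metric.closedBall (TopologicalSpace.denseSeq (Z × Z) (j ⟨k, h⟩)) ρ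
  else N k

lemma Y_cover [MetricSpace Z] [TopologicalSpace.SeparableSpace Z] [Nonempty Z]
    (N : ℕ → Set (Z × Z)) (d : ℕ → E) (n : ℕ) (ρ : ℝ) (hρ : 0 < ρ) :
    Y μ N d (n + 1) ⊆ ⋃ j : Fin (n + 2) → ℕ, Y μ (res N n ρ j) d (n + 1) := by
  rintro _ ⟨ζ, ⟨hζ1, hζ2⟩, rfl⟩
  have h1 : ∀ k : ℕ, ∃ j : ℕ, dist (ζ k) (TopologicalSpace.denseSeq (Z × Z) j) < ρ := fun k =>
    (TopologicalSpace.denseRange_denseSeq (Z × Z)).exists_dist_lt (ζ k) hρ
  choose j hj using h1
  refine mem_iUnion.2 ⟨fun k => j k, ζ, ⟨?_, hζ2⟩, rfl⟩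
  intro k hk
  unfold res
  rw [dif_pos (by omega)]
  exact ⟨hζ1 k hk, Metric.mem_closedBall.2 (hj k).le⟩

theorem step [NormedSpace ℝ E] [CompleteSpace E] [SecondCountableTopology E]
    [MetricSpace Z] [CompleteSpace Z] [TopologicalSpace.SeparableSpace Z] [Nonempty Z]
    (hμ : Continuous μ) (f : E →ₗ[ℝ] ℝ) (hf : ¬ Continuous f)
    (hopen : ∀ ε > 0, ∃ δ > 0, ∀ y : E, ‖y‖ < δ → ∃ z z', μ z - μ z' = y ∧ ‖μ z‖ < ε)
    (n : ℕ) (s : (ℕ → Set (Z × Z)) × (ℕ → E) × Set E) (hs : Inv μ n s) :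
    ∃ s' : (ℕ → Set (Z × Z)) × (ℕ → E) × Set E, Inv μ (n + 1) s' ∧ (∀ k, s'.1 k ⊆ s.1 k) ∧
      (∀ k ≤ n + 1, ∀ a ∈ s'.1 k, ∀ b ∈ s'.1 k, dist a b ≤ (1 / 2 : ℝ) ^ n) ∧
      (∀ k < n, s'.2.1 k = s.2.1 k) ∧ 1 ≤ f (s'.2.1 n) := by
  have hsc : SecondCountableTopology Z := UniformSpace.secondCountable_of_separable Z
  have hpol : PolishSpace Z := inferInstance
  obtain ⟨N, d, O⟩ := s
  obtain ⟨hs1, hs2, hs3, ⟨y0, hy0⟩, hs5⟩ := hs
  obtain ⟨r, hr, hball⟩ := Metric.isOpen_iff.1 hs3 y0 hy0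
  obtain ⟨δ, hδ, hop⟩ := hopen (r / 2) (by positivity)
  have hYa : AnalyticSet (Y μ N d n) := Y_analytic μ hμ N hs1 d n
  have hku := step_ku μ hμ (Y μ N d n) hYa y0 (r / 2) δ (by positivity) (by
    refine hs5.mono ?_
    rintro y ⟨hy1, hy2⟩
    refine ⟨hball ?_, hy2⟩
    rwa [show 2 * (r / 2) = r by ring] at hy1) hop
  obtain ⟨d', hd1, hd2, hd3⟩ := large f hf (Metric.ball y0 (r / 2)) Metric.isOpen_ball
    ⟨y0, Metric.mem_ball_self (by positivity)⟩ _ hku
  have hd4 : IsMeagre (Metric.ball (0 : E) δ \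
      {y | ∃ z z', μ z - μ z' = y ∧ d' + μ z ∈ Y μ N d n}) := by
    by_contra hcon
    exact hd2 fun h => hcon (h hd1)
  have hm : IsMeagre (Metric.ball (0 : E) δ \ Y μ N (Function.update d n d') (n + 1)) := by
    refine hd4.mono ?_
    rintro y ⟨hy1, hy2⟩
    exact ⟨hy1, fun h => hy2 (Y_succ μ N d n (hs2 _ (Nat.lt_succ_self n)) d' h)⟩
  obtain ⟨ρ, hρ⟩ : ∃ ρ : ℝ, ρ = (1 / 2 : ℝ) ^ n / 2 := ⟨_, rfl⟩
  have hρ0 : 0 < ρ := by rw [hρ]; positivity
  have hcov := Y_cover μ N (Function.update d n d') n ρ hρ0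
  have hj : ∃ j : Fin (n + 2) → ℕ,
      ¬ IsMeagre (Y μ (res N n ρ j) (Function.update d n d') (n + 1) ∩ Metric.ball (0 : E) δ) := by
    by_contra hcon
    push Not at hcon
    have h1 := (isMeagre_iUnion hcon).union hm
    refine not_isMeagre_of_isOpen (Metric.isOpen_ball (x := (0 : E)) (ε := δ))
      ⟨0, Metric.mem_ball_self hδ⟩ (h1.mono ?_)
    intro y hy
    by_cases hyY : y ∈ Y μ N (Function.update d n d') (n + 1)
    · left
      obtain ⟨j, hj⟩ := mem_iUnion.1 (hcov hyY)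
      exact mem_iUnion.2 ⟨j, hj, hy⟩
    · right
      exact ⟨hy, hyY⟩
  obtain ⟨j, hj⟩ := hj
  have hresc : ∀ k, IsClosed (res N n ρ j k) := by
    intro k
    unfold res
    split_ifs
    · exact (hs1 k).inter Metric.isClosed_closedBall
    · exact hs1 k
  have hYa' : AnalyticSet (Y μ (res N n ρ j) (Function.update d n d') (n + 1)) :=
    Y_analytic μ hμ _ hresc _ _
  obtain ⟨U', hU1, hU2, hU3, hU4⟩ := lemA _ _ Metric.isOpen_ball hj
  refine ⟨(res N n ρ j, Function.update d n d', U'), ⟨hresc, ?_, hU2, hU3, ?_⟩, ?_, ?_, ?_, ?_⟩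
  · intro k hk
    show res N n ρ j k = univ
    unfold res
    rw [dif_neg (by omega)]
    exact hs2 k (by omega)
  · refine (bp _ hYa').mono ?_
    rintro y ⟨hy1, hy2⟩
    refine ⟨?_, hy2⟩
    intro V hV hyV hm
    exact hU4 (V ∩ U') inter_subset_right (hV.inter hU2) ⟨y, hyV, hy1⟩
      (hm.mono (inter_subset_inter_right _ inter_subset_left))
  · intro k
    show res N n ρ j k ⊆ N k
    unfold res
    split_ifs
    · exact inter_subset_left
    · exact subset_rfl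
  · intro k hk a ha b hb
    have ha' : a ∈ res N n ρ j k := ha
    have hb' : b ∈ res N n ρ j k := hb
    unfold res at ha' hb'
    rw [dif_pos (by omega)] at ha' hb'
    have h1 := Metric.mem_closedBall.1 ha'.2
    have h2 := Metric.mem_closedBall.1 hb'.2
    calc dist a b ≤ _ := dist_triangle_right a b _
      _ ≤ ρ + ρ := add_le_add h1 h2
      _ = (1 / 2 : ℝ) ^ n := by rw [hρ]; ring
  · intro k hk
    show Function.update d n d' k = d k
    rw [Function.update_of_ne (by omega)]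
  · show 1 ≤ f (Function.update d n d' n)
    rw [Function.update_self]
    exact hd3

/-- A linear functional which is nonnegative on the continuous image `μ(Z)` of a Polish space is
continuous, provided differences of small elements of `μ(Z)` fill a neighbourhood of `0`. -/
theorem cone [NormedSpace ℝ E] [CompleteSpace E] [SecondCountableTopology E]
    [MetricSpace Z] [CompleteSpace Z] [TopologicalSpace.SeparableSpace Z] [Nonempty Z]
    (hμ : Continuous μ) (f : E →ₗ[ℝ] ℝ) (hpos : ∀ z, 0 ≤ f (μ z))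
    (hopen : ∀ ε > 0, ∃ δ > 0, ∀ y : E, ‖y‖ < δ → ∃ z z', μ z - μ z' = y ∧ ‖μ z‖ < ε) :
    Continuous f := by
  by_contra hf
  obtain ⟨δ, hδ, hop⟩ := hopen 1 one_pos
  have h0 : Inv μ 0 ((fun _ => univ, fun _ => 0, Metric.ball (0 : E) δ) :
      (ℕ → Set (Z × Z)) × (ℕ → E) × Set E) := by
    refine ⟨fun _ => isClosed_univ, fun _ _ => rfl, Metric.isOpen_ball,
      ⟨0, Metric.mem_ball_self hδ⟩, ?_⟩
    have : Metric.ball (0 : E) δ \ Y μ (fun _ => univ) (fun _ => 0) 0 = ∅ := by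
      rw [eq_empty_iff_forall_notMem]
      rintro y ⟨hy1, hy2⟩
      obtain ⟨z, z', h, -⟩ := hop y (by simpa using hy1)
      apply hy2
      refine ⟨fun _ => (z, z'), ⟨fun _ _ => trivial, fun k hk => ?_⟩, h⟩
      omega
    show IsMeagre (Metric.ball (0 : E) δ \ Y μ (fun _ => univ) (fun _ => 0) 0)
    rw [this]
    exact IsMeagre.empty
  have hstep : ∀ (n : ℕ) (s : {s : (ℕ → Set (Z × Z)) × (ℕ → E) × Set E // Inv μ n s}),
      ∃ s' : {s : (ℕ → Set (Z × Z)) × (ℕ → E) × Set E // Inv μ (n + 1) s},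
        (∀ k, s'.1.1 k ⊆ s.1.1 k) ∧
        (∀ k ≤ n + 1, ∀ a ∈ s'.1.1 k, ∀ b ∈ s'.1.1 k, dist a b ≤ (1 / 2 : ℝ) ^ n) ∧
        (∀ k < n, s'.1.2.1 k = s.1.2.1 k) ∧ 1 ≤ f (s'.1.2.1 n) := by
    intro n s
    obtain ⟨s', h1, h2⟩ := step μ hμ f hf hopen n s.1 s.2
    exact ⟨⟨s', h1⟩, h2⟩
  choose F hF1 hF2 hF3 hF4 using hstep
  let s : ∀ n : ℕ, {s : (ℕ → Set (Z × Z)) × (ℕ → E) × Set E // Inv μ n s} := fun n =>
    Nat.rec ⟨_, h0⟩ (fun k p => F k p) n
  have hs : ∀ n, s (n + 1) = F n (s n) := fun n => rfl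
  -- the final d
  obtain ⟨D, hD⟩ : ∃ D : ℕ → E, ∀ n, D n = (s (n + 1)).1.2.1 n := ⟨_, fun _ => rfl⟩
  have hDf : ∀ n, 1 ≤ f (D n) := by
    intro n
    rw [hD, hs]
    exact hF4 n (s n)
  have hDs : ∀ k m, (s (k + 1 + m)).1.2.1 k = D k := by
    intro k m
    induction m with
    | zero => rw [hD]
    | succ m ih =>
      rw [← ih]
      have h1 : s (k + 1 + (m + 1)) = F (k + 1 + m) (s (k + 1 + m)) := hs (k + 1 + m)
      rw [h1]
      exact hF3 _ _ k (by omega)
  have hanti : ∀ k, Antitone fun n => (s n).1.1 k := fun k =>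
    antitone_nat_of_succ_le fun n => by
      show (s (n + 1)).1.1 k ⊆ (s n).1.1 k
      rw [hs]
      exact hF1 n (s n) k
  -- points
  have hne : ∀ n, ∃ ζ : ℕ → Z × Z, ζ ∈ X μ (s n).1.1 (s n).1.2.1 n := by
    intro n
    obtain ⟨h1, h2, h3, h4, h5⟩ := (s n).2
    by_contra hcon
    push Not at hcon
    have h6 : Y μ (s n).1.1 (s n).1.2.1 n = ∅ := by
      rw [eq_empty_iff_forall_notMem]
      rintro _ ⟨ζ, hζ, rfl⟩
      exact hcon ζ hζ
    rw [h6, diff_empty] at h5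
    exact not_isMeagre_of_isOpen h3 h4 h5
  choose ζ hζ using hne
  have hpow : Tendsto (fun n : ℕ => (1 / 2 : ℝ) ^ n) atTop (𝓝 0) :=
    tendsto_pow_atTop_nhds_zero_of_lt_one (by norm_num) (by norm_num)
  have hlim : ∀ k, ∃ l, Tendsto (fun n => ζ (k + n + 1) k) atTop (𝓝 l) := by
    intro k
    apply cauchySeq_tendsto_of_complete
    refine cauchySeq_of_le_tendsto_0' (fun n => (1 / 2 : ℝ) ^ (k + n)) ?_ ?_
    · intro n m hnm
      have h1 : ζ (k + n + 1) k ∈ (s (k + n + 1)).1.1 k := (hζ (k + n + 1)).1 k (by omega)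
      have h2 : ζ (k + m + 1) k ∈ (s (k + n + 1)).1.1 k :=
        hanti k (by omega : k + n + 1 ≤ k + m + 1) ((hζ (k + m + 1)).1 k (by omega))
      have h3 := hF2 (k + n) (s (k + n)) k (by omega)
      exact h3 _ h1 _ h2
    · have h1 : Tendsto (fun n : ℕ => k + n) atTop atTop := tendsto_add_atTop_nat k |>.congr
        fun n => add_comm n k
      exact hpow.comp h1
  choose L hL using hlim
  have hchain : ∀ k, μ (L k).1 - μ (L k).2 = D k + μ (L (k + 1)).1 := by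
    intro k
    have h1 : Tendsto (fun n => ζ (k + (n + 1) + 1) k) atTop (𝓝 (L k)) :=
      (hL k).comp (tendsto_add_atTop_nat 1)
    have h2 : Tendsto (fun n => ζ (k + (n + 1) + 1) (k + 1)) atTop (𝓝 (L (k + 1))) := by
      refine (hL (k + 1)).congr fun n => ?_
      rw [show k + 1 + n + 1 = k + (n + 1) + 1 by ring]
    have h3 : ∀ n, μ (ζ (k + (n + 1) + 1) k).1 - μ (ζ (k + (n + 1) + 1) k).2 =
        D k + μ (ζ (k + (n + 1) + 1) (k + 1)).1 := by
      intro n
      have h4 := (hζ (k + (n + 1) + 1)).2 k (by omega)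
      rw [h4]
      congr 1
      have h5 := hDs k (n + 1)
      rw [show k + 1 + (n + 1) = k + (n + 1) + 1 by ring] at h5
      exact h5
    have c1 : Continuous fun p : Z × Z => μ p.1 - μ p.2 :=
      (hμ.comp continuous_fst).sub (hμ.comp continuous_snd)
    have c2 : Continuous fun p : Z × Z => D k + μ p.1 :=
      continuous_const.add (hμ.comp continuous_fst)
    have h6 := (c1.tendsto (L k)).comp h1
    have h7 := (c2.tendsto (L (k + 1))).comp h2
    refine tendsto_nhds_unique h6 (h7.congr fun n => ?_)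
    exact (h3 n).symm
  have hval : ∀ k, 1 + f (μ (L (k + 1)).1) ≤ f (μ (L k).1) := by
    intro k
    have h1 := congrArg f (hchain k)
    rw [map_sub, map_add] at h1
    have h2 := hpos (L k).2
    have h3 := hDf k
    linarith
  have hall : ∀ n : ℕ, (n : ℝ) + f (μ (L n).1) ≤ f (μ (L 0).1) := by
    intro n
    induction n with
    | zero => simp
    | succ n ih =>
      have := hval n
      push_cast
      linarith
  obtain ⟨n, hn⟩ := exists_nat_gt (f (μ (L 0).1))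
  have h1 := hall n
  have h2 := hpos (L n).1
  linarith

end

end Pool.Agent.Helper59.AC
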