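import Mathlib

/-! Ford square root lemma (proved by helper301 for job 1069). -/

namespace Pool.Agent.Helper59.Ford

namespace FordAux

open Filter Topology WithLp

section Unital

variable {L : Type*} [NormedRing L] [NormedAlgebra ℂ L] [CompleteSpace L]

theorem sr_mul_le {a b : L} (hab : Commute a b) :
    spectralRadius ℂ (a * b) ≤ spectralRadius ℂ a * (‖b‖₊ : ENNReal) := by
  have h1 := spectrum.pow_nnnorm_pow_one_div_tendsto_nhds_spectralRadius (a * b)
  have h2 := spectrum.pow_nnnorm_pow_one_div_tendsto_nhds_spectralRadius a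
  have h3 : Tendsto (fun n : ℕ => ((‖a ^ n‖₊ : ENNReal) ^ (1 / n : ℝ)) * (‖b‖₊ : ENNReal)) atTop
      (𝓝 (spectralRadius ℂ a * (‖b‖₊ : ENNReal))) :=
    ENNReal.Tendsto.mul_const h2 (Or.inr ENNReal.coe_ne_top)
  refine le_of_tendsto_of_tendsto h1 h3 ?_
  filter_upwards [eventually_gt_atTop 0] with n hn
  have hn' : (0 : ℝ) < n := by exact_mod_cast hn
  have h4 : (‖(a * b) ^ n‖₊ : ENNReal) ≤ (‖a ^ n‖₊ : ENNReal) * (‖b‖₊ : ENNReal) ^ n := by
    rw [hab.mul_pow]
    have h5 : ‖a ^ n * b ^ n‖₊ ≤ ‖a ^ n‖₊ * ‖b‖₊ ^ n :=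
      (nnnorm_mul_le _ _).trans (mul_le_mul_of_nonneg_left (nnnorm_pow_le' b hn) (zero_le))
    exact_mod_cast h5
  calc (‖(a * b) ^ n‖₊ : ENNReal) ^ (1 / n : ℝ)
      ≤ ((‖a ^ n‖₊ : ENNReal) * (‖b‖₊ : ENNReal) ^ n) ^ (1 / n : ℝ) :=
        ENNReal.rpow_le_rpow h4 (by positivity)
    _ = (‖a ^ n‖₊ : ENNReal) ^ (1 / n : ℝ) * ((‖b‖₊ : ENNReal) ^ n) ^ (1 / n : ℝ) :=
        ENNReal.mul_rpow_of_nonneg _ _ (by positivity)
    _ = _ := by
        congr 1
        rw [← ENNReal.rpow_natCast, ← ENNReal.rpow_mul]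
        field_simp
        simp

theorem pow_tendsto_zero_of_sr {q : L} (hq : spectralRadius ℂ q = 0) :
    ∃ N : ℕ, ∀ n ≥ N, ‖q ^ n‖ ≤ (1 / 2) ^ n := by
  have h1 := spectrum.pow_nnnorm_pow_one_div_tendsto_nhds_spectralRadius q
  rw [hq] at h1
  have h2 := h1.eventually (gt_mem_nhds (show (0 : ENNReal) < 1 / 2 by simp))
  obtain ⟨N, hN⟩ := eventually_atTop.1 h2
  refine ⟨max N 1, fun n hn => ?_⟩
  have hn1 : 1 ≤ n := le_trans (le_max_right _ _) hn
  have hn' : (0 : ℝ) < n := by exact_mod_cast hn1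
  have h3 := (hN n (le_trans (le_max_left _ _) hn)).le
  have h4 := ENNReal.rpow_le_rpow h3 hn'.le
  rw [← ENNReal.rpow_mul, one_div_mul_cancel hn'.ne', ENNReal.rpow_one, ENNReal.rpow_natCast] at h4
  have h5 : ((‖q ^ n‖₊ : NNReal) : ENNReal) ≤ (((1 / 2 : NNReal) ^ n : NNReal) : ENNReal) := by
    refine h4.trans (le_of_eq ?_)
    push_cast
    congr 1
  have h6 : ‖q ^ n‖₊ ≤ (1 / 2 : NNReal) ^ n := by exact_mod_cast h5
  have h7 : (‖q ^ n‖₊ : ℝ) ≤ ((1 / 2 : NNReal) ^ n : NNReal) := by exact_mod_cast h6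
  simpa using h7

/-- the algebraic core, in a unital Banach algebra -/
theorem core {V W : L} (h1 : ‖(1 : L)‖ ≤ 1) (hV : ‖V‖ ≤ 1 / 2) (hc : V * W = W * V)
    (he : 2 * V - V * V = 2 * W - W * W)
    (hr : spectralRadius ℂ ((V - W) * W) ≤ spectralRadius ℂ ((V - W) * V)) : V = W := by
  set Z := V - W with hZ
  have cVW : Commute V W := hc
  have cZV : Commute Z V := (Commute.refl V).sub_left cVW.symm
  -- inverse of 2 - V
  have hu1 : IsUnit (1 - V) := isUnit_one_sub_of_norm_lt_one (by linarith)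
  have hu2' : IsUnit (1 - ((1 / 2 : ℂ) • V)) := isUnit_one_sub_of_norm_lt_one (by
    rw [norm_smul]
    norm_num
    linarith)
  obtain ⟨u1, hu1⟩ := hu1
  obtain ⟨u2, hu2⟩ := hu2'
  have e2 : (2 : L) = (2 : ℂ) • (1 : L) := by
    rw [two_smul]; norm_num
  have e3 : (2 : L) - V = (2 : ℂ) • (u2 : L) := by
    rw [hu2, smul_sub, smul_smul, e2]
    norm_num
  -- C = inverse of 2 - V
  set C : L := (1 / 2 : ℂ) • ((u2⁻¹ : Lˣ) : L) with hC
  have hC1 : (2 - V) * C = 1 := by
    rw [e3, hC, smul_mul_smul_comm, Units.mul_inv]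
    norm_num
  have hC2 : C * (2 - V) = 1 := by
    rw [e3, hC, smul_mul_smul_comm, Units.inv_mul]
    norm_num
  have hCn : ‖C‖ ≤ 2 / 3 := by
    have h2 : (2 : ℂ) • C = 1 + C * V := by
      have : C * 2 - C * V = 1 := by rw [← mul_sub]; exact hC2
      rw [e2, mul_smul_comm, mul_one] at this
      rw [← this]; abel
    have h3 : ‖(2 : ℂ) • C‖ ≤ 1 + ‖C‖ * (1 / 2) := by
      rw [h2]
      refine (norm_add_le _ _).trans (add_le_add h1 ?_)
      exact (norm_mul_le _ _).trans (mul_le_mul_of_nonneg_left hV (norm_nonneg _))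
    rw [norm_smul] at h3
    norm_num at h3
    linarith
  have hZW : Z * W = Z * (2 - V) := by
    have h2 : Z * W - Z * (2 - V) = (2 * W - W * W) - (2 * V - V * V) + (V * W - W * V) := by
      rw [hZ]
      noncomm_ring
    have h3 : Z * W - Z * (2 - V) = 0 := by
      rw [h2, he, hc]; abel
    exact sub_eq_zero.1 h3
  have cZ2 : Commute Z (2 - V) := by
    apply Commute.sub_right _ cZV
    rw [e2]
    exact (Commute.one_right Z).smul_right _
  have cZC : Commute Z C := by
    -- C = inverse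
    have h2 : C * Z = Z * C := by
      calc C * Z = C * (Z * ((2 - V) * C)) := by rw [hC1, mul_one]
        _ = C * ((Z * (2 - V)) * C) := by rw [mul_assoc]
        _ = C * (((2 - V) * Z) * C) := by rw [cZ2.eq]
        _ = (C * (2 - V)) * (Z * C) := by simp only [mul_assoc]
        _ = Z * C := by rw [hC2, one_mul]
    exact h2.symm
  have cZW : Commute Z W := (cVW).sub_left (Commute.refl W)
  have hZeq : Z = (Z * W) * C := by
    rw [hZW, mul_assoc, hC1, mul_one]
  have cZWC : Commute (Z * W) C := by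
    rw [hZW]
    apply Commute.mul_left cZC
    exact hC1.trans hC2.symm
  have hsr : spectralRadius ℂ Z = 0 := by
    have h2 : spectralRadius ℂ Z ≤ spectralRadius ℂ (Z * W) * (‖C‖₊ : ENNReal) := by
      conv_lhs => rw [hZeq]
      exact sr_mul_le cZWC
    have h3 : spectralRadius ℂ (Z * V) ≤ spectralRadius ℂ Z * (‖V‖₊ : ENNReal) := sr_mul_le cZV
    have hCn' : (‖C‖₊ : ENNReal) ≤ 2 / 3 := by
      have : ‖C‖₊ ≤ (2 / 3 : NNReal) := by
        rw [← NNReal.coe_le_coe]; simpa using hCn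
      calc (‖C‖₊ : ENNReal) ≤ ((2 / 3 : NNReal) : ENNReal) := by exact_mod_cast this
        _ = 2 / 3 := by rw [ENNReal.coe_div (by norm_num)]; norm_num
    have hVn' : (‖V‖₊ : ENNReal) ≤ 1 := by
      have : ‖V‖₊ ≤ (1 : NNReal) := by
        rw [← NNReal.coe_le_coe]; simp; linarith
      exact_mod_cast this
    have hfin : spectralRadius ℂ Z ≠ ⊤ := by
      have h5 : spectralRadius ℂ (1 * Z) ≤ spectralRadius ℂ (1 : L) * (‖Z‖₊ : ENNReal) :=
        sr_mul_le (Commute.one_left Z)
      rw [one_mul] at h5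
      have h6 : spectralRadius ℂ (1 : L) ≠ ⊤ := by
        have := spectrum.spectralRadius_le_pow_nnnorm_pow_one_div ℂ (1 : L) 0
        refine ne_top_of_le_ne_top ?_ this
        simp
        exact ENNReal.mul_ne_top ENNReal.coe_ne_top ENNReal.coe_ne_top
      exact ne_top_of_le_ne_top (ENNReal.mul_ne_top h6 ENNReal.coe_ne_top) h5
    have h4 : spectralRadius ℂ Z ≤ spectralRadius ℂ Z * (2 / 3) := by
      calc spectralRadius ℂ Z ≤ spectralRadius ℂ (Z * W) * (‖C‖₊ : ENNReal) := h2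
        _ ≤ spectralRadius ℂ (Z * V) * (2 / 3) := mul_le_mul' hr hCn'
        _ ≤ (spectralRadius ℂ Z * 1) * (2 / 3) := by
            gcongr
            exact h3.trans (mul_le_mul' le_rfl hVn')
        _ = _ := by rw [mul_one]
    by_contra hne
    have h7 := ENNReal.mul_lt_mul_right hne hfin (show (2 / 3 : ENNReal) < 1 by
      rw [ENNReal.div_lt_iff (by simp) (by simp)]; norm_num)
    rw [mul_one] at h7
    exact absurd h4 (not_le.2 h7)
  -- Z = Z q
  set D : L := ((u1⁻¹ : Lˣ) : L) with hD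
  have hD1 : (1 - V) * D = 1 := by rw [← hu1, hD, Units.mul_inv]
  have hD2 : D * (1 - V) = 1 := by rw [← hu1, hD, Units.inv_mul]
  have cZ1 : Commute Z (1 - V) := (Commute.one_right Z).sub_right cZV
  have cZD : Commute Z D := by
    have h2 : D * Z = Z * D := by
      calc D * Z = D * (Z * ((1 - V) * D)) := by rw [hD1, mul_one]
        _ = D * ((Z * (1 - V)) * D) := by rw [mul_assoc]
        _ = D * (((1 - V) * Z) * D) := by rw [cZ1.eq]
        _ = (D * (1 - V)) * (Z * D) := by simp only [mul_assoc]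
        _ = Z * D := by rw [hD2, one_mul]
    exact h2.symm
  set q : L := (-(1 / 2) : ℂ) • (Z * D) with hq
  have hZq : Z = Z * q := by
    have h2 : (2 : ℂ) • (Z * (1 - V)) = -(Z * Z) := by
      have h3 : Z * W = Z * (2 - V) := hZW
      have h4 : W = V - Z := by rw [hZ]; abel
      rw [h4] at h3
      have h5 : Z * V - Z * Z = Z * 2 - Z * V := by rw [← mul_sub, h3, mul_sub]
      rw [e2, mul_smul_comm, mul_one] at h5
      rw [mul_sub, mul_one, smul_sub, two_smul ℂ (Z * V)]
      have h6 : (2 : ℂ) • Z = Z * V - Z * Z + Z * V := by rw [h5]; abel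
      rw [h6]; abel
    have h3 : Z * (1 - V) = (-(1 / 2) : ℂ) • (Z * Z) := by
      have := congrArg (fun t => (1 / 2 : ℂ) • t) h2
      simp only [smul_smul] at this
      norm_num at this
      rw [this]
      rw [neg_smul, ← smul_neg, smul_neg]
      try norm_num
    calc Z = Z * ((1 - V) * D) := by rw [hD1, mul_one]
      _ = (Z * (1 - V)) * D := by rw [mul_assoc]
      _ = ((-(1 / 2) : ℂ) • (Z * Z)) * D := by rw [h3]
      _ = Z * q := by rw [hq, smul_mul_assoc, mul_smul_comm, mul_assoc]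
  have hsq : spectralRadius ℂ q = 0 := by
    have h2 : q = Z * ((-(1 / 2) : ℂ) • D) := by rw [hq, mul_smul_comm]
    rw [h2]
    have h3 := sr_mul_le (cZD.smul_right (-(1 / 2) : ℂ))
    rw [hsr, zero_mul] at h3
    exact le_antisymm h3 (zero_le)
  obtain ⟨N, hN⟩ := pow_tendsto_zero_of_sr hsq
  have hZn : ∀ n : ℕ, Z = Z * q ^ n := by
    intro n
    induction n with
    | zero => simp
    | succ n ih =>
      calc Z = Z * q := hZq
        _ = (Z * q ^ n) * q := by rw [← ih]
        _ = Z * q ^ (n + 1) := by rw [mul_assoc, ← pow_succ]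
  have hZ0 : ‖Z‖ = 0 := by
    by_contra hne
    have hpos : 0 < ‖Z‖ := lt_of_le_of_ne (norm_nonneg _) (Ne.symm hne)
    have h2 : ‖Z‖ ≤ ‖Z‖ * (1 / 2) ^ (N + 1) := by
      calc ‖Z‖ = ‖Z * q ^ (N + 1)‖ := by rw [← hZn]
        _ ≤ ‖Z‖ * ‖q ^ (N + 1)‖ := norm_mul_le _ _
        _ ≤ _ := mul_le_mul_of_nonneg_left (hN _ (by omega)) (norm_nonneg _)
    have h3 : ((1 : ℝ) / 2) ^ (N + 1) < 1 := pow_lt_one₀ (by norm_num) (by norm_num) (by omega)
    nlinarith
  have : Z = 0 := norm_eq_zero.1 hZ0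
  rw [hZ] at this
  exact sub_eq_zero.1 this

end Unital

section NonUnital

variable {A : Type*} [NonUnitalNormedRing A] [NormedSpace ℂ A] [IsScalarTower ℂ A A]
    [SMulCommClass ℂ A A] [CompleteSpace A]

/-- spectral radius in a nonunital algebra -/
noncomputable def rad (a : A) : ENNReal := ⨆ k ∈ spectrum ℂ (a : Unitization ℂ A), (‖k‖₊ : ENNReal)

theorem rad_eq (a : A) : rad a =
    spectralRadius ℂ (toLp 1 (a : Unitization ℂ A) : WithLp 1 (Unitization ℂ A)) := by
  have h : spectrum ℂ (toLp 1 (a : Unitization ℂ A) : WithLp 1 (Unitization ℂ A)) =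
      spectrum ℂ (a : Unitization ℂ A) := by
    have := AlgEquiv.spectrum_eq (WithLp.unitizationAlgEquiv ℂ (𝕜 := ℂ) (A := A))
      (toLp 1 (a : Unitization ℂ A) : WithLp 1 (Unitization ℂ A))
    rw [← this]
    rfl
  unfold rad spectralRadius
  rw [h]

theorem rad_star [StarRing A] [StarModule ℂ A] (a : A) : rad (star a) = rad a := by
  unfold rad
  rw [Unitization.inr_star, spectrum.map_star]
  apply le_antisymm
  · refine iSup₂_le fun k hk => ?_
    have h2 : (‖star k‖₊ : ENNReal) ≤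
        ⨆ k ∈ spectrum ℂ (a : Unitization ℂ A), (‖k‖₊ : ENNReal) :=
      le_iSup₂ (f := fun k (_ : k ∈ spectrum ℂ (a : Unitization ℂ A)) => (‖k‖₊ : ENNReal))
        (star k) (Set.mem_star.1 hk)
    rwa [nnnorm_star] at h2
  · refine iSup₂_le fun k hk => ?_
    have h2 : (‖star k‖₊ : ENNReal) ≤
        ⨆ k ∈ star (spectrum ℂ (a : Unitization ℂ A)), (‖k‖₊ : ENNReal) :=
      le_iSup₂ (f := fun k (_ : k ∈ star (spectrum ℂ (a : Unitization ℂ A))) => (‖k‖₊ : ENNReal))
        (star k) (Set.star_mem_star.2 hk)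
    rwa [nnnorm_star] at h2

theorem rad_neg (a : A) : rad (-a) = rad a := by
  rw [rad_eq, rad_eq]
  have h : (toLp 1 ((-a : A) : Unitization ℂ A) : WithLp 1 (Unitization ℂ A)) =
      (toLp 1 (a : Unitization ℂ A) : WithLp 1 (Unitization ℂ A)) * (-1) := by
    rw [mul_neg, mul_one, Unitization.inr_neg]; rfl
  have h' : (toLp 1 (a : Unitization ℂ A) : WithLp 1 (Unitization ℂ A)) =
      (toLp 1 ((-a : A) : Unitization ℂ A) : WithLp 1 (Unitization ℂ A)) * (-1) := by
    rw [h]; simp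
  have hn : (‖(-1 : WithLp 1 (Unitization ℂ A))‖₊ : ENNReal) = 1 := by
    rw [nnnorm_neg]
    have : ‖(1 : WithLp 1 (Unitization ℂ A))‖₊ = 1 := by
      apply NNReal.eq
      rw [coe_nnnorm, unitization_norm_def]
      show ‖(1 : ℂ)‖ + ‖(0 : A)‖ = 1
      simp
    rw [this]; simp
  apply le_antisymm
  · conv_lhs => rw [h]
    refine (sr_mul_le (Commute.neg_one_right _)).trans ?_
    rw [hn, mul_one]
  · conv_lhs => rw [h']
    refine (sr_mul_le (Commute.neg_one_right _)).trans ?_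
    rw [hn, mul_one]

theorem fixed (h : A) (hn : ‖h‖ ≤ 1 / 2) : ∃ v : A, ‖v‖ ≤ 1 / 2 ∧ (2 : ℂ) • v - v * v = h ∧
    ∀ w : A, h * w = w * h → v * w = w * v := by
  let f : A → A := fun v => (1 / 2 : ℂ) • (h + v * v)
  let s : Set A := {v | ‖v‖ ≤ 1 / 2} ∩ ⋂ w ∈ {w : A | h * w = w * h}, {v | v * w = w * v}
  have hsc : IsClosed s := by
    apply IsClosed.inter
    · exact isClosed_le continuous_norm continuous_const
    · apply isClosed_biInter
      intro w _
      exact isClosed_eq (continuous_id.mul continuous_const) (continuous_const.mul continuous_id)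
  have hmem : ∀ v, v ∈ s ↔ ‖v‖ ≤ 1 / 2 ∧ ∀ w, h * w = w * h → v * w = w * v := by
    intro v
    simp only [s, Set.mem_inter_iff, Set.mem_iInter, Set.mem_ofPred_eq]
  have hmaps : Set.MapsTo f s s := by
    intro v hv
    rw [hmem] at hv ⊢
    obtain ⟨h1, h2⟩ := hv
    constructor
    · simp only [f]
      rw [norm_smul]
      have h3 : ‖h + v * v‖ ≤ 1 / 2 + 1 / 2 * (1 / 2) := by
        refine (norm_add_le _ _).trans (add_le_add hn ?_)
        exact (norm_mul_le _ _).trans (mul_le_mul h1 h1 (norm_nonneg _) (by norm_num))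
      have h4 : ‖(1 / 2 : ℂ)‖ = 1 / 2 := by norm_num
      rw [h4]
      linarith
    · intro w hw
      simp only [f]
      rw [smul_mul_assoc, mul_smul_comm, add_mul, mul_add, hw, mul_assoc, h2 w hw, ← mul_assoc,
        h2 w hw, mul_assoc]
  have hcontr : ContractingWith (1 / 2 : NNReal) (hmaps.restrict f s s) := by
    refine ⟨by norm_num, ?_⟩
    apply LipschitzWith.of_dist_le_mul
    rintro ⟨v, hv⟩ ⟨w, hw⟩
    rw [hmem] at hv hw
    show dist (f v) (f w) ≤ _ * dist v w
    simp only [f]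
    rw [dist_eq_norm, dist_eq_norm, ← smul_sub, norm_smul]
    have h1 : h + v * v - (h + w * w) = v * (v - w) + (v - w) * w := by noncomm_ring
    have h2 : ‖v * (v - w) + (v - w) * w‖ ≤ ‖v - w‖ := by
      calc ‖v * (v - w) + (v - w) * w‖ ≤ ‖v‖ * ‖v - w‖ + ‖v - w‖ * ‖w‖ :=
            (norm_add_le _ _).trans (add_le_add (norm_mul_le _ _) (norm_mul_le _ _))
        _ ≤ 1 / 2 * ‖v - w‖ + ‖v - w‖ * (1 / 2) := by
            gcongr
            · exact hv.1
            · exact hw.1
        _ = ‖v - w‖ := by ring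
    rw [h1]
    have h4 : ‖(1 / 2 : ℂ)‖ = 1 / 2 := by norm_num
    rw [h4]
    have h5 : ((1 / 2 : NNReal) : ℝ) = 1 / 2 := by norm_num
    rw [h5]
    linarith
  have h0 : (0 : A) ∈ s := by
    rw [hmem]
    simp
  obtain ⟨v, hv, hfix, _⟩ := ContractingWith.exists_fixedPoint' hsc.isComplete hmaps hcontr h0
    (edist_ne_top _ _)
  rw [hmem] at hv
  refine ⟨v, hv.1, ?_, hv.2⟩
  have h1 : (1 / 2 : ℂ) • (h + v * v) = v := hfix
  have h2 : (2 : ℂ) • v = h + v * v := by
    conv_lhs => rw [← h1]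
    rw [smul_smul]; norm_num
  rw [h2]; abel

end NonUnital

end FordAux

open FordAux WithLp in
/-- Ford's square root lemma (involution NOT assumed continuous, algebra not assumed unital). -/
theorem ford_sqrt {A : Type*} [NonUnitalNormedRing A] [NormedSpace ℂ A] [IsScalarTower ℂ A A]
    [SMulCommClass ℂ A A] [CompleteSpace A] [StarRing A] [StarModule ℂ A]
    (h : A) (hh : star h = h) (hn : ‖h‖ ≤ 1 / 2) :
    ∃ v : A, star v = v ∧ (2 : ℂ) • v - v * v = h := by
  obtain ⟨v, hv1, hv2, hv3⟩ := fixed h hn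
  refine ⟨v, ?_, hv2⟩
  set w := star v with hw
  have hw2 : (2 : ℂ) • w - w * w = h := by
    have h1 := congrArg star hv2
    rw [star_sub, star_smul, star_mul, hh, ← hw] at h1
    have h2 : star (2 : ℂ) = 2 := by
      rw [Complex.star_def]; exact Complex.conj_ofNat 2
    rwa [h2] at h1
  have hcw : h * w = w * h := by
    rw [← hw2, sub_mul, mul_sub, smul_mul_assoc, mul_smul_comm, mul_assoc]
  have hvw := hv3 w hcw
  -- spectral radii
  have hr : rad ((v - w) * w) ≤ rad ((v - w) * v) := by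
    have h1 : star ((v - w) * v) = -((v - w) * w) := by
      rw [star_mul, star_sub, ← hw]
      have h2 : star w = v := by rw [hw, star_star]
      rw [h2, mul_sub, sub_mul, hvw]
      abel
    rw [← rad_neg ((v - w) * w), ← h1, rad_star]
  have key : (toLp 1 (v : Unitization ℂ A) : WithLp 1 (Unitization ℂ A)) =
      toLp 1 (w : Unitization ℂ A) := by
    apply core
    · rw [unitization_norm_def]
      show ‖(1 : ℂ)‖ + ‖(0 : A)‖ ≤ 1
      simp
    · rw [unitization_norm_inr]
      exact hv1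
    · have := congrArg (fun t : A => (toLp 1 (t : Unitization ℂ A) : WithLp 1 (Unitization ℂ A))) hvw
      simp only [Unitization.inr_mul] at this
      exact this
    · have := congrArg (fun t : A => (toLp 1 (t : Unitization ℂ A) : WithLp 1 (Unitization ℂ A)))
        (hv2.trans hw2.symm)
      simp only [two_smul, Unitization.inr_sub, Unitization.inr_add, Unitization.inr_mul] at this
      rw [two_mul, two_mul]
      exact this
    · rw [rad_eq, rad_eq] at hr
      simp only [Unitization.inr_sub, Unitization.inr_mul] at hr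
      exact hr
  have h1 : (v : Unitization ℂ A) = (w : Unitization ℂ A) := congrArg ofLp key
  exact (Unitization.inr_injective h1).symm


end Pool.Agent.Helper59.Ford
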