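import Mathlib

/-! Boundedness of *-representations (proved by helper259 for job 1087). -/

namespace Pool.Agent.Helper59.StarRep

open Filter Topology

section
variable {A : Type*} [NonUnitalNormedRing A] [NormedSpace ℂ A] [IsScalarTower ℂ A A]
    [SMulCommClass ℂ A A] [CompleteSpace A] [StarRing A] [StarModule ℂ A]
    {H : Type*} [NormedAddCommGroup H] [InnerProductSpace ℂ H] [CompleteSpace H]

theorem starRep_sr_le (π : A →⋆ₙₐ[ℂ] (H →L[ℂ] H)) (x : A) :
    spectralRadius ℂ (π x) ≤ (‖x‖₊ : ENNReal) := by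
  let e : WithLp 1 (Unitization ℂ A) ≃ₐ[ℂ] Unitization ℂ A := WithLp.unitizationAlgEquiv ℂ
  let φ0 : Unitization ℂ A →ₐ[ℂ] (H →L[ℂ] H) :=
    Unitization.lift (NonUnitalStarAlgHom.toNonUnitalAlgHom π)
  let φ : WithLp 1 (Unitization ℂ A) →ₐ[ℂ] (H →L[ℂ] H) := φ0.comp e.toAlgHom
  let X : WithLp 1 (Unitization ℂ A) := WithLp.toLp 1 (x : Unitization ℂ A)
  have hX : φ X = π x := by
    change φ0 (x : Unitization ℂ A) = π x
    simp [φ0]
  have h1 : spectrum ℂ (π x) ⊆ spectrum ℂ X := by
    rw [← hX]; exact AlgHom.spectrum_apply_subset φ X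
  have h2 : spectralRadius ℂ (π x) ≤ spectralRadius ℂ X := by
    unfold spectralRadius
    exact biSup_mono h1
  have hone : NormOneClass (WithLp 1 (Unitization ℂ A)) := ⟨by
    rw [WithLp.unitization_norm_def]
    change ‖(1 : Unitization ℂ A).fst‖ + ‖(1 : Unitization ℂ A).snd‖ = 1
    simp⟩
  have h3 : spectralRadius ℂ X ≤ (‖X‖₊ : ENNReal) := spectrum.spectralRadius_le_nnnorm X
  rw [WithLp.unitization_nnnorm_inr] at h3
  exact h2.trans h3

theorem starRep_norm_le (π : A →⋆ₙₐ[ℂ] (H →L[ℂ] H)) (x : A) (hx : IsSelfAdjoint (π x)) :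
    ‖π x‖ ≤ ‖x‖ := by
  have h := starRep_sr_le π x
  rw [hx.spectralRadius_eq_nnnorm] at h
  exact_mod_cast h

/-- norms of the two halves from the norm of the sum of squares -/
theorem norm_le_of_sum (S T : H →L[ℂ] H) :
    ‖S‖ ^ 2 ≤ ‖star S * S + star T * T‖ := by
  have h : ‖S‖ ≤ √‖star S * S + star T * T‖ := by
    apply ContinuousLinearMap.opNorm_le_bound _ (Real.sqrt_nonneg _)
    intro v
    have h1 : ‖S v‖ ^ 2 ≤ ‖star S * S + star T * T‖ * ‖v‖ ^ 2 := by
      have h2 : (inner ℂ ((star S * S + star T * T) v) v : ℂ) =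
          ((‖S v‖ ^ 2 + ‖T v‖ ^ 2 : ℝ) : ℂ) := by
        rw [ContinuousLinearMap.add_apply, inner_add_left]
        simp only [ContinuousLinearMap.star_eq_adjoint, ContinuousLinearMap.mul_apply,
          ContinuousLinearMap.adjoint_inner_left]
        rw [inner_self_eq_norm_sq_to_K, inner_self_eq_norm_sq_to_K]
        push_cast
        rfl
      have h3 : ‖(inner ℂ ((star S * S + star T * T) v) v : ℂ)‖ ≤
          ‖(star S * S + star T * T) v‖ * ‖v‖ := norm_inner_le_norm _ _
      rw [h2, Complex.norm_real, Real.norm_of_nonneg (by positivity)] at h3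
      have h4 := ContinuousLinearMap.le_opNorm (star S * S + star T * T) v
      nlinarith [norm_nonneg v, norm_nonneg (T v), sq_nonneg ‖T v‖]
    calc ‖S v‖ = √(‖S v‖ ^ 2) := (Real.sqrt_sq (norm_nonneg _)).symm
      _ ≤ √(‖star S * S + star T * T‖ * ‖v‖ ^ 2) := Real.sqrt_le_sqrt h1
      _ = √‖star S * S + star T * T‖ * ‖v‖ := by
        rw [Real.sqrt_mul (norm_nonneg _), Real.sqrt_sq (norm_nonneg v)]
  calc ‖S‖ ^ 2 ≤ (√‖star S * S + star T * T‖) ^ 2 := by gcongr
    _ = _ := Real.sq_sqrt (norm_nonneg _)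

theorem starRep_seq (π : A →⋆ₙₐ[ℂ] (H →L[ℂ] H)) (x y : ℕ → A) (b : A)
    (hx : Tendsto x atTop (𝓝 0)) (hy : Tendsto y atTop (𝓝 b))
    (hxy : ∀ n, π (y n) = star (π (x n))) : π b = 0 := by
  -- the sum and the difference
  have hH : ∀ n, star (π (x n + y n)) = π (x n + y n) := by
    intro n
    rw [map_add, hxy, star_add, star_star, add_comm]
  have hK : ∀ n, star (π (x n - y n)) = - π (x n - y n) := by
    intro n
    rw [map_sub, hxy, star_sub, star_star, neg_sub]
  have hsum : ∀ n, π ((x n + y n) * (x n + y n) - (x n - y n) * (x n - y n)) =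
      star (π (x n + y n)) * π (x n + y n) + star (π (x n - y n)) * π (x n - y n) := by
    intro n
    rw [hH, hK, map_sub, map_mul, map_mul, neg_mul, sub_eq_add_neg]
  have hlim : Tendsto (fun n => ‖(x n + y n) * (x n + y n) - (x n - y n) * (x n - y n)‖) atTop
      (𝓝 0) := by
    have h1 : Tendsto (fun n => (x n + y n) * (x n + y n) - (x n - y n) * (x n - y n)) atTop
        (𝓝 ((0 + b) * (0 + b) - (0 - b) * (0 - b))) :=
      ((hx.add hy).mul (hx.add hy)).sub ((hx.sub hy).mul (hx.sub hy))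
    have h2 : (0 + b) * (0 + b) - (0 - b) * (0 - b) = 0 := by
      rw [zero_add, zero_sub, neg_mul_neg, sub_self]
    rw [h2] at h1
    simpa using h1.norm
  have hsa : ∀ n, IsSelfAdjoint (π ((x n + y n) * (x n + y n) - (x n - y n) * (x n - y n))) := by
    intro n
    rw [hsum]
    exact (IsSelfAdjoint.star_mul_self _).add (IsSelfAdjoint.star_mul_self _)
  have hb1 : ∀ n, ‖π (x n + y n)‖ ^ 2 ≤
      ‖(x n + y n) * (x n + y n) - (x n - y n) * (x n - y n)‖ := by
    intro n
    refine (norm_le_of_sum (π (x n + y n)) (π (x n - y n))).trans ?_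
    rw [← hsum]
    exact starRep_norm_le π _ (hsa n)
  have hb2 : ∀ n, ‖π (x n - y n)‖ ^ 2 ≤
      ‖(x n + y n) * (x n + y n) - (x n - y n) * (x n - y n)‖ := by
    intro n
    refine (norm_le_of_sum (π (x n - y n)) (π (x n + y n))).trans ?_
    rw [add_comm, ← hsum]
    exact starRep_norm_le π _ (hsa n)
  have sq0 : ∀ u : ℕ → ℝ, (∀ n, 0 ≤ u n) → (∀ n, u n ^ 2 ≤
      ‖(x n + y n) * (x n + y n) - (x n - y n) * (x n - y n)‖) → Tendsto u atTop (𝓝 0) := by
    intro u hu hu2
    have h1 : Tendsto (fun n => u n ^ 2) atTop (𝓝 0) :=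
      squeeze_zero (fun n => sq_nonneg _) hu2 hlim
    have h2 := h1.sqrt
    rw [Real.sqrt_zero] at h2
    refine h2.congr (fun n => Real.sqrt_sq (hu n))
  have hl1 : Tendsto (fun n => π (x n + y n)) atTop (𝓝 0) :=
    tendsto_zero_iff_norm_tendsto_zero.2 (sq0 _ (fun n => norm_nonneg _) hb1)
  have hl2 : Tendsto (fun n => π (x n - y n)) atTop (𝓝 0) :=
    tendsto_zero_iff_norm_tendsto_zero.2 (sq0 _ (fun n => norm_nonneg _) hb2)
  have hpx : Tendsto (fun n => π (x n)) atTop (𝓝 0) := by
    have h1 := (hl1.add hl2).const_smul (1 / 2 : ℂ)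
    rw [add_zero, smul_zero] at h1
    refine h1.congr (fun n => ?_)
    rw [← map_add, add_add_sub_cancel, ← two_smul ℂ (x n), map_smul, smul_smul]
    norm_num
  have hpy : Tendsto (fun n => π (y n)) atTop (𝓝 0) := by
    have h1 := (hl1.sub hl2).const_smul (1 / 2 : ℂ)
    rw [sub_zero, smul_zero] at h1
    refine h1.congr (fun n => ?_)
    rw [← map_sub, add_sub_sub_cancel, ← two_smul ℂ (y n), map_smul, smul_smul]
    norm_num
  -- the element q = star b * b
  have hq : π (star b * b) = 0 := by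
    have hsa2 : ∀ n, IsSelfAdjoint (π (star b * y n + x n * b - star b * b)) := by
      intro n
      rw [isSelfAdjoint_iff, map_sub, map_add, map_mul, map_mul, map_mul, hxy, map_star, star_sub,
        star_add, star_mul, star_mul, star_mul, star_star, star_star]
      rw [add_comm]
    have hle : ∀ n, ‖π (star b * b)‖ ≤ ‖star b * y n + x n * b - star b * b‖ +
        ‖π (star b)‖ * ‖π (y n)‖ + ‖π (x n)‖ * ‖π b‖ := by
      intro n
      have h1 : π (star b * b) = π (star b) * π (y n) + π (x n) * π b -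
          π (star b * y n + x n * b - star b * b) := by
        rw [map_sub, map_add, map_mul π (star b) (y n), map_mul π (x n) b]
        abel
      have h2 := starRep_norm_le π _ (hsa2 n)
      calc ‖π (star b * b)‖ = ‖π (star b) * π (y n) + π (x n) * π b -
          π (star b * y n + x n * b - star b * b)‖ := by rw [← h1]
        _ ≤ ‖π (star b) * π (y n) + π (x n) * π b‖ +
          ‖π (star b * y n + x n * b - star b * b)‖ := norm_sub_le _ _
        _ ≤ (‖π (star b) * π (y n)‖ + ‖π (x n) * π b‖) +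
          ‖π (star b * y n + x n * b - star b * b)‖ := by gcongr; exact norm_add_le _ _
        _ ≤ (‖π (star b)‖ * ‖π (y n)‖ + ‖π (x n)‖ * ‖π b‖) +
          ‖star b * y n + x n * b - star b * b‖ := by
            gcongr
            · exact norm_mul_le _ _
            · exact norm_mul_le _ _
        _ = _ := by ring
    have hlim2 : Tendsto (fun n => ‖star b * y n + x n * b - star b * b‖ +
        ‖π (star b)‖ * ‖π (y n)‖ + ‖π (x n)‖ * ‖π b‖) atTop (𝓝 0) := by
      have h1 : Tendsto (fun n => star b * y n + x n * b - star b * b) atTop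
          (𝓝 (star b * b + 0 * b - star b * b)) :=
        ((tendsto_const_nhds.mul hy).add (hx.mul tendsto_const_nhds)).sub tendsto_const_nhds
      rw [zero_mul, add_zero, sub_self] at h1
      have h2 := h1.norm
      have h3 := (hpy.norm).const_mul ‖π (star b)‖
      have h4 := (hpx.norm).mul_const ‖π b‖
      have h5 := (h2.add h3).add h4
      simpa using h5
    have : ‖π (star b * b)‖ ≤ 0 := ge_of_tendsto' hlim2 hle
    exact norm_le_zero_iff.1 this
  rw [map_mul, map_star] at hq
  exact CStarRing.star_mul_self_eq_zero_iff _ |>.1 hq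

end

/-- Every *-representation of a Banach *-algebra (involution NOT assumed continuous) on a Hilbert
space is continuous. -/
theorem starRep_bounded {A : Type*} [NonUnitalNormedRing A] [NormedSpace ℂ A] [IsScalarTower ℂ A A]
    [SMulCommClass ℂ A A] [CompleteSpace A] [StarRing A] [StarModule ℂ A]
    {H : Type*} [NormedAddCommGroup H] [InnerProductSpace ℂ H] [CompleteSpace H]
    (π : A →⋆ₙₐ[ℂ] (H →L[ℂ] H)) :
    ∃ C : ℝ, ∀ x : A, ‖π x‖ ≤ C * ‖x‖ := by
  let G : Submodule ℝ (A × A) :=
    { carrier := {p | π p.2 = star (π p.1)}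
      add_mem' := by
        intro p q hp hq
        simp only [Set.mem_ofPred_eq] at hp hq ⊢
        rw [Prod.snd_add, Prod.fst_add, map_add, map_add, hp, hq, star_add]
      zero_mem' := by
        simp
      smul_mem' := by
        intro c p hp
        simp only [Set.mem_ofPred_eq] at hp ⊢
        rw [Prod.smul_snd, Prod.smul_fst, ← Complex.coe_smul, ← Complex.coe_smul, map_smul,
          map_smul, hp, star_smul]
        simp }
  have hGc : IsClosed (G : Set (A × A)) := by
    apply IsSeqClosed.isClosed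
    intro p q hp hpq
    change π q.2 = star (π q.1)
    have h1 : Tendsto (fun n => (p n).1) atTop (𝓝 q.1) := (continuous_fst.tendsto q).comp hpq
    have h2 : Tendsto (fun n => (p n).2) atTop (𝓝 q.2) := (continuous_snd.tendsto q).comp hpq
    have h3 := starRep_seq π (fun n => (p n).1 - q.1) (fun n => (p n).2 - star q.1)
      (q.2 - star q.1) (by simpa using h1.sub_const q.1) (h2.sub_const _) (by
        intro n
        have : π (p n).2 = star (π (p n).1) := hp n
        rw [map_sub, map_sub, this, map_star, star_sub])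
    rw [map_sub, map_star, sub_eq_zero] at h3
    exact h3
  have hGcomp : CompleteSpace G := hGc.completeSpace_coe
  let f : G →L[ℝ] A := (ContinuousLinearMap.fst ℝ A A).comp G.subtypeL
  have hf : Function.Surjective f := by
    intro x
    refine ⟨⟨(x, star x), ?_⟩, rfl⟩
    change π (star x) = star (π x)
    exact map_star π x
  obtain ⟨C, hC, hCx⟩ := f.exists_preimage_norm_le hf
  refine ⟨√C, fun x => ?_⟩
  obtain ⟨⟨⟨x', y⟩, hg⟩, hx', hn⟩ := hCx x
  have hxx : x' = x := hx'
  subst hxx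
  have hg' : π y = star (π x') := hg
  have hy : ‖y‖ ≤ C * ‖x'‖ := (le_max_right ‖x'‖ ‖y‖).trans hn
  have hsa : IsSelfAdjoint (π (y * x')) := by
    rw [map_mul, hg']
    exact IsSelfAdjoint.star_mul_self _
  have h1 := starRep_norm_le π _ hsa
  have h2 : ‖π x'‖ ^ 2 ≤ C * ‖x'‖ ^ 2 := by
    calc ‖π x'‖ ^ 2 = ‖star (π x') * π x'‖ := by rw [CStarRing.norm_star_mul_self, pow_two]
      _ = ‖π (y * x')‖ := by rw [map_mul, hg']
      _ ≤ ‖y * x'‖ := h1
      _ ≤ ‖y‖ * ‖x'‖ := norm_mul_le _ _
      _ ≤ (C * ‖x'‖) * ‖x'‖ := by gcongr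
      _ = _ := by ring
  calc ‖π x'‖ = √(‖π x'‖ ^ 2) := (Real.sqrt_sq (norm_nonneg _)).symm
    _ ≤ √(C * ‖x'‖ ^ 2) := Real.sqrt_le_sqrt h2
    _ = √C * ‖x'‖ := by rw [Real.sqrt_mul hC.le, Real.sqrt_sq (norm_nonneg _)]


end Pool.Agent.Helper59.StarRep
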