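import Mathlib
import Pool.Agent.Helper59.Ford
import Pool.Agent.Helper59.StarRep

open scoped ComplexOrder InnerProductSpace ComplexConjugate
open Complex UniformSpace Completion

namespace Pool.Agent.Helper59.BA7

variable (A : Type*) [NonUnitalNormedRing A] [NormedSpace ℂ A] [IsScalarTower ℂ A A]
  [SMulCommClass ℂ A A] [CompleteSpace A] [StarRing A] [StarModule ℂ A]

/-- positive functionals -/
structure PF where
  f : A →ₗ[ℂ] ℂ
  pos : ∀ a, 0 ≤ (f (star a * a)).re ∧ (f (star a * a)).im = 0

set_option linter.unusedSectionVars false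
set_option linter.unusedSimpArgs false

namespace PF

variable {A} (φ : PF A)

lemma herm (a b : A) : φ.f (star a * b) = conj (φ.f (star b * a)) := by
  have h1 := (φ.pos (a + b)).2
  have h2 := (φ.pos (a + I • b)).2
  have ha := (φ.pos a).2
  have hb := (φ.pos b).2
  simp only [star_add, add_mul, mul_add, map_add, add_im, star_smul, smul_mul_assoc,
    mul_smul_comm, map_smul, smul_eq_mul, star_def, conj_I, neg_mul, I_mul_re,
    I_mul_im, neg_im, mul_im, mul_re, neg_re] at h1 h2
  apply Complex.ext
  · rw [conj_re]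
    have : (I * (I * φ.f (star b * b))).im = - (φ.f (star b * b)).im := by simp
    simp only [I_re, I_im, zero_mul, one_mul, zero_add, zero_sub, sub_zero] at *
    linarith
  · rw [conj_im]
    linarith

/-- boundedness -/
lemma bound (h a : A) (hh : star h = h) :
    (φ.f (star a * h * a)).re ≤ 2 * ‖h‖ * (φ.f (star a * a)).re := by
  by_cases h0 : h = 0
  · subst h0; simp
  have hn : 0 < ‖h‖ := norm_pos_iff.2 h0
  let c : ℝ := 1 / (2 * ‖h‖)
  have hc : 0 < c := by positivity
  obtain ⟨v, hv1, hv2⟩ := Ford.ford_sqrt ((c : ℂ) • h)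
    (by rw [star_smul, hh, star_def, conj_ofReal]) (by
      rw [norm_smul, norm_real, Real.norm_of_nonneg hc.le]
      simp only [c]; field_simp; exact le_rfl)
  have h1 := (φ.pos (a - v * a)).1
  have h2 : star (a - v * a) * (a - v * a) = star a * a - (c : ℂ) • (star a * h * a) := by
    have h3 : (c : ℂ) • (star a * h * a) = star a * ((2 : ℂ) • v - v * v) * a := by
      rw [hv2]; rw [mul_smul_comm, smul_mul_assoc]
    rw [h3, star_sub, star_mul, hv1, two_smul]
    simp only [mul_sub, sub_mul, mul_add, add_mul, mul_assoc]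
    abel
  rw [h2, map_sub, map_smul, sub_re, smul_eq_mul, re_ofReal_mul] at h1
  have h4 : c * (φ.f (star a * h * a)).re ≤ (φ.f (star a * a)).re := by linarith
  calc (φ.f (star a * h * a)).re = 2 * ‖h‖ * (c * (φ.f (star a * h * a)).re) := by
        simp only [c]; field_simp
    _ ≤ _ := by gcongr

set_option linter.unusedVariables false in
/-- the pre-GNS space -/
def Pre (φ : PF A) := A

instance : AddCommGroup φ.Pre := inferInstanceAs (AddCommGroup A)
instance : Module ℂ φ.Pre := inferInstanceAs (Module ℂ A)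

/-- to pre -/
def toPre : A ≃ₗ[ℂ] φ.Pre := LinearEquiv.refl ℂ _
/-- of pre -/
def ofPre : φ.Pre ≃ₗ[ℂ] A := φ.toPre.symm

@[simp] lemma toPre_ofPre (a : φ.Pre) : φ.toPre (φ.ofPre a) = a := rfl
@[simp] lemma ofPre_toPre (a : A) : φ.ofPre (φ.toPre a) = a := rfl

noncomputable abbrev core : PreInnerProductSpace.Core ℂ φ.Pre where
  inner a b := φ.f (star (φ.ofPre a) * φ.ofPre b)
  conj_inner_symm a b := (φ.herm _ _).symm
  re_inner_nonneg a := (φ.pos _).1
  add_left _ _ _ := by rw [map_add, star_add, add_mul, map_add]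
  smul_left := by simp [smul_mul_assoc]

noncomputable instance : SeminormedAddCommGroup φ.Pre :=
  InnerProductSpace.Core.toSeminormedAddCommGroup (c := φ.core)
noncomputable instance : InnerProductSpace ℂ φ.Pre :=
  InnerProductSpace.ofCore φ.core

lemma inner_def (a b : φ.Pre) : ⟪a, b⟫_ℂ = φ.f (star (φ.ofPre a) * φ.ofPre b) := rfl

lemma norm_def (a : φ.Pre) : ‖a‖ = √(φ.f (star (φ.ofPre a) * φ.ofPre a)).re := rfl

lemma norm_sq (a : φ.Pre) : ‖a‖ ^ 2 = (φ.f (star (φ.ofPre a) * φ.ofPre a)).re := by
  rw [norm_def, Real.sq_sqrt (φ.pos _).1]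

/-- left multiplication -/
noncomputable def lm (a : A) : φ.Pre →L[ℂ] φ.Pre :=
  φ.toPre.toLinearMap ∘ₗ LinearMap.mul ℂ A a ∘ₗ φ.ofPre.toLinearMap |>.mkContinuous
    (√(2 * ‖star a * a‖)) fun x ↦ by
    rw [← sq_le_sq₀ (by positivity) (by positivity), mul_pow, Real.sq_sqrt (by positivity),
      norm_sq, norm_sq]
    have h := φ.bound (star a * a) (φ.ofPre x) (by rw [star_mul, star_star])
    have h2 : star (a * φ.ofPre x) * (a * φ.ofPre x) =
        star (φ.ofPre x) * (star a * a) * φ.ofPre x := by
      rw [star_mul]; simp only [mul_assoc]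
    rw [← h2] at h
    exact h

@[simp] lemma lm_apply (a : A) (x : φ.Pre) : φ.lm a x = φ.toPre (a * φ.ofPre x) := rfl

/-- the Hilbert space -/
abbrev GNS := UniformSpace.Completion φ.Pre

/-- the representation -/
noncomputable def rep : A →⋆ₙₐ[ℂ] (φ.GNS →L[ℂ] φ.GNS) where
  toFun a := (φ.lm a).completion
  map_smul' m x := by
    ext a
    induction a using induction_on with
    | hp =>
      exact isClosed_eq (φ.lm (m • x)).completion.continuous
        (m • (φ.lm x).completion).continuous
    | ih a => simp [smul_mul_assoc]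
  map_zero' := by
    ext a
    induction a using induction_on with
    | hp =>
      exact isClosed_eq (φ.lm 0).completion.continuous (by fun_prop)
    | ih a =>
      simp
      exact Completion.coe_zero
  map_add' _ _ := by
    ext c
    induction c using induction_on with
      | hp => apply isClosed_eq <;> fun_prop
      | ih c => simp [add_mul, Completion.coe_add]
  map_mul' _ _ := by
    ext c
    induction c using induction_on with
      | hp => apply isClosed_eq <;> fun_prop
      | ih c => simp [mul_assoc]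
  map_star' a := by
    refine (ContinuousLinearMap.eq_adjoint_iff (φ.lm (star a)).completion
      (φ.lm a).completion).mpr ?_
    intro x y
    induction x, y using induction_on₂ with
    | hp => apply isClosed_eq <;> fun_prop
    | ih x y => simp [mul_assoc, inner_def]

lemma rep_coe (a : A) (b : φ.Pre) : φ.rep a (b : φ.GNS) = ((φ.lm a b : φ.Pre) : φ.GNS) := by
  simp [rep]

/-- the canonical map -/
noncomputable def io : A →ₗ[ℂ] φ.GNS where
  toFun a := ((φ.toPre a : φ.Pre) : φ.GNS)
  map_add' a b := by rw [map_add, Completion.coe_add]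
  map_smul' c a := by rw [map_smul, Completion.coe_smul]; rfl

lemma rep_io (x a : A) : φ.rep x (φ.io a) = φ.io (x * a) := by
  change φ.rep x ((φ.toPre a : φ.Pre) : φ.GNS) = _
  rw [rep_coe]; rfl

lemma inner_io (a b : A) : ⟪φ.io a, φ.io b⟫_ℂ = φ.f (star a * b) := by
  change ⟪((φ.toPre a : φ.Pre) : φ.GNS), ((φ.toPre b : φ.Pre) : φ.GNS)⟫_ℂ = _
  rw [Completion.inner_coe, inner_def]; rfl

end PF

end Pool.Agent.Helper59.BA7
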