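import Mathlib
import Pool.Agent.Helper59.BA7

open scoped ComplexOrder InnerProductSpace ComplexConjugate
open Complex Filter Topology

namespace Pool.Agent.Helper59.BA8
open Pool.Agent.Helper59.BA7

set_option linter.unusedSectionVars false
set_option linter.unusedSimpArgs false

section Hilbert

variable {H : Type*} [NormedAddCommGroup H] [InnerProductSpace ℂ H] [CompleteSpace H]
  {k : ℕ} (S : Fin k → (H →L[ℂ] H))

/-- the operator -/
noncomputable def hh : H →L[ℂ] H := ∑ i, star (S i) * S i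

/-- bound -/
noncomputable def MM : ℝ := 1 + ∑ i, ‖S i‖ ^ 2

lemma MM_pos : 0 < MM S := by
  have : 0 ≤ ∑ i, ‖S i‖ ^ 2 := Finset.sum_nonneg fun _ _ => by positivity
  unfold MM; linarith

noncomputable def Q : H →L[ℂ] H := 1 - (((MM S)⁻¹ : ℝ) : ℂ) • hh S

omit [CompleteSpace H] in
lemma norm_star' [CompleteSpace H] (T : H →L[ℂ] H) : ‖star T‖ = ‖T‖ := norm_star T

lemma hh_apply (ζ : H) : hh S ζ = ∑ i, (star (S i)) (S i ζ) := by
  simp [hh, ContinuousLinearMap.sum_apply]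

lemma inner_hh (ζ : H) : (⟪ζ, hh S ζ⟫_ℂ).re = ∑ i, ‖S i ζ‖ ^ 2 := by
  rw [hh_apply, inner_sum, re_sum]
  refine Finset.sum_congr rfl fun i _ => ?_
  rw [ContinuousLinearMap.star_eq_adjoint, ContinuousLinearMap.adjoint_inner_right,
    inner_self_eq_norm_sq_to_K]
  norm_cast

lemma norm_hh (ζ : H) : ‖hh S ζ‖ ^ 2 ≤ MM S * ∑ i, ‖S i ζ‖ ^ 2 := by
  have h1 : ‖hh S ζ‖ ≤ ∑ i, ‖S i‖ * ‖S i ζ‖ := by
    rw [hh_apply]
    refine (norm_sum_le _ _).trans (Finset.sum_le_sum fun i _ => ?_)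
    refine (ContinuousLinearMap.le_opNorm _ _).trans ?_
    rw [norm_star]
  have h2 : (∑ i, ‖S i‖ * ‖S i ζ‖) ^ 2 ≤ (∑ i, ‖S i‖ ^ 2) * ∑ i, ‖S i ζ‖ ^ 2 :=
    Finset.sum_mul_sq_le_sq_mul_sq _ _ _
  have h3 : 0 ≤ ∑ i, ‖S i ζ‖ ^ 2 := Finset.sum_nonneg fun _ _ => by positivity
  calc ‖hh S ζ‖ ^ 2 ≤ (∑ i, ‖S i‖ * ‖S i ζ‖) ^ 2 := by gcongr
    _ ≤ _ := h2
    _ ≤ _ := by gcongr; unfold MM; linarith

lemma key (ζ : H) : ‖Q S ζ‖ ^ 2 ≤ ‖ζ‖ ^ 2 - (MM S)⁻¹ * ∑ i, ‖S i ζ‖ ^ 2 := by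
  have h1 : Q S ζ = ζ - (((MM S)⁻¹ : ℝ) : ℂ) • hh S ζ := by simp [Q]
  have hM := MM_pos S
  rw [h1, @norm_sub_sq ℂ, inner_smul_right, norm_smul, norm_real, Real.norm_of_nonneg
    (inv_nonneg.2 hM.le)]
  have h2 : RCLike.re ((((MM S)⁻¹ : ℝ) : ℂ) * ⟪ζ, hh S ζ⟫_ℂ) = (MM S)⁻¹ * ∑ i, ‖S i ζ‖ ^ 2 := by
    rw [← inner_hh]
    exact re_ofReal_mul _ _
  rw [h2, mul_pow]
  have h3 := norm_hh S ζ
  have h4 : (MM S)⁻¹ ^ 2 * ‖hh S ζ‖ ^ 2 ≤ (MM S)⁻¹ ^ 2 * (MM S * ∑ i, ‖S i ζ‖ ^ 2) := by gcongr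
  have h5 : (MM S)⁻¹ ^ 2 * (MM S * ∑ i, ‖S i ζ‖ ^ 2) = (MM S)⁻¹ * ∑ i, ‖S i ζ‖ ^ 2 := by
    field_simp
  linarith

lemma Q_le (ζ : H) : ‖Q S ζ‖ ≤ ‖ζ‖ := by
  have h := key S ζ
  have h1 : 0 ≤ (MM S)⁻¹ * ∑ i, ‖S i ζ‖ ^ 2 :=
    mul_nonneg (inv_nonneg.2 (MM_pos S).le) (Finset.sum_nonneg fun _ _ => by positivity)
  exact (sq_le_sq₀ (norm_nonneg _) (norm_nonneg _)).1 (by linarith)

lemma Qpow_le (n : ℕ) (ζ : H) : ‖(Q S ^ n) ζ‖ ≤ ‖ζ‖ := by
  induction n with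
  | zero => simp
  | succ n ih =>
    rw [pow_succ']
    exact (Q_le S _).trans ih

lemma Q_star : star (Q S) = Q S := by
  have h1 : star (hh S) = hh S := by
    unfold hh
    rw [star_sum]
    exact Finset.sum_congr rfl fun i _ => by rw [star_mul, star_star]
  rw [Q, star_sub, star_one, star_smul, h1, star_def, conj_ofReal]

lemma tend1 (i : Fin k) (η : H) : Tendsto (fun n => ‖S i ((Q S ^ n) η)‖) atTop (𝓝 0) := by
  have hanti : Antitone fun n => ‖(Q S ^ n) η‖ ^ 2 := by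
    apply antitone_nat_of_succ_le
    intro n
    have := Q_le S ((Q S ^ n) η)
    have h5 : (Q S ^ (n + 1)) η = Q S ((Q S ^ n) η) := by rw [pow_succ']; rfl
    rw [h5]
    gcongr
  have hbdd : BddBelow (Set.range fun n => ‖(Q S ^ n) η‖ ^ 2) := ⟨0, by rintro _ ⟨n, rfl⟩; positivity⟩
  have hl := tendsto_atTop_ciInf hanti hbdd
  have hd : Tendsto (fun n => ‖(Q S ^ n) η‖ ^ 2 - ‖(Q S ^ (n + 1)) η‖ ^ 2) atTop (𝓝 0) := by
    have := hl.sub (hl.comp (tendsto_add_atTop_nat 1))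
    simpa using this
  have h2 : Tendsto (fun n => ‖S i ((Q S ^ n) η)‖ ^ 2) atTop (𝓝 0) := by
    have h3 := hd.const_mul (MM S)
    rw [mul_zero] at h3
    refine squeeze_zero (fun n => by positivity) (fun n => ?_) h3
    have h4 := key S ((Q S ^ n) η)
    have h5 : (Q S ^ (n + 1)) η = Q S ((Q S ^ n) η) := by rw [pow_succ']; rfl
    rw [h5]
    have h6 : ‖S i ((Q S ^ n) η)‖ ^ 2 ≤ ∑ j, ‖S j ((Q S ^ n) η)‖ ^ 2 :=
      Finset.single_le_sum (f := fun j => ‖S j ((Q S ^ n) η)‖ ^ 2) (fun _ _ => by positivity)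
        (Finset.mem_univ i)
    have hM := MM_pos S
    have h7 : (MM S)⁻¹ * ∑ j, ‖S j ((Q S ^ n) η)‖ ^ 2 ≤
        ‖(Q S ^ n) η‖ ^ 2 - ‖Q S ((Q S ^ n) η)‖ ^ 2 := by linarith
    rw [inv_mul_le_iff₀ hM] at h7
    exact h6.trans h7
  have h3 := h2.sqrt
  rw [Real.sqrt_zero] at h3
  refine h3.congr fun n => Real.sqrt_sq (norm_nonneg _)

lemma tend2 (i : Fin k) (ξ : H) :
    Tendsto (fun n => ‖(Q S ^ n) ((star (S i)) ξ)‖) atTop (𝓝 0) := by
  have hQs : ∀ n, star (Q S ^ n) = Q S ^ n := fun n => by rw [star_pow, Q_star]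
  have h1 : ∀ n, ‖(Q S ^ n) ((star (S i)) ξ)‖ ^ 2 ≤
      ‖S i ((Q S ^ (n + n)) ((star (S i)) ξ))‖ * ‖ξ‖ := by
    intro n
    have h2 : ‖(Q S ^ n) ((star (S i)) ξ)‖ ^ 2 =
        (⟪S i ((Q S ^ (n + n)) ((star (S i)) ξ)), ξ⟫_ℂ).re := by
      have h3 : ⟪S i ((Q S ^ (n + n)) ((star (S i)) ξ)), ξ⟫_ℂ =
          ⟪(Q S ^ n) ((star (S i)) ξ), (Q S ^ n) ((star (S i)) ξ)⟫_ℂ := by
        rw [← ContinuousLinearMap.adjoint_inner_right (S i), pow_add,
          ← ContinuousLinearMap.star_eq_adjoint]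
        change ⟪(Q S ^ n) ((Q S ^ n) ((star (S i)) ξ)), (star (S i)) ξ⟫_ℂ = _
        rw [← ContinuousLinearMap.adjoint_inner_right (Q S ^ n),
          ← ContinuousLinearMap.star_eq_adjoint, hQs]
      rw [h3, inner_self_eq_norm_sq_to_K]
      norm_cast
    rw [h2]
    exact (re_le_norm _).trans (norm_inner_le_norm _ _)
  have h2 : Tendsto (fun n => ‖S i ((Q S ^ (n + n)) ((star (S i)) ξ))‖ * ‖ξ‖) atTop (𝓝 0) := by
    have h3 := (tend1 S i ((star (S i)) ξ)).comp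
      (tendsto_atTop_mono (fun n => Nat.le_add_left n n) tendsto_id :
        Tendsto (fun n : ℕ => n + n) atTop atTop)
    have h4 := h3.mul_const ‖ξ‖
    rw [zero_mul] at h4
    exact h4
  have h3 : Tendsto (fun n => ‖(Q S ^ n) ((star (S i)) ξ)‖ ^ 2) atTop (𝓝 0) :=
    squeeze_zero (fun n => by positivity) h1 h2
  have h4 := h3.sqrt
  rw [Real.sqrt_zero] at h4
  refine h4.congr fun n => Real.sqrt_sq (norm_nonneg _)

end Hilbert

variable {A : Type*} [NonUnitalNormedRing A] [NormedSpace ℂ A] [IsScalarTower ℂ A A]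
  [SMulCommClass ℂ A A] [CompleteSpace A] [StarRing A] [StarModule ℂ A]

variable (A) in
/-- span of products -/
def sq : Submodule ℂ A := Submodule.span ℂ {z : A | ∃ a b, z = a * b}
variable (A) in
/-- span of triple products -/
def cube : Submodule ℂ A := Submodule.span ℂ {z : A | ∃ a b c, z = a * b * c}

omit [CompleteSpace A] [StarRing A] [StarModule ℂ A] [IsScalarTower ℂ A A] [SMulCommClass ℂ A A] in
lemma mul_mem_sq (a b : A) : a * b ∈ sq A := Submodule.subset_span ⟨a, b, rfl⟩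

omit [CompleteSpace A] [StarRing A] [StarModule ℂ A] [IsScalarTower ℂ A A] [SMulCommClass ℂ A A] in
lemma cube_le_sq : cube A ≤ sq A := by
  rw [cube, Submodule.span_le]
  rintro _ ⟨a, b, c, rfl⟩
  exact mul_mem_sq _ _

/-- the approximate units -/
noncomputable def yy (h : A) (M : ℝ) : ℕ → A
  | 0 => 0
  | n + 1 => yy h M n + ((M⁻¹ : ℝ) : ℂ) • (h - h * yy h M n)

section
variable (φ : PF A) (ht : ∀ a b, φ.f (a * b) = φ.f (b * a))

lemma norm_io_sq (a : A) : ‖φ.io a‖ ^ 2 = (φ.f (star a * a)).re := by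
  have h := φ.inner_io a a
  rw [inner_self_eq_norm_sq_to_K] at h
  rw [← h]; norm_cast

include ht in
lemma norm_io_star (a : A) : ‖φ.io (star a)‖ = ‖φ.io a‖ := by
  have h : ‖φ.io (star a)‖ ^ 2 = ‖φ.io a‖ ^ 2 := by
    rw [norm_io_sq, norm_io_sq, star_star, ht]
  exact (sq_eq_sq₀ (norm_nonneg _) (norm_nonneg _)).1 h

include ht in
lemma norm_io_mul (a y : A) : ‖φ.io (a * y)‖ ≤ ‖φ.rep y‖ * ‖φ.io a‖ := by
  rw [← norm_io_star φ ht, star_mul, ← φ.rep_io, ← norm_io_star φ ht a, map_star φ.rep]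
  refine (ContinuousLinearMap.le_opNorm _ _).trans ?_
  rw [norm_star' (φ.rep y)]

lemma f_eq_inner (b a : A) : φ.f (b * a) = ⟪φ.io (star b), φ.io a⟫_ℂ := by
  rw [φ.inner_io, star_star]

lemma norm_f_le (b a : A) : ‖φ.f (b * a)‖ ≤ ‖φ.io (star b)‖ * ‖φ.io a‖ := by
  rw [f_eq_inner]; exact norm_inner_le_norm _ _

include ht in
lemma bound_right (x : A) (hx : x ∈ sq A) : ∃ c : ℝ, ∀ y, ‖φ.f (x * y)‖ ≤ c * ‖φ.rep y‖ := by
  induction hx using Submodule.span_induction with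
  | mem x hx =>
    obtain ⟨a, b, rfl⟩ := hx
    refine ⟨‖φ.io (star a)‖ * ‖φ.io b‖, fun y => ?_⟩
    rw [mul_assoc]
    refine (norm_f_le φ _ _).trans ?_
    have := norm_io_mul φ ht b y
    calc ‖φ.io (star a)‖ * ‖φ.io (b * y)‖ ≤ ‖φ.io (star a)‖ * (‖φ.rep y‖ * ‖φ.io b‖) := by gcongr
      _ = _ := by ring
  | zero => exact ⟨0, fun y => by simp⟩
  | add a b _ _ ha hb =>
    obtain ⟨c, hc⟩ := ha
    obtain ⟨d, hd⟩ := hb
    refine ⟨c + d, fun y => ?_⟩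
    rw [add_mul, map_add, add_mul]
    exact (norm_add_le _ _).trans (add_le_add (hc y) (hd y))
  | smul r a _ ha =>
    obtain ⟨c, hc⟩ := ha
    refine ⟨‖r‖ * c, fun y => ?_⟩
    rw [smul_mul_assoc, map_smul, norm_smul, mul_assoc]
    gcongr
    exact hc y

include ht in
lemma bound_left (y : A) (hy : y ∈ sq A) : ∃ c : ℝ, ∀ x, ‖φ.f (x * y)‖ ≤ c * ‖x‖ := by
  obtain ⟨C, hC⟩ := StarRep.starRep_bounded φ.rep
  induction hy using Submodule.span_induction with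
  | mem x hx =>
    obtain ⟨a, b, rfl⟩ := hx
    refine ⟨‖φ.io (star b)‖ * (C * ‖φ.io a‖), fun x => ?_⟩
    rw [← mul_assoc, ht, ]
    refine (norm_f_le φ _ _).trans ?_
    rw [← φ.rep_io]
    calc ‖φ.io (star b)‖ * ‖φ.rep x (φ.io a)‖ ≤ ‖φ.io (star b)‖ * ((C * ‖x‖) * ‖φ.io a‖) := by
          gcongr
          exact (ContinuousLinearMap.le_opNorm _ _).trans (by gcongr; exact hC x)
      _ = _ := by ring
  | zero => exact ⟨0, fun y => by simp⟩
  | add a b _ _ ha hb =>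
    obtain ⟨c, hc⟩ := ha
    obtain ⟨d, hd⟩ := hb
    refine ⟨c + d, fun y => ?_⟩
    rw [mul_add, map_add, add_mul]
    exact (norm_add_le _ _).trans (add_le_add (hc y) (hd y))
  | smul r a _ ha =>
    obtain ⟨c, hc⟩ := ha
    refine ⟨‖r‖ * c, fun y => ?_⟩
    rw [mul_smul_comm, map_smul, norm_smul, mul_assoc]
    gcongr
    exact hc y

include ht in
lemma approx (x : A) (hx : x ∈ cube A) (ε : ℝ) (hε : 0 < ε) :
    ∃ y ∈ sq A, ‖φ.rep y‖ ≤ 2 ∧ ‖φ.f x - φ.f (x * y)‖ ≤ ε := by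
  obtain ⟨k, r, g, hg⟩ := Submodule.mem_span_set'.1 hx
  choose a b c habc using fun i => (g i).2
  let S : Fin k → (φ.GNS →L[ℂ] φ.GNS) := fun i => φ.rep (c i)
  let h : A := ∑ i, star (c i) * c i
  let y : ℕ → A := yy h (MM S)
  have hh' : φ.rep h = hh S := by
    simp only [h, hh, S, map_sum, map_mul, map_star]
  have hy1 : ∀ n, φ.rep (y n) = 1 - Q S ^ n := by
    intro n
    induction n with
    | zero => simp [y, yy]
    | succ n ih =>
      have : y (n + 1) = y n + (((MM S)⁻¹ : ℝ) : ℂ) • (h - h * y n) := rfl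
      rw [this, map_add, map_smul, map_sub, map_mul, ih, hh', pow_succ']
      have h1 : hh S - hh S * (1 - Q S ^ n) = hh S * Q S ^ n := by
        rw [mul_sub, mul_one, sub_sub_cancel]
      rw [h1]
      conv_rhs => rw [show Q S * Q S ^ n = (1 - (((MM S)⁻¹ : ℝ) : ℂ) • hh S) * Q S ^ n from rfl]
      rw [sub_mul, one_mul, smul_mul_assoc]
      abel
  have hh0 : h ∈ sq A := Submodule.sum_mem _ fun i _ => mul_mem_sq _ _
  have hy2 : ∀ n, y n ∈ sq A := by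
    intro n
    induction n with
    | zero => exact Submodule.zero_mem _
    | succ n ih =>
      exact Submodule.add_mem _ ih (Submodule.smul_mem _ _ (Submodule.sub_mem _ hh0 (mul_mem_sq _ _)))
  have hy3 : ∀ n, ‖φ.rep (y n)‖ ≤ 2 := by
    intro n
    rw [hy1]
    refine ContinuousLinearMap.opNorm_le_bound _ (by norm_num) fun ζ => ?_
    have h1 : (1 - Q S ^ n) ζ = ζ - (Q S ^ n) ζ := by simp
    rw [h1]
    have := Qpow_le S n ζ
    linarith [norm_sub_le ζ ((Q S ^ n) ζ)]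
  -- convergence
  have hterm : ∀ i n, ‖φ.f (r i • (g i : A)) - φ.f ((r i • (g i : A)) * y n)‖ ≤
      ‖r i‖ * (‖φ.io (star (a i))‖ * ‖(Q S ^ n) ((star (S i)) (φ.io (star (b i))))‖) := by
    intro i n
    rw [smul_mul_assoc, map_smul, map_smul, ← smul_sub, norm_smul]
    gcongr
    have h1 : φ.f (g i : A) - φ.f ((g i : A) * y n) = φ.f (a i * (b i * c i - b i * c i * y n)) := by
      rw [habc i, mul_sub, map_sub]
      simp only [mul_assoc]
    rw [h1]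
    refine (norm_f_le φ _ _).trans ?_
    gcongr
    rw [← norm_io_star φ ht]
    have h2 : star (b i * c i - b i * c i * y n) =
        star (c i) * star (b i) - star (y n) * (star (c i) * star (b i)) := by
      rw [star_sub, star_mul, star_mul, star_mul]
    rw [h2, map_sub, ← φ.rep_io (star (y n)), ← φ.rep_io, map_star φ.rep, map_star φ.rep, hy1]
    have h3 : star (1 - Q S ^ n) = 1 - Q S ^ n := by
      rw [star_sub, star_one, star_pow, Q_star]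
    rw [h3]
    simp [S]
  have hlim : Tendsto (fun n => ∑ i, ‖r i‖ * (‖φ.io (star (a i))‖ *
      ‖(Q S ^ n) ((star (S i)) (φ.io (star (b i))))‖)) atTop (𝓝 0) := by
    have : (0 : ℝ) = ∑ i : Fin k, ‖r i‖ * (‖φ.io (star (a i))‖ * 0) := by simp
    rw [this]
    refine tendsto_finsetSum _ fun i _ => ?_
    exact ((tend2 S i _).const_mul _).const_mul _
  obtain ⟨n, hn⟩ := (hlim.eventually (gt_mem_nhds hε)).exists
  refine ⟨y n, hy2 n, hy3 n, ?_⟩
  rw [← hg, Finset.sum_mul, map_sum, map_sum, ← Finset.sum_sub_distrib]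
  exact ((norm_sum_le _ _).trans (Finset.sum_le_sum fun i _ => hterm i n)).trans hn.le

include ht in
/-- f is bounded on the closed subspace A³ -/
lemma bdd_on_cube (hcl : IsClosed (cube A : Set A)) : ∃ C : ℝ, ∀ x ∈ cube A, ‖φ.f x‖ ≤ C * ‖x‖ := by
  have : CompleteSpace (cube A) := hcl.completeSpace_coe
  let ι := {y : A // y ∈ sq A ∧ ‖φ.rep y‖ ≤ 2}
  choose c hc using fun y : ι => bound_left φ ht y.1 y.2.1
  let g : ι → (cube A →L[ℂ] ℂ) := fun y =>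
    LinearMap.mkContinuous ((φ.f ∘ₗ (LinearMap.mul ℂ A).flip y.1) ∘ₗ (cube A).subtype) (c y)
      (fun x => hc y x)
  have hg : ∀ y x, g y x = φ.f ((x : A) * y.1) := fun y x => rfl
  have hpt : ∀ x, ∃ C, ∀ y, ‖g y x‖ ≤ C := by
    intro x
    obtain ⟨d, hd⟩ := bound_right φ ht x (cube_le_sq x.2)
    refine ⟨|d| * 2, fun y => ?_⟩
    rw [hg]
    calc ‖φ.f ((x : A) * y.1)‖ ≤ d * ‖φ.rep y.1‖ := hd _
      _ ≤ |d| * ‖φ.rep y.1‖ := by gcongr; exact le_abs_self d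
      _ ≤ |d| * 2 := by gcongr; exact y.2.2
  obtain ⟨C, hC⟩ := banach_steinhaus hpt
  refine ⟨C, fun x hx => ?_⟩
  refine le_of_forall_pos_le_add fun ε hε => ?_
  obtain ⟨y, hy1, hy2, hy3⟩ := approx φ ht x hx ε hε
  have h1 := (g ⟨y, hy1, hy2⟩).le_opNorm ⟨x, hx⟩
  rw [hg] at h1
  have h2 : ‖φ.f (x * y)‖ ≤ C * ‖x‖ := h1.trans (by
    have := hC ⟨y, hy1, hy2⟩
    change _ * ‖x‖ ≤ _
    gcongr)
  calc ‖φ.f x‖ = ‖(φ.f x - φ.f (x * y)) + φ.f (x * y)‖ := by rw [sub_add_cancel]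
    _ ≤ ‖φ.f x - φ.f (x * y)‖ + ‖φ.f (x * y)‖ := norm_add_le _ _
    _ ≤ C * ‖x‖ + ε := by linarith

end

omit [IsScalarTower ℂ A A] [SMulCommClass ℂ A A] [StarRing A] [StarModule ℂ A] in
/-- a functional bounded on a closed subspace of finite codimension is continuous -/
lemma continuous_of_cofinite (X : Submodule ℂ A) (hcl : IsClosed (X : Set A))
    (hfin : FiniteDimensional ℂ (A ⧸ X)) (f : A →ₗ[ℂ] ℂ) (C : ℝ)
    (hC : ∀ x ∈ X, ‖f x‖ ≤ C * ‖x‖) : Continuous f := by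
  let f0 : X →L[ℂ] ℂ := (f ∘ₗ X.subtype).mkContinuous C (fun x => hC x x.2)
  obtain ⟨g, hg, _⟩ := exists_extension_norm_eq X f0
  have hclX : IsClosed (X : Set A) := hcl
  have hker : X ≤ LinearMap.ker (f - g.toLinearMap) := by
    intro x hx
    rw [LinearMap.mem_ker, LinearMap.sub_apply]
    have := hg ⟨x, hx⟩
    change g x = f x at this
    rw [sub_eq_zero]; exact this.symm
  let q : (A ⧸ X) →ₗ[ℂ] ℂ := X.liftQ _ hker
  have : IsClosed (X : Set A) := hcl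
  have hq : Continuous q := by
    have : T2Space (A ⧸ X) := by
      have : IsClosed (X.toAddSubgroup : Set A) := hcl
      exact inferInstanceAs (T2Space (A ⧸ X.toAddSubgroup))
    exact q.continuous_of_finiteDimensional
  have h1 : (f : A → ℂ) = fun x => q (X.mkQ x) + g x := by
    funext x
    change f x = (f x - g x) + g x
    ring
  rw [h1]
  exact (hq.comp X.mkQL.continuous).add g.continuous

/-- traces on Banach *-algebras with A³ closed and cofinite are continuous -/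
theorem trace_H2 (hcl : IsClosed (cube A : Set A)) (hfin : FiniteDimensional ℂ (A ⧸ cube A))
    (f : A →ₗ[ℂ] ℂ) (hpos : ∀ a, 0 ≤ (f (star a * a)).re ∧ (f (star a * a)).im = 0)
    (htr : ∀ a b, f (a * b) = f (b * a)) : Continuous f := by
  obtain ⟨C, hC⟩ := bdd_on_cube ⟨f, hpos⟩ htr hcl
  exact continuous_of_cofinite _ hcl hfin f C hC

end Pool.Agent.Helper59.BA8
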