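import Mathlib
import Pool.Agent.Helper59.BA8
import Pool.Agent.Helper59.Pettis

open Filter Topology TopologicalSpace

namespace Pool.Agent.Helper59.BA9
open Pool.Agent.Helper59.BA8

set_option linter.unusedSectionVars false

section
variable {A : Type*} [NormedAddCommGroup A] [NormedSpace ℂ A] [CompleteSpace A] [SeparableSpace A]

/-- functionals vanishing on an analytic cofinite subspace are continuous -/
theorem functional_continuous (X : Submodule ℂ A) (hfin : FiniteDimensional ℂ (A ⧸ X))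
    (Z : ℕ → Type*) [∀ n, MetricSpace (Z n)] [∀ n, CompleteSpace (Z n)]
    [∀ n, SeparableSpace (Z n)] (μ : ∀ n, Z n → A) (hμ : ∀ n, Continuous (μ n))
    (hmem : ∀ n z, μ n z ∈ X) (hsurj : ∀ x ∈ X, ∃ n z, μ n z = x)
    (f : A →ₗ[ℂ] ℂ) (hf : ∀ x ∈ X, f x = 0) : Continuous f := by
  -- finite-dimensional complement
  obtain ⟨F, hF⟩ := X.exists_isCompl
  have hFd : FiniteDimensional ℂ F :=
    LinearEquiv.finiteDimensional (Submodule.quotientEquivOfIsCompl X F hF)
  have hcF : Continuous fun v : F => f v := (f ∘ₗ F.subtype).continuous_of_finiteDimensional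
  let B : ℕ → Type _ := fun m => {v : F // ‖f v‖ ≤ m}
  have hBc : ∀ m, IsClosed {v : F | ‖f v‖ ≤ m} := fun m =>
    isClosed_le hcF.norm continuous_const
  have hBcomp : ∀ m, CompleteSpace (B m) := fun m => (hBc m).completeSpace_coe
  let ν : ∀ p : ℕ × ℕ, (Z p.1 × B p.2) → A := fun p z => μ p.1 z.1 + (z.2.1 : A)
  have hν : ∀ p, Continuous (ν p) := fun p =>
    ((hμ p.1).comp continuous_fst).add
      ((continuous_subtype_val.comp continuous_subtype_val).comp continuous_snd)
  have hcov : (⋃ p, Set.range (ν p)) = Set.univ := by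
    rw [Set.eq_univ_iff_forall]
    intro a
    have ha : a ∈ X ⊔ F := by rw [hF.sup_eq_top]; trivial
    obtain ⟨x, hx, v, hv, rfl⟩ := Submodule.mem_sup.1 ha
    obtain ⟨n, z, rfl⟩ := hsurj x hx
    obtain ⟨m, hm⟩ := exists_nat_ge ‖f v‖
    exact Set.mem_iUnion.2 ⟨(n, m), (z, ⟨⟨v, hv⟩, hm⟩), rfl⟩
  have hex : ∃ p, ¬ IsMeagre (Set.range (ν p)) := by
    by_contra hcon
    push Not at hcon
    have h1 : IsMeagre (⋃ p, Set.range (ν p)) := isMeagre_iUnion hcon
    rw [hcov] at h1
    exact not_isMeagre_of_isOpen isOpen_univ Set.univ_nonempty h1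
  obtain ⟨p, hp⟩ := hex
  obtain ⟨ε, hε, h⟩ := Pettis.analytic_difference_nhds (ν p) (hν p) hp
  have hbd : ∀ w : A, ‖w‖ < ε → ‖f w‖ ≤ 2 * p.2 := by
    intro w hw
    obtain ⟨z, z', rfl⟩ := h w hw
    have h1 : f (ν p z - ν p z') = f (z.2.1 : A) - f (z'.2.1 : A) := by
      simp only [ν]
      rw [map_sub, map_add, map_add, hf _ (hmem _ _), hf _ (hmem _ _), zero_add, zero_add]
    rw [h1]
    have h2 := z.2.2
    have h3 := z'.2.2
    calc ‖f (z.2.1 : A) - f (z'.2.1 : A)‖ ≤ ‖f (z.2.1 : A)‖ + ‖f (z'.2.1 : A)‖ := norm_sub_le _ _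
      _ ≤ p.2 + p.2 := add_le_add h2 h3
      _ = _ := by ring
  -- bounded near zero implies continuous
  have hC : ∀ x, ‖f x‖ ≤ (2 * p.2 / (ε / 2)) * ‖x‖ := by
    intro x
    by_cases hx : x = 0
    · subst hx; simp
    have hxn : 0 < ‖x‖ := norm_pos_iff.2 hx
    have h1 := hbd (((ε / 2 / ‖x‖ : ℝ) : ℂ) • x) (by
      rw [norm_smul, Complex.norm_real, Real.norm_of_nonneg (by positivity),
        div_mul_cancel₀ _ hxn.ne']
      linarith)
    rw [map_smul, norm_smul, Complex.norm_real, Real.norm_of_nonneg (by positivity)] at h1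
    rw [div_mul_eq_mul_div, le_div_iff₀ (by positivity)]
    calc ‖f x‖ * (ε / 2) = (ε / 2 / ‖x‖ * ‖f x‖) * ‖x‖ := by field_simp
      _ ≤ (2 * p.2) * ‖x‖ := by gcongr
  exact (f.mkContinuous _ hC).continuous

/-- analytic subspaces of finite codimension are closed -/
theorem closed_of_analytic (X : Submodule ℂ A) (hfin : FiniteDimensional ℂ (A ⧸ X))
    (Z : ℕ → Type*) [∀ n, MetricSpace (Z n)] [∀ n, CompleteSpace (Z n)]
    [∀ n, SeparableSpace (Z n)] (μ : ∀ n, Z n → A) (hμ : ∀ n, Continuous (μ n))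
    (hmem : ∀ n z, μ n z ∈ X) (hsurj : ∀ x ∈ X, ∃ n z, μ n z = x) : IsClosed (X : Set A) := by
  have : (X : Set A) = ⋂ f : {f : A →ₗ[ℂ] ℂ // ∀ x ∈ X, f x = 0}, {a | f.1 a = 0} := by
    ext a
    rw [Set.mem_iInter]
    constructor
    · intro ha f
      exact f.2 a ha
    · intro ha
      by_contra hn
      obtain ⟨f, hf1, hf2⟩ := Submodule.exists_le_ker_of_notMem hn
      exact hf1 (ha ⟨f, fun x hx => hf2 hx⟩)
  rw [this]
  refine isClosed_iInter fun f => ?_
  exact isClosed_eq (functional_continuous X hfin Z μ hμ hmem hsurj f.1 f.2) continuous_const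
end

variable {A : Type*} [NonUnitalNormedRing A] [NormedSpace ℂ A] [IsScalarTower ℂ A A]
  [SMulCommClass ℂ A A] [CompleteSpace A]

lemma mul_mem_cube (a b : A) (ha : a ∈ sq A) : a * b ∈ cube A := by
  induction ha using Submodule.span_induction with
  | mem a ha =>
    obtain ⟨c, d, rfl⟩ := ha
    exact Submodule.subset_span ⟨c, d, b, rfl⟩
  | zero => rw [zero_mul]; exact Submodule.zero_mem _
  | add x y _ _ hx hy => rw [add_mul]; exact Submodule.add_mem _ hx hy
  | smul c x _ hx => rw [smul_mul_assoc]; exact Submodule.smul_mem _ _ hx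

lemma mul_mem_cube' (a b : A) (hb : b ∈ sq A) : a * b ∈ cube A := by
  induction hb using Submodule.span_induction with
  | mem b hb =>
    obtain ⟨c, d, rfl⟩ := hb
    exact Submodule.subset_span ⟨a, c, d, (mul_assoc _ _ _).symm⟩
  | zero => rw [mul_zero]; exact Submodule.zero_mem _
  | add x y _ _ hx hy => rw [mul_add]; exact Submodule.add_mem _ hx hy
  | smul c x _ hx => rw [mul_smul_comm]; exact Submodule.smul_mem _ _ hx

/-- if A² is cofinite so is A³ -/
theorem cube_cofinite (hfin : FiniteDimensional ℂ (A ⧸ sq A)) :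
    FiniteDimensional ℂ (A ⧸ cube A) := by
  obtain ⟨F, hF⟩ := (sq A).exists_isCompl
  have hFd : FiniteDimensional ℂ F :=
    LinearEquiv.finiteDimensional (Submodule.quotientEquivOfIsCompl (sq A) F hF)
  let b := Module.finBasis ℂ F
  let E : Submodule ℂ A := F ⊔ Submodule.span ℂ (Set.range fun p :
    Fin (Module.finrank ℂ F) × Fin (Module.finrank ℂ F) => (b p.1 : A) * (b p.2 : A))
  have hE : FiniteDimensional ℂ E := by
    have h1 : FiniteDimensional ℂ (Submodule.span ℂ (Set.range fun p :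
      Fin (Module.finrank ℂ F) × Fin (Module.finrank ℂ F) => (b p.1 : A) * (b p.2 : A))) :=
      FiniteDimensional.span_of_finite ℂ (Set.finite_range _)
    exact Submodule.finiteDimensional_sup _ _
  have hprod : ∀ v ∈ F, ∀ w ∈ F, v * w ∈ E := by
    intro v hv w hw
    have h1 := b.sum_repr ⟨v, hv⟩
    have h2 := b.sum_repr ⟨w, hw⟩
    have h1' : v = ∑ i, b.repr ⟨v, hv⟩ i • (b i : A) := by
      have := congrArg (Submodule.subtype F) h1
      rw [map_sum] at this
      exact this.symm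
    have h2' : w = ∑ i, b.repr ⟨w, hw⟩ i • (b i : A) := by
      have := congrArg (Submodule.subtype F) h2
      rw [map_sum] at this
      exact this.symm
    rw [h1', h2', Finset.sum_mul]
    refine Submodule.sum_mem _ fun i _ => ?_
    rw [Finset.mul_sum]
    refine Submodule.sum_mem _ fun j _ => ?_
    rw [smul_mul_assoc, mul_smul_comm]
    refine Submodule.smul_mem _ _ (Submodule.smul_mem _ _ ?_)
    exact Submodule.mem_sup_right (Submodule.subset_span ⟨(i, j), rfl⟩)
  have hsq : sq A ≤ cube A ⊔ E := by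
    rw [BA8.sq, Submodule.span_le]
    rintro _ ⟨a, a', rfl⟩
    have ha : a ∈ sq A ⊔ F := by rw [hF.sup_eq_top]; trivial
    have ha' : a' ∈ sq A ⊔ F := by rw [hF.sup_eq_top]; trivial
    obtain ⟨x, hx, v, hv, rfl⟩ := Submodule.mem_sup.1 ha
    obtain ⟨x', hx', v', hv', rfl⟩ := Submodule.mem_sup.1 ha'
    have h1 : (x + v) * (x' + v') = (x * (x' + v') + v * x') + v * v' := by
      rw [add_mul, mul_add v, add_assoc]
    rw [h1]
    exact Submodule.add_mem_sup
      (Submodule.add_mem _ (mul_mem_cube _ _ hx) (mul_mem_cube' _ _ hx')) (hprod v hv v' hv')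
  have htop : cube A ⊔ E = ⊤ := by
    rw [eq_top_iff, ← hF.sup_eq_top]
    exact sup_le hsq (le_trans le_sup_left le_sup_right)
  -- A/cube is a quotient of E
  have hsurj : Function.Surjective ((cube A).mkQ ∘ₗ E.subtype) := by
    intro q
    obtain ⟨a, rfl⟩ := (cube A).mkQ_surjective q
    have ha : a ∈ cube A ⊔ E := by rw [htop]; trivial
    obtain ⟨x, hx, v, hv, rfl⟩ := Submodule.mem_sup.1 ha
    refine ⟨⟨v, hv⟩, ?_⟩
    rw [LinearMap.comp_apply, map_add]
    have : (cube A).mkQ x = 0 := by rw [Submodule.mkQ_apply]; exact (Submodule.Quotient.mk_eq_zero _).2 hx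
    rw [this, zero_add]; rfl
  exact Module.Finite.of_surjective _ hsurj

/-- Laursen: separable with A² cofinite implies A³ closed and cofinite -/
theorem laursen [SeparableSpace A] (hfin : FiniteDimensional ℂ (A ⧸ sq A)) :
    IsClosed (cube A : Set A) ∧ FiniteDimensional ℂ (A ⧸ cube A) := by
  have h := cube_cofinite hfin
  refine ⟨?_, h⟩
  refine closed_of_analytic (cube A) h (fun n => Fin n → A × A × A)
    (fun n z => ∑ i, (z i).1 * (z i).2.1 * (z i).2.2) ?_ ?_ ?_
  · intro n
    fun_prop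
  · intro n z
    exact Submodule.sum_mem _ fun i _ => Submodule.subset_span ⟨_, _, _, rfl⟩
  · intro x hx
    obtain ⟨k, r, g, hg⟩ := Submodule.mem_span_set'.1 hx
    choose a b c habc using fun i => (g i).2
    refine ⟨k, fun i => (r i • a i, b i, c i), ?_⟩
    rw [← hg]
    refine Finset.sum_congr rfl fun i _ => ?_
    rw [habc i, smul_mul_assoc, smul_mul_assoc]

end Pool.Agent.Helper59.BA9
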