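import Mathlib
import Pool.Agent.Helper59.AC3
import Pool.Agent.Helper59.BA9

open Set Topology Filter MeasureTheory

namespace Pool.Agent.Helper59.AC

open Pool.Agent.Helper59.BA8

section
variable {A : Type*} [NonUnitalNormedRing A] [NormedSpace ℂ A] [IsScalarTower ℂ A A]
  [SMulCommClass ℂ A A] [StarRing A] [StarModule ℂ A]

/-- sum of squares -/
def SS {n : ℕ} (u : Fin n → A) : A := ∑ i, star (u i) * u i

omit [NormedSpace ℂ A] [IsScalarTower ℂ A A] [SMulCommClass ℂ A A] [StarModule ℂ A] in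
lemma SS_star {n : ℕ} (u : Fin n → A) : star (SS u) = SS u := by
  unfold SS
  rw [star_sum]
  exact Finset.sum_congr rfl fun i _ => by rw [star_mul, star_star]

omit [IsScalarTower ℂ A A] [SMulCommClass ℂ A A] [StarModule ℂ A] in
lemma SS_mem {n : ℕ} (u : Fin n → A) : SS u ∈ sq A :=
  Submodule.sum_mem _ fun i _ => Submodule.subset_span ⟨_, _, rfl⟩

omit [NormedSpace ℂ A] [IsScalarTower ℂ A A] [SMulCommClass ℂ A A] [StarModule ℂ A] in
lemma SS_cont {n : ℕ} (hstar : Continuous (star : A → A)) :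
    Continuous (SS : (Fin n → A) → A) := by
  unfold SS
  exact continuous_finsetSum _ fun i _ =>
    (hstar.comp (continuous_apply i)).mul (continuous_apply i)

lemma SS_smul {n : ℕ} (t : ℝ) (u : Fin n → A) : SS ((t : ℂ) • u) = ((t ^ 2 : ℝ) : ℂ) • SS u := by
  unfold SS
  rw [Finset.smul_sum]
  refine Finset.sum_congr rfl fun i _ => ?_
  rw [Pi.smul_apply, star_smul, smul_mul_smul_comm]
  congr 1
  rw [RCLike.star_def, Complex.conj_ofReal]
  push_cast
  ring

/-- polarization -/
lemma polar (a b : A) : (1 / 2 : ℂ) • (a * b + star (a * b)) =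
    star ((1 / 2 : ℂ) • (b + star a)) * ((1 / 2 : ℂ) • (b + star a)) -
      star ((1 / 2 : ℂ) • (b - star a)) * ((1 / 2 : ℂ) • (b - star a)) := by
  have hc : star (1 / 2 : ℂ) = 1 / 2 := by
    rw [RCLike.star_def, map_div₀, map_one, map_ofNat]
  rw [star_smul, star_smul, smul_mul_smul_comm, smul_mul_smul_comm, hc, ← smul_sub, star_add,
    star_sub, star_star, star_mul]
  have h1 : (star b + a) * (b + star a) - (star b - a) * (b - star a) =
      (2 : ℂ) • (a * b + star b * star a) := by
    rw [two_smul]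
    noncomm_ring
  rw [h1, smul_smul]
  norm_num

/-- the hermitian part of `A²` -/
def EE (A : Type*) [NonUnitalNormedRing A] [NormedSpace ℂ A] [StarRing A] [StarModule ℂ A] :
    Submodule ℝ A where
  carrier := {a | a ∈ sq A ∧ star a = a}
  add_mem' := by
    rintro a b ⟨ha1, ha2⟩ ⟨hb1, hb2⟩
    exact ⟨Submodule.add_mem _ ha1 hb1, by rw [star_add, ha2, hb2]⟩
  zero_mem' := ⟨Submodule.zero_mem _, star_zero _⟩
  smul_mem' := by
    rintro r a ⟨ha1, ha2⟩
    have h1 : r • a = (r : ℂ) • a := (Complex.coe_smul r a).symm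
    refine ⟨?_, ?_⟩
    · rw [h1]
      exact Submodule.smul_mem _ _ ha1
    · rw [h1, star_smul, ha2, RCLike.star_def, Complex.conj_ofReal]

lemma EE_rep (w : A) (hw : w ∈ EE A) : ∃ (n : ℕ) (u v : Fin n → A), w = SS u - SS v := by
  obtain ⟨hw1, hw2⟩ := hw
  obtain ⟨k, r, g, hg⟩ := Submodule.mem_span_set'.1 hw1
  choose a b hab using fun i => (g i).2
  refine ⟨k, fun i => (1 / 2 : ℂ) • (b i + star (r i • a i)),
    fun i => (1 / 2 : ℂ) • (b i - star (r i • a i)), ?_⟩
  unfold SS
  rw [← Finset.sum_sub_distrib]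
  have h1 : w = ∑ i, (r i • a i) * b i := by
    rw [← hg]
    exact Finset.sum_congr rfl fun i _ => by rw [hab i, smul_mul_assoc]
  have h2 : w = (1 / 2 : ℂ) • (w + star w) := by
    rw [hw2, ← two_smul ℂ w, smul_smul]
    norm_num
  rw [h2]
  conv_lhs => rw [h1]
  rw [star_sum, ← Finset.sum_add_distrib, Finset.smul_sum]
  exact Finset.sum_congr rfl fun i _ => polar _ _

lemma sq_star (a : A) (ha : a ∈ sq A) : star a ∈ sq A := by
  induction ha using Submodule.span_induction with
  | mem a ha =>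
    obtain ⟨c, d, rfl⟩ := ha
    exact Submodule.subset_span ⟨star d, star c, star_mul _ _⟩
  | zero => rw [star_zero]; exact Submodule.zero_mem _
  | add x y _ _ hx hy => rw [star_add]; exact Submodule.add_mem _ hx hy
  | smul c x _ hx => rw [star_smul]; exact Submodule.smul_mem _ _ hx

variable [CompleteSpace A] [TopologicalSpace.SeparableSpace A]

omit [StarRing A] [StarModule ℂ A] in
theorem sq_closed (hfin : FiniteDimensional ℂ (A ⧸ sq A)) : IsClosed (sq A : Set A) := by
  refine BA9.closed_of_analytic (sq A) hfin (fun n => Fin n → A × A)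
    (fun n z => ∑ i, (z i).1 * (z i).2) ?_ ?_ ?_
  · intro n
    fun_prop
  · intro n z
    exact Submodule.sum_mem _ fun i _ => Submodule.subset_span ⟨_, _, rfl⟩
  · intro x hx
    obtain ⟨k, r, g, hg⟩ := Submodule.mem_span_set'.1 hx
    choose a b hab using fun i => (g i).2
    refine ⟨k, fun i => (r i • a i, b i), ?_⟩
    rw [← hg]
    refine Finset.sum_congr rfl fun i _ => ?_
    rw [hab i, smul_mul_assoc]

omit [StarRing A] [StarModule ℂ A] in
theorem vanish (hfin : FiniteDimensional ℂ (A ⧸ sq A)) (f : A →ₗ[ℂ] ℂ)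
    (hf : ∀ x ∈ sq A, f x = 0) : Continuous f := by
  refine BA9.functional_continuous (sq A) hfin (fun n => Fin n → A × A)
    (fun n z => ∑ i, (z i).1 * (z i).2) ?_ ?_ ?_ f hf
  · intro n
    fun_prop
  · intro n z
    exact Submodule.sum_mem _ fun i _ => Submodule.subset_span ⟨_, _, rfl⟩
  · intro x hx
    obtain ⟨k, r, g, hg⟩ := Submodule.mem_span_set'.1 hx
    choose a b hab using fun i => (g i).2
    refine ⟨k, fun i => (r i • a i, b i), ?_⟩
    rw [← hg]
    refine Finset.sum_congr rfl fun i _ => ?_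
    rw [hab i, smul_mul_assoc]

end

end Pool.Agent.Helper59.AC
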