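import Mathlib
import Pool.Agent.Helper59.AC4
import Pool.Agent.Helper59.Pettis

open Set Topology Filter MeasureTheory

namespace Pool.Agent.Helper59.AC

open Pool.Agent.Helper59.BA8

section
variable {A : Type*} [NonUnitalNormedRing A] [NormedSpace ℂ A] [IsScalarTower ℂ A A]
  [SMulCommClass ℂ A A] [StarRing A] [StarModule ℂ A]
  [CompleteSpace A] [TopologicalSpace.SeparableSpace A]

/-- differences of small sums of squares of bounded length fill a neighbourhood of zero -/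
theorem open_EE (hfin : FiniteDimensional ℂ (A ⧸ sq A)) (hstar : Continuous (star : A → A)) :
    ∃ n : ℕ, ∀ ε > 0, ∃ δ > 0, ∀ y ∈ EE A, ‖y‖ < δ →
      ∃ z z' : (Fin n → A) × (Fin n → A), (SS z.1 + SS z.2) - (SS z'.1 + SS z'.2) = y ∧
        ‖SS z.1 + SS z.2‖ < ε := by
  have hEc : IsClosed (EE A : Set A) := by
    have : (EE A : Set A) = (sq A : Set A) ∩ {a | star a = a} := rfl
    rw [this]
    exact (sq_closed hfin).inter (isClosed_eq hstar continuous_id)
  have hcomp : CompleteSpace (EE A) := hEc.completeSpace_coe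
  have hsc : SecondCountableTopology A := UniformSpace.secondCountable_of_separable A
  have hsep : TopologicalSpace.SeparableSpace (EE A) := inferInstance
  let Zp : ℕ × ℕ → Type _ := fun p =>
    {z : (Fin p.1 → A) × (Fin p.1 → A) // ‖SS z.1‖ ≤ p.2 ∧ ‖SS z.2‖ ≤ p.2}
  have hZc : ∀ p : ℕ × ℕ, IsClosed {z : (Fin p.1 → A) × (Fin p.1 → A) |
      ‖SS z.1‖ ≤ p.2 ∧ ‖SS z.2‖ ≤ p.2} := fun p =>
    (isClosed_le ((SS_cont hstar).comp continuous_fst).norm continuous_const).inter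
      (isClosed_le ((SS_cont hstar).comp continuous_snd).norm continuous_const)
  have hZcomp : ∀ p, CompleteSpace (Zp p) := fun p => (hZc p).completeSpace_coe
  have hZsep : ∀ p, TopologicalSpace.SeparableSpace (Zp p) := fun p => inferInstance
  let ν : ∀ p : ℕ × ℕ, Zp p → EE A := fun p z =>
    ⟨SS z.1.1 - SS z.1.2, ⟨Submodule.sub_mem _ (SS_mem _) (SS_mem _), by
      rw [star_sub, SS_star, SS_star]⟩⟩
  have hν : ∀ p, Continuous (ν p) := fun p =>
    Continuous.subtype_mk (((SS_cont hstar).comp (continuous_fst.comp continuous_subtype_val)).sub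
      ((SS_cont hstar).comp (continuous_snd.comp continuous_subtype_val))) _
  have hcov : (⋃ p, range (ν p)) = univ := by
    rw [eq_univ_iff_forall]
    intro w
    obtain ⟨n, u, v, hw⟩ := EE_rep w.1 w.2
    obtain ⟨m, hm⟩ := exists_nat_ge (max ‖SS u‖ ‖SS v‖)
    exact mem_iUnion.2 ⟨(n, m), ⟨(u, v), (le_max_left _ _).trans hm, (le_max_right _ _).trans hm⟩,
      Subtype.ext hw.symm⟩
  have hex : ∃ p, ¬ IsMeagre (range (ν p)) := by
    by_contra hcon
    push Not at hcon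
    have h1 : IsMeagre (⋃ p, range (ν p)) := isMeagre_iUnion hcon
    rw [hcov] at h1
    exact not_isMeagre_of_isOpen isOpen_univ univ_nonempty h1
  obtain ⟨p, hp⟩ := hex
  obtain ⟨ε0, hε0, h⟩ := Pettis.analytic_difference_nhds (ν p) (hν p) hp
  refine ⟨p.1, ?_⟩
  intro ε hε
  obtain ⟨c, hc⟩ : ∃ c : ℝ, c = ε / (2 * p.2 + 1) := ⟨_, rfl⟩
  have hc0 : 0 < c := by rw [hc]; positivity
  refine ⟨c * ε0, by positivity, ?_⟩
  intro y hy hyn
  have hw : ‖(⟨c⁻¹ • y, (EE A).smul_mem _ hy⟩ : EE A)‖ < ε0 := by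
    show ‖c⁻¹ • y‖ < ε0
    rw [norm_smul, Real.norm_of_nonneg (by positivity), inv_mul_lt_iff₀ hc0]
    exact hyn
  obtain ⟨z, z', hzz⟩ := h _ hw
  have hzz' : (SS z.1.1 - SS z.1.2) - (SS z'.1.1 - SS z'.1.2) = c⁻¹ • y :=
    congrArg Subtype.val hzz
  have hsq : ((Real.sqrt c) ^ 2 : ℝ) = c := Real.sq_sqrt hc0.le
  refine ⟨(((Real.sqrt c : ℝ) : ℂ) • z.1.1, ((Real.sqrt c : ℝ) : ℂ) • z'.1.2),
    (((Real.sqrt c : ℝ) : ℂ) • z.1.2, ((Real.sqrt c : ℝ) : ℂ) • z'.1.1), ?_, ?_⟩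
  · show (SS (((Real.sqrt c : ℝ) : ℂ) • z.1.1) + SS (((Real.sqrt c : ℝ) : ℂ) • z'.1.2)) -
      (SS (((Real.sqrt c : ℝ) : ℂ) • z.1.2) + SS (((Real.sqrt c : ℝ) : ℂ) • z'.1.1)) = y
    rw [SS_smul, SS_smul, SS_smul, SS_smul, hsq, ← smul_add, ← smul_add, ← smul_sub]
    have h1 : SS z.1.1 + SS z'.1.2 - (SS z.1.2 + SS z'.1.1) = c⁻¹ • y := by
      rw [← hzz']
      abel
    rw [h1, Complex.coe_smul, smul_smul, mul_inv_cancel₀ hc0.ne', one_smul]
  · show ‖SS (((Real.sqrt c : ℝ) : ℂ) • z.1.1) + SS (((Real.sqrt c : ℝ) : ℂ) • z'.1.2)‖ < ε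
    rw [SS_smul, SS_smul, hsq, ← smul_add, norm_smul, Complex.norm_real,
      Real.norm_of_nonneg hc0.le]
    have h2 : ‖SS z.1.1 + SS z'.1.2‖ ≤ 2 * p.2 := by
      calc ‖SS z.1.1 + SS z'.1.2‖ ≤ ‖SS z.1.1‖ + ‖SS z'.1.2‖ := norm_add_le _ _
        _ ≤ p.2 + p.2 := add_le_add z.2.1 z'.2.2
        _ = 2 * p.2 := by ring
    calc c * ‖SS z.1.1 + SS z'.1.2‖ ≤ c * (2 * p.2) := by gcongr
      _ < c * (2 * p.2 + 1) := by
        apply mul_lt_mul_of_pos_left _ hc0
        linarith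
      _ = ε := by rw [hc]; field_simp

/-- Main theorem: separable, `A²` cofinite, continuous involution. -/
theorem positive_continuous (hfin : FiniteDimensional ℂ (A ⧸ sq A))
    (hstar : Continuous (star : A → A)) (f : A →ₗ[ℂ] ℂ)
    (hpos : ∀ a, 0 ≤ (f (star a * a)).re ∧ (f (star a * a)).im = 0) : Continuous f := by
  have hEc : IsClosed (EE A : Set A) := by
    have : (EE A : Set A) = (sq A : Set A) ∩ {a | star a = a} := rfl
    rw [this]
    exact (sq_closed hfin).inter (isClosed_eq hstar continuous_id)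
  have hcomp : CompleteSpace (EE A) := hEc.completeSpace_coe
  have hsc : SecondCountableTopology A := UniformSpace.secondCountable_of_separable A
  obtain ⟨n, hopen⟩ := open_EE hfin hstar
  have hSS : ∀ {m : ℕ} (u : Fin m → A), 0 ≤ (f (SS u)).re ∧ (f (SS u)).im = 0 := by
    intro m u
    unfold SS
    rw [map_sum, Complex.re_sum, Complex.im_sum]
    exact ⟨Finset.sum_nonneg fun i _ => (hpos _).1, Finset.sum_eq_zero fun i _ => (hpos _).2⟩
  let μ : (Fin n → A) × (Fin n → A) → EE A := fun z =>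
    ⟨SS z.1 + SS z.2, ⟨Submodule.add_mem _ (SS_mem _) (SS_mem _), by
      rw [star_add, SS_star, SS_star]⟩⟩
  have hμ : Continuous μ := Continuous.subtype_mk
    (((SS_cont hstar).comp continuous_fst).add ((SS_cont hstar).comp continuous_snd)) _
  let fR : EE A →ₗ[ℝ] ℝ := Complex.reLm ∘ₗ (f.restrictScalars ℝ) ∘ₗ (EE A).subtype
  have hfR : ∀ x : EE A, fR x = (f x).re := fun x => rfl
  have hcont : Continuous fR := by
    refine cone μ hμ fR ?_ ?_
    · intro z
      rw [hfR]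
      show 0 ≤ (f (SS z.1 + SS z.2)).re
      rw [map_add, Complex.add_re]
      exact add_nonneg (hSS _).1 (hSS _).1
    · intro ε hε
      obtain ⟨δ, hδ, h⟩ := hopen ε hε
      refine ⟨δ, hδ, ?_⟩
      intro y hy
      obtain ⟨z, z', h1, h2⟩ := h y.1 y.2 hy
      exact ⟨z, z', Subtype.ext h1, h2⟩
  obtain ⟨C, hC⟩ : ∃ C : ℝ, ∀ x : EE A, |(f x).re| ≤ C * ‖(x : A)‖ := by
    refine ⟨‖(⟨fR, hcont⟩ : EE A →L[ℝ] ℝ)‖, fun x => ?_⟩
    exact (⟨fR, hcont⟩ : EE A →L[ℝ] ℝ).le_opNorm x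
  have hC0 : ∀ x : EE A, ‖f x‖ ≤ |C| * ‖(x : A)‖ := by
    intro x
    obtain ⟨m, u, v, hx⟩ := EE_rep x.1 x.2
    have him : (f x).im = 0 := by
      rw [hx, map_sub, Complex.sub_im, (hSS u).2, (hSS v).2, sub_zero]
    have h1 : f x = (((f x).re : ℝ) : ℂ) := Complex.ext (by simp) (by simp [him])
    rw [h1, Complex.norm_real, Real.norm_eq_abs]
    exact (hC x).trans (mul_le_mul_of_nonneg_right (le_abs_self C) (norm_nonneg _))
  -- bound of the involution
  let st : A →ₗ[ℝ] A :=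
    { toFun := star
      map_add' := star_add
      map_smul' := fun r a => by
        have h1 : r • a = (r : ℂ) • a := (Complex.coe_smul r a).symm
        have h2 : r • star a = (r : ℂ) • star a := (Complex.coe_smul r (star a)).symm
        rw [h1, star_smul, RCLike.star_def, Complex.conj_ofReal]
        exact h2.symm }
  obtain ⟨Cs, hCs⟩ : ∃ Cs : ℝ, ∀ a : A, ‖star a‖ ≤ Cs * ‖a‖ :=
    ⟨‖(⟨st, hstar⟩ : A →L[ℝ] A)‖, fun a => (⟨st, hstar⟩ : A →L[ℝ] A).le_opNorm a⟩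
  have hbd : ∀ a ∈ sq A, ‖f a‖ ≤ (|C| * (1 + Cs)) * ‖a‖ := by
    intro a ha
    have hh : (1 / 2 : ℂ) • (a + star a) ∈ EE A := by
      refine ⟨Submodule.smul_mem _ _ (Submodule.add_mem _ ha (sq_star a ha)), ?_⟩
      rw [star_smul, star_add, star_star, RCLike.star_def, map_div₀, map_one, map_ofNat,
        add_comm (star a) a]
    have hk : (-(Complex.I / 2) : ℂ) • (a - star a) ∈ EE A := by
      refine ⟨Submodule.smul_mem _ _ (Submodule.sub_mem _ ha (sq_star a ha)), ?_⟩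
      rw [star_smul, star_sub, star_star, RCLike.star_def, map_neg, map_div₀, Complex.conj_I,
        map_ofNat, neg_div, neg_neg, neg_smul, ← smul_neg, neg_sub]
    have hsum : a = (1 / 2 : ℂ) • (a + star a) +
        Complex.I • ((-(Complex.I / 2) : ℂ) • (a - star a)) := by
      have h3 : Complex.I * (-(Complex.I / 2)) = 1 / 2 := by
        have := Complex.I_mul_I
        linear_combination (-1 / 2 : ℂ) * this
      rw [smul_smul, h3, ← smul_add]
      have h4 : a + star a + (a - star a) = (2 : ℂ) • a := by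
        rw [two_smul]
        abel
      rw [h4, smul_smul]
      norm_num
    have hs1 : ‖star a‖ ≤ Cs * ‖a‖ := hCs a
    have hn1 : ‖(1 / 2 : ℂ) • (a + star a)‖ ≤ (1 / 2) * ((1 + Cs) * ‖a‖) := by
      rw [norm_smul]
      have : ‖(1 / 2 : ℂ)‖ = 1 / 2 := by norm_num
      rw [this]
      have h5 := norm_add_le a (star a)
      nlinarith
    have hn2 : ‖(-(Complex.I / 2) : ℂ) • (a - star a)‖ ≤ (1 / 2) * ((1 + Cs) * ‖a‖) := by
      rw [norm_smul]
      have : ‖(-(Complex.I / 2) : ℂ)‖ = 1 / 2 := by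
        rw [norm_neg, norm_div, Complex.norm_I]
        norm_num
      rw [this]
      have h5 := norm_sub_le a (star a)
      nlinarith
    have hf1 := hC0 ⟨_, hh⟩
    have hf2 := hC0 ⟨_, hk⟩
    have hf1' : ‖f ((1 / 2 : ℂ) • (a + star a))‖ ≤ |C| * ((1 / 2) * ((1 + Cs) * ‖a‖)) :=
      hf1.trans (mul_le_mul_of_nonneg_left hn1 (abs_nonneg _))
    have hf2' : ‖f ((-(Complex.I / 2) : ℂ) • (a - star a))‖ ≤
        |C| * ((1 / 2) * ((1 + Cs) * ‖a‖)) :=
      hf2.trans (mul_le_mul_of_nonneg_left hn2 (abs_nonneg _))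
    calc ‖f a‖ = ‖f ((1 / 2 : ℂ) • (a + star a)) +
          Complex.I * f ((-(Complex.I / 2) : ℂ) • (a - star a))‖ := by
            conv_lhs => rw [hsum]
            rw [map_add, map_smul f Complex.I, smul_eq_mul]
      _ ≤ ‖f ((1 / 2 : ℂ) • (a + star a))‖ +
          ‖Complex.I * f ((-(Complex.I / 2) : ℂ) • (a - star a))‖ := norm_add_le _ _
      _ = ‖f ((1 / 2 : ℂ) • (a + star a))‖ + ‖f ((-(Complex.I / 2) : ℂ) • (a - star a))‖ := by
            rw [norm_mul, Complex.norm_I, one_mul]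
      _ ≤ |C| * ((1 / 2) * ((1 + Cs) * ‖a‖)) + |C| * ((1 / 2) * ((1 + Cs) * ‖a‖)) :=
            add_le_add hf1' hf2'
      _ = (|C| * (1 + Cs)) * ‖a‖ := by ring
  -- Hahn-Banach
  let f' : sq A →L[ℂ] ℂ := (f ∘ₗ (sq A).subtype).mkContinuous _ fun x => hbd x.1 x.2
  obtain ⟨g, hg, -⟩ := exists_extension_norm_eq (sq A) f'
  have hvan : Continuous (f - (g : A →ₗ[ℂ] ℂ)) := by
    apply vanish hfin
    intro x hx
    have h1 := hg ⟨x, hx⟩
    have h2 : f' ⟨x, hx⟩ = f x := rfl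
    rw [h2] at h1
    rw [LinearMap.sub_apply]
    show f x - g x = 0
    rw [sub_eq_zero]
    exact h1.symm
  have h3 : (f : A → ℂ) = fun x => (f - (g : A →ₗ[ℂ] ℂ)) x + g x := by
    funext x
    rw [LinearMap.sub_apply]
    show f x = f x - g x + g x
    ring
  rw [h3]
  exact hvan.add g.continuous

end

end Pool.Agent.Helper59.AC
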