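import Mathlib

set_option autoImplicit false

namespace Pool.Agent.Helper59.Andre

/-- The group `U_n(F)` of upper unitriangular `n × n` matrices over `F`. -/
def UT (n : ℕ) (F : Type) [Field F] : Subgroup (Matrix.GeneralLinearGroup (Fin n) F) where
  carrier := {g | (∀ i, (g : Matrix (Fin n) (Fin n) F) i i = 1) ∧
    ∀ i j, j < i → (g : Matrix (Fin n) (Fin n) F) i j = 0}
  mul_mem' := by
    rintro g h ⟨hg1, hg2⟩ ⟨hh1, hh2⟩
    refine ⟨fun i => ?_, fun i j hij => ?_⟩
    · rw [Matrix.GeneralLinearGroup.coe_mul, Matrix.mul_apply, Finset.sum_eq_single i]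
      · rw [hg1, hh1, one_mul]
      · intro k _ hk
        rcases lt_or_gt_of_ne hk with h1 | h1
        · rw [hg2 i k h1, zero_mul]
        · rw [hh2 k i h1, mul_zero]
      · intro h; exact absurd (Finset.mem_univ i) h
    · rw [Matrix.GeneralLinearGroup.coe_mul, Matrix.mul_apply]
      apply Finset.sum_eq_zero
      intro k _
      rcases lt_or_ge k i with h1 | h1
      · rw [hg2 i k h1, zero_mul]
      · rw [hh2 k j (lt_of_lt_of_le hij h1), mul_zero]
  one_mem' := by
    refine ⟨fun i => ?_, fun i j hij => ?_⟩
    · simp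
    · simp [Matrix.one_apply, hij.ne']
  inv_mem' := by
    rintro g ⟨hg1, hg2⟩
    have hbt : Matrix.BlockTriangular (g : Matrix (Fin n) (Fin n) F) id := fun i j hij => hg2 i j hij
    have hinv : Matrix.BlockTriangular ((g : Matrix (Fin n) (Fin n) F)⁻¹) id := by
      haveI : Invertible (g : Matrix (Fin n) (Fin n) F) := Units.invertible g
      exact Matrix.blockTriangular_inv_of_blockTriangular hbt
    have h2 : ∀ i j, j < i → ((g⁻¹ : Matrix.GeneralLinearGroup (Fin n) F) :
        Matrix (Fin n) (Fin n) F) i j = 0 := by
      intro i j hij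
      rw [Matrix.coe_units_inv]
      exact hinv hij
    refine ⟨fun i => ?_, h2⟩
    have h3 : ((g * g⁻¹ : Matrix.GeneralLinearGroup (Fin n) F) : Matrix (Fin n) (Fin n) F) i i
        = 1 := by
      rw [mul_inv_cancel]; simp
    rw [Matrix.GeneralLinearGroup.coe_mul, Matrix.mul_apply, Finset.sum_eq_single i, hg1,
      one_mul] at h3
    · exact h3
    · intro k _ hk
      rcases lt_or_gt_of_ne hk with h1 | h1
      · rw [hg2 i k h1, zero_mul]
      · rw [h2 k i h1, mul_zero]
    · intro h; exact absurd (Finset.mem_univ i) h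

/-- The space `𝔫` of strictly upper triangular matrices. -/
def NT (n : ℕ) (F : Type) [Field F] : Submodule F (Matrix (Fin n) (Fin n) F) where
  carrier := {y | ∀ i j, j ≤ i → y i j = 0}
  add_mem' := by
    intro a b ha hb i j hij
    rw [Matrix.add_apply, ha i j hij, hb i j hij, add_zero]
  zero_mem' := fun i j _ => rfl
  smul_mem' := by
    intro c a ha i j hij
    rw [Matrix.smul_apply, ha i j hij, smul_zero]

variable {n : ℕ} {F : Type} [Field F]

/-- The matrix of an element of `U_n(F)`. -/
def mat (g : UT n F) : Matrix (Fin n) (Fin n) F := ((g : Matrix.GeneralLinearGroup (Fin n) F) : _)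

lemma mat_mul (g h : UT n F) : mat (g * h) = mat g * mat h := rfl

lemma mat_one : mat (1 : UT n F) = 1 := rfl

lemma mat_diag (g : UT n F) (i : Fin n) : mat g i i = 1 := g.2.1 i

lemma mat_lower (g : UT n F) {i j : Fin n} (h : j < i) : mat g i j = 0 := g.2.2 i j h

lemma mat_inj {g h : UT n F} (e : mat g = mat h) : g = h := Subtype.ext (Units.ext e)

/-- `g - 1` as an element of `𝔫`. -/
def subOne (g : UT n F) : NT n F :=
  ⟨mat g - 1, fun i j hij => by
    rcases hij.lt_or_eq with h | h
    · rw [Matrix.sub_apply, mat_lower g h, Matrix.one_apply_ne h.ne', sub_zero]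
    · subst h
      rw [Matrix.sub_apply, mat_diag, Matrix.one_apply_eq, sub_self]⟩

/-- `u y v` for `u, v` in `U_n(F)` and `y` in `𝔫`. -/
def tri (u : UT n F) (y : NT n F) (v : UT n F) : NT n F :=
  ⟨mat u * (y : Matrix (Fin n) (Fin n) F) * mat v, fun i j hij => by
    rw [Matrix.mul_apply]
    apply Finset.sum_eq_zero
    intro k _
    by_cases hk : j < k
    · rw [mat_lower v hk, mul_zero]
    · rw [not_lt] at hk
      have : (mat u * (y : Matrix (Fin n) (Fin n) F)) i k = 0 := by
        rw [Matrix.mul_apply]
        apply Finset.sum_eq_zero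
        intro l _
        by_cases hl : l < i
        · rw [mat_lower u hl, zero_mul]
        · rw [not_lt] at hl
          rw [y.2 l k (hk.trans (hij.trans hl)), mul_zero]
      rw [this, zero_mul]⟩

lemma tri_coe (u : UT n F) (y : NT n F) (v : UT n F) :
    (tri u y v : Matrix (Fin n) (Fin n) F) = mat u * (y : Matrix (Fin n) (Fin n) F) * mat v := rfl

lemma tri_tri (u u' : UT n F) (y : NT n F) (v v' : UT n F) :
    tri u (tri u' y v') v = tri (u * u') y (v' * v) := by
  apply Subtype.ext
  rw [tri_coe, tri_coe, tri_coe, mat_mul, mat_mul]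
  simp only [Matrix.mul_assoc]

lemma tri_one (y : NT n F) : tri 1 y 1 = y := by
  apply Subtype.ext
  rw [tri_coe, mat_one, Matrix.one_mul, Matrix.mul_one]

/-- The linear functional `y ↦ μ (u y v)`. -/
def dualTri (u : UT n F) (μ : Module.Dual F (NT n F)) (v : UT n F) : Module.Dual F (NT n F) where
  toFun y := μ (tri u y v)
  map_add' y z := by
    rw [← map_add]
    congr 1
    apply Subtype.ext
    simp only [tri_coe, Submodule.coe_add, Matrix.mul_add, Matrix.add_mul]
  map_smul' c y := by
    rw [RingHom.id_apply, ← map_smul]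
    congr 1
    apply Subtype.ext
    simp only [tri_coe, Submodule.coe_smul, Matrix.mul_smul, Matrix.smul_mul]

/-- The two-sided orbit `U μ U` of a functional. -/
def dualOrbit (μ : Module.Dual F (NT n F)) : Set (Module.Dual F (NT n F)) :=
  {ν | ∃ u v : UT n F, ν = dualTri u μ v}

/-- The functional `y ↦ a y_{ij}`. -/
def box (i j : Fin n) (a : F) : Module.Dual F (NT n F) where
  toFun y := a * (y : Matrix (Fin n) (Fin n) F) i j
  map_add' y z := by simp [mul_add]
  map_smul' c y := by simp; ring

/-- Elementary unitriangular matrices. -/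
def el {i j : Fin n} (hij : i < j) (t : F) : UT n F :=
  ⟨⟨Matrix.transvection i j t, Matrix.transvection i j (-t),
    by rw [Matrix.transvection_mul_transvection_same _ _ hij.ne]; simp,
    by rw [Matrix.transvection_mul_transvection_same _ _ hij.ne]; simp⟩, by
    constructor
    · intro k
      simp only [Matrix.transvection, Matrix.add_apply, Matrix.one_apply_eq, Matrix.single_apply]
      rw [if_neg]
      · simp
      · rintro ⟨h1, h2⟩; exact hij.ne (h1.trans h2.symm)
    · intro k l hkl
      simp only [Matrix.transvection, Matrix.add_apply, Matrix.one_apply_ne hkl.ne',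
        Matrix.single_apply]
      rw [if_neg]
      · simp
      · rintro ⟨h1, h2⟩; subst h1 h2; exact absurd hij (not_lt.mpr hkl.le)⟩

lemma mat_el {i j : Fin n} (hij : i < j) (t : F) : mat (el hij t) = Matrix.transvection i j t := rfl

/-- Normal form: at most one nonzero entry in each row and column. -/
def RowsNormal (m : ℕ) (y : Matrix (Fin n) (Fin n) F) : Prop :=
  (∀ i : Fin n, m ≤ i.val → ∀ l l', y i l ≠ 0 → y i l' ≠ 0 → l = l') ∧
  (∀ i k : Fin n, m ≤ i.val → m ≤ k.val → ∀ l, y i l ≠ 0 → y k l ≠ 0 → i = k)

lemma transvection_mul_apply' (i j : Fin n) (t : F) (y : Matrix (Fin n) (Fin n) F) (k l : Fin n) :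
    (Matrix.transvection i j t * y) k l = y k l + (if k = i then t * y j l else 0) := by
  by_cases h : k = i
  · subst h
    rw [Matrix.transvection_mul_apply_same, if_pos rfl]
  · rw [Matrix.transvection_mul_apply_of_ne _ _ _ _ h, if_neg h, add_zero]

lemma mul_transvection_apply' (i j : Fin n) (t : F) (y : Matrix (Fin n) (Fin n) F) (k l : Fin n) :
    (y * Matrix.transvection i j t) k l = y k l + (if l = j then t * y k i else 0) := by
  by_cases h : l = j
  · subst h
    rw [Matrix.mul_transvection_apply_same, if_pos rfl]
  · rw [Matrix.mul_transvection_apply_of_ne _ _ _ _ h, if_neg h, add_zero]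

lemma normal_step (m : ℕ) (hm : m < n) (y : NT n F)
    (h : ∃ u v : UT n F, RowsNormal (m + 1) (tri u y v : Matrix (Fin n) (Fin n) F)) :
    ∃ u v : UT n F, RowsNormal m (tri u y v : Matrix (Fin n) (Fin n) F) := by
  classical
  let r : Fin n := ⟨m, hm⟩
  let c : UT n F × UT n F → ℕ := fun p =>
    (Finset.univ.filter (fun l => (tri p.1 y p.2 : Matrix (Fin n) (Fin n) F) r l ≠ 0)).card
  obtain ⟨u₀, v₀, h₀⟩ := h
  obtain ⟨p, hp, hmin⟩ := WellFounded.has_min (measure c).wf
    {p : UT n F × UT n F | RowsNormal (m + 1) (tri p.1 y p.2 : Matrix (Fin n) (Fin n) F)}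
    ⟨(u₀, v₀), h₀⟩
  set z : Matrix (Fin n) (Fin n) F := (tri p.1 y p.2 : Matrix (Fin n) (Fin n) F) with hz
  have hzN : z ∈ NT n F := (tri p.1 y p.2).2
  have hmin' : ∀ q : UT n F × UT n F,
      RowsNormal (m + 1) (tri q.1 y q.2 : Matrix (Fin n) (Fin n) F) → c p ≤ c q := by
    intro q hq
    exact not_lt.mp (hmin q hq)
  -- (a)
  have ha : ∀ (k l : Fin n), m + 1 ≤ k.val → z r l ≠ 0 → z k l = 0 := by
    intro k l hk hl
    by_contra hkl
    have hrk : r < k := by
      rw [Fin.lt_def]; change m < k.val; omega
    set t : F := - z r l / z k l with ht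
    have hq : (tri (el hrk t * p.1) y p.2 : Matrix (Fin n) (Fin n) F) =
        Matrix.transvection r k t * z := by
      rw [hz, tri_coe, tri_coe, mat_mul, mat_el]
      simp only [Matrix.mul_assoc]
    have hrow : ∀ i j, i ≠ r → (Matrix.transvection r k t * z) i j = z i j := by
      intro i j hi
      rw [transvection_mul_apply', if_neg hi, add_zero]
    have hne : ∀ i : Fin n, m + 1 ≤ i.val → i ≠ r := by
      intro i hi h
      rw [h] at hi
      change m + 1 ≤ m at hi
      omega
    have hnorm : RowsNormal (m + 1)
        (tri (el hrk t * p.1) y p.2 : Matrix (Fin n) (Fin n) F) := by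
      rw [hq]
      refine ⟨fun i hi l l' h1 h2 => ?_, fun i k' hi hk' l h1 h2 => ?_⟩
      · rw [hrow i _ (hne i hi)] at h1 h2
        exact hp.1 i hi l l' h1 h2
      · rw [hrow i _ (hne i hi)] at h1
        rw [hrow k' _ (hne k' hk')] at h2
        exact hp.2 i k' hi hk' l h1 h2
    have hle := hmin' (el hrk t * p.1, p.2) hnorm
    have hlt : c (el hrk t * p.1, p.2) < c p := by
      apply Finset.card_lt_card
      rw [Finset.ssubset_iff_of_subset]
      · refine ⟨l, ?_, ?_⟩
        · simp only [Finset.mem_filter, Finset.mem_univ, true_and]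
          exact hl
        · simp only [Finset.mem_filter, Finset.mem_univ, true_and, not_not]
          rw [hq, transvection_mul_apply', if_pos rfl, ht]
          field_simp
          ring
      · intro l' hl'
        simp only [Finset.mem_filter, Finset.mem_univ, true_and] at hl' ⊢
        rw [hq, transvection_mul_apply', if_pos rfl] at hl'
        intro h0
        by_cases hll : l' = l
        · subst hll
          exact hl h0
        · have : z k l' = 0 := by
            by_contra hne0
            exact hll (hp.1 k hk l' l hne0 hkl)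
          change z r l' = 0 at h0
          rw [this, h0] at hl'
          simp at hl'
    omega
  -- (b)
  have hb : ∀ (l l' : Fin n), l < l' → z r l ≠ 0 → z r l' ≠ 0 → False := by
    intro l l' hll hl hl'
    set t : F := - z r l' / z r l with ht
    have hq : (tri p.1 y (p.2 * el hll t) : Matrix (Fin n) (Fin n) F) =
        z * Matrix.transvection l l' t := by
      rw [hz, tri_coe, tri_coe, mat_mul, mat_el]
      simp only [Matrix.mul_assoc]
    have hrow : ∀ (i j : Fin n), m + 1 ≤ i.val → (z * Matrix.transvection l l' t) i j = z i j := by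
      intro i j hi
      rw [mul_transvection_apply', ha i l hi hl]
      simp
    have hnorm : RowsNormal (m + 1)
        (tri p.1 y (p.2 * el hll t) : Matrix (Fin n) (Fin n) F) := by
      rw [hq]
      refine ⟨fun i hi l l' h1 h2 => ?_, fun i k' hi hk' l h1 h2 => ?_⟩
      · rw [hrow i _ hi] at h1 h2
        exact hp.1 i hi l l' h1 h2
      · rw [hrow i _ hi] at h1
        rw [hrow k' _ hk'] at h2
        exact hp.2 i k' hi hk' l h1 h2
    have hle := hmin' (p.1, p.2 * el hll t) hnorm
    have hlt : c (p.1, p.2 * el hll t) < c p := by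
      apply Finset.card_lt_card
      rw [Finset.ssubset_iff_of_subset]
      · refine ⟨l', ?_, ?_⟩
        · simp only [Finset.mem_filter, Finset.mem_univ, true_and]
          exact hl'
        · simp only [Finset.mem_filter, Finset.mem_univ, true_and, not_not]
          rw [hq, mul_transvection_apply', if_pos rfl, ht]
          field_simp
          ring
      · intro j hj
        simp only [Finset.mem_filter, Finset.mem_univ, true_and] at hj ⊢
        rw [hq, mul_transvection_apply'] at hj
        intro h0
        change z r j = 0 at h0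
        by_cases hjl : j = l'
        · subst hjl
          exact hl' h0
        · rw [if_neg hjl, h0] at hj
          simp at hj
    omega
  refine ⟨p.1, p.2, ?_⟩
  have hcase : ∀ i : Fin n, m ≤ i.val → i = r ∨ m + 1 ≤ i.val := by
    intro i hi
    by_cases h : i = r
    · exact Or.inl h
    · right
      have : i.val ≠ m := fun h' => h (Fin.ext h')
      omega
  refine ⟨fun i hi l l' h1 h2 => ?_, fun i k hi hk l h1 h2 => ?_⟩
  · rcases hcase i hi with h | h
    · subst h
      rcases lt_trichotomy l l' with h3 | h3 | h3
      · exact (hb l l' h3 h1 h2).elim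
      · exact h3
      · exact (hb l' l h3 h2 h1).elim
    · exact hp.1 i h l l' h1 h2
  · rcases hcase i hi with h | h <;> rcases hcase k hk with h' | h'
    · rw [h, h']
    · subst h
      exact absurd (ha k l h' h1) h2
    · subst h'
      exact absurd (ha i l h h2) h1
    · exact hp.2 i k h h' l h1 h2

/-- Every element of `𝔫` has a normal form in its two-sided orbit. -/
lemma exists_normal (y : NT n F) :
    ∃ u v : UT n F, RowsNormal 0 (tri u y v : Matrix (Fin n) (Fin n) F) := by
  have key : ∀ d : ℕ, d ≤ n →
      ∃ u v : UT n F, RowsNormal (n - d) (tri u y v : Matrix (Fin n) (Fin n) F) := by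
    intro d
    induction d with
    | zero =>
      intro _
      refine ⟨1, 1, fun i hi => ?_, fun i k hi => ?_⟩
      · exact absurd i.2 (not_lt.mpr (by simpa using hi))
      · exact absurd i.2 (not_lt.mpr (by simpa using hi))
    | succ d ih =>
      intro hd
      apply normal_step (n - (d + 1)) (by omega) y
      have := ih (by omega)
      rwa [show n - (d + 1) + 1 = n - d by omega]
  have := key n le_rfl
  rwa [Nat.sub_self] at this

end Pool.Agent.Helper59.Andre
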