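import Mathlib
import Pool.Agent.Helper59.Andre1

set_option autoImplicit false

namespace Pool.Agent.Helper59.Andre

variable {n : ℕ} {F : Type} [Field F]

lemma exists_char_ne_one [Finite F] {θ : AddChar F ℂ} (hθ : θ ≠ 1) {c : F} (hc : c ≠ 0) :
    ∃ t : F, θ (c * t) ≠ 1 := by
  by_contra hcon
  push Not at hcon
  apply hθ
  ext x
  have := hcon (c⁻¹ * x)
  rw [← mul_assoc, mul_inv_cancel₀ hc, one_mul] at this
  simpa using this

section Fin

variable [Fintype F] [Fintype (UT n F)]

/-- The averaged box function. -/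
noncomputable def Sbox (θ : AddChar F ℂ) (i j : Fin n) (a : F) (y : Matrix (Fin n) (Fin n) F) : ℂ :=
  ∑ u : UT n F, ∑ v : UT n F, θ (a * (mat u * y * mat v) i j)

omit [Fintype F] in
lemma Sbox_tri (θ : AddChar F ℂ) (i j : Fin n) (a : F) (y : NT n F) (u₀ v₀ : UT n F) :
    Sbox θ i j a (tri u₀ y v₀ : Matrix (Fin n) (Fin n) F) =
      Sbox θ i j a (y : Matrix (Fin n) (Fin n) F) := by
  unfold Sbox
  have h1 : ∀ u v : UT n F, mat u * (tri u₀ y v₀ : Matrix (Fin n) (Fin n) F) * mat v =
      mat (u * u₀) * (y : Matrix (Fin n) (Fin n) F) * mat (v₀ * v) := by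
    intro u v
    rw [tri_coe, mat_mul, mat_mul]
    simp only [Matrix.mul_assoc]
  simp only [h1]
  rw [← Equiv.sum_comp (Equiv.mulRight u₀) (fun u => ∑ v : UT n F,
    θ (a * (mat u * (y : Matrix (Fin n) (Fin n) F) * mat v) i j))]
  apply Finset.sum_congr rfl
  intro u _
  rw [← Equiv.sum_comp (Equiv.mulLeft v₀) (fun v =>
    θ (a * (mat (Equiv.mulRight u₀ u) * (y : Matrix (Fin n) (Fin n) F) * mat v) i j))]
  rfl

omit [Fintype F] in
/-- A linear form in the part of column `j` strictly above the diagonal sums to zero. -/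
lemma inner_sum [Finite F] {θ : AddChar F ℂ} (hθ : θ ≠ 1) (j : Fin n) {a : F} (ha : a ≠ 0)
    (c : Fin n → F) (hc : ∀ l, j ≤ l → c l = 0) (hne : c ≠ 0) :
    ∑ v : UT n F, θ (a * ∑ l, c l * mat v l j) = 0 := by
  obtain ⟨l, hl⟩ : ∃ l, c l ≠ 0 := by
    by_contra hcon
    push Not at hcon
    exact hne (funext hcon)
  have hlj : l < j := by
    by_contra h
    exact hl (hc l (not_lt.mp h))
  obtain ⟨t, ht⟩ := exists_char_ne_one hθ (mul_ne_zero ha hl)
  set s := ∑ v : UT n F, θ (a * ∑ l, c l * mat v l j) with hs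
  have h1 : s = θ (a * c l * t) * s := by
    conv_lhs => rw [hs, ← Equiv.sum_comp (Equiv.mulLeft (el hlj t))]
    rw [hs, Finset.mul_sum]
    apply Finset.sum_congr rfl
    intro v _
    rw [← AddChar.map_add_eq_mul]
    congr 1
    have h2 : ∀ m, mat (el hlj t * v) m j = mat v m j + if m = l then t else 0 := by
      intro m
      rw [mat_mul, mat_el, transvection_mul_apply', mat_diag, mul_one]
    have h5 : ∑ m, c m * (if m = l then t else 0) = c l * t := by
      rw [Finset.sum_eq_single l]
      · rw [if_pos rfl]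
      · intro m _ hm
        rw [if_neg hm, mul_zero]
      · intro h; exact absurd (Finset.mem_univ l) h
    simp only [Equiv.coe_mulLeft, h2, mul_add, Finset.sum_add_distrib]
    rw [h5]
    ring
  have h3 : (1 - θ (a * c l * t)) * s = 0 := by
    rw [sub_mul, one_mul, ← h1, sub_self]
  rcases mul_eq_zero.mp h3 with h | h
  · exact absurd (sub_eq_zero.mp h).symm ht
  · exact h

omit [Fintype F] in
/-- The reduced sum is not zero. -/
lemma reduced_ne_zero [Finite F] {θ : AddChar F ℂ} (hθ : θ ≠ 1) (i j : Fin n) {a : F} (ha : a ≠ 0)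
    (y : Matrix (Fin n) (Fin n) F) (hi : ∀ l, y i l = 0)
    (hj : ∀ k l, j ≤ l → y k l = 0) :
    Sbox θ i j a y ≠ 0 := by
  classical
  unfold Sbox
  have h1 : ∀ u : UT n F, ∑ v : UT n F, θ (a * (mat u * y * mat v) i j) =
      if (fun l => (mat u * y) i l) = 0 then (Fintype.card (UT n F) : ℂ) else 0 := by
    intro u
    have h2 : ∀ v : UT n F, (mat u * y * mat v) i j = ∑ l, (fun l => (mat u * y) i l) l * mat v l j :=
      fun v => Matrix.mul_apply
    simp only [h2]
    split_ifs with h
    · simp only [h]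
      simp
    · apply inner_sum hθ j ha _ _ h
      intro l hl
      rw [Matrix.mul_apply]
      apply Finset.sum_eq_zero
      intro k _
      rw [hj k l hl, mul_zero]
  simp only [h1]
  rw [← Finset.sum_filter, Finset.sum_const, nsmul_eq_mul]
  apply mul_ne_zero
  · rw [Nat.cast_ne_zero, Finset.card_ne_zero]
    refine ⟨1, ?_⟩
    simp only [Finset.mem_filter, Finset.mem_univ, true_and]
    funext l
    rw [mat_one, Matrix.one_mul]
    exact hi l
  · rw [Nat.cast_ne_zero]
    exact Fintype.card_ne_zero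

/-- Reduced matrix: keep only entries with `i < k` and `l < j`. -/
def red (i j : Fin n) (y : Matrix (Fin n) (Fin n) F) : Matrix (Fin n) (Fin n) F :=
  fun k l => if i < k ∧ l < j then y k l else 0

omit [Fintype F] in
lemma Sbox_eval (θ : AddChar F ℂ) (i j : Fin n) (a : F) (y : NT n F)
    (h1 : ∀ l, l < j → (y : Matrix (Fin n) (Fin n) F) i l = 0)
    (h2 : ∀ k, i < k → (y : Matrix (Fin n) (Fin n) F) k j = 0) :
    Sbox θ i j a (y : Matrix (Fin n) (Fin n) F) =
      θ (a * (y : Matrix (Fin n) (Fin n) F) i j) *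
        Sbox θ i j a (red i j (y : Matrix (Fin n) (Fin n) F)) := by
  unfold Sbox
  rw [Finset.mul_sum]
  apply Finset.sum_congr rfl
  intro u _
  rw [Finset.mul_sum]
  apply Finset.sum_congr rfl
  intro v _
  rw [← AddChar.map_add_eq_mul]
  congr 1
  rw [← mul_add]
  congr 1
  have hexp : ∀ z : Matrix (Fin n) (Fin n) F, (mat u * z * mat v) i j =
      ∑ l, ∑ k, mat u i k * z k l * mat v l j := by
    intro z
    rw [Matrix.mul_apply]
    apply Finset.sum_congr rfl
    intro l _
    rw [Matrix.mul_apply, Finset.sum_mul]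
  rw [hexp, hexp]
  have hterm : ∀ l k : Fin n, mat u i k * (y : Matrix (Fin n) (Fin n) F) k l * mat v l j =
      (if k = i ∧ l = j then (y : Matrix (Fin n) (Fin n) F) i j else 0) +
        mat u i k * (red i j (y : Matrix (Fin n) (Fin n) F)) k l * mat v l j := by
    intro l k
    unfold red
    rcases lt_trichotomy k i with hk | hk | hk
    · rw [mat_lower u hk, if_neg (fun h => hk.ne h.1), if_neg (fun h => absurd h.1 (not_lt.mpr hk.le))]
      ring
    · subst hk
      have e2 : ¬ (k < k ∧ l < j) := fun h => absurd h.1 (lt_irrefl _)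
      rw [mat_diag, if_neg e2]
      rcases lt_trichotomy l j with hl | hl | hl
      · rw [h1 l hl, if_neg (fun h => hl.ne h.2)]; ring
      · subst hl
        rw [mat_diag, if_pos ⟨rfl, rfl⟩]; ring
      · rw [mat_lower v hl, if_neg (fun h => hl.ne' h.2)]; ring
    · rw [if_neg (fun h => hk.ne' h.1)]
      rcases lt_trichotomy l j with hl | hl | hl
      · rw [if_pos ⟨hk, hl⟩, zero_add]
      · subst hl
        rw [h2 k hk, if_neg (fun h => absurd h.2 (lt_irrefl _))]; ring
      · rw [mat_lower v hl]; ring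
  simp only [hterm, Finset.sum_add_distrib]
  congr 1
  rw [Finset.sum_eq_single j, Finset.sum_eq_single i]
  · rw [if_pos ⟨rfl, rfl⟩]
  · intro k _ hk
    rw [if_neg (fun h => hk h.1)]
  · intro h; exact absurd (Finset.mem_univ i) h
  · intro l _ hl
    apply Finset.sum_eq_zero
    intro k _
    rw [if_neg (fun h => hl h.2)]
  · intro h; exact absurd (Finset.mem_univ j) h

omit [Fintype F] in
/-- Two normal forms with equal box sums are equal. -/
lemma normal_unique [Finite F] {θ : AddChar F ℂ} (hθ : θ ≠ 1) (y y' : NT n F)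
    (hy : RowsNormal 0 (y : Matrix (Fin n) (Fin n) F))
    (hy' : RowsNormal 0 (y' : Matrix (Fin n) (Fin n) F))
    (h : ∀ i j : Fin n, i < j → ∀ a : F, a ≠ 0 →
      Sbox θ i j a (y : Matrix (Fin n) (Fin n) F) = Sbox θ i j a (y' : Matrix (Fin n) (Fin n) F)) :
    y = y' := by
  have key : ∀ d : ℕ, ∀ i j : Fin n, i < j → j.val - i.val = d →
      (y : Matrix (Fin n) (Fin n) F) i j = (y' : Matrix (Fin n) (Fin n) F) i j := by
    intro d
    induction d using Nat.strong_induction_on with
    | _ d ih =>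
      intro i j hij hd
      have hsmall : ∀ k l : Fin n, i ≤ k → l ≤ j → ¬ (k = i ∧ l = j) →
          (y : Matrix (Fin n) (Fin n) F) k l = (y' : Matrix (Fin n) (Fin n) F) k l := by
        intro k l hk hl hne
        by_cases hkl : k < l
        · refine ih (l.val - k.val) ?_ k l hkl rfl
          rw [Fin.lt_def] at hkl hij
          rw [Fin.le_def] at hk hl
          have : ¬ (k.val = i.val ∧ l.val = j.val) := fun hh => hne ⟨Fin.ext hh.1, Fin.ext hh.2⟩
          omega
        · rw [y.2 k l (not_lt.mp hkl), y'.2 k l (not_lt.mp hkl)]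
      by_cases hc1 : ∃ l, l < j ∧ (y : Matrix (Fin n) (Fin n) F) i l ≠ 0
      · obtain ⟨l, hl, hne⟩ := hc1
        have hne' : (y' : Matrix (Fin n) (Fin n) F) i l ≠ 0 := by
          rwa [← hsmall i l le_rfl hl.le (fun hh => hl.ne hh.2)]
        have e1 : (y : Matrix (Fin n) (Fin n) F) i j = 0 := by
          by_contra hh
          exact hl.ne (hy.1 i (Nat.zero_le _) l j hne hh)
        have e2 : (y' : Matrix (Fin n) (Fin n) F) i j = 0 := by
          by_contra hh
          exact hl.ne (hy'.1 i (Nat.zero_le _) l j hne' hh)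
        rw [e1, e2]
      by_cases hc2 : ∃ k, i < k ∧ (y : Matrix (Fin n) (Fin n) F) k j ≠ 0
      · obtain ⟨k, hk, hne⟩ := hc2
        have hne' : (y' : Matrix (Fin n) (Fin n) F) k j ≠ 0 := by
          rwa [← hsmall k j hk.le le_rfl (fun hh => hk.ne' hh.1)]
        have e1 : (y : Matrix (Fin n) (Fin n) F) i j = 0 := by
          by_contra hh
          exact hk.ne (hy.2 i k (Nat.zero_le _) (Nat.zero_le _) j hh hne)
        have e2 : (y' : Matrix (Fin n) (Fin n) F) i j = 0 := by
          by_contra hh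
          exact hk.ne (hy'.2 i k (Nat.zero_le _) (Nat.zero_le _) j hh hne')
        rw [e1, e2]
      push Not at hc1 hc2
      have hc1' : ∀ l, l < j → (y' : Matrix (Fin n) (Fin n) F) i l = 0 := by
        intro l hl
        rw [← hsmall i l le_rfl hl.le (fun hh => hl.ne hh.2)]
        exact hc1 l hl
      have hc2' : ∀ k, i < k → (y' : Matrix (Fin n) (Fin n) F) k j = 0 := by
        intro k hk
        rw [← hsmall k j hk.le le_rfl (fun hh => hk.ne' hh.1)]
        exact hc2 k hk
      have hred : red i j (y : Matrix (Fin n) (Fin n) F) = red i j (y' : Matrix (Fin n) (Fin n) F) := by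
        ext k l
        unfold red
        split_ifs with hh
        · exact hsmall k l hh.1.le hh.2.le (fun h3 => hh.1.ne' h3.1)
        · rfl
      by_contra hne
      have hsub : (y : Matrix (Fin n) (Fin n) F) i j - (y' : Matrix (Fin n) (Fin n) F) i j ≠ 0 :=
        sub_ne_zero.mpr hne
      obtain ⟨a, ha⟩ := exists_char_ne_one hθ hsub
      have ha0 : a ≠ 0 := by
        rintro rfl
        simp at ha
      have h3 := h i j hij a ha0
      rw [Sbox_eval θ i j a y hc1 hc2, Sbox_eval θ i j a y' hc1' hc2', ← hred] at h3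
      have hT : Sbox θ i j a (red i j (y : Matrix (Fin n) (Fin n) F)) ≠ 0 := by
        apply reduced_ne_zero hθ i j ha0
        · intro l
          unfold red
          rw [if_neg (fun hh => absurd hh.1 (lt_irrefl _))]
        · intro k l hl
          unfold red
          rw [if_neg (fun hh => absurd hh.2 (not_lt.mpr hl))]
      have h4 := mul_right_cancel₀ hT h3
      apply ha
      have h5 : θ (((y : Matrix (Fin n) (Fin n) F) i j - (y' : Matrix (Fin n) (Fin n) F) i j) * a) *
          θ (a * (y' : Matrix (Fin n) (Fin n) F) i j) = 1 * θ (a * (y' : Matrix (Fin n) (Fin n) F) i j) := by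
        rw [← AddChar.map_add_eq_mul, one_mul, ← h4]
        congr 1
        ring
      have h6 : θ (a * (y' : Matrix (Fin n) (Fin n) F) i j) ≠ 0 := by
        intro h0
        have : θ (a * (y' : Matrix (Fin n) (Fin n) F) i j + -(a * (y' : Matrix (Fin n) (Fin n) F) i j)) = 1 := by
          rw [add_neg_cancel]; exact AddChar.map_zero_eq_one θ
        rw [AddChar.map_add_eq_mul, h0, zero_mul] at this
        exact zero_ne_one this
      exact mul_right_cancel₀ h6 h5
  apply Subtype.ext
  ext i j
  by_cases hij : i < j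
  · exact key _ i j hij rfl
  · rw [y.2 i j (not_lt.mp hij), y'.2 i j (not_lt.mp hij)]

omit [Fintype F] in
/-- Box sums separate two-sided orbits in `𝔫`. -/
theorem separation [Finite F] {θ : AddChar F ℂ} (hθ : θ ≠ 1) (y y' : NT n F)
    (h : ∀ i j : Fin n, i < j → ∀ a : F, a ≠ 0 →
      Sbox θ i j a (y : Matrix (Fin n) (Fin n) F) = Sbox θ i j a (y' : Matrix (Fin n) (Fin n) F)) :
    ∃ u v : UT n F, y' = tri u y v := by
  obtain ⟨u, v, huv⟩ := exists_normal y
  obtain ⟨u', v', huv'⟩ := exists_normal y'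
  have e : tri u y v = tri u' y' v' := by
    apply normal_unique hθ _ _ huv huv'
    intro i j hij a ha
    rw [Sbox_tri, Sbox_tri]
    exact h i j hij a ha
  refine ⟨u'⁻¹ * u, v * v'⁻¹, ?_⟩
  rw [← tri_tri, e, tri_tri, inv_mul_cancel, mul_inv_cancel, tri_one]

end Fin

end Pool.Agent.Helper59.Andre
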