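import Mathlib
import Pool.Agent.Helper59.Andre2

set_option autoImplicit false

namespace Pool.Agent.Helper59.Andre

/-- The set `Irr(G)` of irreducible complex characters of `G`. -/
def Irr (G : Type) [Group G] : Set (G → ℂ) :=
  {χ | ∃ (V : Type) (_ : AddCommGroup V) (_ : Module ℂ V) (_ : FiniteDimensional ℂ V)
    (ρ : Representation ℂ G V), ρ.IsIrreducible ∧ χ = ρ.character}

/-- `σ_A = ∑_{ψ ∈ A} ψ(1) ψ`. -/
noncomputable def sigma {G : Type} [Group G] (A : Set (G → ℂ)) (g : G) : ℂ :=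
  ∑ᶠ ψ ∈ A, ψ 1 * ψ g

/-- Supercharacter theories (Diaconis-Isaacs). -/
structure IsSCT {G : Type} [Group G] (X : Set (Set (G → ℂ))) (K : Set (Set G)) : Prop where
  block_nonempty : ∀ A ∈ X, A.Nonempty
  block_sub : ∀ A ∈ X, A ⊆ Irr G
  partX : ∀ ψ ∈ Irr G, ∃! A, A ∈ X ∧ ψ ∈ A
  class_nonempty : ∀ B ∈ K, B.Nonempty
  partK : ∀ g : G, ∃! B, B ∈ K ∧ g ∈ B
  card_eq : X.ncard = K.ncard
  one_mem : {1} ∈ K
  const : ∀ A ∈ X, ∀ B ∈ K, ∀ g ∈ B, ∀ h ∈ B, sigma A g = sigma A h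

variable {n : ℕ} {F : Type} [Field F]

/-- `g ↦ ∑_{μ ∈ UλU} θ(μ(g-1))`. -/
noncomputable def superFun (θ : AddChar F ℂ) (lam : Module.Dual F (NT n F)) (g : UT n F) : ℂ :=
  ∑ᶠ μ ∈ dualOrbit lam, θ (μ (subOne g))

/-- The superclass of `x`. -/
def superclass (x : UT n F) : Set (UT n F) := {g | ∃ u v : UT n F, subOne g = tri u (subOne x) v}

/-- The partition of `U_n(F)` into superclasses. -/
def andreK (n : ℕ) (F : Type) [Field F] : Set (Set (UT n F)) := Set.range superclass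

/-- `X` contains all single-box characters as irreducible characters. -/
def ContainsBoxes (θ : AddChar F ℂ) (X : Set (Set (UT n F → ℂ))) : Prop :=
  ∀ i j : Fin n, i < j → ∀ a : F, a ≠ 0 → ∃ ψ ∈ Irr (UT n F),
    (∃ c : ℝ, 0 < c ∧ ∀ g, ψ g = c * superFun θ (box i j a) g) ∧ {ψ} ∈ X

/-- Sum over a group of a function on an orbit. -/
lemma sum_smul_orbit {Γ α : Type*} [Group Γ] [Fintype Γ] [MulAction Γ α] (f : α → ℂ) (a : α) :
    ∑ γ : Γ, f (γ • a) =
      (Nat.card (MulAction.stabilizer Γ a) : ℂ) * ∑ᶠ b ∈ MulAction.orbit Γ a, f b := by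
  classical
  have hfin : (MulAction.orbit Γ a).Finite := Set.finite_range _
  rw [finsum_mem_eq_finite_toFinset_sum _ hfin]
  have hmaps : ∀ γ ∈ (Finset.univ : Finset Γ), γ • a ∈ hfin.toFinset := by
    intro γ _
    rw [Set.Finite.mem_toFinset]
    exact ⟨γ, rfl⟩
  rw [← Finset.sum_fiberwise_of_maps_to hmaps, Finset.mul_sum]
  apply Finset.sum_congr rfl
  intro b hb
  rw [Set.Finite.mem_toFinset] at hb
  obtain ⟨γ₀, rfl⟩ := hb
  have h1 : ∀ γ ∈ Finset.univ.filter (fun γ : Γ => γ • a = γ₀ • a), f (γ • a) = f (γ₀ • a) := by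
    intro γ hγ
    rw [Finset.mem_filter] at hγ
    rw [hγ.2]
  change ∑ γ ∈ Finset.univ.filter (fun γ : Γ => γ • a = γ₀ • a), f (γ • a) = _ * f (γ₀ • a)
  rw [Finset.sum_congr rfl h1, Finset.sum_const, nsmul_eq_mul]
  congr 2
  rw [Nat.card_eq_fintype_card, Fintype.card_subtype]
  apply Finset.card_bij' (fun γ _ => γ₀⁻¹ * γ) (fun s _ => γ₀ * s)
  · intro γ hγ
    rw [Finset.mem_filter] at hγ ⊢
    refine ⟨Finset.mem_univ _, ?_⟩
    rw [MulAction.mem_stabilizer_iff, mul_smul, hγ.2, inv_smul_smul]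
  · intro s hs
    rw [Finset.mem_filter] at hs ⊢
    refine ⟨Finset.mem_univ _, ?_⟩
    rw [mul_smul, MulAction.mem_stabilizer_iff.mp hs.2]
  · intro γ _
    simp
  · intro s _
    simp

lemma dualTri_dualTri (u u' v v' : UT n F) (μ : Module.Dual F (NT n F)) :
    dualTri u (dualTri u' μ v') v = dualTri (u' * u) μ (v * v') := by
  apply LinearMap.ext
  intro y
  change μ (tri u' (tri u y v) v') = μ (tri (u' * u) y (v * v'))
  rw [tri_tri]

lemma dualTri_one (μ : Module.Dual F (NT n F)) : dualTri 1 μ 1 = μ := by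
  apply LinearMap.ext
  intro y
  change μ (tri 1 y 1) = μ y
  rw [tri_one]

/-- The action of `U × U` on functionals. -/
@[reducible] def dualAct : MulAction (UT n F × UT n F) (Module.Dual F (NT n F)) where
  smul p μ := dualTri p.1⁻¹ μ p.2
  one_smul μ := by
    change dualTri (1 : UT n F)⁻¹ μ 1 = μ
    rw [inv_one, dualTri_one]
  mul_smul p q μ := by
    change dualTri (p.1 * q.1)⁻¹ μ (p.2 * q.2) = dualTri p.1⁻¹ (dualTri q.1⁻¹ μ q.2) p.2
    rw [dualTri_dualTri, mul_inv_rev]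

/-- The action of `U × U` on `𝔫`. -/
@[reducible] def nAct : MulAction (UT n F × UT n F) (NT n F) where
  smul p y := tri p.1 y p.2⁻¹
  one_smul y := by
    change tri (1 : UT n F) y (1 : UT n F)⁻¹ = y
    rw [inv_one, tri_one]
  mul_smul p q y := by
    change tri (p.1 * q.1) y (p.2 * q.2)⁻¹ = tri p.1 (tri q.1 y q.2⁻¹) p.2⁻¹
    rw [tri_tri, mul_inv_rev]

attribute [local instance] dualAct nAct

lemma dualOrbit_eq (μ : Module.Dual F (NT n F)) :
    dualOrbit μ = MulAction.orbit (UT n F × UT n F) μ := by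
  ext ν
  constructor
  · rintro ⟨u, v, rfl⟩
    refine ⟨(u⁻¹, v), ?_⟩
    change dualTri (u⁻¹)⁻¹ μ v = _
    rw [inv_inv]
  · rintro ⟨⟨u, v⟩, rfl⟩
    exact ⟨u⁻¹, v, rfl⟩

/-- Averages over `U × U` are positive multiples of orbit sums. -/
lemma avg_eq [Fintype (UT n F)] (f : Module.Dual F (NT n F) → ℂ) (μ : Module.Dual F (NT n F)) :
    ∃ k : ℕ, 0 < k ∧
      ∑ u : UT n F, ∑ v : UT n F, f (dualTri u μ v) = (k : ℂ) * ∑ᶠ ν ∈ dualOrbit μ, f ν := by
  refine ⟨Nat.card (MulAction.stabilizer (UT n F × UT n F) μ), Nat.card_pos, ?_⟩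
  rw [dualOrbit_eq, ← sum_smul_orbit, Fintype.sum_prod_type]
  rw [← Equiv.sum_comp (Equiv.inv (UT n F))]
  rfl

lemma finite_dual [Finite F] : Finite (Module.Dual F (NT n F)) := by
  haveI : Finite (NT n F) := inferInstance
  exact Module.finite_of_finite F

lemma dualOrbit_finite [Finite F] (μ : Module.Dual F (NT n F)) : (dualOrbit μ).Finite := by
  haveI := finite_dual (n := n) (F := F)
  exact Set.toFinite _

lemma self_mem_dualOrbit (μ : Module.Dual F (NT n F)) : μ ∈ dualOrbit μ :=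
  ⟨1, 1, (dualTri_one μ).symm⟩

lemma subOne_one : subOne (1 : UT n F) = 0 := by
  apply Subtype.ext
  change mat 1 - 1 = 0
  rw [mat_one, sub_self]

lemma superFun_one [Finite F] (θ : AddChar F ℂ) (μ : Module.Dual F (NT n F)) :
    superFun θ μ 1 = ((dualOrbit μ).ncard : ℂ) := by
  unfold superFun
  rw [finsum_mem_eq_finite_toFinset_sum _ (dualOrbit_finite μ), subOne_one]
  simp only [map_zero, AddChar.map_zero_eq_one]
  rw [Finset.sum_const, nsmul_eq_mul, mul_one, Set.ncard_eq_toFinset_card _ (dualOrbit_finite μ)]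

lemma superFun_one_ne_zero [Finite F] (θ : AddChar F ℂ) (μ : Module.Dual F (NT n F)) :
    superFun θ μ 1 ≠ 0 := by
  rw [superFun_one, Nat.cast_ne_zero]
  exact ((Set.ncard_pos (dualOrbit_finite μ)).mpr ⟨μ, self_mem_dualOrbit μ⟩).ne'

lemma superFun_sep [Finite F] {θ : AddChar F ℂ} (hθ : θ ≠ 1) (g h : UT n F)
    (e : ∀ i j : Fin n, i < j → ∀ a : F, a ≠ 0 →
      superFun θ (box i j a) g = superFun θ (box i j a) h) : h ∈ superclass g := by
  haveI : Fintype (UT n F) := Fintype.ofFinite _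
  apply separation hθ
  intro i j hij a ha
  have key : ∀ x : UT n F, Sbox θ i j a (subOne x : Matrix (Fin n) (Fin n) F) =
      ∑ u : UT n F, ∑ v : UT n F, (fun μ : Module.Dual F (NT n F) => θ (μ (subOne x)))
        (dualTri u (box i j a) v) := fun x => rfl
  have avg : ∃ k : ℕ, ∀ x : UT n F, Sbox θ i j a (subOne x : Matrix (Fin n) (Fin n) F) =
      (k : ℂ) * superFun θ (box i j a) x := by
    refine ⟨Nat.card (MulAction.stabilizer (UT n F × UT n F) (box i j a)), ?_⟩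
    intro x
    rw [key x]
    unfold superFun
    rw [dualOrbit_eq, ← sum_smul_orbit, Fintype.sum_prod_type]
    rw [← Equiv.sum_comp (Equiv.inv (UT n F))]
    rfl
  obtain ⟨k, hk⟩ := avg
  rw [hk g, hk h, e i j hij a ha]

/-- Every theory containing the boxes has superclasses inside the superclasses of André. -/
theorem coarse_K [Finite F] {θ : AddChar F ℂ} (hθ : θ ≠ 1) {X : Set (Set (UT n F → ℂ))}
    {K : Set (Set (UT n F))} (hXK : IsSCT X K) (hbox : ContainsBoxes θ X) :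
    ∀ B ∈ K, ∃ C ∈ andreK n F, B ⊆ C := by
  intro B hB
  obtain ⟨g, hg⟩ := hXK.class_nonempty B hB
  refine ⟨superclass g, ⟨g, rfl⟩, ?_⟩
  intro h hh
  apply superFun_sep hθ
  intro i j hij a ha
  obtain ⟨ψ, _, ⟨c, hc, hψ⟩, hX⟩ := hbox i j hij a ha
  have h1 := hXK.const _ hX B hB g hg h hh
  unfold sigma at h1
  rw [finsum_mem_singleton, finsum_mem_singleton] at h1
  have hc' : (c : ℂ) ≠ 0 := by exact_mod_cast hc.ne'
  have h2 : ψ 1 ≠ 0 := by
    rw [hψ 1]
    exact mul_ne_zero hc' (superFun_one_ne_zero θ _)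
  have h3 := mul_left_cancel₀ h2 h1
  rw [hψ g, hψ h] at h3
  exact mul_left_cancel₀ hc' h3

end Pool.Agent.Helper59.Andre
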