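import Mathlib
import Pool.Agent.Helper59.Andre3

set_option autoImplicit false

namespace Pool.Agent.Helper59.Andre

open scoped MonoidAlgebra

section Schur

variable {G : Type} [Group G] [Fintype G]

/-- `∑_g f(g) ρ(g⁻¹)`. -/
noncomputable def opf {V : Type} [AddCommGroup V] [Module ℂ V] (ρ : Representation ℂ G V)
    (f : G → ℂ) : V →ₗ[ℂ] V := ∑ g, f g • ρ g⁻¹

lemma opf_scalar {V : Type} [AddCommGroup V] [Module ℂ V] [FiniteDimensional ℂ V]
    (ρ : Representation ℂ G V) (hρ : ρ.IsIrreducible) (f : G → ℂ)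
    (hf : ∀ g h, f (h * g * h⁻¹) = f g) :
    ∃ c : ℂ, opf ρ f = c • LinearMap.id ∧
      c * ρ.character 1 = ∑ g, f g * ρ.character g⁻¹ := by
  haveI := hρ
  have hcomm : ∀ (h : G) (v : V), opf ρ f (ρ h v) = ρ h (opf ρ f v) := by
    intro h v
    unfold opf
    simp only [LinearMap.sum_apply, LinearMap.smul_apply, map_sum, map_smul]
    rw [← Equiv.sum_comp (MulAut.conj h).toEquiv
      (fun g => f g • (ρ g⁻¹) ((ρ h) v))]
    apply Finset.sum_congr rfl
    intro g _
    change f (h * g * h⁻¹) • (ρ (h * g * h⁻¹)⁻¹) ((ρ h) v) = _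
    rw [hf g h, ← LinearMap.comp_apply, ← LinearMap.comp_apply,
      ← Module.End.mul_eq_comp, ← Module.End.mul_eq_comp, ← map_mul, ← map_mul]
    congr 3
    group
  have hbij := Representation.IsIrreducible.algebraMap_intertwiningMap_bijective_of_isAlgClosed
    (ρ := ρ)
  obtain ⟨c, hc⟩ := hbij.2 ((opf ρ f).intertwiningMap_of_isIntertwiningMap ρ ρ hcomm)
  have h1 : opf ρ f = c • LinearMap.id := by
    have h2 := congrArg (fun T : Representation.IntertwiningMap ρ ρ => T.toLinearMap) hc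
    ext v
    have h3 := congrArg (fun T : V →ₗ[ℂ] V => T v) h2
    rw [LinearMap.smul_apply, LinearMap.id_apply]
    rw [← LinearMap.toIntertwiningMap ρ ρ (opf ρ f) hcomm v]
    change ((opf ρ f).intertwiningMap_of_isIntertwiningMap ρ ρ hcomm).toLinearMap v = _
    rw [← h3]
    rfl
  refine ⟨c, h1, ?_⟩
  have h4 := congrArg (LinearMap.trace ℂ V) h1
  rw [map_smul, LinearMap.trace_id] at h4
  rw [Representation.char_one, ← smul_eq_mul, ← h4]
  unfold opf
  rw [map_sum]
  apply Finset.sum_congr rfl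
  intro g _
  rw [map_smul, smul_eq_mul]
  rfl

set_option backward.isDefEq.respectTransparency false in
/-- A class function orthogonal to all irreducible characters vanishes. -/
theorem completeness (f : G → ℂ) (hf : ∀ g h, f (h * g * h⁻¹) = f g)
    (h0 : ∀ ψ ∈ Irr G, ∑ g, f g * ψ g⁻¹ = 0) : f = 0 := by
  classical
  let z : ℂ[G] := ∑ g, MonoidAlgebra.single g⁻¹ (f g)
  have hzcomm : ∀ a : ℂ[G], z * a = a * z := by
    intro a
    induction a using MonoidAlgebra.induction_on with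
    | of h =>
      simp only [z, MonoidAlgebra.of_apply, Finset.sum_mul, Finset.mul_sum,
        MonoidAlgebra.single_mul_single, mul_one, one_mul]
      rw [← Equiv.sum_comp (MulAut.conj h).toEquiv
        (fun g => MonoidAlgebra.single (g⁻¹ * h) (f g))]
      apply Finset.sum_congr rfl
      intro g _
      change MonoidAlgebra.single ((h * g * h⁻¹)⁻¹ * h) (f (h * g * h⁻¹)) = _
      rw [hf g h]
      congr 1
      group
    | add a b ha hb => rw [mul_add, add_mul, ha, hb]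
    | smul r a ha => rw [mul_smul_comm, smul_mul_assoc, ha]
  let K : Submodule ℂ[G] ℂ[G] :=
    { carrier := {x | z * x = 0}
      add_mem' := by
        intro a b ha hb
        change z * (a + b) = 0
        rw [mul_add, ha, hb, add_zero]
      zero_mem' := mul_zero z
      smul_mem' := by
        intro c x hx
        change z * (c * x) = 0
        rw [← mul_assoc, hzcomm c, mul_assoc, hx, mul_zero] }
  have hK : K = ⊤ := by
    rw [eq_top_iff, ← IsSemisimpleModule.sSup_simples_eq_top ℂ[G] ℂ[G]]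
    apply sSup_le
    intro N hN x hx
    change z * x = 0
    have hN' : IsSimpleModule ℂ[G] N := hN
    let ρ : Representation ℂ G (RestrictScalars ℂ ℂ[G] N) := Representation.ofModule N
    have hirr : ρ.IsIrreducible := (Representation.isSimpleModule_iff_irreducible_ofModule N).mp hN'
    haveI hfd : FiniteDimensional ℂ (RestrictScalars ℂ ℂ[G] N) := by
      haveI : Module.Finite ℂ ℂ[G] := inferInstance
      let e : RestrictScalars ℂ ℂ[G] N →ₗ[ℂ] ℂ[G] :=
        { toFun := fun x => ((RestrictScalars.addEquiv ℂ ℂ[G] N x : N) : ℂ[G])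
          map_add' := by
            intro a b
            simp
          map_smul' := by
            intro c a
            rw [RestrictScalars.addEquiv_map_smul, Submodule.coe_smul, smul_eq_mul,
              RingHom.id_apply, Algebra.smul_def] }
      apply FiniteDimensional.of_injective e
      intro a b hab
      exact (RestrictScalars.addEquiv ℂ ℂ[G] N).injective (Subtype.ext hab)
    obtain ⟨c, hc1, hc2⟩ := opf_scalar ρ hirr f hf
    have hIrr : ρ.character ∈ Irr G := ⟨_, _, _, hfd, ρ, hirr, rfl⟩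
    rw [h0 _ hIrr, Representation.char_one] at hc2
    have hop : ρ.asAlgebraHom z = opf ρ f := by
      simp only [z, opf, map_sum, Representation.asAlgebraHom_single]
    have hnt : Nontrivial (RestrictScalars ℂ ℂ[G] N) :=
      (RestrictScalars.addEquiv ℂ ℂ[G] N).toEquiv.nontrivial_congr.mpr
        (IsSimpleModule.nontrivial ℂ[G] N)
    have hc : c = 0 := by
      rcases mul_eq_zero.mp hc2 with h | h
      · exact h
      · exfalso
        have : 0 < Module.finrank ℂ (RestrictScalars ℂ ℂ[G] N) := Module.finrank_pos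
        rw [Nat.cast_eq_zero] at h
        omega
    have h5 := Representation.ofModule_asAlgebraHom_apply_apply (k := ℂ) (G := G) (M := N) z
      ((RestrictScalars.addEquiv ℂ ℂ[G] N).symm ⟨x, hx⟩)
    have h6 : (Representation.ofModule (k := ℂ) (G := G) N).asAlgebraHom z = 0 := by
      change ρ.asAlgebraHom z = 0
      rw [hop, hc1, hc, zero_smul]
    rw [h6, LinearMap.zero_apply, AddEquiv.apply_symm_apply] at h5
    have h7 : z • (⟨x, hx⟩ : N) = 0 := by
      apply (RestrictScalars.addEquiv ℂ ℂ[G] N).symm.injective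
      rw [← h5, map_zero]
    exact congrArg Subtype.val h7
  have hz : z = 0 := by
    have h1 : (1 : ℂ[G]) ∈ K := by rw [hK]; trivial
    have h2 : z * 1 = 0 := h1
    rwa [mul_one] at h2
  funext g
  have h3 : z.coeff g⁻¹ = 0 := by rw [hz]; rfl
  simp only [z] at h3
  rw [MonoidAlgebra.coeff_sum] at h3
  simpa [Finsupp.single_apply] using h3

lemma opf_mul {V : Type} [AddCommGroup V] [Module ℂ V] (ρ : Representation ℂ G V)
    (f f' : G → ℂ) (hf' : ∀ g h, f' (h * g * h⁻¹) = f' g) :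
    opf ρ f ∘ₗ opf ρ f' = opf ρ (fun g => ∑ x, f x * f' (x⁻¹ * g)) := by
  ext v
  have hL : (opf ρ f ∘ₗ opf ρ f') v = ∑ x, ∑ y, (f x * f' y) • (ρ (y * x)⁻¹) v := by
    unfold opf
    simp only [LinearMap.comp_apply, LinearMap.sum_apply, LinearMap.smul_apply]
    apply Finset.sum_congr rfl
    intro x _
    rw [map_sum, Finset.smul_sum]
    apply Finset.sum_congr rfl
    intro y _
    rw [map_smul, smul_smul, mul_inv_rev, map_mul, Module.End.mul_apply]
  have hR : (opf ρ (fun g => ∑ x, f x * f' (x⁻¹ * g))) v =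
      ∑ x, ∑ g, (f x * f' (x⁻¹ * g)) • (ρ g⁻¹) v := by
    unfold opf
    simp only [LinearMap.sum_apply, LinearMap.smul_apply, Finset.sum_smul]
    rw [Finset.sum_comm]
  rw [hL, hR]
  apply Finset.sum_congr rfl
  intro x _
  rw [← Equiv.sum_comp (Equiv.mulRight x) (fun g => (f x * f' (x⁻¹ * g)) • (ρ g⁻¹) v)]
  apply Finset.sum_congr rfl
  intro y _
  change (f x * f' y) • (ρ (y * x)⁻¹) v = (f x * f' (x⁻¹ * (y * x))) • (ρ (y * x)⁻¹) v
  have h1 : f' (x⁻¹ * (y * x)) = f' y := by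
    rw [← hf' y x⁻¹]
    congr 1
    group
  rw [h1]

lemma irr_one_ne_zero {ψ : G → ℂ} (hψ : ψ ∈ Irr G) : ψ 1 ≠ 0 := by
  obtain ⟨V, _, _, _, ρ, hρ, rfl⟩ := hψ
  rw [Representation.char_one, Nat.cast_ne_zero]
  haveI : Nontrivial V := by
    by_contra hnt
    rw [not_nontrivial_iff_subsingleton] at hnt
    have h1 : (⊥ : Subrepresentation ρ) = ⊤ := by
      apply Subrepresentation.toSubmodule_injective
      exact Subsingleton.elim _ _
    exact (hρ.toNontrivial.exists_pair_ne).elim fun a ⟨b, hab⟩ => hab (by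
      rcases hρ.eq_bot_or_eq_top a with h | h <;> rcases hρ.eq_bot_or_eq_top b with h' | h' <;>
        simp [h, h', h1])
  exact Module.finrank_pos.ne'

lemma irr_conj {ψ : G → ℂ} (hψ : ψ ∈ Irr G) (g h : G) : ψ (h * g * h⁻¹) = ψ g := by
  obtain ⟨V, _, _, _, ρ, hρ, rfl⟩ := hψ
  exact Representation.char_conj ρ g h

lemma irr_ortho {ψ ψ' : G → ℂ} (hψ : ψ ∈ Irr G) (hψ' : ψ' ∈ Irr G) :
    (ψ = ψ' → ∑ g, ψ g * ψ' g⁻¹ = (Nat.card G : ℂ)) ∧ (ψ ≠ ψ' → ∑ g, ψ g * ψ' g⁻¹ = 0) := by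
  classical
  obtain ⟨V, _, _, _, ρ, hρ, rfl⟩ := hψ
  obtain ⟨W, _, _, _, σ, hσ, rfl⟩ := hψ'
  have hG : (Nat.card G : ℂ) ≠ 0 := by
    rw [Nat.cast_ne_zero]; exact Nat.card_pos.ne'
  haveI : Invertible (Nat.card G : ℂ) := invertibleOfNonzero hG
  haveI := hρ
  haveI := hσ
  constructor
  · intro h
    rw [← h]
    have h1 := Representation.char_orthonormal ρ ρ
    rw [if_pos ⟨Representation.Equiv.refl ρ⟩] at h1
    rw [inv_mul_eq_iff_eq_mul₀ hG] at h1
    rw [h1, mul_one]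
  · intro h
    have h1 := Representation.char_orthonormal ρ σ
    rw [if_neg] at h1
    · rw [inv_mul_eq_iff_eq_mul₀ hG] at h1
      rw [h1, mul_zero]
    · rintro ⟨e⟩
      exact h (Representation.char_iso e).symm

lemma irr_finite : (Irr G).Finite := by
  classical
  have hG : (Nat.card G : ℂ) ≠ 0 := by
    rw [Nat.cast_ne_zero]; exact Nat.card_pos.ne'
  have hli : LinearIndependent ℂ (fun ψ : Irr G => (ψ : G → ℂ)) := by
    rw [linearIndependent_iff']
    intro s c hc ψ hψ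
    have h1 : ∑ g, (∑ φ ∈ s, c φ • (φ : G → ℂ)) g * (ψ : G → ℂ) g⁻¹ = 0 := by
      rw [hc]; simp
    have h2 : ∑ g, (∑ φ ∈ s, c φ • (φ : G → ℂ)) g * (ψ : G → ℂ) g⁻¹ =
        ∑ φ ∈ s, c φ * ∑ g, (φ : G → ℂ) g * (ψ : G → ℂ) g⁻¹ := by
      simp only [Finset.sum_apply, Pi.smul_apply, smul_eq_mul, Finset.sum_mul, Finset.mul_sum,
        mul_assoc]
      rw [Finset.sum_comm]
    rw [h2, Finset.sum_eq_single_of_mem ψ hψ] at h1
    · rw [(irr_ortho ψ.2 ψ.2).1 rfl] at h1
      exact (mul_eq_zero.mp h1).resolve_right hG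
    · intro φ _ hne
      rw [(irr_ortho φ.2 ψ.2).2 (fun h => hne (Subtype.ext h)), mul_zero]
  exact Set.finite_coe_iff.mp hli.finite

/-- Scalars attached to an irreducible character. -/
lemma dichotomy {f : G → ℂ} (hf : ∀ g h, f (h * g * h⁻¹) = f g)
    (hconv : ∀ g, ∑ x, f x * f (x⁻¹ * g) = (Nat.card G : ℂ) * f g) {ψ : G → ℂ} (hψ : ψ ∈ Irr G)
    (hne : ∑ g, f g * ψ g⁻¹ ≠ 0) : ∑ g, f g * ψ g⁻¹ = (Nat.card G : ℂ) * ψ 1 := by
  have h1 := irr_one_ne_zero hψ
  obtain ⟨V, _, _, _, ρ, hρ, rfl⟩ := hψ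
  obtain ⟨c, hc1, hc2⟩ := opf_scalar ρ hρ f hf
  have h2 := opf_mul ρ f f hf
  simp only [hconv] at h2
  have h3 : opf ρ (fun g => (Nat.card G : ℂ) * f g) = (Nat.card G : ℂ) • opf ρ f := by
    unfold opf
    rw [Finset.smul_sum]
    apply Finset.sum_congr rfl
    intro g _
    rw [smul_smul]
  rw [h3, hc1] at h2
  have h4 := congrArg (LinearMap.trace ℂ V) h2
  have e2 : (c • (LinearMap.id : V →ₗ[ℂ] V)) ∘ₗ (c • (LinearMap.id : V →ₗ[ℂ] V)) =
      (c * c) • LinearMap.id := by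
    ext v; simp [smul_smul]
  rw [e2, map_smul, map_smul, map_smul, LinearMap.trace_id] at h4
  rw [← hc2] at hne ⊢
  rw [Representation.char_one] at h1 hne ⊢
  have hc0 : c ≠ 0 := fun h => hne (by rw [h, zero_mul])
  simp only [smul_eq_mul] at h4
  have h5 : c * (Module.finrank ℂ V : ℂ) ≠ 0 := mul_ne_zero hc0 h1
  have h6 : c * (c * (Module.finrank ℂ V : ℂ)) =
      (Nat.card G : ℂ) * (c * (Module.finrank ℂ V : ℂ)) := by
    rw [← mul_assoc]; exact h4
  have h7 := mul_right_cancel₀ h5 h6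
  rw [h7]

lemma exclusive {f f' : G → ℂ} (hf : ∀ g h, f (h * g * h⁻¹) = f g)
    (hf' : ∀ g h, f' (h * g * h⁻¹) = f' g)
    (hconv : ∀ g, ∑ x, f x * f' (x⁻¹ * g) = 0) {ψ : G → ℂ} (hψ : ψ ∈ Irr G)
    (hne : ∑ g, f g * ψ g⁻¹ ≠ 0) : ∑ g, f' g * ψ g⁻¹ = 0 := by
  have h1 := irr_one_ne_zero hψ
  obtain ⟨V, _, _, _, ρ, hρ, rfl⟩ := hψ
  obtain ⟨c, hc1, hc2⟩ := opf_scalar ρ hρ f hf
  obtain ⟨c', hc1', hc2'⟩ := opf_scalar ρ hρ f' hf'
  have h2 := opf_mul ρ f f' hf'
  simp only [hconv] at h2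
  have h3 : opf ρ (fun _ : G => (0 : ℂ)) = 0 := by
    unfold opf
    simp
  rw [h3, hc1, hc1'] at h2
  have h4 := congrArg (LinearMap.trace ℂ V) h2
  have e2 : (c • (LinearMap.id : V →ₗ[ℂ] V)) ∘ₗ (c' • (LinearMap.id : V →ₗ[ℂ] V)) =
      (c * c') • LinearMap.id := by
    ext v; simp [smul_smul]
  rw [e2, map_smul, LinearMap.trace_id, map_zero] at h4
  rw [← hc2] at hne
  rw [← hc2']
  rw [Representation.char_one] at h1 hne ⊢
  have hc0 : c ≠ 0 := fun h => hne (by rw [h, zero_mul])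
  have h5 : c * c' = 0 := by
    rw [smul_eq_mul] at h4
    exact (mul_eq_zero.mp h4).resolve_right h1
  rw [(mul_eq_zero.mp h5).resolve_left hc0, zero_mul]

/-- Expansion of a class function in irreducible characters. -/
lemma expansion (f : G → ℂ) (hf : ∀ g h, f (h * g * h⁻¹) = f g) (g : G) :
    f g = ∑ ψ ∈ (irr_finite (G := G)).toFinset,
      ((Nat.card G : ℂ)⁻¹ * ∑ x, f x * ψ x⁻¹) * ψ g := by
  classical
  have hG : (Nat.card G : ℂ) ≠ 0 := by
    rw [Nat.cast_ne_zero]; exact Nat.card_pos.ne'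
  set F : G → ℂ := fun g => f g - ∑ ψ ∈ (irr_finite (G := G)).toFinset,
      ((Nat.card G : ℂ)⁻¹ * ∑ x, f x * ψ x⁻¹) * ψ g with hF
  have h0 : F = 0 := by
    apply completeness
    · intro g h
      simp only [hF]
      rw [hf g h]
      congr 1
      apply Finset.sum_congr rfl
      intro ψ hψ
      rw [Set.Finite.mem_toFinset] at hψ
      rw [irr_conj hψ]
    · intro ψ hψ
      simp only [hF, sub_mul, Finset.sum_sub_distrib, Finset.sum_mul]
      rw [Finset.sum_comm, Finset.sum_eq_single ψ]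
      · have h1 : ∀ x, (Nat.card G : ℂ)⁻¹ * (∑ x, f x * ψ x⁻¹) * ψ x * ψ x⁻¹ =
            ((Nat.card G : ℂ)⁻¹ * (∑ x, f x * ψ x⁻¹)) * (ψ x * ψ x⁻¹) := fun x => by ring
        simp only [h1]
        rw [← Finset.mul_sum, (irr_ortho hψ hψ).1 rfl]
        field_simp
        ring
      · intro φ hφ hne
        rw [Set.Finite.mem_toFinset] at hφ
        have h1 : ∀ x, (Nat.card G : ℂ)⁻¹ * (∑ x, f x * φ x⁻¹) * φ x * ψ x⁻¹ =
            ((Nat.card G : ℂ)⁻¹ * (∑ x, f x * φ x⁻¹)) * (φ x * ψ x⁻¹) := fun x => by ring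
        simp only [h1]
        rw [← Finset.mul_sum, (irr_ortho hφ hψ).2 hne, mul_zero]
      · intro h
        exact absurd ((Set.Finite.mem_toFinset _).mpr hψ) h
  have := congrFun h0 g
  simp only [hF, Pi.zero_apply] at this
  exact sub_eq_zero.mp this

/-- A character of norm one is irreducible. -/
lemma irr_of_norm_one {V : Type} [AddCommGroup V] [Module ℂ V] [FiniteDimensional ℂ V]
    (ρ : Representation ℂ G V)
    (h : ∑ g, ρ.character g * ρ.character g⁻¹ = (Nat.card G : ℂ)) : ρ.character ∈ Irr G := by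
  classical
  have hG : (Nat.card G : ℂ) ≠ 0 := by
    rw [Nat.cast_ne_zero]; exact Nat.card_pos.ne'
  haveI : Invertible (Nat.card G : ℂ) := invertibleOfNonzero hG
  set χ := ρ.character with hχ
  have hnat : ∀ ψ ∈ Irr G, ∃ m : ℕ, (Nat.card G : ℂ)⁻¹ * ∑ x, χ x * ψ x⁻¹ = m := by
    rintro ψ ⟨W, _, _, _, σ, hσ, rfl⟩
    exact ⟨_, Representation.card_inv_mul_sum_char_mul_char_eq_finrank σ ρ⟩
  choose! m hm using hnat
  have hexp : ∀ g, χ g = ∑ ψ ∈ (irr_finite (G := G)).toFinset, (m ψ : ℂ) * ψ g := by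
    intro g
    rw [expansion χ (fun g h => Representation.char_conj ρ g h) g]
    apply Finset.sum_congr rfl
    intro ψ hψ
    rw [Set.Finite.mem_toFinset] at hψ
    rw [hm ψ hψ]
  have hsum : ∑ ψ ∈ (irr_finite (G := G)).toFinset, (m ψ) ^ 2 = 1 := by
    have h1 : ∑ g, χ g * χ g⁻¹ =
        (Nat.card G : ℂ) * ∑ ψ ∈ (irr_finite (G := G)).toFinset, (m ψ : ℂ) ^ 2 := by
      have h2 : ∀ g, χ g * χ g⁻¹ =
          ∑ ψ ∈ (irr_finite (G := G)).toFinset, (m ψ : ℂ) * (χ g * ψ g⁻¹) := by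
        intro g
        rw [hexp g⁻¹, Finset.mul_sum]
        apply Finset.sum_congr rfl
        intro ψ _
        ring
      simp only [h2]
      rw [Finset.sum_comm, Finset.mul_sum]
      apply Finset.sum_congr rfl
      intro ψ hψ
      rw [Set.Finite.mem_toFinset] at hψ
      rw [← Finset.mul_sum]
      have h3 := hm ψ hψ
      rw [inv_mul_eq_iff_eq_mul₀ hG] at h3
      rw [h3]
      ring
    rw [h] at h1
    have h2 : (∑ ψ ∈ (irr_finite (G := G)).toFinset, (m ψ : ℂ) ^ 2) = 1 := by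
      have := mul_left_cancel₀ hG (h1.symm.trans (mul_one _).symm)
      exact this
    exact_mod_cast h2
  obtain ⟨ψ₀, hψ₀, hne⟩ : ∃ ψ ∈ (irr_finite (G := G)).toFinset, m ψ ≠ 0 := by
    by_contra hcon
    push Not at hcon
    rw [Finset.sum_eq_zero (fun ψ hψ => by rw [hcon ψ hψ]; rfl)] at hsum
    exact zero_ne_one hsum
  have hle : m ψ₀ ^ 2 ≤ 1 := by
    rw [← hsum]
    exact Finset.single_le_sum (f := fun ψ => m ψ ^ 2) (fun _ _ => Nat.zero_le _) hψ₀
  have hm1 : m ψ₀ = 1 := by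
    have : m ψ₀ ≤ 1 := by nlinarith
    omega
  have hrest : ∀ ψ ∈ (irr_finite (G := G)).toFinset, ψ ≠ ψ₀ → m ψ = 0 := by
    intro ψ hψ hne'
    by_contra hm0
    have h1 : m ψ₀ ^ 2 + m ψ ^ 2 ≤ 1 := by
      rw [← hsum, ← Finset.sum_pair hne'.symm (f := fun ψ => m ψ ^ 2)]
      apply Finset.sum_le_sum_of_subset
      intro x hx
      rw [Finset.mem_insert, Finset.mem_singleton] at hx
      rcases hx with rfl | rfl
      · exact hψ₀
      · exact hψ
    rw [hm1] at h1
    have : 1 ≤ m ψ ^ 2 := Nat.one_le_iff_ne_zero.mpr (pow_ne_zero 2 hm0)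
    omega
  have hfin : χ = ψ₀ := by
    funext g
    rw [hexp g, Finset.sum_eq_single_of_mem ψ₀ hψ₀]
    · rw [hm1, Nat.cast_one, one_mul]
    · intro ψ hψ hne'
      rw [hrest ψ hψ hne', Nat.cast_zero, zero_mul]
  rw [hfin]
  exact (Set.Finite.mem_toFinset _).mp hψ₀

end Schur

end Pool.Agent.Helper59.Andre
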