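import Mathlib
import Pool.Agent.Helper59.Andre4

set_option autoImplicit false

namespace Pool.Agent.Helper59.Andre

variable {n : ℕ} {F : Type} [Field F]

/-- The element `1 + y`. -/
noncomputable def oneAdd (y : NT n F) : UT n F :=
  ⟨Matrix.GeneralLinearGroup.mkOfDetNeZero (1 + (y : Matrix (Fin n) (Fin n) F)) (by
      have hbt : Matrix.BlockTriangular (1 + (y : Matrix (Fin n) (Fin n) F)) id := by
        intro i j hij
        have hij' : j < i := hij
        rw [Matrix.add_apply, y.2 i j (le_of_lt hij'), Matrix.one_apply_ne (ne_of_gt hij'),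
          add_zero]
      rw [Matrix.det_of_isUpperTriangular hbt, Finset.prod_eq_one]
      · exact one_ne_zero
      · intro i _
        rw [Matrix.add_apply, y.2 i i le_rfl, Matrix.one_apply_eq, add_zero]), by
    constructor
    · intro i
      change (1 + (y : Matrix (Fin n) (Fin n) F)) i i = 1
      rw [Matrix.add_apply, y.2 i i le_rfl, Matrix.one_apply_eq, add_zero]
    · intro i j hij
      change (1 + (y : Matrix (Fin n) (Fin n) F)) i j = 0
      rw [Matrix.add_apply, y.2 i j (le_of_lt hij), Matrix.one_apply_ne (ne_of_gt hij), add_zero]⟩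

lemma mat_oneAdd (y : NT n F) : mat (oneAdd y) = 1 + (y : Matrix (Fin n) (Fin n) F) := rfl

lemma subOne_coe (g : UT n F) : (subOne g : Matrix (Fin n) (Fin n) F) = mat g - 1 := rfl

/-- The bijection `g ↦ g - 1`. -/
noncomputable def eqv : UT n F ≃ NT n F where
  toFun := subOne
  invFun := oneAdd
  left_inv g := by
    apply mat_inj
    rw [mat_oneAdd, subOne_coe]
    abel
  right_inv y := by
    apply Subtype.ext
    rw [subOne_coe, mat_oneAdd]
    abel

lemma eqv_apply (g : UT n F) : eqv g = subOne g := rfl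

/-- The orbit sum as a function on `𝔫`. -/
noncomputable def orbF (θ : AddChar F ℂ) (lam : Module.Dual F (NT n F)) (y : NT n F) : ℂ :=
  ∑ᶠ μ ∈ dualOrbit lam, θ (μ y)

lemma superFun_eq (θ : AddChar F ℂ) (lam : Module.Dual F (NT n F)) (g : UT n F) :
    superFun θ lam g = orbF θ lam (subOne g) := rfl

lemma dualTri_apply (u v : UT n F) (μ : Module.Dual F (NT n F)) (y : NT n F) :
    dualTri u μ v y = μ (tri u y v) := rfl

lemma dualOrbit_dualTri_mem {μ lam : Module.Dual F (NT n F)} (h : μ ∈ dualOrbit lam)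
    (u v : UT n F) : dualTri u μ v ∈ dualOrbit lam := by
  obtain ⟨u', v', rfl⟩ := h
  rw [dualTri_dualTri]
  exact ⟨_, _, rfl⟩

lemma orbF_tri (θ : AddChar F ℂ) (lam : Module.Dual F (NT n F)) (u v : UT n F) (y : NT n F) :
    orbF θ lam (tri u y v) = orbF θ lam y := by
  unfold orbF
  apply finsum_mem_eq_of_bijOn (fun μ => dualTri u μ v)
  · refine ⟨fun μ hμ => dualOrbit_dualTri_mem hμ u v, ?_, ?_⟩
    · intro μ _ ν _ h
      have h1 := congrArg (fun τ => dualTri u⁻¹ τ v⁻¹) h
      simp only [dualTri_dualTri, mul_inv_cancel, inv_mul_cancel, dualTri_one] at h1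
      exact h1
    · intro ν hν
      refine ⟨dualTri u⁻¹ ν v⁻¹, dualOrbit_dualTri_mem hν _ _, ?_⟩
      simp only [dualTri_dualTri, mul_inv_cancel, inv_mul_cancel, dualTri_one]
  · intro μ _
    rfl

lemma superFun_conj (θ : AddChar F ℂ) (lam : Module.Dual F (NT n F)) (g h : UT n F) :
    superFun θ lam (h * g * h⁻¹) = superFun θ lam g := by
  rw [superFun_eq, superFun_eq]
  have : subOne (h * g * h⁻¹) = tri h (subOne g) h⁻¹ := by
    apply Subtype.ext
    rw [subOne_coe, tri_coe, subOne_coe, mat_mul, mat_mul, Matrix.mul_sub, Matrix.sub_mul,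
      Matrix.mul_one, ← mat_mul h h⁻¹, mul_inv_cancel, mat_one]
  rw [this, orbF_tri]

lemma dualOrbit_symm {μ lam : Module.Dual F (NT n F)} (h : μ ∈ dualOrbit lam) :
    dualOrbit μ = dualOrbit lam := by
  obtain ⟨u, v, rfl⟩ := h
  ext ν
  constructor
  · rintro ⟨u', v', rfl⟩
    rw [dualTri_dualTri]; exact ⟨_, _, rfl⟩
  · rintro ⟨u', v', rfl⟩
    refine ⟨u⁻¹ * u', v' * v⁻¹, ?_⟩
    rw [dualTri_dualTri]
    congr 1 <;> group

lemma superFun_congr {θ : AddChar F ℂ} {μ lam : Module.Dual F (NT n F)} (h : μ ∈ dualOrbit lam) :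
    superFun θ μ = superFun θ lam := by
  funext g
  unfold superFun
  rw [dualOrbit_symm h]

section Finite

variable [Fintype F]

lemma sum_char [Fintype (NT n F)] {θ : AddChar F ℂ} (hθ : θ ≠ 1) (μ : Module.Dual F (NT n F))
    (hμ : μ ≠ 0) : ∑ y : NT n F, θ (μ y) = 0 := by
  obtain ⟨y₀, hy₀⟩ : ∃ y, μ y ≠ 0 := by
    by_contra hcon
    push Not at hcon
    exact hμ (LinearMap.ext hcon)
  obtain ⟨t, ht⟩ := exists_char_ne_one hθ hy₀
  set s := ∑ y : NT n F, θ (μ y) with hs
  have h1 : s = θ (μ y₀ * t) * s := by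
    conv_lhs => rw [hs, ← Equiv.sum_comp (Equiv.addLeft (t • y₀))]
    rw [hs, Finset.mul_sum]
    apply Finset.sum_congr rfl
    intro y _
    rw [← AddChar.map_add_eq_mul]
    congr 1
    rw [Equiv.coe_addLeft, map_add, map_smul, smul_eq_mul, mul_comm t]
  have h3 : (1 - θ (μ y₀ * t)) * s = 0 := by
    rw [sub_mul, one_mul, ← h1, sub_self]
  rcases mul_eq_zero.mp h3 with h | h
  · exact absurd (sub_eq_zero.mp h).symm ht
  · exact h

lemma sum_char_UT [Fintype (UT n F)] {θ : AddChar F ℂ} (hθ : θ ≠ 1) (μ : Module.Dual F (NT n F))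
    (hμ : μ ≠ 0) : ∑ x : UT n F, θ (μ (subOne x)) = 0 := by
  haveI : Fintype (NT n F) := Fintype.ofFinite _
  rw [← sum_char hθ μ hμ, ← Equiv.sum_comp eqv]
  rfl

lemma sum_char_dual [Fintype (Module.Dual F (NT n F))] {θ : AddChar F ℂ} (hθ : θ ≠ 1)
    (y : NT n F) (hy : y ≠ 0) : ∑ μ : Module.Dual F (NT n F), θ (μ y) = 0 := by
  obtain ⟨μ₀, hμ₀⟩ : ∃ μ : Module.Dual F (NT n F), μ y ≠ 0 := by
    by_contra hcon
    push Not at hcon
    exact hy ((Module.forall_dual_apply_eq_zero_iff F y).mp hcon)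
  obtain ⟨t, ht⟩ := exists_char_ne_one hθ hμ₀
  set s := ∑ μ : Module.Dual F (NT n F), θ (μ y) with hs
  have h1 : s = θ (μ₀ y * t) * s := by
    conv_lhs => rw [hs, ← Equiv.sum_comp (Equiv.addLeft (t • μ₀))]
    rw [hs, Finset.mul_sum]
    apply Finset.sum_congr rfl
    intro μ _
    rw [← AddChar.map_add_eq_mul]
    congr 1
    rw [Equiv.coe_addLeft, LinearMap.add_apply, LinearMap.smul_apply, smul_eq_mul, mul_comm t]
  have h3 : (1 - θ (μ₀ y * t)) * s = 0 := by
    rw [sub_mul, one_mul, ← h1, sub_self]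
  rcases mul_eq_zero.mp h3 with h | h
  · exact absurd (sub_eq_zero.mp h).symm ht
  · exact h

lemma subOne_inv_mul (x g : UT n F) :
    subOne (x⁻¹ * g) = tri x⁻¹ (subOne g - subOne x) 1 := by
  apply Subtype.ext
  rw [subOne_coe, tri_coe, mat_one, Matrix.mul_one, AddSubgroupClass.coe_sub, subOne_coe,
    subOne_coe, mat_mul, sub_sub_sub_cancel_right, Matrix.mul_sub, ← mat_mul x⁻¹ x, inv_mul_cancel,
    mat_one]

/-- Convolution of orbit sums. -/
lemma convolution [Fintype (UT n F)] {θ : AddChar F ℂ} (hθ : θ ≠ 1)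
    (lam lam' : Module.Dual F (NT n F)) (g : UT n F) :
    (lam' ∈ dualOrbit lam → ∑ x : UT n F, superFun θ lam x * superFun θ lam' (x⁻¹ * g) =
      (Nat.card (UT n F) : ℂ) * superFun θ lam' g) ∧
    (lam' ∉ dualOrbit lam → ∑ x : UT n F, superFun θ lam x * superFun θ lam' (x⁻¹ * g) = 0) := by
  classical
  have hO := dualOrbit_finite lam
  have hO' := dualOrbit_finite lam'
  have e1 : ∀ x : UT n F, superFun θ lam x * superFun θ lam' (x⁻¹ * g) =
      ∑ μ ∈ hO.toFinset, ∑ ν ∈ hO'.toFinset, θ (ν (subOne g)) * θ ((μ - ν) (subOne x)) := by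
    intro x
    rw [superFun_eq, superFun_eq, subOne_inv_mul, orbF_tri]
    unfold orbF
    rw [finsum_mem_eq_finite_toFinset_sum _ hO, finsum_mem_eq_finite_toFinset_sum _ hO',
      Finset.sum_mul_sum]
    apply Finset.sum_congr rfl
    intro μ _
    apply Finset.sum_congr rfl
    intro ν _
    rw [← AddChar.map_add_eq_mul, ← AddChar.map_add_eq_mul]
    congr 1
    rw [map_sub, LinearMap.sub_apply]
    ring
  have e2 : ∑ x : UT n F, superFun θ lam x * superFun θ lam' (x⁻¹ * g) =
      ∑ ν ∈ hO'.toFinset, ∑ μ ∈ hO.toFinset,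
        (if μ = ν then (Nat.card (UT n F) : ℂ) * θ (ν (subOne g)) else 0) := by
    simp only [e1]
    rw [Finset.sum_comm]
    have : ∀ μ ∈ hO.toFinset, ∑ x : UT n F, ∑ ν ∈ hO'.toFinset,
        θ (ν (subOne g)) * θ ((μ - ν) (subOne x)) = ∑ ν ∈ hO'.toFinset,
        (if μ = ν then (Nat.card (UT n F) : ℂ) * θ (ν (subOne g)) else 0) := by
      intro μ _
      rw [Finset.sum_comm]
      apply Finset.sum_congr rfl
      intro ν _
      rw [← Finset.mul_sum]
      split_ifs with h
      · subst h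
        simp only [sub_self, LinearMap.zero_apply, AddChar.map_zero_eq_one]
        rw [Finset.sum_const, nsmul_eq_mul, mul_one, Finset.card_univ, Nat.card_eq_fintype_card,
          mul_comm]
      · rw [sum_char_UT hθ _ (sub_ne_zero.mpr h), mul_zero]
    rw [Finset.sum_congr rfl this, Finset.sum_comm]
  constructor
  · intro h
    rw [e2]
    have hsub : ∀ ν ∈ hO'.toFinset, ν ∈ hO.toFinset := by
      intro ν hν
      rw [Set.Finite.mem_toFinset] at hν ⊢
      rw [← dualOrbit_symm h]; exact hν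
    rw [superFun_eq]
    unfold orbF
    rw [finsum_mem_eq_finite_toFinset_sum _ hO', Finset.mul_sum]
    apply Finset.sum_congr rfl
    intro ν hν
    rw [Finset.sum_ite_eq' hO.toFinset ν, if_pos (hsub ν hν)]
  · intro h
    rw [e2]
    apply Finset.sum_eq_zero
    intro ν hν
    apply Finset.sum_eq_zero
    intro μ hμ
    rw [if_neg]
    rintro rfl
    rw [Set.Finite.mem_toFinset] at hν hμ
    apply h
    have h1 := dualOrbit_symm hμ
    have h2 := dualOrbit_symm hν
    rw [← h1, h2]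
    exact self_mem_dualOrbit _

/-- The irreducible constituents of the orbit function of `lam`. -/
def blk [Fintype (UT n F)] (θ : AddChar F ℂ) (lam : Module.Dual F (NT n F)) :
    Set (UT n F → ℂ) :=
  {ψ | ψ ∈ Irr (UT n F) ∧ ∑ g, superFun θ lam g * ψ g⁻¹ ≠ 0}

lemma blk_congr [Fintype (UT n F)] {θ : AddChar F ℂ} {μ lam : Module.Dual F (NT n F)}
    (h : μ ∈ dualOrbit lam) : blk θ μ = blk θ lam := by
  unfold blk
  rw [superFun_congr h]

lemma blk_val [Fintype (UT n F)] {θ : AddChar F ℂ} (hθ : θ ≠ 1) {lam : Module.Dual F (NT n F)}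
    {ψ : UT n F → ℂ} (hψ : ψ ∈ blk θ lam) :
    ∑ g, superFun θ lam g * ψ g⁻¹ = (Nat.card (UT n F) : ℂ) * ψ 1 := by
  apply dichotomy (superFun_conj θ lam) _ hψ.1 hψ.2
  intro g
  exact (convolution hθ lam lam g).1 (self_mem_dualOrbit lam)

lemma blk_unique [Fintype (UT n F)] {θ : AddChar F ℂ} (hθ : θ ≠ 1)
    {lam lam' : Module.Dual F (NT n F)}
    {ψ : UT n F → ℂ} (hψ : ψ ∈ blk θ lam) (hψ' : ψ ∈ blk θ lam') : lam' ∈ dualOrbit lam := by
  by_contra hcon
  have h1 := exclusive (superFun_conj θ lam) (superFun_conj θ lam')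
    (fun g => (convolution hθ lam lam' g).2 hcon) hψ.1 hψ.2
  exact hψ'.2 h1

/-- The orbit function is the sum `∑ ψ(1) ψ` over its constituents. -/
lemma sigma_blk [Fintype (UT n F)] {θ : AddChar F ℂ} (hθ : θ ≠ 1)
    (lam : Module.Dual F (NT n F)) : sigma (blk θ lam) = superFun θ lam := by
  classical
  funext g
  have hG : (Nat.card (UT n F) : ℂ) ≠ 0 := by
    rw [Nat.cast_ne_zero]; exact Nat.card_pos.ne'
  have hsub : blk θ lam ⊆ Irr (UT n F) := fun ψ hψ => hψ.1
  have hfin : (blk θ lam).Finite := irr_finite.subset hsub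
  rw [expansion (superFun θ lam) (superFun_conj θ lam) g]
  unfold sigma
  rw [finsum_mem_eq_finite_toFinset_sum _ hfin]
  have hsub' : hfin.toFinset ⊆ (irr_finite (G := UT n F)).toFinset := by
    intro ψ hψ
    rw [Set.Finite.mem_toFinset] at hψ ⊢
    exact hsub hψ
  rw [← Finset.sum_subset hsub']
  · apply Finset.sum_congr rfl
    intro ψ hψ
    rw [Set.Finite.mem_toFinset] at hψ
    rw [blk_val hθ hψ, inv_mul_cancel_left₀ hG]
  · intro ψ hψ hn
    rw [Set.Finite.mem_toFinset] at hψ hn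
    have : ∑ g, superFun θ lam g * ψ g⁻¹ = 0 := by
      by_contra h
      exact hn ⟨hψ, h⟩
    rw [this, mul_zero, zero_mul]

lemma blk_nonempty [Fintype (UT n F)] {θ : AddChar F ℂ} (hθ : θ ≠ 1)
    (lam : Module.Dual F (NT n F)) : (blk θ lam).Nonempty := by
  rw [Set.nonempty_iff_ne_empty]
  intro h
  have h1 := congrFun (sigma_blk hθ lam) 1
  rw [h] at h1
  unfold sigma at h1
  rw [finsum_mem_empty] at h1
  exact superFun_one_ne_zero θ lam h1.symm

lemma exists_blk [Fintype (UT n F)] {θ : AddChar F ℂ} (hθ : θ ≠ 1) {ψ : UT n F → ℂ}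
    (hψ : ψ ∈ Irr (UT n F)) : ∃ lam, ψ ∈ blk θ lam := by
  classical
  by_contra hcon
  push Not at hcon
  have h0 : ∀ lam : Module.Dual F (NT n F), ∑ g, superFun θ lam g * ψ g⁻¹ = 0 := by
    intro lam
    by_contra h
    exact hcon lam ⟨hψ, h⟩
  haveI := finite_dual (n := n) (F := F)
  haveI : Fintype (Module.Dual F (NT n F)) := Fintype.ofFinite _
  have havg : ∀ μ : Module.Dual F (NT n F), ∃ k : ℕ, ∀ g : UT n F,
      ∑ u : UT n F, ∑ v : UT n F, θ (dualTri u μ v (subOne g)) = (k : ℂ) * superFun θ μ g := by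
    intro μ
    letI := dualAct (n := n) (F := F)
    refine ⟨Nat.card (MulAction.stabilizer (UT n F × UT n F) μ), ?_⟩
    intro g
    unfold superFun
    rw [dualOrbit_eq, ← sum_smul_orbit (fun ν : Module.Dual F (NT n F) => θ (ν (subOne g))),
      Fintype.sum_prod_type]
    rw [← Equiv.sum_comp (Equiv.inv (UT n F))]
    rfl
  choose k hk using havg
  have h1 : ∑ g : UT n F, (∑ μ : Module.Dual F (NT n F), ∑ u : UT n F, ∑ v : UT n F,
      θ (dualTri u μ v (subOne g))) * ψ g⁻¹ = 0 := by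
    simp only [hk]
    simp only [Finset.sum_mul, mul_assoc]
    rw [Finset.sum_comm]
    simp only [← Finset.mul_sum]
    simp [h0]
  have h2 : ∀ g : UT n F, ∑ μ : Module.Dual F (NT n F), ∑ u : UT n F, ∑ v : UT n F,
      θ (dualTri u μ v (subOne g)) =
      (Nat.card (UT n F) : ℂ) * (Nat.card (UT n F) : ℂ) *
        ∑ μ : Module.Dual F (NT n F), θ (μ (subOne g)) := by
    intro g
    rw [Finset.sum_comm]
    have h3 : ∀ u : UT n F, ∑ μ : Module.Dual F (NT n F), ∑ v : UT n F,
        θ (dualTri u μ v (subOne g)) = (Nat.card (UT n F) : ℂ) *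
        ∑ μ : Module.Dual F (NT n F), θ (μ (subOne g)) := by
      intro u
      rw [Finset.sum_comm]
      have h4 : ∀ v : UT n F, ∑ μ : Module.Dual F (NT n F), θ (dualTri u μ v (subOne g)) =
          ∑ μ : Module.Dual F (NT n F), θ (μ (subOne g)) := by
        intro v
        let e : Module.Dual F (NT n F) ≃ Module.Dual F (NT n F) :=
          { toFun := fun μ => dualTri u μ v
            invFun := fun μ => dualTri u⁻¹ μ v⁻¹
            left_inv := fun μ => by
              simp only [dualTri_dualTri, mul_inv_cancel, inv_mul_cancel, dualTri_one]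
            right_inv := fun μ => by
              simp only [dualTri_dualTri, mul_inv_cancel, inv_mul_cancel, dualTri_one] }
        exact Equiv.sum_comp e (fun μ => θ (μ (subOne g)))
      simp only [h4]
      rw [Finset.sum_const, nsmul_eq_mul, Finset.card_univ, Nat.card_eq_fintype_card]
    simp only [h3]
    rw [Finset.sum_const, nsmul_eq_mul, Finset.card_univ, Nat.card_eq_fintype_card, mul_assoc]
  have h5 : ∀ g : UT n F, g ≠ 1 → ∑ μ : Module.Dual F (NT n F), θ (μ (subOne g)) = 0 := by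
    intro g hg
    apply sum_char_dual hθ
    intro h
    apply hg
    apply eqv.injective
    rw [eqv_apply, eqv_apply, h, subOne_one]
  rw [Finset.sum_eq_single (1 : UT n F)] at h1
  · rw [h2, subOne_one] at h1
    simp only [map_zero, AddChar.map_zero_eq_one] at h1
    rw [Finset.sum_const, nsmul_eq_mul, mul_one, inv_one] at h1
    have hG : (Nat.card (UT n F) : ℂ) ≠ 0 := by
      rw [Nat.cast_ne_zero]; exact Nat.card_pos.ne'
    have hD : ((Finset.univ : Finset (Module.Dual F (NT n F))).card : ℂ) ≠ 0 := by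
      rw [Nat.cast_ne_zero]; exact Finset.card_ne_zero.mpr ⟨0, Finset.mem_univ _⟩
    exact mul_ne_zero (mul_ne_zero (mul_ne_zero hG hG) hD) (irr_one_ne_zero hψ) h1
  · intro g _ hg
    rw [h2, h5 g hg, mul_zero, zero_mul]
  · intro h; exact absurd (Finset.mem_univ _) h

end Finite

end Pool.Agent.Helper59.Andre
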