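import Mathlib
import Pool.Agent.Helper59.Andre5

set_option autoImplicit false

namespace Pool.Agent.Helper59.Andre

variable {n : ℕ} {F : Type} [Field F]

attribute [local instance] dualAct nAct

/-- `tri` as a linear map. -/
def triLin (u v : UT n F) : NT n F →ₗ[F] NT n F where
  toFun y := tri u y v
  map_add' y z := by
    apply Subtype.ext
    simp only [tri_coe, Submodule.coe_add, Matrix.mul_add, Matrix.add_mul]
  map_smul' c y := by
    apply Subtype.ext
    simp only [tri_coe, Submodule.coe_smul, Matrix.mul_smul, Matrix.smul_mul, RingHom.id_apply]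

lemma card_fixed [Finite F] (p : UT n F × UT n F) :
    Nat.card (MulAction.fixedBy (NT n F) p) =
      Nat.card (MulAction.fixedBy (Module.Dual F (NT n F)) p) := by
  haveI : Fintype F := Fintype.ofFinite F
  set T : NT n F →ₗ[F] NT n F := triLin p.1 p.2⁻¹ - LinearMap.id with hT
  have h1 : (MulAction.fixedBy (NT n F) p : Set (NT n F)) = (LinearMap.ker T : Set (NT n F)) := by
    ext y
    rw [MulAction.mem_fixedBy, SetLike.mem_coe, LinearMap.mem_ker, hT, LinearMap.sub_apply,
      LinearMap.id_apply, sub_eq_zero]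
    rfl
  have h2 : (MulAction.fixedBy (Module.Dual F (NT n F)) p : Set (Module.Dual F (NT n F))) =
      (LinearMap.ker T.dualMap : Set (Module.Dual F (NT n F))) := by
    ext μ
    rw [MulAction.mem_fixedBy, SetLike.mem_coe, LinearMap.mem_ker]
    constructor
    · intro h
      apply LinearMap.ext
      intro y
      rw [LinearMap.dualMap_apply, hT, LinearMap.sub_apply, LinearMap.id_apply, map_sub,
        LinearMap.zero_apply, sub_eq_zero]
      have h3 : dualTri p.1⁻¹ μ p.2 = μ := h
      conv_lhs => rw [← h3]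
      rw [dualTri_apply]
      change μ (tri p.1⁻¹ (tri p.1 y p.2⁻¹) p.2) = μ y
      rw [tri_tri, inv_mul_cancel, inv_mul_cancel, tri_one]
    · intro h
      change dualTri p.1⁻¹ μ p.2 = μ
      apply LinearMap.ext
      intro y
      rw [dualTri_apply]
      have h3 := congrArg (fun τ : Module.Dual F (NT n F) => τ (tri p.1⁻¹ y p.2)) h
      simp only [LinearMap.dualMap_apply, hT, LinearMap.sub_apply, LinearMap.id_apply, map_sub,
        LinearMap.zero_apply] at h3
      rw [sub_eq_zero] at h3
      rw [← h3]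
      change μ (tri p.1 (tri p.1⁻¹ y p.2) p.2⁻¹) = μ y
      rw [tri_tri, mul_inv_cancel, mul_inv_cancel, tri_one]
  have e1 : Nat.card (MulAction.fixedBy (NT n F) p) = Nat.card (LinearMap.ker T) := by
    rw [h1]; rfl
  have e2 : Nat.card (MulAction.fixedBy (Module.Dual F (NT n F)) p) =
      Nat.card (LinearMap.ker T.dualMap) := by
    rw [h2]; rfl
  rw [e1, e2]
  have h4 : Module.finrank F (LinearMap.ker T) = Module.finrank F (LinearMap.ker T.dualMap) := by
    have a1 := LinearMap.finrank_range_add_finrank_ker T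
    have a2 := LinearMap.finrank_range_add_finrank_ker T.dualMap
    rw [LinearMap.finrank_range_dualMap_eq_finrank_range, Subspace.dual_finrank_eq] at a2
    omega
  rw [Module.natCard_eq_pow_finrank (K := F) (V := LinearMap.ker T),
    Module.natCard_eq_pow_finrank (K := F) (V := LinearMap.ker T.dualMap), h4]

lemma card_orbits [Finite F] :
    Nat.card (MulAction.orbitRel.Quotient (UT n F × UT n F) (NT n F)) =
      Nat.card (MulAction.orbitRel.Quotient (UT n F × UT n F) (Module.Dual F (NT n F))) := by
  classical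
  haveI : Fintype (UT n F × UT n F) := Fintype.ofFinite _
  haveI := finite_dual (n := n) (F := F)
  haveI : Fintype (NT n F) := Fintype.ofFinite _
  haveI : Fintype (Module.Dual F (NT n F)) := Fintype.ofFinite _
  haveI : Fintype (MulAction.orbitRel.Quotient (UT n F × UT n F) (NT n F)) := Fintype.ofFinite _
  haveI : Fintype (MulAction.orbitRel.Quotient (UT n F × UT n F) (Module.Dual F (NT n F))) :=
    Fintype.ofFinite _
  have b1 := MulAction.sum_card_fixedBy_eq_card_orbits_mul_card_group (UT n F × UT n F) (NT n F)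
  have b2 := MulAction.sum_card_fixedBy_eq_card_orbits_mul_card_group (UT n F × UT n F)
    (Module.Dual F (NT n F))
  have b3 : ∑ p : UT n F × UT n F, Fintype.card (MulAction.fixedBy (NT n F) p) =
      ∑ p : UT n F × UT n F, Fintype.card (MulAction.fixedBy (Module.Dual F (NT n F)) p) := by
    apply Finset.sum_congr rfl
    intro p _
    rw [← Nat.card_eq_fintype_card, ← Nat.card_eq_fintype_card, card_fixed]
  rw [b1, b2] at b3
  rw [Nat.card_eq_fintype_card, Nat.card_eq_fintype_card]
  exact Nat.eq_of_mul_eq_mul_right Fintype.card_pos b3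

lemma superclass_eq_iff (x g : UT n F) :
    superclass x = superclass g ↔ ∃ u v : UT n F, subOne g = tri u (subOne x) v := by
  constructor
  · intro h
    have : g ∈ superclass g := ⟨1, 1, (tri_one _).symm⟩
    rw [← h] at this
    exact this
  · rintro ⟨u, v, huv⟩
    ext z
    constructor
    · rintro ⟨u', v', hz⟩
      refine ⟨u' * u⁻¹, v⁻¹ * v', ?_⟩
      rw [hz, huv, tri_tri]
      congr 1 <;> group
    · rintro ⟨u', v', hz⟩
      refine ⟨u' * u, v * v', ?_⟩
      rw [hz, huv, tri_tri]

lemma ncard_andreK [Finite F] : (andreK n F).ncard =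
    Nat.card (MulAction.orbitRel.Quotient (UT n F × UT n F) (NT n F)) := by
  let f : MulAction.orbitRel.Quotient (UT n F × UT n F) (NT n F) → Set (UT n F) :=
    Quotient.lift (fun y => superclass (oneAdd y)) (by
      intro y z h
      have h' : y ∈ MulAction.orbit (UT n F × UT n F) z := MulAction.orbitRel_apply.mp h
      obtain ⟨⟨u, v⟩, huv⟩ := h'
      rw [superclass_eq_iff]
      refine ⟨u⁻¹, v, ?_⟩
      have e1 : subOne (oneAdd z) = z := eqv.apply_symm_apply z
      have e2 : subOne (oneAdd y) = y := eqv.apply_symm_apply y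
      rw [e1, e2, ← huv]
      change z = tri u⁻¹ (tri u z v⁻¹) v
      rw [tri_tri, inv_mul_cancel, inv_mul_cancel, tri_one])
  have hf : Function.Injective f := by
    intro a b
    refine Quotient.inductionOn₂ a b ?_
    intro y z h
    change superclass (oneAdd y) = superclass (oneAdd z) at h
    rw [superclass_eq_iff] at h
    obtain ⟨u, v, huv⟩ := h
    have e1 : subOne (oneAdd z) = z := eqv.apply_symm_apply z
    have e2 : subOne (oneAdd y) = y := eqv.apply_symm_apply y
    rw [e1, e2] at huv
    apply Quotient.sound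
    apply MulAction.orbitRel_apply.mpr
    refine ⟨(u⁻¹, v), ?_⟩
    change tri u⁻¹ z v⁻¹ = y
    rw [huv, tri_tri, inv_mul_cancel, mul_inv_cancel, tri_one]
  have hr : Set.range f = andreK n F := by
    ext B
    constructor
    · rintro ⟨a, rfl⟩
      refine Quotient.inductionOn a ?_
      intro y
      exact ⟨oneAdd y, rfl⟩
    · rintro ⟨x, rfl⟩
      refine ⟨Quotient.mk _ (subOne x), ?_⟩
      change superclass (oneAdd (subOne x)) = superclass x
      have : oneAdd (subOne x) = x := eqv.symm_apply_apply x
      rw [this]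
  rw [← hr, ← Nat.card_coe_set_eq, Nat.card_range_of_injective hf]

/-- André's partition of the irreducible characters. -/
def andreX [Fintype (UT n F)] (θ : AddChar F ℂ) : Set (Set (UT n F → ℂ)) := Set.range (blk θ)

lemma ncard_andreX [Finite F] [Fintype (UT n F)] {θ : AddChar F ℂ} (hθ : θ ≠ 1) :
    (andreX (n := n) θ).ncard =
    Nat.card (MulAction.orbitRel.Quotient (UT n F × UT n F) (Module.Dual F (NT n F))) := by
  haveI : Fintype F := Fintype.ofFinite F
  let f : MulAction.orbitRel.Quotient (UT n F × UT n F) (Module.Dual F (NT n F)) →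
      Set (UT n F → ℂ) :=
    Quotient.lift (fun μ => blk θ μ) (by
      intro μ ν h
      have h' : μ ∈ MulAction.orbit (UT n F × UT n F) ν := MulAction.orbitRel_apply.mp h
      rw [← dualOrbit_eq] at h'
      exact blk_congr h')
  have hf : Function.Injective f := by
    intro a b
    refine Quotient.inductionOn₂ a b ?_
    intro μ ν h
    change blk θ μ = blk θ ν at h
    obtain ⟨ψ, hψ⟩ := blk_nonempty hθ μ
    have hψ' : ψ ∈ blk θ ν := h ▸ hψ
    apply Quotient.sound
    apply MulAction.orbitRel_apply.mpr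
    rw [← dualOrbit_eq]
    exact blk_unique hθ hψ' hψ
  have hr : Set.range f = andreX (n := n) θ := by
    ext B
    constructor
    · rintro ⟨a, rfl⟩
      refine Quotient.inductionOn a ?_
      intro y
      exact ⟨y, rfl⟩
    · rintro ⟨x, rfl⟩
      exact ⟨Quotient.mk _ x, rfl⟩
  rw [← hr, ← Nat.card_coe_set_eq, Nat.card_range_of_injective hf]

/-- André's pair is a supercharacter theory. -/
theorem andre_isSCT [Finite F] [Fintype (UT n F)] {θ : AddChar F ℂ} (hθ : θ ≠ 1) :
    IsSCT (andreX (n := n) θ) (andreK n F) := by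
  haveI : Fintype F := Fintype.ofFinite F
  refine
    { block_nonempty := ?_
      block_sub := ?_
      partX := ?_
      class_nonempty := ?_
      partK := ?_
      card_eq := ?_
      one_mem := ?_
      const := ?_ }
  · rintro _ ⟨lam, rfl⟩
    exact blk_nonempty hθ lam
  · rintro _ ⟨lam, rfl⟩ ψ hψ
    exact hψ.1
  · intro ψ hψ
    obtain ⟨lam, hlam⟩ := exists_blk hθ hψ
    refine ⟨blk θ lam, ⟨⟨lam, rfl⟩, hlam⟩, ?_⟩
    rintro _ ⟨⟨lam', rfl⟩, h⟩
    exact blk_congr (blk_unique hθ hlam h)
  · rintro _ ⟨x, rfl⟩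
    exact ⟨x, 1, 1, (tri_one _).symm⟩
  · intro g
    refine ⟨superclass g, ⟨⟨g, rfl⟩, ⟨1, 1, (tri_one _).symm⟩⟩, ?_⟩
    rintro _ ⟨⟨x, rfl⟩, h⟩
    exact (superclass_eq_iff x g).mpr h
  · rw [ncard_andreK, ncard_andreX hθ, card_orbits]
  · refine ⟨1, ?_⟩
    ext g
    rw [Set.mem_singleton_iff]
    constructor
    · rintro ⟨u, v, h⟩
      apply eqv.injective
      rw [eqv_apply, eqv_apply, h, subOne_one]
      apply Subtype.ext
      rw [tri_coe]
      simp
    · rintro rfl
      exact ⟨1, 1, (tri_one _).symm⟩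
  · rintro _ ⟨lam, rfl⟩ _ ⟨x, rfl⟩ g ⟨u, v, hg⟩ h ⟨u', v', hh⟩
    rw [sigma_blk hθ, superFun_eq, superFun_eq, hg, hh, orbF_tri, orbF_tri]

end Pool.Agent.Helper59.Andre
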