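import Mathlib
import Pool.Agent.Helper59.Andre6

set_option autoImplicit false

namespace Pool.Agent.Helper59.Andre

section Mono

variable {G α : Type} [Group G] [Fintype α] [DecidableEq α] [MulAction G α]

/-- The monomial representation attached to a cocycle. -/
noncomputable def monoRep (c : G → α → ℂ) (h1 : ∀ a, c 1 a = 1)
    (hc : ∀ g h a, c (g * h) a = c g (h • a) * c h a) : Representation ℂ G (α → ℂ) where
  toFun g :=
    { toFun := fun φ a => c g (g⁻¹ • a) * φ (g⁻¹ • a)
      map_add' := by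
        intro φ φ'
        funext a
        simp only [Pi.add_apply, mul_add]
      map_smul' := by
        intro r φ
        funext a
        simp only [Pi.smul_apply, smul_eq_mul, RingHom.id_apply]
        ring }
  map_one' := by
    apply LinearMap.ext
    intro φ
    funext a
    change c 1 ((1 : G)⁻¹ • a) * φ ((1 : G)⁻¹ • a) = φ a
    rw [inv_one, one_smul, h1, one_mul]
  map_mul' g h := by
    apply LinearMap.ext
    intro φ
    funext a
    change c (g * h) ((g * h)⁻¹ • a) * φ ((g * h)⁻¹ • a) =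
      c g (g⁻¹ • a) * (c h (h⁻¹ • (g⁻¹ • a)) * φ (h⁻¹ • (g⁻¹ • a)))
    rw [hc, mul_inv_rev, mul_smul h⁻¹ g⁻¹ a, smul_inv_smul, mul_assoc]

lemma monoRep_char (c : G → α → ℂ) (h1 : ∀ a, c 1 a = 1)
    (hc : ∀ g h a, c (g * h) a = c g (h • a) * c h a) (g : G) :
    (monoRep c h1 hc).character g = ∑ a : α, if g • a = a then c g a else 0 := by
  unfold Representation.character
  rw [LinearMap.trace_eq_matrix_trace ℂ (Pi.basisFun ℂ α), Matrix.trace]
  apply Finset.sum_congr rfl
  intro a _
  rw [Matrix.diag_apply, LinearMap.toMatrix_apply, Pi.basisFun_repr, Pi.basisFun_apply]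
  change c g (g⁻¹ • a) * (Pi.single a (1 : ℂ) : α → ℂ) (g⁻¹ • a) = _
  rw [Pi.single_apply]
  by_cases h : g • a = a
  · have h2 : g⁻¹ • a = a := by rw [inv_smul_eq_iff]; exact h.symm
    rw [if_pos h, h2, if_pos rfl, mul_one]
  · have h2 : g⁻¹ • a ≠ a := by
      intro h3
      exact h (inv_smul_eq_iff.mp h3).symm
    rw [if_neg h, if_neg h2, mul_zero]

end Mono

variable {n : ℕ} {F : Type} [Field F]

/-- The one-sided action on functionals. -/
@[reducible] def rAct : MulAction (UT n F) (Module.Dual F (NT n F)) where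
  smul g μ := dualTri 1 μ g
  one_smul μ := dualTri_one μ
  mul_smul g h μ := by
    change dualTri 1 μ (g * h) = dualTri 1 (dualTri 1 μ h) g
    rw [dualTri_dualTri, mul_one]

attribute [local instance] rAct dualAct

lemma rsmul_def (g : UT n F) (μ : Module.Dual F (NT n F)) : g • μ = dualTri 1 μ g := rfl

lemma subOne_mul (g h : UT n F) : subOne (g * h) = tri 1 (subOne g) h + subOne h := by
  apply Subtype.ext
  rw [Submodule.coe_add, tri_coe, subOne_coe, subOne_coe, subOne_coe, mat_mul, mat_one,
    Matrix.one_mul, Matrix.sub_mul, Matrix.one_mul]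
  abel

/-- The multiplicative cocycle. -/
noncomputable def coc (θ : AddChar F ℂ) (lam : Module.Dual F (NT n F)) (g : UT n F)
    (ν : MulAction.orbit (UT n F) lam) : ℂ := θ (ν.1 (subOne g))

lemma coc_one (θ : AddChar F ℂ) (lam : Module.Dual F (NT n F))
    (ν : MulAction.orbit (UT n F) lam) : coc θ lam 1 ν = 1 := by
  unfold coc
  rw [subOne_one, map_zero, AddChar.map_zero_eq_one]

lemma coc_mul (θ : AddChar F ℂ) (lam : Module.Dual F (NT n F)) (g h : UT n F)
    (ν : MulAction.orbit (UT n F) lam) :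
    coc θ lam (g * h) ν = coc θ lam g (h • ν) * coc θ lam h ν := by
  unfold coc
  rw [← AddChar.map_add_eq_mul]
  congr 1
  rw [subOne_mul, map_add]
  rfl

section Fin

variable [Fintype F] [Fintype (UT n F)]

open scoped Classical in
/-- The key evaluation: the value of the monomial character is an average. -/
lemma term_avg {θ : AddChar F ℂ} (hθ : θ ≠ 1) (ν : Module.Dual F (NT n F)) (g : UT n F) :
    (Nat.card (UT n F) : ℂ) * (if g • ν = ν then θ (ν (subOne g)) else 0) =
      ∑ h : UT n F, θ (dualTri h ν 1 (subOne g)) := by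
  have h1 : ∀ h : UT n F, dualTri h ν 1 (subOne g) = ν (subOne g) + (g • ν - ν) (subOne h) := by
    intro h
    rw [dualTri_apply, rsmul_def, LinearMap.sub_apply, dualTri_apply, ← map_sub, ← map_add]
    congr 1
    apply Subtype.ext
    rw [Submodule.coe_add, AddSubgroupClass.coe_sub, tri_coe, tri_coe, subOne_coe, subOne_coe,
      mat_one, Matrix.mul_one, Matrix.one_mul, Matrix.mul_sub, Matrix.mul_one, Matrix.sub_mul,
      Matrix.one_mul]
    abel
  have h2 : ∑ h : UT n F, θ (dualTri h ν 1 (subOne g)) =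
      θ (ν (subOne g)) * ∑ h : UT n F, θ ((g • ν - ν) (subOne h)) := by
    rw [Finset.mul_sum]
    apply Finset.sum_congr rfl
    intro h _
    rw [h1, AddChar.map_add_eq_mul]
  rw [h2]
  split_ifs with h
  · rw [h, sub_self]
    simp only [LinearMap.zero_apply, AddChar.map_zero_eq_one]
    rw [Finset.sum_const, nsmul_eq_mul, mul_one, Finset.card_univ, Nat.card_eq_fintype_card,
      mul_comm]
  · rw [sum_char_UT hθ _ (sub_ne_zero.mpr h), mul_zero, mul_zero]

/-- The character of the module attached to a one-sided orbit is a positive multiple of the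
orbit function. -/
lemma char_eq {θ : AddChar F ℂ} (hθ : θ ≠ 1) (lam : Module.Dual F (NT n F)) :
    ∃ (V : Type) (_ : AddCommGroup V) (_ : Module ℂ V) (_ : FiniteDimensional ℂ V)
      (ρ : Representation ℂ (UT n F) V), ∃ κ : ℝ, 0 < κ ∧
      (∀ g, ρ.character g = κ * superFun θ lam g) ∧
      ρ.character 1 = (Nat.card (MulAction.orbit (UT n F) lam) : ℂ) := by
  classical
  haveI := finite_dual (n := n) (F := F)
  haveI : Fintype (MulAction.orbit (UT n F) lam) := Fintype.ofFinite _
  let ρ := monoRep (coc θ lam) (coc_one θ lam) (coc_mul θ lam)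
  have hG : (Nat.card (UT n F) : ℂ) ≠ 0 := by
    rw [Nat.cast_ne_zero]; exact Nat.card_pos.ne'
  set k₁ := Nat.card (MulAction.stabilizer (UT n F) lam) with hk₁
  set k := Nat.card (MulAction.stabilizer (UT n F × UT n F) lam) with hk
  have hk₁0 : 0 < k₁ := Nat.card_pos
  have hk0 : 0 < k := Nat.card_pos
  have hG0 : 0 < Nat.card (UT n F) := Nat.card_pos
  refine ⟨_, _, _, inferInstance, ρ, (k : ℝ) / (Nat.card (UT n F) * k₁), by positivity, ?_, ?_⟩
  · intro g
    let Φ : Module.Dual F (NT n F) → ℂ := fun ν => ∑ h : UT n F, θ (dualTri h ν 1 (subOne g))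
    have e1 : (Nat.card (UT n F) : ℂ) * ρ.character g =
        ∑ᶠ ν ∈ MulAction.orbit (UT n F) lam, Φ ν := by
      rw [monoRep_char, ← finsum_set_coe_eq_finsum_mem, finsum_eq_sum_of_fintype, Finset.mul_sum]
      apply Finset.sum_congr rfl
      intro a _
      change _ = ∑ h : UT n F, θ (dualTri h (a : Module.Dual F (NT n F)) 1 (subOne g))
      rw [← term_avg hθ]
      by_cases h : g • a = a
      · have h' : g • (a : Module.Dual F (NT n F)) = a := congrArg Subtype.val h
        rw [if_pos h, if_pos h']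
        rfl
      · have h' : g • (a : Module.Dual F (NT n F)) ≠ a := fun h'' => h (Subtype.ext h'')
        rw [if_neg h, if_neg h']
    have e2 : (k₁ : ℂ) * ((Nat.card (UT n F) : ℂ) * ρ.character g) = (k : ℂ) * superFun θ lam g := by
      have hR : ∑ p : UT n F × UT n F, θ ((p • lam) (subOne g)) =
          ∑ u : UT n F, ∑ v : UT n F, θ (dualTri u lam v (subOne g)) := by
        rw [Fintype.sum_prod_type, ← Equiv.sum_comp (Equiv.inv (UT n F))
          (fun u => ∑ v : UT n F, θ (dualTri u lam v (subOne g)))]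
        rfl
      have hL : ∑ γ : UT n F, Φ (γ • lam) =
          ∑ u : UT n F, ∑ v : UT n F, θ (dualTri u lam v (subOne g)) := by
        rw [Finset.sum_comm]
        apply Finset.sum_congr rfl
        intro v _
        apply Finset.sum_congr rfl
        intro h _
        change θ (dualTri v (dualTri 1 lam h) 1 (subOne g)) = θ (dualTri v lam h (subOne g))
        rw [dualTri_dualTri, one_mul, one_mul]
      rw [e1, ← sum_smul_orbit, hL, ← hR]
      unfold superFun
      rw [dualOrbit_eq, ← sum_smul_orbit (fun ν : Module.Dual F (NT n F) => θ (ν (subOne g)))]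
    have hk₁c : (k₁ : ℂ) ≠ 0 := by exact_mod_cast hk₁0.ne'
    push_cast
    field_simp
    linear_combination e2
  · rw [monoRep_char]
    simp only [one_smul, if_true, coc_one]
    rw [Finset.sum_const, nsmul_eq_mul, mul_one, Finset.card_univ, Nat.card_eq_fintype_card]

end Fin

section Box

/-- Elementary element of `𝔫`. -/
def enn {k l : Fin n} (hkl : k < l) : NT n F :=
  ⟨Matrix.single k l 1, fun i j hij => by
    rw [Matrix.single_apply, if_neg]
    rintro ⟨rfl, rfl⟩
    exact absurd hkl (not_lt.mpr hij)⟩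

lemma tri_enn (u v : UT n F) {k l : Fin n} (hkl : k < l) (i j : Fin n) :
    (tri u (enn hkl) v : Matrix (Fin n) (Fin n) F) i j = mat u i k * mat v l j := by
  rw [tri_coe]
  change (mat u * (Matrix.single k l (1 : F)) * mat v : Matrix (Fin n) (Fin n) F) i j = _
  rw [Matrix.mul_apply, Finset.sum_eq_single l]
  · rw [Matrix.mul_single_apply_same, mul_one]
  · intro m _ hm
    rw [Matrix.mul_single_apply_of_ne _ _ _ _ _ hm, zero_mul]
  · intro h; exact absurd (Finset.mem_univ l) h

lemma box_iff {i j : Fin n} (hij : i < j) {a : F} (ha : a ≠ 0) (u u' v v' : UT n F) :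
    dualTri u (box i j a) v = dualTri u' (box i j a) v' ↔
      ∀ k, i < k → k < j → mat u i k = mat u' i k ∧ mat v k j = mat v' k j := by
  constructor
  · intro h k hik hkj
    constructor
    · have h1 := congrArg (fun τ : Module.Dual F (NT n F) => τ (enn hkj)) h
      change a * (tri u (enn hkj) v : Matrix (Fin n) (Fin n) F) i j =
        a * (tri u' (enn hkj) v' : Matrix (Fin n) (Fin n) F) i j at h1
      rw [tri_enn, tri_enn, mat_diag, mat_diag, mul_one, mul_one] at h1
      exact mul_left_cancel₀ ha h1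
    · have h1 := congrArg (fun τ : Module.Dual F (NT n F) => τ (enn hik)) h
      change a * (tri u (enn hik) v : Matrix (Fin n) (Fin n) F) i j =
        a * (tri u' (enn hik) v' : Matrix (Fin n) (Fin n) F) i j at h1
      rw [tri_enn, tri_enn, mat_diag, mat_diag, one_mul, one_mul] at h1
      exact mul_left_cancel₀ ha h1
  · intro h
    apply LinearMap.ext
    intro y
    change a * (tri u y v : Matrix (Fin n) (Fin n) F) i j =
      a * (tri u' y v' : Matrix (Fin n) (Fin n) F) i j
    congr 1
    rw [tri_coe, tri_coe, Matrix.mul_apply, Matrix.mul_apply]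
    apply Finset.sum_congr rfl
    intro l _
    rw [Matrix.mul_apply, Matrix.mul_apply, Finset.sum_mul, Finset.sum_mul]
    apply Finset.sum_congr rfl
    intro k _
    by_cases hkl : k < l
    · by_cases hki : k < i
      · rw [mat_lower u hki, mat_lower u' hki]; ring
      · by_cases hjl : j < l
        · rw [mat_lower v hjl, mat_lower v' hjl]; ring
        · rw [not_lt] at hki hjl
          have hkj : k < j := lt_of_lt_of_le hkl hjl
          have hil : i < l := lt_of_le_of_lt hki hkl
          have e1 : mat u i k = mat u' i k := by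
            rcases hki.lt_or_eq with h1 | h1
            · exact (h k h1 hkj).1
            · rw [← h1, mat_diag, mat_diag]
          have e2 : mat v l j = mat v' l j := by
            rcases hjl.lt_or_eq with h1 | h1
            · exact (h l hil h1).2
            · rw [h1, mat_diag, mat_diag]
          rw [e1, e2]
    · rw [y.2 k l (not_lt.mp hkl)]; ring

/-- Row element. -/
noncomputable def rowEl (i j : Fin n) (α : {k : Fin n // i < k ∧ k < j} → F) : UT n F :=
  oneAdd ⟨fun b c => if h : b = i ∧ i < c ∧ c < j then α ⟨c, h.2⟩ else 0, fun b c hbc => by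
    simp only
    rw [dif_neg]
    rintro ⟨rfl, h1, _⟩
    exact absurd h1 (not_lt.mpr hbc)⟩

/-- Column element. -/
noncomputable def colEl (i j : Fin n) (β : {k : Fin n // i < k ∧ k < j} → F) : UT n F :=
  oneAdd ⟨fun b c => if h : c = j ∧ i < b ∧ b < j then β ⟨b, h.2⟩ else 0, fun b c hbc => by
    simp only
    rw [dif_neg]
    rintro ⟨rfl, _, h1⟩
    exact absurd h1 (not_lt.mpr hbc)⟩

lemma rowEl_apply (i j : Fin n) (α : {k : Fin n // i < k ∧ k < j} → F) (k : Fin n) (h1 : i < k)
    (h2 : k < j) : mat (rowEl i j α) i k = α ⟨k, h1, h2⟩ := by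
  unfold rowEl
  rw [mat_oneAdd, Matrix.add_apply, Matrix.one_apply_ne h1.ne, zero_add]
  simp only
  rw [dif_pos ⟨trivial, h1, h2⟩]

lemma colEl_apply (i j : Fin n) (β : {k : Fin n // i < k ∧ k < j} → F) (k : Fin n) (h1 : i < k)
    (h2 : k < j) : mat (colEl i j β) k j = β ⟨k, h1, h2⟩ := by
  unfold colEl
  rw [mat_oneAdd, Matrix.add_apply, Matrix.one_apply_ne h2.ne, zero_add]
  simp only
  rw [dif_pos ⟨trivial, h1, h2⟩]

lemma card_box_orbit [Finite F] {i j : Fin n} (hij : i < j) {a : F} (ha : a ≠ 0) :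
    (dualOrbit (box i j a)).ncard = Nat.card ({k : Fin n // i < k ∧ k < j} → F) *
      Nat.card ({k : Fin n // i < k ∧ k < j} → F) := by
  rw [← Nat.card_prod, ← Nat.card_coe_set_eq]
  symm
  apply Nat.card_congr
  apply Equiv.ofBijective
    (fun p : ({k : Fin n // i < k ∧ k < j} → F) × ({k : Fin n // i < k ∧ k < j} → F) =>
      (⟨dualTri (rowEl i j p.1) (box i j a) (colEl i j p.2), ⟨_, _, rfl⟩⟩ :
        dualOrbit (box i j a)))
  constructor
  · rintro ⟨α, β⟩ ⟨α', β'⟩ h
    have h1 := (box_iff hij ha _ _ _ _).mp (congrArg Subtype.val h)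
    ext ⟨k, hk1, hk2⟩
    · have := (h1 k hk1 hk2).1
      rwa [rowEl_apply i j _ k hk1 hk2, rowEl_apply i j _ k hk1 hk2] at this
    · have := (h1 k hk1 hk2).2
      rwa [colEl_apply i j _ k hk1 hk2, colEl_apply i j _ k hk1 hk2] at this
  · rintro ⟨_, u, v, rfl⟩
    refine ⟨⟨fun k => mat u i k, fun k => mat v k j⟩, ?_⟩
    apply Subtype.ext
    apply (box_iff hij ha _ _ _ _).mpr
    intro k hk1 hk2
    rw [rowEl_apply i j _ k hk1 hk2, colEl_apply i j _ k hk1 hk2]
    exact ⟨rfl, rfl⟩

lemma card_box_orbit_right [Finite F] {i j : Fin n} (hij : i < j) {a : F} (ha : a ≠ 0) :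
    Nat.card (MulAction.orbit (UT n F) (box i j a)) =
      Nat.card ({k : Fin n // i < k ∧ k < j} → F) := by
  symm
  apply Nat.card_congr
  apply Equiv.ofBijective
    (fun β : ({k : Fin n // i < k ∧ k < j} → F) =>
      (⟨dualTri 1 (box i j a) (colEl i j β), ⟨colEl i j β, rfl⟩⟩ :
        MulAction.orbit (UT n F) (box i j a)))
  constructor
  · intro β β' h
    have h1 := (box_iff hij ha _ _ _ _).mp (congrArg Subtype.val h)
    ext ⟨k, hk1, hk2⟩
    have := (h1 k hk1 hk2).2
    rwa [colEl_apply i j _ k hk1 hk2, colEl_apply i j _ k hk1 hk2] at this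
  · rintro ⟨_, v, rfl⟩
    refine ⟨fun k => mat v k j, ?_⟩
    apply Subtype.ext
    apply (box_iff hij ha _ _ _ _).mpr
    intro k hk1 hk2
    rw [colEl_apply i j _ k hk1 hk2]
    exact ⟨rfl, rfl⟩

/-- The single-box characters are irreducible and form one-element blocks. -/
theorem andre_boxes [Finite F] [Fintype (UT n F)] {θ : AddChar F ℂ} (hθ : θ ≠ 1) :
    ContainsBoxes θ (andreX (n := n) θ) := by
  intro i j hij a ha
  haveI : Fintype F := Fintype.ofFinite F
  obtain ⟨V, _, _, _, ρ, κ, hκ, hχ, hχ1⟩ := char_eq hθ (box i j a : Module.Dual F (NT n F))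
  have hκ' : (κ : ℂ) ≠ 0 := by exact_mod_cast hκ.ne'
  set m : ℕ := Nat.card ({k : Fin n // i < k ∧ k < j} → F) with hm
  have hm0 : (m : ℂ) ≠ 0 := by
    rw [Nat.cast_ne_zero]; exact Nat.card_pos.ne'
  have h1 : superFun θ (box i j a) (1 : UT n F) = (m : ℂ) * m := by
    rw [superFun_one, card_box_orbit hij ha]; push_cast; rfl
  have h2 : (κ : ℂ) * m = 1 := by
    have h3 := hχ 1
    rw [hχ1, card_box_orbit_right hij ha, ← hm, h1, ← mul_assoc] at h3
    have h4 : (1 : ℂ) * m = (κ : ℂ) * m * m := by rw [one_mul]; exact h3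
    exact (mul_right_cancel₀ hm0 h4).symm
  have hnorm : ∑ g, ρ.character g * ρ.character g⁻¹ = (Nat.card (UT n F) : ℂ) := by
    have h3 := (convolution hθ (box i j a) (box i j a) (1 : UT n F)).1 (self_mem_dualOrbit _)
    simp only [mul_one] at h3
    have h4 : ∀ g, ρ.character g * ρ.character g⁻¹ =
        (κ : ℂ) ^ 2 * (superFun θ (box i j a) g * superFun θ (box i j a) g⁻¹) := by
      intro g
      rw [hχ, hχ]; ring
    simp only [h4]
    rw [← Finset.mul_sum, h3, h1]
    linear_combination (Nat.card (UT n F) : ℂ) * ((κ : ℂ) * m + 1) * h2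
  have hirr := irr_of_norm_one ρ hnorm
  refine ⟨ρ.character, hirr, ⟨κ, hκ, hχ⟩, ⟨box i j a, ?_⟩⟩
  have hG : (Nat.card (UT n F) : ℂ) ≠ 0 := by
    rw [Nat.cast_ne_zero]; exact Nat.card_pos.ne'
  have h5 : ∀ ψ : UT n F → ℂ, ∑ g, ρ.character g * ψ g⁻¹ =
      (κ : ℂ) * ∑ g, superFun θ (box i j a) g * ψ g⁻¹ := by
    intro ψ
    rw [Finset.mul_sum]
    apply Finset.sum_congr rfl
    intro g _
    rw [hχ, mul_assoc]
  ext ψ
  rw [Set.mem_singleton_iff]
  constructor
  · rintro ⟨hψ, hne⟩
    by_contra hcon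
    have h6 := (irr_ortho hirr hψ).2 (fun h => hcon h.symm)
    rw [h5] at h6
    exact hne ((mul_eq_zero.mp h6).resolve_left hκ')
  · rintro rfl
    refine ⟨hirr, ?_⟩
    intro h6
    have h7 := (irr_ortho hirr hirr).1 rfl
    rw [h5, h6, mul_zero] at h7
    exact hG h7.symm

end Box

end Pool.Agent.Helper59.Andre
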