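import Mathlib
import Pool.Agent.Helper59.Andre7

set_option autoImplicit false

namespace Pool.Agent.Helper59.Andre

section Gen

variable {G : Type} [Group G] [Fintype G]

lemma sigma_pair {A : Set (G → ℂ)} (hA : A ⊆ Irr G) {ψ : G → ℂ} (hψ : ψ ∈ Irr G) :
    (ψ ∈ A → ∑ g, sigma A g * ψ g⁻¹ = ψ 1 * (Nat.card G : ℂ)) ∧
    (ψ ∉ A → ∑ g, sigma A g * ψ g⁻¹ = 0) := by
  classical
  have hfin : A.Finite := irr_finite.subset hA
  have h1 : ∑ g, sigma A g * ψ g⁻¹ =
      ∑ φ ∈ hfin.toFinset, φ 1 * ∑ g, φ g * ψ g⁻¹ := by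
    unfold sigma
    simp only [finsum_mem_eq_finite_toFinset_sum _ hfin, Finset.sum_mul, Finset.mul_sum]
    rw [Finset.sum_comm]
    simp only [mul_assoc]
  rw [h1]
  constructor
  · intro h
    rw [Finset.sum_eq_single_of_mem ψ ((Set.Finite.mem_toFinset _).mpr h)]
    · rw [(irr_ortho hψ hψ).1 rfl]
    · intro φ hφ hne
      rw [Set.Finite.mem_toFinset] at hφ
      rw [(irr_ortho (hA hφ) hψ).2 hne, mul_zero]
  · intro h
    apply Finset.sum_eq_zero
    intro φ hφ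
    rw [Set.Finite.mem_toFinset] at hφ
    rw [(irr_ortho (hA hφ) hψ).2 (fun e => h (e ▸ hφ)), mul_zero]

/-- Functions constant on the superclasses are combinations of the supercharacters. -/
lemma sct_span {X : Set (Set (G → ℂ))} {K : Set (Set G)} (h : IsSCT X K) (f : G → ℂ)
    (hf : ∀ B ∈ K, ∀ g ∈ B, ∀ g' ∈ B, f g = f g') :
    ∃ c : X → ℂ, ∀ g, f g = ∑ᶠ A : X, c A * sigma A.1 g := by
  classical
  have hXfin : X.Finite := by
    apply (irr_finite (G := G)).finite_subsets.subset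
    intro A hA
    exact h.block_sub A hA
  haveI : Fintype X := hXfin.fintype
  haveI : Fintype K := Fintype.ofFinite _
  have hG : (Nat.card G : ℂ) ≠ 0 := by
    rw [Nat.cast_ne_zero]; exact Nat.card_pos.ne'
  -- representatives and blocks
  choose! r hr using h.class_nonempty
  have hb : ∀ g : G, ∃ B : K, g ∈ B.1 := fun g => by
    obtain ⟨B, ⟨hB, hg⟩, _⟩ := h.partK g
    exact ⟨⟨B, hB⟩, hg⟩
  choose b hb using hb
  let s : X → (K → ℂ) := fun A B => sigma A.1 (r B.1)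
  have hval : ∀ (A : X) (g : G), sigma A.1 g = s A (b g) := by
    intro A g
    exact h.const A.1 A.2 (b g).1 (b g).2 g (hb g) (r (b g).1) (hr _ (b g).2)
  have hli : LinearIndependent ℂ s := by
    rw [Fintype.linearIndependent_iff]
    intro c hc A
    obtain ⟨ψ, hψ⟩ := h.block_nonempty A.1 A.2
    have hψI := h.block_sub A.1 A.2 hψ
    have h1 : ∀ g, ∑ A' : X, c A' * sigma A'.1 g = 0 := by
      intro g
      have h2 := congrFun hc (b g)
      simp only [Finset.sum_apply, Pi.smul_apply, smul_eq_mul, Pi.zero_apply] at h2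
      rw [← h2]
      apply Finset.sum_congr rfl
      intro A' _
      rw [hval]
    have h3 : ∑ g, (∑ A' : X, c A' * sigma A'.1 g) * ψ g⁻¹ = 0 := by
      simp only [h1]; simp
    have h4 : ∑ g, (∑ A' : X, c A' * sigma A'.1 g) * ψ g⁻¹ =
        ∑ A' : X, c A' * ∑ g, sigma A'.1 g * ψ g⁻¹ := by
      simp only [Finset.sum_mul, Finset.mul_sum]
      rw [Finset.sum_comm]
      simp only [mul_assoc]
    rw [h4, Finset.sum_eq_single A] at h3
    · rw [(sigma_pair (h.block_sub A.1 A.2) hψI).1 hψ] at h3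
      have h5 : ψ 1 * (Nat.card G : ℂ) ≠ 0 := mul_ne_zero (irr_one_ne_zero hψI) hG
      exact (mul_eq_zero.mp h3).resolve_right h5
    · intro A' _ hne
      have hn : ψ ∉ A'.1 := by
        intro h6
        apply hne
        obtain ⟨A₀, _, hu⟩ := h.partX ψ hψI
        exact Subtype.ext ((hu A'.1 ⟨A'.2, h6⟩).trans (hu A.1 ⟨A.2, hψ⟩).symm)
      rw [(sigma_pair (h.block_sub A'.1 A'.2) hψI).2 hn, mul_zero]
    · intro h'; exact absurd (Finset.mem_univ _) h'
  have hcard : Fintype.card X = Module.finrank ℂ (K → ℂ) := by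
    rw [Module.finrank_fintype_fun_eq_card]
    have := h.card_eq
    rwa [← Nat.card_coe_set_eq, ← Nat.card_coe_set_eq, Nat.card_eq_fintype_card,
      Nat.card_eq_fintype_card] at this
  have hspan := hli.span_eq_top_of_card_eq_finrank' hcard
  have hmem : (fun B : K => f (r B.1)) ∈ Submodule.span ℂ (Set.range s) := by
    rw [hspan]; trivial
  rw [Submodule.mem_span_range_iff_exists_fun] at hmem
  obtain ⟨c, hc⟩ := hmem
  refine ⟨c, fun g => ?_⟩
  rw [finsum_eq_sum_of_fintype]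
  have h1 : f g = f (r (b g).1) := hf (b g).1 (b g).2 g (hb g) _ (hr _ (b g).2)
  have h2 := congrFun hc (b g)
  simp only [Finset.sum_apply, Pi.smul_apply, smul_eq_mul] at h2
  rw [h1, ← h2]
  apply Finset.sum_congr rfl
  intro A' _
  rw [hval]

lemma sct_uniform {X : Set (Set (G → ℂ))} {K : Set (Set G)} (h : IsSCT X K) (f : G → ℂ)
    (hf : ∀ B ∈ K, ∀ g ∈ B, ∀ g' ∈ B, f g = f g') {A : Set (G → ℂ)} (hA : A ∈ X)
    {ψ₁ ψ₂ : G → ℂ} (h1 : ψ₁ ∈ A) (h2 : ψ₂ ∈ A) (hne : ∑ g, f g * ψ₁ g⁻¹ ≠ 0) :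
    ∑ g, f g * ψ₂ g⁻¹ ≠ 0 := by
  classical
  have hXfin : X.Finite := by
    apply (irr_finite (G := G)).finite_subsets.subset
    intro A hA
    exact h.block_sub A hA
  haveI : Fintype X := hXfin.fintype
  have hG : (Nat.card G : ℂ) ≠ 0 := by
    rw [Nat.cast_ne_zero]; exact Nat.card_pos.ne'
  obtain ⟨c, hc⟩ := sct_span h f hf
  have key : ∀ ψ ∈ A, ∑ g, f g * ψ g⁻¹ = c ⟨A, hA⟩ * (ψ 1 * (Nat.card G : ℂ)) := by
    intro ψ hψ
    have hψI := h.block_sub A hA hψ
    have h4 : ∑ g, f g * ψ g⁻¹ =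
        ∑ A' : X, c A' * ∑ g, sigma A'.1 g * ψ g⁻¹ := by
      simp only [hc, finsum_eq_sum_of_fintype, Finset.sum_mul, Finset.mul_sum]
      rw [Finset.sum_comm]
      simp only [mul_assoc]
    rw [h4, Finset.sum_eq_single ⟨A, hA⟩]
    · rw [(sigma_pair (h.block_sub A hA) hψI).1 hψ]
    · intro A' _ hne
      have hn : ψ ∉ A'.1 := by
        intro h6
        apply hne
        obtain ⟨A₀, _, hu⟩ := h.partX ψ hψI
        exact Subtype.ext ((hu A'.1 ⟨A'.2, h6⟩).trans (hu A ⟨hA, hψ⟩).symm)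
      rw [(sigma_pair (h.block_sub A'.1 A'.2) hψI).2 hn, mul_zero]
    · intro h'; exact absurd (Finset.mem_univ _) h'
  rw [key ψ₁ h1] at hne
  rw [key ψ₂ h2]
  have hc0 : c ⟨A, hA⟩ ≠ 0 := left_ne_zero_of_mul hne
  exact mul_ne_zero hc0 (mul_ne_zero (irr_one_ne_zero (h.block_sub A hA h2)) hG)

end Gen

variable {n : ℕ} {F : Type} [Field F]

/-- Every theory containing the boxes has a character partition finer than that of André. -/
theorem coarse_X [Finite F] [Fintype (UT n F)] {θ : AddChar F ℂ} (hθ : θ ≠ 1)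
    {X : Set (Set (UT n F → ℂ))} {K : Set (Set (UT n F))} (hXK : IsSCT X K)
    (hbox : ContainsBoxes θ X) : ∀ A ∈ X, ∃ A₀ ∈ andreX (n := n) θ, A ⊆ A₀ := by
  haveI : Fintype F := Fintype.ofFinite F
  intro A hA
  obtain ⟨ψ, hψ⟩ := hXK.block_nonempty A hA
  obtain ⟨lam, hlam⟩ := exists_blk hθ (hXK.block_sub A hA hψ)
  refine ⟨blk θ lam, ⟨lam, rfl⟩, ?_⟩
  intro φ hφ
  refine ⟨hXK.block_sub A hA hφ, ?_⟩
  apply sct_uniform hXK (superFun θ lam) _ hA hψ hφ hlam.2
  intro B hB g hg g' hg'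
  obtain ⟨C, hC, hBC⟩ := coarse_K hθ hXK hbox B hB
  have h1 := (andre_isSCT (n := n) hθ).const (blk θ lam) ⟨lam, rfl⟩ C hC g (hBC hg) g' (hBC hg')
  rwa [sigma_blk hθ] at h1

end Pool.Agent.Helper59.Andre
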