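import Mathlib

open scoped ENNReal

namespace Pool.Agent.Helper59.BA1

/-- complex l1 space over an index type -/
noncomputable abbrev L (ι : Type*) := lp (fun _ : ι => ℂ) 1

variable {ι : Type*}

lemma summable_norm (x : L ι) : Summable (fun i => ‖x i‖) := by
  have h := (lp.memℓp x).summable (by simp)
  simpa using h

lemma norm_eq (x : L ι) : ‖x‖ = ∑' i, ‖x i‖ := by
  have h := lp.norm_eq_tsum_rpow (p := 1) (by simp) x
  simpa using h

lemma enorm_eq (x : L ι) : ‖x‖ₑ = ∑' i, ‖x i‖ₑ := by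
  have h : ‖x‖ₑ = ENNReal.ofReal ‖x‖ := (ofReal_norm x).symm
  rw [h, norm_eq, ENNReal.ofReal_tsum_of_nonneg (fun _ => norm_nonneg _) (summable_norm x)]
  refine tsum_congr fun i => ?_
  exact ofReal_norm _

/-- build an element of l1 from a function with finite total mass -/
noncomputable def mk (f : ι → ℂ) (hf : Summable fun i => ‖f i‖) : L ι :=
  ⟨f, memℓp_gen (by simpa using hf)⟩

@[simp] lemma mk_apply (f : ι → ℂ) (hf) (i : ι) : mk f hf i = f i := rfl

lemma summable_of_enorm {f : ι → ℂ} (h : ∑' i, ‖f i‖ₑ ≠ ⊤) : Summable fun i => ‖f i‖ := by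
  have := ENNReal.summable_toReal h
  simpa using this

lemma enorm_tsum_ne_top (x : L ι) : ∑' i, ‖x i‖ₑ ≠ ⊤ := by
  rw [← enorm_eq]; exact enorm_ne_top

lemma countable_support (x : L ι) : (Function.support (fun i => x i)).Countable := by
  have h := (summable_norm x).countable_support
  refine h.mono ?_
  intro i hi
  simpa [Function.mem_support] using hi

lemma apply_tsum {κ : Type*} (f : κ → L ι) (hf : Summable f) (i : ι) :
    (∑' k, f k) i = ∑' k, f k i := by
  have h := (lp.evalCLM ℂ (fun _ : ι => ℂ) 1 i).map_tsum hf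
  exact h

/-- coordinatewise evaluation is linear and bounded -/
lemma norm_apply_le (x : L ι) (i : ι) : ‖x i‖ ≤ ‖x‖ := lp.norm_apply_le_norm (by simp) x i

/-- Norm control of finite-dimensional subspaces by finitely many coordinates. -/
lemma exists_control (X : Submodule ℂ (L ι)) [FiniteDimensional ℂ X] :
    ∃ (F : Finset ι) (K : ℝ), 0 ≤ K ∧ ∀ v ∈ X, ‖v‖ ≤ K * ∑ s ∈ F, ‖v s‖ := by
  classical
  -- kernel of restriction to F
  let ker : Finset ι → Submodule ℂ X := fun F =>
    { carrier := {v | ∀ s ∈ F, (v : L ι) s = 0}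
      add_mem' := by
        intro a b ha hb s hs
        have h1 := ha s hs
        have h2 := hb s hs
        simp [h1, h2]
      zero_mem' := by intro s _; simp
      smul_mem' := by
        intro c a ha s hs
        have h1 := ha s hs
        simp [lp.coeFn_smul, h1] }
  have hex : ∃ F, ker F = ⊥ := by
    -- choose F with minimal finrank
    let S : Set ℕ := Set.range fun F => Module.finrank ℂ (ker F)
    have hS : S.Nonempty := ⟨_, ⟨∅, rfl⟩⟩
    obtain ⟨F, hF⟩ := Nat.sInf_mem hS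
    refine ⟨F, ?_⟩
    by_contra hne
    obtain ⟨v, hv, hv0⟩ := Submodule.exists_mem_ne_zero_of_ne_bot hne
    have : ∃ s, (v : L ι) s ≠ 0 := by
      by_contra hall
      push Not at hall
      apply hv0
      apply Subtype.ext
      apply lp.ext
      funext s
      simpa using hall s
    obtain ⟨s, hs⟩ := this
    have hlt : ker (insert s F) < ker F := by
      refine lt_of_le_of_ne ?_ ?_
      · intro w hw t ht
        exact hw t (Finset.mem_insert_of_mem ht)
      · intro heq
        have : v ∈ ker (insert s F) := heq ▸ hv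
        exact hs (this s (Finset.mem_insert_self _ _))
    have h1 := Submodule.finrank_lt_finrank_of_lt hlt
    have h2 : sInf S ≤ Module.finrank ℂ (ker (insert s F)) := Nat.sInf_le ⟨_, rfl⟩
    have h3 : Module.finrank ℂ (ker F) = sInf S := hF
    omega
  obtain ⟨F, hF⟩ := hex
  let R : X →ₗ[ℂ] (F → ℂ) :=
    { toFun := fun v s => (v : L ι) s
      map_add' := by intro a b; funext s; simp
      map_smul' := by intro c a; funext s; simp [lp.coeFn_smul] }
  have hR : LinearMap.ker R = ⊥ := by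
    rw [eq_bot_iff, ← hF]
    intro v hv s hs
    have : R v = 0 := hv
    exact congrFun this ⟨s, hs⟩
  obtain ⟨K, _, hK⟩ := R.exists_antilipschitzWith hR
  refine ⟨F, K, K.2, fun v hv => ?_⟩
  have h1 := hK.le_mul_dist ⟨v, hv⟩ 0
  rw [dist_zero_right, map_zero, dist_zero_right] at h1
  have h2 : ‖R ⟨v, hv⟩‖ ≤ ∑ s ∈ F, ‖v s‖ := by
    rw [pi_norm_le_iff_of_nonneg (Finset.sum_nonneg fun _ _ => norm_nonneg _)]
    intro s
    exact Finset.single_le_sum (f := fun s => ‖v s‖) (fun _ _ => norm_nonneg _) s.2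
  calc ‖v‖ = ‖(⟨v, hv⟩ : X)‖ := rfl
    _ ≤ K * ‖R ⟨v, hv⟩‖ := h1
    _ ≤ K * ∑ s ∈ F, ‖v s‖ := by gcongr

/-- Coordinates far out are uniformly small on a finite-dimensional subspace. -/
lemma exists_small (X : Submodule ℂ (L ι)) [FiniteDimensional ℂ X] (δ : ℝ) (hδ : 0 < δ) :
    ∃ B : Finset ι, ∀ j ∉ B, ∀ v ∈ X, ‖v j‖ ≤ δ * ‖v‖ := by
  classical
  let b := Module.finBasis ℂ X
  let d := Module.finrank ℂ X
  -- coordinates bounded
  have hc : ∀ k, ∃ C : ℝ, ∀ v : X, ‖b.repr v k‖ ≤ C * ‖v‖ := by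
    intro k
    let f : X →ₗ[ℂ] ℂ := b.coord k
    let g := LinearMap.toContinuousLinearMap f
    exact ⟨‖g‖, fun v => g.le_opNorm v⟩
  choose C hC using hc
  let C' := ∑ k, |C k|
  have hC' : ∀ k, ∀ v : X, ‖b.repr v k‖ ≤ (C' + 1) * ‖v‖ := by
    intro k v
    refine (hC k v).trans ?_
    gcongr
    have : |C k| ≤ C' := Finset.single_le_sum (f := fun k => |C k|) (fun _ _ => abs_nonneg _)
      (Finset.mem_univ k)
    linarith [le_abs_self (C k)]
  have hC'0 : 0 < C' + 1 := by
    have : 0 ≤ C' := Finset.sum_nonneg fun _ _ => abs_nonneg _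
    linarith
  have hsum : Summable fun j => ∑ k, ‖((b k : X) : L ι) j‖ :=
    summable_sum fun k _ => summable_norm _
  have htend := hsum.tendsto_cofinite_zero
  have hev : ∀ᶠ j in Filter.cofinite, ∑ k, ‖((b k : X) : L ι) j‖ < δ / (C' + 1) :=
    htend.eventually (gt_mem_nhds (by positivity))
  have hfin : {j | ¬ ∑ k, ‖((b k : X) : L ι) j‖ < δ / (C' + 1)}.Finite := hev
  refine ⟨hfin.toFinset, fun j hj v hv => ?_⟩
  have hj' : ∑ k, ‖((b k : X) : L ι) j‖ < δ / (C' + 1) := by
    by_contra hcon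
    exact hj (hfin.mem_toFinset.2 hcon)
  have hv' : v j = ∑ k, b.repr ⟨v, hv⟩ k * ((b k : X) : L ι) j := by
    have h1 := b.sum_repr ⟨v, hv⟩
    have h2 := congrArg (fun w : X => (w : L ι) j) h1
    simp only at h2
    rw [← h2]
    rw [Submodule.coe_sum]
    rw [lp.coeFn_sum]
    simp [Finset.sum_apply, lp.coeFn_smul]
  calc ‖v j‖ ≤ ∑ k, ‖b.repr ⟨v, hv⟩ k * ((b k : X) : L ι) j‖ := by
        rw [hv']; exact norm_sum_le _ _
    _ ≤ ∑ k, ((C' + 1) * ‖v‖) * ‖((b k : X) : L ι) j‖ := by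
        refine Finset.sum_le_sum fun k _ => ?_
        rw [norm_mul]
        gcongr
        exact hC' k ⟨v, hv⟩
    _ = ((C' + 1) * ‖v‖) * ∑ k, ‖((b k : X) : L ι) j‖ := by rw [Finset.mul_sum]
    _ ≤ ((C' + 1) * ‖v‖) * (δ / (C' + 1)) := by gcongr
    _ = δ * ‖v‖ := by field_simp

end Pool.Agent.Helper59.BA1
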