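import Mathlib
import Pool.Agent.Helper59.BA9

open TopologicalSpace

namespace Pool.Agent.Helper59.BA10
open Pool.Agent.Helper59.BA8 Pool.Agent.Helper59.BA9

variable {A : Type*} [NonUnitalNormedRing A] [NormedSpace ℂ A] [IsScalarTower ℂ A A]
  [SMulCommClass ℂ A A] [CompleteSpace A] [StarRing A] [StarModule ℂ A]

omit [CompleteSpace A] [StarRing A] [StarModule ℂ A] in
lemma cube_top (h : BA8.sq A = ⊤) : cube A = ⊤ := by
  rw [eq_top_iff, ← h, BA8.sq, Submodule.span_le]
  rintro _ ⟨a, b, rfl⟩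
  have ha : a ∈ BA8.sq A := by rw [h]; trivial
  induction ha using Submodule.span_induction with
  | mem a ha =>
    obtain ⟨c, d, rfl⟩ := ha
    exact Submodule.subset_span ⟨c, d, b, rfl⟩
  | zero => rw [zero_mul]; exact Submodule.zero_mem _
  | add x y _ _ hx hy => rw [add_mul]; exact Submodule.add_mem _ hx hy
  | smul c x _ hx => rw [smul_mul_assoc]; exact Submodule.smul_mem _ _ hx

theorem traces (h : BA8.sq A = ⊤ ∨ (IsClosed (cube A : Set A) ∧ FiniteDimensional ℂ (A ⧸ cube A)) ∨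
    (SeparableSpace A ∧ BA8.sq A = ⊤) ∨ (SeparableSpace A ∧ FiniteDimensional ℂ (A ⧸ BA8.sq A)))
    (f : A →ₗ[ℂ] ℂ) (hpos : ∀ a, 0 ≤ (f (star a * a)).re ∧ (f (star a * a)).im = 0)
    (htr : ∀ a b, f (a * b) = f (b * a)) : Continuous f := by
  have h1 : BA8.sq A = ⊤ → Continuous f := by
    intro h
    have hc := cube_top h
    refine trace_H2 ?_ ?_ f hpos htr
    · rw [hc]; exact isClosed_univ
    · rw [hc]; infer_instance
  rcases h with h | h | h | h
  · exact h1 h
  · exact trace_H2 h.1 h.2 f hpos htr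
  · exact h1 h.2
  · haveI := h.1
    obtain ⟨h2, h3⟩ := laursen h.2
    exact trace_H2 h2 h3 f hpos htr

end Pool.Agent.Helper59.BA10
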