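import Mathlib
import Pool.Agent.Helper59.BA1

open scoped ENNReal

namespace Pool.Agent.Helper59.BA2
open Pool.Agent.Helper59.BA1

variable {κ : Type*}

/-- the part of the product outside the special diagonal entries -/
noncomputable def offf (S : κ → Prop) (x y : L κ) : κ × κ → ℂ := by
  classical exact fun p => if p.1 = p.2 ∧ S p.1 then 0 else x p.1 * y p.2

/-- the special diagonal coefficients -/
noncomputable def dg (S : κ → Prop) (x y : L κ) : κ → ℂ := by
  classical exact fun j => if S j then x j * y j else 0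

lemma offf_eq (S : κ → Prop) (x y : L κ) (p : κ × κ) (h : ¬ (p.1 = p.2 ∧ S p.1)) :
    offf S x y p = x p.1 * y p.2 := by
  simp only [offf]; rw [if_neg h]

lemma offf_eq_zero (S : κ → Prop) (x y : L κ) (p : κ × κ) (h : p.1 = p.2 ∧ S p.1) :
    offf S x y p = 0 := by
  simp only [offf]; rw [if_pos h]

lemma dg_eq (S : κ → Prop) (x y : L κ) (j : κ) (h : S j) : dg S x y j = x j * y j := by
  simp only [dg]; rw [if_pos h]

lemma dg_eq_zero (S : κ → Prop) (x y : L κ) (j : κ) (h : ¬ S j) : dg S x y j = 0 := by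
  simp only [dg]; rw [if_neg h]

lemma summable_mul (x y : L κ) : Summable fun p : κ × κ => ‖x p.1 * y p.2‖ := by
  have := (summable_norm x).mul_of_nonneg (summable_norm y) (fun _ => norm_nonneg _)
    (fun _ => norm_nonneg _)
  simpa [norm_mul] using this

lemma offf_norm_le (S : κ → Prop) (x y : L κ) (p : κ × κ) : ‖offf S x y p‖ ≤ ‖x p.1 * y p.2‖ := by
  by_cases h : p.1 = p.2 ∧ S p.1
  · rw [offf_eq_zero S x y p h, norm_zero]; positivity
  · rw [offf_eq S x y p h]

lemma dg_norm_le (S : κ → Prop) (x y : L κ) (j : κ) : ‖dg S x y j‖ ≤ ‖x j‖ * ‖y j‖ := by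
  by_cases h : S j
  · rw [dg_eq S x y j h, norm_mul]
  · rw [dg_eq_zero S x y j h, norm_zero]; positivity

lemma offf_summable (S : κ → Prop) (x y : L κ) : Summable fun p => ‖offf S x y p‖ :=
  Summable.of_nonneg_of_le (fun _ => norm_nonneg _) (offf_norm_le S x y) (summable_mul x y)

lemma dg_le (S : κ → Prop) (x y : L κ) (j : κ) : ‖dg S x y j‖ ≤ ‖x‖ * ‖y j‖ :=
  (dg_norm_le S x y j).trans (by gcongr; exact norm_apply_le x j)

lemma dg_summable (S : κ → Prop) (x y : L κ) : Summable fun j => ‖dg S x y j‖ :=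
  Summable.of_nonneg_of_le (fun _ => norm_nonneg _) (dg_le S x y)
    ((summable_norm y).mul_left _)

variable (e : κ → L (κ × κ)) (he : ∀ j, ‖e j‖ ≤ 1)

include he in
lemma smul_summable {c : κ → ℂ} (hc : Summable fun j => ‖c j‖) : Summable fun j => c j • e j := by
  refine Summable.of_norm_bounded hc (fun j => ?_)
  rw [norm_smul]
  calc ‖c j‖ * ‖e j‖ ≤ ‖c j‖ * 1 := by gcongr; exact he j
    _ = ‖c j‖ := mul_one _

include he in
lemma mul_summable {c : κ → ℂ} (hc : Summable fun j => ‖c j‖) (p : κ × κ) :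
    Summable fun j => c j * e j p := by
  refine Summable.of_norm_bounded hc (fun j => ?_)
  rw [norm_mul]
  calc ‖c j‖ * ‖e j p‖ ≤ ‖c j‖ * 1 := by
        gcongr; exact (norm_apply_le _ _).trans (he j)
    _ = ‖c j‖ := mul_one _

/-- the product -/
noncomputable def m (S : κ → Prop) (x y : L κ) : L (κ × κ) :=
  mk (offf S x y) (offf_summable S x y) + ∑' j, dg S x y j • e j

include he in
lemma m_apply (S : κ → Prop) (x y : L κ) (p : κ × κ) :
    m e S x y p = offf S x y p + ∑' j, dg S x y j * e j p := by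
  simp only [m]
  rw [lp.coeFn_add, Pi.add_apply, apply_tsum _ (smul_summable e he (dg_summable S x y))]
  rfl

lemma offf_add_left (S : κ → Prop) (x x' y : L κ) (p : κ × κ) :
    offf S (x + x') y p = offf S x y p + offf S x' y p := by
  by_cases h : p.1 = p.2 ∧ S p.1
  · simp only [offf_eq_zero S _ _ p h, add_zero]
  · simp only [offf_eq S _ _ p h, lp.coeFn_add, Pi.add_apply, add_mul]

lemma offf_add_right (S : κ → Prop) (x y y' : L κ) (p : κ × κ) :
    offf S x (y + y') p = offf S x y p + offf S x y' p := by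
  by_cases h : p.1 = p.2 ∧ S p.1
  · simp only [offf_eq_zero S _ _ p h, add_zero]
  · simp only [offf_eq S _ _ p h, lp.coeFn_add, Pi.add_apply, mul_add]

lemma offf_smul_left (S : κ → Prop) (c : ℂ) (x y : L κ) (p : κ × κ) :
    offf S (c • x) y p = c * offf S x y p := by
  by_cases h : p.1 = p.2 ∧ S p.1
  · simp only [offf_eq_zero S _ _ p h, mul_zero]
  · simp only [offf_eq S _ _ p h, lp.coeFn_smul, Pi.smul_apply, smul_eq_mul, mul_assoc]

lemma offf_smul_right (S : κ → Prop) (c : ℂ) (x y : L κ) (p : κ × κ) :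
    offf S x (c • y) p = c * offf S x y p := by
  by_cases h : p.1 = p.2 ∧ S p.1
  · simp only [offf_eq_zero S _ _ p h, mul_zero]
  · simp only [offf_eq S _ _ p h, lp.coeFn_smul, Pi.smul_apply, smul_eq_mul]; ring

lemma dg_add_left (S : κ → Prop) (x x' y : L κ) (p : κ) :
    dg S (x + x') y p = dg S x y p + dg S x' y p := by
  by_cases h : S p
  · simp only [dg_eq S _ _ p h, lp.coeFn_add, Pi.add_apply, add_mul]
  · simp only [dg_eq_zero S _ _ p h, add_zero]

lemma dg_add_right (S : κ → Prop) (x y y' : L κ) (p : κ) :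
    dg S x (y + y') p = dg S x y p + dg S x y' p := by
  by_cases h : S p
  · simp only [dg_eq S _ _ p h, lp.coeFn_add, Pi.add_apply, mul_add]
  · simp only [dg_eq_zero S _ _ p h, add_zero]

lemma dg_smul_left (S : κ → Prop) (c : ℂ) (x y : L κ) (p : κ) :
    dg S (c • x) y p = c * dg S x y p := by
  by_cases h : S p
  · simp only [dg_eq S _ _ p h, lp.coeFn_smul, Pi.smul_apply, smul_eq_mul, mul_assoc]
  · simp only [dg_eq_zero S _ _ p h, mul_zero]

lemma dg_smul_right (S : κ → Prop) (c : ℂ) (x y : L κ) (p : κ) :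
    dg S x (c • y) p = c * dg S x y p := by
  by_cases h : S p
  · simp only [dg_eq S _ _ p h, lp.coeFn_smul, Pi.smul_apply, smul_eq_mul]; ring
  · simp only [dg_eq_zero S _ _ p h, mul_zero]

include he in
lemma m_add_left (S : κ → Prop) (x x' y : L κ) : m e S (x + x') y = m e S x y + m e S x' y := by
  apply lp.ext; funext p
  rw [lp.coeFn_add, Pi.add_apply, m_apply e he, m_apply e he, m_apply e he, offf_add_left]
  simp only [dg_add_left, add_mul]
  rw [(mul_summable e he (dg_summable S x y) p).tsum_add (mul_summable e he (dg_summable S x' y) p)]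
  ring

include he in
lemma m_add_right (S : κ → Prop) (x y y' : L κ) : m e S x (y + y') = m e S x y + m e S x y' := by
  apply lp.ext; funext p
  rw [lp.coeFn_add, Pi.add_apply, m_apply e he, m_apply e he, m_apply e he, offf_add_right]
  simp only [dg_add_right, add_mul]
  rw [(mul_summable e he (dg_summable S x y) p).tsum_add (mul_summable e he (dg_summable S x y') p)]
  ring

include he in
lemma m_smul_left (S : κ → Prop) (c : ℂ) (x y : L κ) : m e S (c • x) y = c • m e S x y := by
  apply lp.ext; funext p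
  rw [lp.coeFn_smul, Pi.smul_apply, m_apply e he, m_apply e he, offf_smul_left]
  simp only [dg_smul_left, mul_assoc, smul_eq_mul]
  rw [tsum_mul_left]
  ring

include he in
lemma m_smul_right (S : κ → Prop) (c : ℂ) (x y : L κ) : m e S x (c • y) = c • m e S x y := by
  apply lp.ext; funext p
  rw [lp.coeFn_smul, Pi.smul_apply, m_apply e he, m_apply e he, offf_smul_right]
  simp only [dg_smul_right, mul_assoc, smul_eq_mul]
  rw [tsum_mul_left]
  ring

include he in
lemma m_norm_le (S : κ → Prop) (x y : L κ) : ‖m e S x y‖ ≤ 2 * (‖x‖ * ‖y‖) := by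
  have h1 : ‖mk (offf S x y) (offf_summable S x y)‖ ≤ ‖x‖ * ‖y‖ := by
    rw [norm_eq, norm_eq x, norm_eq y]
    have hs : Summable fun p : κ × κ => ‖x p.1‖ * ‖y p.2‖ := by
      simpa [norm_mul] using summable_mul x y
    rw [(summable_norm x).tsum_mul_tsum (summable_norm y) hs]
    refine (offf_summable S x y).tsum_le_tsum (fun p => ?_) hs
    have := offf_norm_le S x y p
    rwa [norm_mul] at this
  have h2 : ‖∑' j, dg S x y j • e j‖ ≤ ‖x‖ * ‖y‖ := by
    have hs : Summable fun j => ‖x‖ * ‖y j‖ := (summable_norm y).mul_left _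
    calc ‖∑' j, dg S x y j • e j‖ ≤ ∑' j, ‖x‖ * ‖y j‖ := by
          refine tsum_of_norm_bounded hs.hasSum (fun j => ?_)
          rw [norm_smul]
          calc ‖dg S x y j‖ * ‖e j‖ ≤ (‖x‖ * ‖y j‖) * 1 := by
                gcongr
                · exact dg_le S x y j
                · exact he j
            _ = ‖x‖ * ‖y j‖ := mul_one _
      _ = ‖x‖ * ‖y‖ := by rw [tsum_mul_left, ← norm_eq y]
  calc ‖m e S x y‖ ≤ _ := norm_add_le _ _
    _ ≤ ‖x‖ * ‖y‖ + ‖x‖ * ‖y‖ := add_le_add h1 h2
    _ = 2 * (‖x‖ * ‖y‖) := by ring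

end Pool.Agent.Helper59.BA2
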