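import Mathlib
import Pool.Agent.Helper59.BA2

open scoped ENNReal

namespace Pool.Agent.Helper59.BA3
open Pool.Agent.Helper59.BA1 Pool.Agent.Helper59.BA2

variable {κ : Type*} (e : κ → L (κ × κ)) (he : ∀ j, ‖e j‖ ≤ 1)

/-- matrix entries of a finite tensor -/
noncomputable def T {n : ℕ} (x y : Fin n → L κ) (s t : κ) : ℂ := ∑ i, x i s * y i t

include he in
lemma sum_m_apply (S : κ → Prop) [∀ p : κ × κ, Decidable (p.1 = p.2 ∧ S p.1)]
    [∀ j, Decidable (S j)] {n : ℕ} (x y : Fin n → L κ) (p : κ × κ) :
    (∑ i, m e S (x i) (y i)) p = (if p.1 = p.2 ∧ S p.1 then 0 else T x y p.1 p.2)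
      + ∑' j, (if S j then T x y j j else 0) * e j p := by
  rw [lp.coeFn_sum, Finset.sum_apply]
  simp only [m_apply e he]
  rw [Finset.sum_add_distrib]
  congr 1
  · by_cases h : p.1 = p.2 ∧ S p.1
    · rw [if_pos h]
      exact Finset.sum_eq_zero fun i _ => offf_eq_zero S _ _ p h
    · rw [if_neg h, T]
      exact Finset.sum_congr rfl fun i _ => offf_eq S _ _ p h
  · rw [← Summable.tsum_finsetSum (fun i _ => mul_summable e he (dg_summable S (x i) (y i)) p)]
    refine tsum_congr fun j => ?_
    rw [← Finset.sum_mul]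
    congr 1
    by_cases h : S j
    · rw [if_pos h, T]
      exact Finset.sum_congr rfl fun i _ => dg_eq S _ _ j h
    · rw [if_neg h]
      exact Finset.sum_eq_zero fun i _ => dg_eq_zero S _ _ j h

/-- restriction of a vector to a set of coordinates -/
noncomputable def cut [LT κ] (γ : κ) (x : L κ) : L κ := by
  classical
  exact mk (fun s => if s < γ then x s else 0) (by
    refine Summable.of_nonneg_of_le (fun _ => norm_nonneg _) (fun s => ?_) (summable_norm x)
    by_cases h : s < γ
    · rw [if_pos h]
    · rw [if_neg h, norm_zero]; exact norm_nonneg _)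

lemma cut_apply [LT κ] (γ : κ) (x : L κ) (s : κ) [Decidable (s < γ)] :
    cut γ x s = if s < γ then x s else 0 := by
  simp only [cut, mk_apply]
  by_cases h : s < γ <;> simp [h]

open Classical in
lemma T_cut [LT κ] (γ : κ) {n : ℕ} (x y : Fin n → L κ) (s t : κ) [Decidable (s < γ ∧ t < γ)] :
    T (fun i => cut γ (x i)) (fun i => cut γ (y i)) s t
      = if s < γ ∧ t < γ then T x y s t else 0 := by
  simp only [T, cut_apply]
  by_cases h : s < γ ∧ t < γ
  · simp [h.1, h.2]
  · rw [if_neg h]
    refine Finset.sum_eq_zero fun i _ => ?_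
    by_cases h1 : s < γ
    · have h2 : ¬ t < γ := fun h2 => h ⟨h1, h2⟩
      simp [h2]
    · simp [h1]

section
variable [LinearOrder κ] [WellFoundedLT κ] (G : κ → Prop)

open Classical in
include he in
theorem rigid
    (hsup : ∀ j, G j → ∀ p, e j p ≠ 0 → p.1 < j ∧ p.2 < j)
    (hgood : ∀ j, G j → ∀ (n : ℕ) (x y : Fin n → L κ), (∀ i s, j ≤ s → x i s = 0) →
      (∀ i s, j ≤ s → y i s = 0) → ∑ i, m e G (x i) (y i) ≠ e j) :
    ∀ (β : κ) (n : ℕ) (x y : Fin n → L κ), (∀ i s, β ≤ s → x i s = 0) →
      (∀ i s, β ≤ s → y i s = 0) → ∑ i, m e G (x i) (y i) = 0 → ∀ s t, T x y s t = 0 := by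
  intro β
  induction β using WellFoundedLT.induction with
  | ind β ih =>
  intro n x y hx hy h0
  -- coordinates
  have hco : ∀ p : κ × κ, (0 : ℂ) = (if p.1 = p.2 ∧ G p.1 then 0 else T x y p.1 p.2)
      + ∑' j, (if G j then T x y j j else 0) * e j p := by
    intro p
    have h := sum_m_apply e he G x y p
    rw [h0] at h
    rw [← h]
    simp
  -- subspaces
  let X : Submodule ℂ (L κ) := Submodule.span ℂ (Set.range x)
  let Y : Submodule ℂ (L κ) := Submodule.span ℂ (Set.range y)
  have : FiniteDimensional ℂ X := FiniteDimensional.span_of_finite ℂ (Set.finite_range x)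
  have : FiniteDimensional ℂ Y := FiniteDimensional.span_of_finite ℂ (Set.finite_range y)
  have hXs : ∀ v ∈ X, ∀ s, β ≤ s → v s = 0 := by
    intro v hv s hs
    induction hv using Submodule.span_induction with
    | mem v hv => obtain ⟨i, rfl⟩ := hv; exact hx i s hs
    | zero => simp
    | add a b _ _ ha hb => rw [lp.coeFn_add, Pi.add_apply, ha, hb, add_zero]
    | smul c a _ ha => rw [lp.coeFn_smul, Pi.smul_apply, ha, smul_zero]
  have hYs : ∀ v ∈ Y, ∀ s, β ≤ s → v s = 0 := by
    intro v hv s hs
    induction hv using Submodule.span_induction with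
    | mem v hv => obtain ⟨i, rfl⟩ := hv; exact hy i s hs
    | zero => simp
    | add a b _ _ ha hb => rw [lp.coeFn_add, Pi.add_apply, ha, hb, add_zero]
    | smul c a _ ha => rw [lp.coeFn_smul, Pi.smul_apply, ha, smul_zero]
  let col : κ → L κ := fun t => ∑ i, (y i t) • x i
  let row : κ → L κ := fun s => ∑ i, (x i s) • y i
  have hcolX : ∀ t, col t ∈ X := fun t =>
    Submodule.sum_mem _ fun i _ => Submodule.smul_mem _ _ (Submodule.subset_span ⟨i, rfl⟩)
  have hrowY : ∀ t, row t ∈ Y := fun t =>
    Submodule.sum_mem _ fun i _ => Submodule.smul_mem _ _ (Submodule.subset_span ⟨i, rfl⟩)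
  have hcol : ∀ s t, col t s = T x y s t := by
    intro s t
    simp only [col, T]
    rw [lp.coeFn_sum, Finset.sum_apply]
    refine Finset.sum_congr rfl fun i _ => ?_
    rw [lp.coeFn_smul, Pi.smul_apply, smul_eq_mul, mul_comm]
  have hrow : ∀ s t, row s t = T x y s t := by
    intro s t
    simp only [row, T]
    rw [lp.coeFn_sum, Finset.sum_apply]
    refine Finset.sum_congr rfl fun i _ => ?_
    rw [lp.coeFn_smul, Pi.smul_apply, smul_eq_mul]
  obtain ⟨F, K, hK, hF⟩ := exists_control X
  obtain ⟨F', K', hK', hF'⟩ := exists_control Y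
  have hδ : (0 : ℝ) < 1 / (2 * (K + 1)) := by positivity
  obtain ⟨B, hB⟩ := exists_small X _ hδ
  let Bad : Finset κ := (F ∪ F' ∪ B).filter (· < β)
  by_cases hne : Bad.Nonempty
  swap
  · intro s t
    have hFe : ∀ s ∈ F, β ≤ s := by
      intro s hs
      by_contra hlt
      push Not at hlt
      exact hne ⟨s, Finset.mem_filter.2 ⟨by simp [hs], hlt⟩⟩
    have h1 := hF _ (hcolX t)
    have h2 : ∑ s ∈ F, ‖col t s‖ = 0 :=
      Finset.sum_eq_zero fun s hs => by rw [hXs _ (hcolX t) s (hFe s hs), norm_zero]
    rw [h2, mul_zero] at h1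
    have h3 : col t = 0 := norm_le_zero_iff.1 h1
    rw [← hcol s t, h3]; simp
  let γ := Bad.max' hne
  have hγB : γ ∈ Bad := Bad.max'_mem hne
  have hγβ : γ < β := (Finset.mem_filter.1 hγB).2
  have hle : ∀ s ∈ F ∪ F' ∪ B, s < β → s ≤ γ := fun s hs hlt =>
    Bad.le_max' s (Finset.mem_filter.2 ⟨hs, hlt⟩)
  -- off-diagonal entries crossing γ
  have hcross : ∀ s t, s ≠ t → (γ < s ∨ γ < t) →
      T x y s t = - ∑' j, (if γ < j ∧ G j then T x y j j else 0) * e j (s, t) := by
    intro s t hst hor
    have h1 := hco (s, t)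
    rw [if_neg (fun h => hst h.1)] at h1
    have h2 : ∑' j, (if G j then T x y j j else 0) * e j (s, t)
        = ∑' j, (if γ < j ∧ G j then T x y j j else 0) * e j (s, t) := by
      refine tsum_congr fun j => ?_
      by_cases hj : G j
      · by_cases hγj : γ < j
        · simp [hj, hγj]
        · have : e j (s, t) = 0 := by
            by_contra hcon
            have h3 := hsup j hj (s, t) hcon
            rcases hor with h | h
            · exact hγj (h.trans h3.1)
            · exact hγj (h.trans h3.2)
          simp [this]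
      · simp [hj]
    rw [h2] at h1
    linear_combination -h1
  -- Claim A1
  have hdiag : ∀ j, γ < j → ‖T x y j j‖ ≤ 1 / (2 * (K + 1)) * ‖col j‖ := by
    intro j hj
    by_cases hjB : j ∈ B
    · have hjβ : β ≤ j := by
        by_contra hlt
        push Not at hlt
        exact absurd (hle j (by simp [hjB]) hlt) (not_le.2 hj)
      rw [← hcol j j, hXs _ (hcolX j) j hjβ, norm_zero]
      positivity
    · rw [← hcol j j]
      exact hB j hjB _ (hcolX j)
  let A : ℝ≥0∞ := ∑' t, if γ < t then ‖col t‖ₑ else 0
  have hAfin : A ≠ ⊤ := by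
    have h1 : A ≤ ∑' t, ∑ i, ‖y i t‖ₑ * ‖x i‖ₑ := by
      refine ENNReal.tsum_le_tsum fun t => ?_
      split_ifs
      · calc ‖col t‖ₑ ≤ ∑ i, ‖(y i t) • x i‖ₑ := enorm_sum_le _ _
          _ = ∑ i, ‖y i t‖ₑ * ‖x i‖ₑ := by simp only [enorm_smul]
      · exact bot_le
    refine ne_top_of_le_ne_top ?_ h1
    rw [Summable.tsum_finsetSum (fun _ _ => ENNReal.summable)]
    refine ENNReal.sum_ne_top.2 fun i _ => ?_
    rw [ENNReal.tsum_mul_right]
    exact ENNReal.mul_ne_top (enorm_tsum_ne_top _) enorm_ne_top
  have hA : A ≤ ENNReal.ofReal K * (ENNReal.ofReal (1 / (2 * (K + 1))) * A) := by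
    have hstep1 : ∀ t, γ < t → ‖col t‖ₑ ≤ ENNReal.ofReal K *
        ∑' s, ∑' j, (if γ < j then ‖T x y j j‖ₑ else 0) * ‖e j (s, t)‖ₑ := by
      intro t ht
      have h1 := hF _ (hcolX t)
      have h2 : ‖col t‖ₑ ≤ ENNReal.ofReal K * ∑ s ∈ F, ‖col t s‖ₑ := by
        have h3 := ENNReal.ofReal_le_ofReal h1
        rw [ofReal_norm, ENNReal.ofReal_mul hK,
          ENNReal.ofReal_sum_of_nonneg (fun _ _ => norm_nonneg _)] at h3
        simpa [ofReal_norm] using h3
      refine h2.trans ?_
      gcongr
      calc ∑ s ∈ F, ‖col t s‖ₑ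
          ≤ ∑ s ∈ F, ∑' j, (if γ < j then ‖T x y j j‖ₑ else 0) * ‖e j (s, t)‖ₑ := by
            refine Finset.sum_le_sum fun s hs => ?_
            by_cases hsβ : β ≤ s
            · rw [hXs _ (hcolX t) s hsβ]; simp
            · push Not at hsβ
              have hsγ : s ≤ γ := hle s (by simp [hs]) hsβ
              have hst : s ≠ t := (hsγ.trans_lt ht).ne
              rw [hcol s t, hcross s t hst (Or.inr ht), enorm_neg]
              calc ‖∑' j, (if γ < j ∧ G j then T x y j j else 0) * e j (s, t)‖ₑ
                  ≤ ∑' j, ‖(if γ < j ∧ G j then T x y j j else 0) * e j (s, t)‖ₑ :=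
                    enorm_tsum_le_tsum_enorm
                _ ≤ _ := by
                    refine ENNReal.tsum_le_tsum fun j => ?_
                    rw [enorm_mul]
                    gcongr
                    by_cases h : γ < j
                    · by_cases h' : G j
                      · simp [h, h']
                      · simp [h, h']
                    · simp [h]
        _ ≤ ∑' s, ∑' j, (if γ < j then ‖T x y j j‖ₑ else 0) * ‖e j (s, t)‖ₑ :=
            ENNReal.sum_le_tsum F
    calc A ≤ ∑' t, ENNReal.ofReal K *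
          ∑' s, ∑' j, (if γ < j then ‖T x y j j‖ₑ else 0) * ‖e j (s, t)‖ₑ := by
          refine ENNReal.tsum_le_tsum fun t => ?_
          split_ifs with h
          · exact hstep1 t h
          · exact bot_le
      _ = ENNReal.ofReal K * ∑' t, ∑' s, ∑' j,
          (if γ < j then ‖T x y j j‖ₑ else 0) * ‖e j (s, t)‖ₑ := ENNReal.tsum_mul_left
      _ = ENNReal.ofReal K * ∑' j, (if γ < j then ‖T x y j j‖ₑ else 0) * ‖e j‖ₑ := by
          congr 1
          rw [ENNReal.tsum_comm]
          rw [← ENNReal.tsum_prod (f := fun s t => ∑' j,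
            (if γ < j then ‖T x y j j‖ₑ else 0) * ‖e j (s, t)‖ₑ)]
          rw [ENNReal.tsum_comm]
          refine tsum_congr fun j => ?_
          rw [ENNReal.tsum_mul_left, enorm_eq]
      _ ≤ ENNReal.ofReal K * ∑' j, ENNReal.ofReal (1 / (2 * (K + 1))) *
            (if γ < j then ‖col j‖ₑ else 0) := by
          refine mul_le_mul' le_rfl (ENNReal.tsum_le_tsum fun j => ?_)
          split_ifs with h
          · have h1 := ENNReal.ofReal_le_ofReal (hdiag j h)
            rw [ENNReal.ofReal_mul hδ.le, ofReal_norm, ofReal_norm] at h1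
            calc ‖T x y j j‖ₑ * ‖e j‖ₑ ≤ ‖T x y j j‖ₑ * 1 := by
                  gcongr
                  have := ENNReal.ofReal_le_ofReal (he j)
                  rw [ofReal_norm, ENNReal.ofReal_one] at this
                  exact this
              _ ≤ _ := by rw [mul_one]; exact h1
          · simp
      _ = _ := by rw [ENNReal.tsum_mul_left]
  have hA0 : A = 0 := by
    by_contra hne0
    have h1 : ENNReal.ofReal K * (ENNReal.ofReal (1 / (2 * (K + 1))) * A)
        = ENNReal.ofReal (K * (1 / (2 * (K + 1)))) * A := by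
      rw [ENNReal.ofReal_mul hK, mul_assoc]
    rw [h1] at hA
    have h2 : K * (1 / (2 * (K + 1))) < 1 := by
      rw [mul_one_div, div_lt_one (by positivity)]; linarith
    have h3 : ENNReal.ofReal (K * (1 / (2 * (K + 1)))) * A < 1 * A := by
      refine ENNReal.mul_lt_mul_left hne0 hAfin ?_
      rw [← ENNReal.ofReal_one]
      exact (ENNReal.ofReal_lt_ofReal_iff one_pos).2 h2
    rw [one_mul] at h3
    exact absurd hA (not_le.2 h3)
  have hcol0 : ∀ t, γ < t → col t = 0 := by
    intro t ht
    have h1 := (ENNReal.tsum_eq_zero.1 hA0) t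
    rw [if_pos ht] at h1
    exact enorm_eq_zero.1 h1
  have hT1 : ∀ s t, γ < t → T x y s t = 0 := by
    intro s t ht
    rw [← hcol s t, hcol0 t ht]; simp
  have htail : ∀ p : κ × κ, ∑' j, (if γ < j ∧ G j then T x y j j else 0) * e j p = 0 := by
    intro p
    refine (tsum_congr fun j => ?_).trans tsum_zero
    by_cases h : γ < j ∧ G j
    · rw [if_pos h, hT1 j j h.1, zero_mul]
    · rw [if_neg h, zero_mul]
  have hT2 : ∀ s t, γ < s → T x y s t = 0 := by
    intro s t hs
    have h1 : row s = 0 := by
      have h2 := hF' _ (hrowY s)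
      have h3 : ∑ t ∈ F', ‖row s t‖ = 0 := by
        refine Finset.sum_eq_zero fun t ht => ?_
        by_cases htβ : β ≤ t
        · rw [hYs _ (hrowY s) t htβ, norm_zero]
        · push Not at htβ
          have htγ : t ≤ γ := hle t (by simp [ht]) htβ
          have hst : s ≠ t := (htγ.trans_lt hs).ne'
          rw [hrow s t, hcross s t hst (Or.inl hs), htail, neg_zero, norm_zero]
      rw [h3, mul_zero] at h2
      exact norm_le_zero_iff.1 h2
    rw [← hrow s t, h1]; simp
  -- the sum over special j reduces to j ≤ γ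
  have hsum : ∀ p : κ × κ, (γ ≤ p.1 ∨ γ ≤ p.2) →
      ∑' j, (if G j then T x y j j else 0) * e j p = 0 := by
    intro p hp
    refine (tsum_congr fun j => ?_).trans tsum_zero
    by_cases hj : G j
    · rw [if_pos hj]
      by_cases hγj : γ < j
      · rw [hT1 j j hγj, zero_mul]
      · have : e j p = 0 := by
          by_contra hcon
          have h3 := hsup j hj p hcon
          rcases hp with h | h
          · exact hγj (h.trans_lt h3.1)
          · exact hγj (h.trans_lt h3.2)
        rw [this, mul_zero]
    · rw [if_neg hj, zero_mul]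
  have hB1 : ∀ s t, (γ ≤ s ∨ γ ≤ t) → ¬ (s = t ∧ G s) → T x y s t = 0 := by
    intro s t hor hns
    have h1 := hco (s, t)
    rw [if_neg hns, hsum (s, t) hor, add_zero] at h1
    exact h1.symm
  have hγγ : T x y γ γ = 0 := by
    by_cases hGγ : G γ
    swap
    · exact hB1 γ γ (Or.inl le_rfl) (fun h => hGγ h.2)
    by_contra hne0
    -- contradiction with goodness
    let c := T x y γ γ
    have hcontra : ∑ i, m e G ((-(c⁻¹)) • cut γ (x i)) (cut γ (y i)) = e γ := by
      have h1 : ∑ i, m e G ((-(c⁻¹)) • cut γ (x i)) (cut γ (y i))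
          = (-(c⁻¹)) • ∑ i, m e G (cut γ (x i)) (cut γ (y i)) := by
        rw [Finset.smul_sum]
        exact Finset.sum_congr rfl fun i _ => m_smul_left e he G _ _ _
      have h2 : ∑ i, m e G (cut γ (x i)) (cut γ (y i)) = (-c) • e γ := by
        apply lp.ext; funext p
        rw [sum_m_apply e he G (fun i => cut γ (x i)) (fun i => cut γ (y i)) p]
        rw [lp.coeFn_smul, Pi.smul_apply, smul_eq_mul]
        have h3 := hco p
        have h4 : (if p.1 = p.2 ∧ G p.1 then (0 : ℂ) else T x y p.1 p.2)
            = (if p.1 = p.2 ∧ G p.1 then 0 else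
              T (fun i => cut γ (x i)) (fun i => cut γ (y i)) p.1 p.2) := by
          by_cases hsp : p.1 = p.2 ∧ G p.1
          · rw [if_pos hsp, if_pos hsp]
          · rw [if_neg hsp, if_neg hsp, T_cut]
            by_cases hlt : p.1 < γ ∧ p.2 < γ
            · rw [if_pos hlt]
            · rw [if_neg hlt]
              have : γ ≤ p.1 ∨ γ ≤ p.2 := by
                by_contra hcon
                push Not at hcon
                exact hlt hcon
              exact hB1 _ _ this hsp
        have h5 : ∑' j, (if G j then T x y j j else 0) * e j p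
            = c * e γ p + ∑' j, (if G j then
              T (fun i => cut γ (x i)) (fun i => cut γ (y i)) j j else 0) * e j p := by
          have hs1 : Summable fun j => (if j = γ then c else 0) * e j p := by
            refine summable_of_ne_finset_zero (s := {γ}) ?_
            intro j hj
            rw [if_neg (by simpa using hj), zero_mul]
          have hs2 : Summable fun j => (if G j then
              T (fun i => cut γ (x i)) (fun i => cut γ (y i)) j j else 0) * e j p := by
            refine mul_summable e he ?_ p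
            have hsT : Summable fun j => ∑ i, ‖dg G (cut γ (x i)) (cut γ (y i)) j‖ :=
              summable_sum fun i _ => dg_summable G _ _
            refine Summable.of_nonneg_of_le (fun _ => norm_nonneg _) (fun j => ?_) hsT
            by_cases hj : G j
            · rw [if_pos hj, T]
              refine (norm_sum_le _ _).trans (le_of_eq ?_)
              exact Finset.sum_congr rfl fun i _ => by rw [dg_eq G _ _ j hj]
            · rw [if_neg hj, norm_zero]
              exact Finset.sum_nonneg fun _ _ => norm_nonneg _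
          have h6 : c * e γ p = ∑' j, (if j = γ then c else 0) * e j p := by
            rw [tsum_eq_single γ]
            · rw [if_pos rfl]
            · intro j hj; rw [if_neg hj, zero_mul]
          rw [h6, ← hs1.tsum_add hs2]
          refine tsum_congr fun j => ?_
          rw [← add_mul, T_cut]
          congr 1
          rcases lt_trichotomy j γ with hj | hj | hj
          · simp [hj, hj.ne]
          · subst hj
            simp [hGγ, c]
          · rw [hT1 j j hj]
            simp [hj.ne']
        rw [h4, h5] at h3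
        linear_combination -h3
      rw [h1, h2, smul_smul]
      have : -(c⁻¹) * -c = 1 := by
        rw [neg_mul_neg, inv_mul_cancel₀ hne0]
      rw [this, one_smul]
    refine hgood γ hGγ n (fun i => (-(c⁻¹)) • cut γ (x i)) (fun i => cut γ (y i)) ?_ ?_ hcontra
    · intro i s hs
      rw [lp.coeFn_smul, Pi.smul_apply, cut_apply, if_neg (not_lt.2 hs), smul_zero]
    · intro i s hs
      rw [cut_apply, if_neg (not_lt.2 hs)]
  -- T vanishes unless both coordinates < γ
  have hTall : ∀ s t, (γ ≤ s ∨ γ ≤ t) → T x y s t = 0 := by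
    intro s t hor
    by_cases hsp : s = t ∧ G s
    · obtain ⟨rfl, _⟩ := hsp
      have hs : γ ≤ s := by tauto
      rcases hs.eq_or_lt with h | h
      · rw [← h]; exact hγγ
      · exact hT1 s s h
    · exact hB1 s t hor hsp
  have hTcut : ∀ s t, T (fun i => cut γ (x i)) (fun i => cut γ (y i)) s t = T x y s t := by
    intro s t
    rw [T_cut]
    by_cases hlt : s < γ ∧ t < γ
    · rw [if_pos hlt]
    · rw [if_neg hlt]
      have : γ ≤ s ∨ γ ≤ t := by
        by_contra hcon
        push Not at hcon
        exact hlt hcon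
      exact (hTall s t this).symm
  intro s t
  rw [← hTcut s t]
  refine ih γ hγβ n (fun i => cut γ (x i)) (fun i => cut γ (y i)) ?_ ?_ ?_ s t
  · intro i s hs
    rw [cut_apply, if_neg (not_lt.2 hs)]
  · intro i s hs
    rw [cut_apply, if_neg (not_lt.2 hs)]
  · apply lp.ext; funext p
    rw [sum_m_apply e he G (fun i => cut γ (x i)) (fun i => cut γ (y i)) p]
    simp only [hTcut]
    rw [← hco p]
    simp

end

end Pool.Agent.Helper59.BA3
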