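import Mathlib
import Pool.Agent.Helper59.BA1

open scoped ENNReal Cardinal

namespace Pool.Agent.Helper59.BA4
open Pool.Agent.Helper59.BA1 Set

/-- the index set: the initial well-order of size continuum -/
noncomputable abbrev κ : Type := Cardinal.continuum.{0}.ord.ToType

lemma mk_kappa : #κ = 𝔠 := Cardinal.mk_ord_toType _

lemma mk_Iio (i : κ) : #(Iio i) < 𝔠 := by
  have h := Cardinal.mk_Iio_lt i (by simp)
  rwa [mk_kappa] at h

lemma cof_gt : ℵ₀ < Order.cof κ := by
  rw [Ordinal.cof_toType]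
  have := Cardinal.lt_cof_ord_power (a := ℵ₀) (b := 2) le_rfl (by norm_num)
  rwa [Cardinal.two_power_aleph0] at this

/-- countable sets are bounded -/
lemma exists_bound (S : Set κ) (hS : S.Countable) : ∃ β, ∀ s ∈ S, s < β := by
  by_contra hcon
  push Not at hcon
  have hcof : IsCofinal S := fun β => hcon β
  have h1 := Order.cof_le hcof
  have h2 : #S ≤ ℵ₀ := Cardinal.le_aleph0_iff_set_countable.2 hS
  exact absurd (cof_gt.trans_le h1) (not_lt.2 h2)

lemma exists_bound' (w : L (κ × κ)) : ∃ β, ∀ p, w p ≠ 0 → p.1 < β ∧ p.2 < β := by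
  have h := countable_support w
  obtain ⟨β, hβ⟩ := exists_bound _ ((h.image Prod.fst).union (h.image Prod.snd))
  refine ⟨β, fun p hp => ⟨hβ _ (Or.inl ⟨p, hp, rfl⟩), hβ _ (Or.inr ⟨p, hp, rfl⟩)⟩⟩

lemma exists_bound1 (w : L κ) : ∃ β, ∀ s, β ≤ s → w s = 0 := by
  have h := countable_support w
  obtain ⟨β, hβ⟩ := exists_bound _ h
  refine ⟨β, fun s hs => ?_⟩
  by_contra hne
  exact absurd (hβ s hne) (not_lt.2 hs)

lemma mk_L : #(L (κ × κ)) ≤ 𝔠 := by
  have hne : Nonempty κ := by
    rw [← Cardinal.mk_ne_zero_iff, mk_kappa]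
    exact Cardinal.continuum_ne_zero
  have hex : ∀ w : L (κ × κ), ∃ h : ℕ → (κ × κ) × ℂ,
      (∀ p, w p ≠ 0 → ∃ n, h n = (p, w p)) ∧ ∀ n, (h n).2 = w (h n).1 := by
    intro w
    obtain ⟨k⟩ := hne
    have hc : ((Function.support fun p => w p) ∪ {(k, k)}).Countable :=
      (countable_support w).union (Set.countable_singleton _)
    obtain ⟨g, hg⟩ := hc.exists_eq_range ⟨(k, k), Or.inr rfl⟩
    refine ⟨fun n => (g n, w (g n)), ?_, fun n => rfl⟩
    intro p hp
    have : p ∈ range g := hg ▸ Or.inl hp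
    obtain ⟨n, rfl⟩ := this
    exact ⟨n, rfl⟩
  choose h h1 h2 using hex
  have hinj : Function.Injective h := by
    intro w w' heq
    have key : ∀ w w' : L (κ × κ), h w = h w' → ∀ p, w p ≠ 0 → w' p = w p := by
      intro w w' heq p hp
      obtain ⟨n, hn⟩ := h1 w p hp
      have h3 := h2 w' n
      rw [← heq, hn] at h3
      exact h3.symm
    apply lp.ext; funext p
    by_cases hp : w p = 0
    · by_cases hp' : w' p = 0
      · rw [hp, hp']
      · exact key w' w heq.symm p hp'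
    · exact (key w w' heq p hp).symm
  refine (Cardinal.mk_le_of_injective hinj).trans ?_
  have h3 : #(ℕ → (κ × κ) × ℂ) = (#((κ × κ) × ℂ)) ^ ℵ₀ := by
    rw [← Cardinal.mk_nat, Cardinal.power_def]
  rw [h3, Cardinal.mk_prod, Cardinal.mk_prod, mk_kappa, Cardinal.mk_complex]
  simp

/-- enumeration of the self-adjoint ball -/
lemma exists_enum (P : L (κ × κ) → Prop) (h0 : P 0) :
    ∃ e : κ → L (κ × κ), (∀ j, P (e j)) ∧ ∀ w, P w → ∀ β, ∃ j, β ≤ j ∧ e j = w := by
  have hcard : #{w // P w} ≤ #κ := by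
    rw [mk_kappa]
    exact (Cardinal.mk_subtype_le _).trans mk_L
  obtain ⟨f⟩ : Nonempty ({w // P w} ↪ κ) := Cardinal.le_def _ _ |>.1 hcard
  let g : κ → {w // P w} := Function.extend f id (fun _ => ⟨0, h0⟩)
  have hg : ∀ w, g (f w) = w := fun w => f.injective.extend_apply _ _ _
  have hprod : #(κ × κ) = #κ := by
    rw [Cardinal.mk_prod, mk_kappa]; simp
  obtain ⟨q⟩ := Cardinal.eq.1 hprod
  refine ⟨fun j => (g (q.symm j).1).1, fun j => (g (q.symm j).1).2, fun w hw β => ?_⟩
  by_contra hcon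
  push Not at hcon
  -- injection κ → Iio β
  have hinj : Function.Injective (fun i : κ => (⟨q (f ⟨w, hw⟩, i), by
      by_contra hlt
      rw [Set.mem_Iio, not_lt] at hlt
      exact hcon _ hlt (by simp [hg])⟩ : Iio β)) := by
    intro i i' hii
    have := congrArg Subtype.val hii
    simp only [EmbeddingLike.apply_eq_iff_eq, Prod.mk.injEq, true_and] at this
    exact this
  have h1 := Cardinal.mk_le_of_injective hinj
  rw [mk_kappa] at h1
  exact absurd (mk_Iio β) (not_lt.2 h1)

end Pool.Agent.Helper59.BA4
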