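import Mathlib
import Pool.Agent.Helper59.BA3
import Pool.Agent.Helper59.BA4

open scoped ENNReal Cardinal ComplexConjugate

namespace Pool.Agent.Helper59.BA5
open Pool.Agent.Helper59.BA1 Pool.Agent.Helper59.BA2 Pool.Agent.Helper59.BA3 Pool.Agent.Helper59.BA4 Set

/-- coordinatewise conjugation -/
noncomputable def cj (x : L κ) : L κ := mk (fun s => conj (x s)) (by simpa using summable_norm x)

@[simp] lemma cj_apply (x : L κ) (s : κ) : cj x s = conj (x s) := rfl

/-- adjoint of a matrix in l1 -/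
noncomputable def adj (w : L (κ × κ)) : L (κ × κ) :=
  mk (fun p => conj (w (p.2, p.1))) (by
    have h := (Equiv.prodComm κ κ).summable_iff.2 (summable_norm w)
    simpa [Function.comp_def, Prod.swap] using h)

@[simp] lemma adj_apply (w : L (κ × κ)) (p : κ × κ) : adj w p = conj (w (p.2, p.1)) := rfl

lemma m_congr (e : κ → L (κ × κ)) (S S' : κ → Prop) (x y : L κ)
    (h : ∀ k, x k * y k ≠ 0 → (S k ↔ S' k)) : m e S x y = m e S' x y := by
  have h1 : offf S x y = offf S' x y := by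
    funext p
    obtain ⟨s, t⟩ := p
    by_cases hst : s = t
    · subst hst
      by_cases h0 : x s * y s = 0
      · have : ∀ R : κ → Prop, offf R x y (s, s) = 0 := by
          intro R
          by_cases hR : R s
          · exact offf_eq_zero R _ _ _ ⟨rfl, hR⟩
          · rw [offf_eq R x y (s, s) (fun h => hR h.2)]; exact h0
        rw [this, this]
      · by_cases hS : S s
        · rw [offf_eq_zero S _ _ _ ⟨rfl, hS⟩, offf_eq_zero S' _ _ _ ⟨rfl, (h s h0).1 hS⟩]
        · rw [offf_eq S _ _ _ (fun h => hS h.2),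
            offf_eq S' _ _ _ (fun h' => hS ((h s h0).2 h'.2))]
    · rw [offf_eq S _ _ _ (fun h => hst h.1), offf_eq S' _ _ _ (fun h => hst h.1)]
  have h2 : dg S x y = dg S' x y := by
    funext s
    by_cases h0 : x s * y s = 0
    · have : ∀ R : κ → Prop, dg R x y s = 0 := by
        intro R
        by_cases hR : R s
        · rw [dg_eq R _ _ _ hR]; exact h0
        · exact dg_eq_zero R _ _ _ hR
      rw [this, this]
    · by_cases hS : S s
      · rw [dg_eq S _ _ _ hS, dg_eq S' _ _ _ ((h s h0).1 hS)]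
      · rw [dg_eq_zero S _ _ _ hS, dg_eq_zero S' _ _ _ (fun h' => hS ((h s h0).2 h'))]
  have h3 : mk (offf S x y) (offf_summable S x y) = mk (offf S' x y) (offf_summable S' x y) := by
    apply lp.ext; exact h1
  rw [m, m, h3, h2]

section
variable (e : κ → L (κ × κ))

/-- one step of the recursion -/
def Gstep (j : κ) (rec : ∀ i, i < j → Prop) : Prop :=
  (∀ p, e j p ≠ 0 → p.1 < j ∧ p.2 < j) ∧ (∀ i (h : i < j), rec i h → e j (i, i) = 0) ∧
  ∀ (n : ℕ) (x y : Fin n → L κ), (∀ i s, j ≤ s → x i s = 0) → (∀ i s, j ≤ s → y i s = 0) →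
    ∑ i, m e (fun k => ∃ h : k < j, rec k h) (x i) (y i) ≠ e j

/-- the special diagonal positions -/
noncomputable def G : κ → Prop :=
  (wellFounded_lt : WellFounded ((· < ·) : κ → κ → Prop)).fix (C := fun _ => Prop) (Gstep e)

lemma G_iff (j : κ) : G e j ↔
    (∀ p, e j p ≠ 0 → p.1 < j ∧ p.2 < j) ∧ (∀ i, i < j → G e i → e j (i, i) = 0) ∧
    ∀ (n : ℕ) (x y : Fin n → L κ), (∀ i s, j ≤ s → x i s = 0) → (∀ i s, j ≤ s → y i s = 0) →
      ∑ i, m e (G e) (x i) (y i) ≠ e j := by
  have h1 : G e j ↔ Gstep e j (fun i _ => G e i) := by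
    rw [G, WellFounded.fix_eq]
  rw [h1, Gstep]
  refine and_congr_right fun _ => and_congr_right fun _ => ?_
  refine forall_congr' fun n => forall_congr' fun x => forall_congr' fun y =>
    forall_congr' fun hx => forall_congr' fun hy => ?_
  have : ∀ i, m e (fun k => ∃ _ : k < j, G e k) (x i) (y i) = m e (G e) (x i) (y i) := by
    intro i
    apply m_congr
    intro k hk
    have hkj : k < j := by
      by_contra hcon
      rw [not_lt] at hcon
      exact hk (by rw [hx i k hcon, zero_mul])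
    exact ⟨fun h => h.2, fun h => ⟨hkj, h⟩⟩
  simp only [this]

/-- the closed subspace of vectors vanishing at special diagonal positions -/
def W : Submodule ℂ (L (κ × κ)) where
  carrier := {w | ∀ j, G e j → w (j, j) = 0}
  add_mem' := by
    intro a b ha hb j hj
    rw [lp.coeFn_add, Pi.add_apply, ha j hj, hb j hj, add_zero]
  zero_mem' := by intro j _; simp
  smul_mem' := by
    intro c a ha j hj
    rw [lp.coeFn_smul, Pi.smul_apply, ha j hj, smul_zero]

lemma W_closed : IsClosed (W e : Set (L (κ × κ))) := by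
  have : (W e : Set (L (κ × κ))) = ⋂ j : κ, ⋂ _ : G e j, {w | w (j, j) = 0} := by
    ext w
    simp only [Set.mem_iInter, Set.mem_setOf_eq]
    exact Iff.rfl
  rw [this]
  refine isClosed_iInter fun j => isClosed_iInter fun _ => ?_
  have hc : Continuous fun w : L (κ × κ) => w (j, j) :=
    (lp.evalCLM ℂ (fun _ : κ × κ => ℂ) 1 (j, j)).continuous
  exact isClosed_eq hc continuous_const

lemma mem_W (w : L (κ × κ)) : w ∈ W e ↔ ∀ j, G e j → w (j, j) = 0 := Iff.rfl

variable (he : ∀ j, ‖e j‖ ≤ 1)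

lemma eW (j : κ) (hj : G e j) : e j ∈ W e := by
  intro i hi
  have h := (G_iff e j).1 hj
  by_cases hij : i < j
  · exact h.2.1 i hij hi
  · by_contra hne
    exact hij (h.1 (i, i) hne).1

include he in
lemma m_mem_W (x y : L κ) : m e (G e) x y ∈ W e := by
  intro j hj
  rw [m_apply e he, offf_eq_zero _ _ _ (j, j) ⟨rfl, hj⟩, zero_add]
  refine (tsum_congr fun i => ?_).trans tsum_zero
  by_cases hi : G e i
  · rw [eW e i hi j hj, mul_zero]
  · rw [dg_eq_zero _ _ _ i hi, zero_mul]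

include he in
lemma single_mem (j : κ) (hj : G e j) : e j = m e (G e) (lp.single 1 j 1) (lp.single 1 j 1) := by
  classical
  apply lp.ext; funext p
  rw [m_apply e he]
  have h1 : offf (G e) (lp.single 1 j (1 : ℂ)) (lp.single 1 j (1 : ℂ)) p = 0 := by
    by_cases h : p.1 = p.2 ∧ G e p.1
    · exact offf_eq_zero _ _ _ p h
    · rw [offf_eq _ _ _ p h]
      by_cases h1 : p.1 = j
      · by_cases h2 : p.2 = j
        · exact absurd ⟨h1.trans h2.symm, h1 ▸ hj⟩ h
        · rw [lp.single_apply_ne _ _ _ h2, mul_zero]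
      · rw [lp.single_apply_ne _ _ _ h1, zero_mul]
  rw [h1, zero_add, tsum_eq_single j]
  · rw [dg_eq _ _ _ j hj, lp.single_apply_self]; simp
  · intro i hi
    by_cases hGi : G e i
    · rw [dg_eq _ _ _ i hGi, lp.single_apply_ne _ _ _ hi]; simp
    · rw [dg_eq_zero _ _ _ i hGi, zero_mul]

/-- bilinear version -/
noncomputable def mB : L κ →ₗ[ℂ] L κ →ₗ[ℂ] L (κ × κ) :=
  LinearMap.mk₂ ℂ (m e (G e)) (m_add_left e he (G e)) (m_smul_left e he (G e))
    (m_add_right e he (G e)) (m_smul_right e he (G e))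

@[simp] lemma mB_apply (x y : L κ) : mB e he x y = m e (G e) x y := rfl

include he in
lemma span_contains_e
    (hen : ∀ w : L (κ × κ), ‖w‖ ≤ 1 → adj w = w → ∀ β, ∃ j, β ≤ j ∧ e j = w)
    (w : L (κ × κ)) (hw : w ∈ W e) (h1 : ‖w‖ ≤ 1) (h2 : adj w = w) :
    w ∈ Submodule.span ℂ (Set.range fun z : L κ × L κ => m e (G e) z.1 z.2) := by
  obtain ⟨β, hβ⟩ := exists_bound' w
  obtain ⟨j, hj, rfl⟩ := hen w h1 h2 β
  by_cases hG : G e j
  · rw [single_mem e he j hG]
    exact Submodule.subset_span ⟨(_, _), rfl⟩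
  · rw [G_iff] at hG
    push Not at hG
    obtain ⟨n, x, y, hx, hy, hs⟩ := hG
      (fun p hp => ⟨(hβ p hp).1.trans_le hj, (hβ p hp).2.trans_le hj⟩)
      (fun i _ hi => hw i hi)
    rw [← hs]
    exact Submodule.sum_mem _ fun i _ => Submodule.subset_span ⟨(_, _), rfl⟩

lemma adj_add (w w' : L (κ × κ)) : adj (w + w') = adj w + adj w' := by
  apply lp.ext; funext p
  simp

lemma adj_smul (c : ℂ) (w : L (κ × κ)) : adj (c • w) = conj c • adj w := by
  apply lp.ext; funext p
  simp [lp.coeFn_smul]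

lemma adj_adj (w : L (κ × κ)) : adj (adj w) = w := by
  apply lp.ext; funext p
  simp

lemma adj_norm (w : L (κ × κ)) : ‖adj w‖ = ‖w‖ := by
  rw [norm_eq, norm_eq, ← (Equiv.prodComm κ κ).tsum_eq]
  refine tsum_congr fun p => ?_
  simp

lemma cj_add (w w' : L κ) : cj (w + w') = cj w + cj w' := by
  apply lp.ext; funext p
  simp

lemma cj_smul (c : ℂ) (w : L κ) : cj (c • w) = conj c • cj w := by
  apply lp.ext; funext p
  simp [lp.coeFn_smul]

lemma cj_cj (w : L κ) : cj (cj w) = w := by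
  apply lp.ext; funext p
  simp

lemma cj_norm (w : L κ) : ‖cj w‖ = ‖w‖ := by
  rw [norm_eq, norm_eq]
  refine tsum_congr fun p => ?_
  simp

lemma adj_mem_W (w : L (κ × κ)) (hw : w ∈ W e) : adj w ∈ W e := by
  intro j hj
  rw [adj_apply, hw j hj, map_zero]

include he in
lemma adj_m (hadj : ∀ j, adj (e j) = e j) (x y : L κ) :
    adj (m e (G e) x y) = m e (G e) (cj y) (cj x) := by
  apply lp.ext; funext p
  rw [adj_apply, m_apply e he, m_apply e he, map_add]
  congr 1
  · by_cases h : p.1 = p.2 ∧ G e p.1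
    · rw [offf_eq_zero _ _ _ p h, offf_eq_zero _ _ _ (p.2, p.1) ⟨h.1.symm, h.1 ▸ h.2⟩, map_zero]
    · rw [offf_eq _ _ _ p h, offf_eq _ _ _ (p.2, p.1) (fun h' => h ⟨h'.1.symm, (show p.2 = p.1 from h'.1) ▸ h'.2⟩)]
      simp [mul_comm]
  · rw [Complex.conj_tsum]
    refine tsum_congr fun j => ?_
    rw [map_mul]
    congr 1
    · by_cases h : G e j
      · rw [dg_eq _ _ _ j h, dg_eq _ _ _ j h]; simp [mul_comm]
      · rw [dg_eq_zero _ _ _ j h, dg_eq_zero _ _ _ j h, map_zero]
    · conv_rhs => rw [← hadj j]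
      simp

include he in
lemma W_le_span
    (hen : ∀ w : L (κ × κ), ‖w‖ ≤ 1 → adj w = w → ∀ β, ∃ j, β ≤ j ∧ e j = w) :
    W e ≤ Submodule.span ℂ (Set.range fun z : L κ × L κ => m e (G e) z.1 z.2) := by
  -- self-adjoint vectors
  have hsa : ∀ w ∈ W e, adj w = w →
      w ∈ Submodule.span ℂ (Set.range fun z : L κ × L κ => m e (G e) z.1 z.2) := by
    intro w hw h2
    have hpos : (0 : ℝ) < ‖w‖ + 1 := by positivity
    have h3 := span_contains_e e he hen ((((‖w‖ + 1)⁻¹ : ℝ) : ℂ) • w)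
      ((W e).smul_mem _ hw) (by
        rw [norm_smul, Complex.norm_real, norm_inv, Real.norm_of_nonneg hpos.le,
          inv_mul_le_iff₀ hpos]
        linarith) (by rw [adj_smul, Complex.conj_ofReal, h2])
    have h4 := Submodule.smul_mem _ (((‖w‖ + 1 : ℝ)) : ℂ) h3
    rw [smul_smul, ← Complex.ofReal_mul, mul_inv_cancel₀ hpos.ne', Complex.ofReal_one,
      one_smul] at h4
    exact h4
  intro w hw
  have h1 := hsa (w + adj w) ((W e).add_mem hw (adj_mem_W e w hw)) (by
    rw [adj_add, adj_adj, add_comm])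
  have h2 := hsa (Complex.I • (w - adj w)) ((W e).smul_mem _ ((W e).sub_mem hw (adj_mem_W e w hw)))
    (by
      have : w - adj w = w + (-1 : ℂ) • adj w := by rw [neg_one_smul, sub_eq_add_neg]
      rw [this, adj_smul, adj_add, adj_smul, adj_adj, Complex.conj_I]
      simp only [map_neg, map_one, neg_smul, one_smul, smul_add, smul_neg, neg_neg]
      rw [add_comm])
  have h3 : w = (1 / 2 : ℂ) • (w + adj w) + (-(Complex.I) / 2 : ℂ) • (Complex.I • (w - adj w)) := by
    rw [smul_smul]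
    have : (-(Complex.I) / 2 : ℂ) * Complex.I = 1 / 2 := by
      rw [div_mul_eq_mul_div, neg_mul, Complex.I_mul_I, neg_neg]
    rw [this, ← smul_add]
    have : w + adj w + (w - adj w) = (2 : ℂ) • w := by rw [two_smul]; abel
    rw [this, smul_smul]; norm_num
  rw [h3]
  exact Submodule.add_mem _ (Submodule.smul_mem _ _ h1) (Submodule.smul_mem _ _ h2)

include he in
/-- no relations -/
lemma no_rel (φ ψ : L κ →ₗ[ℂ] ℂ) {n : ℕ} (x y : Fin n → L κ)
    (h : ∑ i, m e (G e) (x i) (y i) = 0) : ∑ i, φ (x i) * ψ (y i) = 0 := by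
  have hb : ∃ β, (∀ i s, β ≤ s → x i s = 0) ∧ (∀ i s, β ≤ s → y i s = 0) := by
    choose b1 hb1 using fun i => exists_bound1 (x i)
    choose b2 hb2 using fun i => exists_bound1 (y i)
    obtain ⟨β, hβ⟩ := exists_bound (Set.range b1 ∪ Set.range b2)
      ((Set.countable_range b1).union (Set.countable_range b2))
    exact ⟨β, fun i s hs => hb1 i s ((hβ _ (Or.inl ⟨i, rfl⟩)).le.trans hs),
      fun i s hs => hb2 i s ((hβ _ (Or.inr ⟨i, rfl⟩)).le.trans hs)⟩
  obtain ⟨β, hx, hy⟩ := hb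
  have hT := rigid e he (G e) (fun j hj => ((G_iff e j).1 hj).1)
    (fun j hj => ((G_iff e j).1 hj).2.2) β n x y hx hy h
  -- rows vanish
  have hrow : ∀ s, ∑ i, (x i s) • y i = 0 := by
    intro s
    apply lp.ext; funext t
    rw [lp.coeFn_sum, Finset.sum_apply]
    have := hT s t
    simp only [T] at this
    simpa [lp.coeFn_smul] using this
  have h2 : ∑ i, ψ (y i) • x i = 0 := by
    apply lp.ext; funext s
    rw [lp.coeFn_sum, Finset.sum_apply]
    have := congrArg ψ (hrow s)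
    rw [map_sum, map_zero] at this
    simp only [map_smul, smul_eq_mul] at this
    simpa [lp.coeFn_smul, mul_comm] using this
  have h3 := congrArg φ h2
  rw [map_sum, map_zero] at h3
  simpa [mul_comm] using h3

include he in
lemma exists_functional (φ ψ : L κ →ₗ[ℂ] ℂ) :
    ∃ g : L (κ × κ) →ₗ[ℂ] ℂ, ∀ x y, g (m e (G e) x y) = φ x * ψ y := by
  let M : ((L κ × L κ) →₀ ℂ) →ₗ[ℂ] L (κ × κ) :=
    Finsupp.linearCombination ℂ fun z => m e (G e) z.1 z.2
  let B : ((L κ × L κ) →₀ ℂ) →ₗ[ℂ] ℂ :=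
    Finsupp.linearCombination ℂ fun z => φ z.1 * ψ z.2
  have hker : ∀ l ∈ LinearMap.ker M, B l = 0 := by
    intro l hl
    have hl' : M l = 0 := hl
    rw [Finsupp.linearCombination_apply, Finsupp.sum] at hl'
    rw [Finsupp.linearCombination_apply, Finsupp.sum]
    let E := l.support.equivFin
    have h1 := no_rel e he φ ψ (fun i => l (E.symm i).1 • (E.symm i).1.1)
      (fun i => (E.symm i).1.2) (by
        rw [← hl', ← Finset.sum_coe_sort l.support]
        rw [← E.symm.sum_comp]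
        exact Finset.sum_congr rfl fun i _ => m_smul_left e he _ _ _ _)
    rw [← h1, ← Finset.sum_coe_sort l.support, ← E.symm.sum_comp]
    refine Finset.sum_congr rfl fun i _ => ?_
    rw [map_smul, smul_eq_mul, smul_eq_mul, mul_assoc]
  have h2 : B ∈ (LinearMap.ker M).dualAnnihilator := by
    rw [Submodule.mem_dualAnnihilator]; exact hker
  rw [← LinearMap.range_dualMap_eq_dualAnnihilator_ker] at h2
  obtain ⟨g, hg⟩ := h2
  refine ⟨g, fun x y => ?_⟩
  have h3 := LinearMap.congr_fun hg (Finsupp.single (x, y) 1)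
  rw [LinearMap.dualMap_apply] at h3
  simpa [M, B] using h3

end

/-- packaged bilinear map -/
theorem main : ∃ (m : L κ →ₗ[ℂ] L κ →ₗ[ℂ] L (κ × κ)) (W : Submodule ℂ (L (κ × κ))),
    (∀ x y, ‖m x y‖ ≤ 2 * (‖x‖ * ‖y‖)) ∧ IsClosed (W : Set (L (κ × κ))) ∧
    (∀ x y, m x y ∈ W) ∧ (W ≤ Submodule.span ℂ (Set.range fun z : L κ × L κ => m z.1 z.2)) ∧
    (∀ x y, adj (m x y) = m (cj y) (cj x)) ∧ (∀ w ∈ W, adj w ∈ W) ∧
    ∀ φ ψ : L κ →ₗ[ℂ] ℂ, ∃ g : L (κ × κ) →ₗ[ℂ] ℂ, ∀ x y, g (m x y) = φ x * ψ y := by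
  obtain ⟨e, he1, he2⟩ := exists_enum (fun w => ‖w‖ ≤ 1 ∧ adj w = w)
    ⟨by simp, by apply lp.ext; funext p; simp⟩
  have he : ∀ j, ‖e j‖ ≤ 1 := fun j => (he1 j).1
  refine ⟨mB e he, W e, fun x y => m_norm_le e he _ x y, W_closed e, m_mem_W e he,
    W_le_span e he (fun w h1 h2 => he2 w ⟨h1, h2⟩), adj_m e he (fun j => (he1 j).2),
    adj_mem_W e, exists_functional e he⟩

end Pool.Agent.Helper59.BA5
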