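import Mathlib
import Pool.Agent.Helper59.BA5

open scoped ENNReal Cardinal ComplexConjugate

namespace Pool.Agent.Helper59.BA6
open Pool.Agent.Helper59.BA1 Pool.Agent.Helper59.BA4 Pool.Agent.Helper59.BA5

/-- the data of the bilinear map -/
structure Data where
  m : L κ →ₗ[ℂ] L κ →ₗ[ℂ] L (κ × κ)
  W : Submodule ℂ (L (κ × κ))
  hm : ∀ x y, ‖m x y‖ ≤ 2 * (‖x‖ * ‖y‖)
  hW : IsClosed (W : Set (L (κ × κ)))
  mem : ∀ x y, m x y ∈ W
  span : W ≤ Submodule.span ℂ (Set.range fun z : L κ × L κ => m z.1 z.2)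
  adjm : ∀ x y, adj (m x y) = m (cj y) (cj x)
  adjW : ∀ w ∈ W, adj w ∈ W

variable (D : Data)

/-- the algebra -/
def A : Type := ℂ × L κ × L κ × D.W

noncomputable instance : NormedAddCommGroup (A D) := inferInstanceAs (NormedAddCommGroup (ℂ × L κ × L κ × D.W))
noncomputable instance : NormedSpace ℂ (A D) := inferInstanceAs (NormedSpace ℂ (ℂ × L κ × L κ × D.W))
instance : CompleteSpace (A D) := by
  have : CompleteSpace D.W := D.hW.completeSpace_coe
  exact inferInstanceAs (CompleteSpace (ℂ × L κ × L κ × D.W))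

noncomputable instance : Mul (A D) where
  mul a b := (a.1 * b.1, b.1 • a.2.1, a.1 • b.2.2.1,
    ⟨(1 / 2 : ℂ) • D.m a.2.1 b.2.2.1, D.W.smul_mem _ (D.mem _ _)⟩)

noncomputable instance : Star (A D) where
  star a := (conj a.1, cj a.2.2.1, cj a.2.1, ⟨adj a.2.2.2, D.adjW _ a.2.2.2.2⟩)

variable {D}

lemma ext' {a b : A D} (h1 : a.1 = b.1) (h2 : a.2.1 = b.2.1) (h3 : a.2.2.1 = b.2.2.1)
    (h4 : (a.2.2.2 : L (κ × κ)) = b.2.2.2) : a = b :=
  Prod.ext h1 (Prod.ext h2 (Prod.ext h3 (Subtype.ext h4)))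

@[simp] lemma mul_1 (a b : A D) : (a * b).1 = a.1 * b.1 := rfl
@[simp] lemma mul_2 (a b : A D) : (a * b).2.1 = b.1 • a.2.1 := rfl
@[simp] lemma mul_3 (a b : A D) : (a * b).2.2.1 = a.1 • b.2.2.1 := rfl
@[simp] lemma mul_4 (a b : A D) :
    ((a * b).2.2.2 : L (κ × κ)) = (1 / 2 : ℂ) • D.m a.2.1 b.2.2.1 := rfl
@[simp] lemma star_1 (a : A D) : (star a).1 = conj a.1 := rfl
@[simp] lemma star_2 (a : A D) : (star a).2.1 = cj a.2.2.1 := rfl
@[simp] lemma star_3 (a : A D) : (star a).2.2.1 = cj a.2.1 := rfl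
@[simp] lemma star_4 (a : A D) : ((star a).2.2.2 : L (κ × κ)) = adj a.2.2.2 := rfl
@[simp] lemma add_1 (a b : A D) : (a + b).1 = a.1 + b.1 := rfl
@[simp] lemma add_2 (a b : A D) : (a + b).2.1 = a.2.1 + b.2.1 := rfl
@[simp] lemma add_3 (a b : A D) : (a + b).2.2.1 = a.2.2.1 + b.2.2.1 := rfl
@[simp] lemma add_4 (a b : A D) :
    ((a + b).2.2.2 : L (κ × κ)) = a.2.2.2 + b.2.2.2 := rfl
@[simp] lemma smul_1 (c : ℂ) (b : A D) : (c • b).1 = c * b.1 := rfl
@[simp] lemma smul_2 (c : ℂ) (b : A D) : (c • b).2.1 = c • b.2.1 := rfl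
@[simp] lemma smul_3 (c : ℂ) (b : A D) : (c • b).2.2.1 = c • b.2.2.1 := rfl
@[simp] lemma smul_4 (c : ℂ) (b : A D) :
    ((c • b).2.2.2 : L (κ × κ)) = c • (b.2.2.2 : L (κ × κ)) := rfl
@[simp] lemma zero_1 : (0 : A D).1 = 0 := rfl
@[simp] lemma zero_2 : (0 : A D).2.1 = 0 := rfl
@[simp] lemma zero_3 : (0 : A D).2.2.1 = 0 := rfl
@[simp] lemma zero_4 : ((0 : A D).2.2.2 : L (κ × κ)) = 0 := rfl

/-- constructor -/
def mkA (l : ℂ) (u v : L κ) (w : D.W) : A D := (l, u, v, w)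
@[simp] lemma mkA_1 (l : ℂ) (u v : L κ) (w : D.W) : (mkA l u v w).1 = l := rfl
@[simp] lemma mkA_2 (l : ℂ) (u v : L κ) (w : D.W) : (mkA l u v w).2.1 = u := rfl
@[simp] lemma mkA_3 (l : ℂ) (u v : L κ) (w : D.W) : (mkA l u v w).2.2.1 = v := rfl
@[simp] lemma mkA_4 (l : ℂ) (u v : L κ) (w : D.W) : (mkA l u v w).2.2.2 = w := rfl

lemma norm_def (a : A D) : ‖a‖ = max ‖a.1‖ (max ‖a.2.1‖ (max ‖a.2.2.1‖ ‖(a.2.2.2 : L (κ × κ))‖)) :=
  rfl

lemma n1 (a : A D) : ‖a.1‖ ≤ ‖a‖ := le_max_left _ _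
lemma n2 (a : A D) : ‖a.2.1‖ ≤ ‖a‖ := (le_max_left _ _).trans (le_max_right _ _)
lemma n3 (a : A D) : ‖a.2.2.1‖ ≤ ‖a‖ :=
  ((le_max_left _ _).trans (le_max_right _ _)).trans (le_max_right _ _)
lemma n4 (a : A D) : ‖(a.2.2.2 : L (κ × κ))‖ ≤ ‖a‖ :=
  ((le_max_right _ _).trans (le_max_right _ _)).trans (le_max_right _ _)

noncomputable instance : NonUnitalNormedRing (A D) where
  __ := (inferInstance : NormedAddCommGroup (A D))
  __ := (inferInstance : Mul (A D))
  left_distrib a b c := by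
    apply ext' <;> simp [mul_add, add_smul]
  right_distrib a b c := by
    apply ext' <;> simp [add_mul, add_smul]
  zero_mul a := by apply ext' <;> simp
  mul_zero a := by apply ext' <;> simp
  mul_assoc a b c := by
    apply ext'
    · simp [mul_assoc]
    · simp [smul_smul, mul_comm]
    · simp [smul_smul]
    · simp
  norm_mul_le a b := by
    have h0 := norm_nonneg a
    have h0' := norm_nonneg b
    rw [norm_def]
    refine max_le ?_ (max_le ?_ (max_le ?_ ?_))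
    · rw [mul_1, norm_mul]
      exact mul_le_mul (n1 a) (n1 b) (norm_nonneg _) h0
    · rw [mul_2, norm_smul, mul_comm]
      exact mul_le_mul (n2 a) (n1 b) (norm_nonneg _) h0
    · rw [mul_3, norm_smul]
      exact mul_le_mul (n1 a) (n3 b) (norm_nonneg _) h0
    · rw [mul_4, norm_smul]
      have h1 := D.hm a.2.1 b.2.2.1
      have h2 : ‖a.2.1‖ * ‖b.2.2.1‖ ≤ ‖a‖ * ‖b‖ := mul_le_mul (n2 a) (n3 b) (norm_nonneg _) h0
      have h3 : ‖(1 / 2 : ℂ)‖ = 1 / 2 := by norm_num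
      rw [h3]
      linarith

instance : IsScalarTower ℂ (A D) (A D) where
  smul_assoc c a b := by
    apply ext'
    · simp [mul_assoc]
    · simp [smul_smul, mul_comm]
    · simp [smul_smul]
    · simp
      rw [smul_comm]

instance : SMulCommClass ℂ (A D) (A D) where
  smul_comm c a b := by
    apply ext'
    · simp; ring
    · simp [smul_smul]
    · simp [smul_smul, mul_comm]
    · simp
      rw [smul_comm]

noncomputable instance : StarRing (A D) where
  star_involutive a := by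
    apply ext'
    · simp
    · simp [cj_cj]
    · simp [cj_cj]
    · simp [adj_adj]
  star_mul a b := by
    apply ext'
    · simp [mul_comm]
    · simp [cj_smul]
    · simp [cj_smul]
    · rw [star_4, mul_4, adj_smul, D.adjm, mul_4, star_2, star_3]
      have h : conj (1 / 2 : ℂ) = 1 / 2 := by
        rw [show (1 / 2 : ℂ) = ((1 / 2 : ℝ) : ℂ) by norm_num, Complex.conj_ofReal]
      rw [h]
  star_add a b := by
    apply ext'
    · simp
    · simp [cj_add]
    · simp [cj_add]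
    · simp [adj_add]

instance : StarModule ℂ (A D) where
  star_smul c a := by
    apply ext'
    · simp
    · simp [cj_smul]
    · simp [cj_smul]
    · simp [adj_smul]

lemma norm_star (a : A D) : ‖star a‖ = ‖a‖ := by
  rw [norm_def, norm_def, star_1, star_2, star_3, star_4, cj_norm, cj_norm, adj_norm,
    RCLike.norm_conj]
  congr 1
  rw [max_left_comm]

lemma span_le_W : Submodule.span ℂ (Set.range fun z : L κ × L κ => D.m z.1 z.2) ≤ D.W := by
  refine Submodule.span_le.2 ?_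
  rintro _ ⟨z, rfl⟩
  exact D.mem _ _

/-- A is spanned by products -/
lemma sq_top : Submodule.span ℂ {z : A D | ∃ a b, z = a * b} = ⊤ := by
  rw [eq_top_iff]
  intro a _
  have h4 : ∀ w : D.W, mkA 0 0 0 w ∈ Submodule.span ℂ {z : A D | ∃ a b, z = a * b} := by
    intro w
    have key : ∀ w : L (κ × κ),
        w ∈ Submodule.span ℂ (Set.range fun z : L κ × L κ => D.m z.1 z.2) →
        ∀ hw : w ∈ D.W, mkA 0 0 0 ⟨w, hw⟩ ∈
          Submodule.span ℂ {z : A D | ∃ a b, z = a * b} := by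
      intro w hsp
      induction hsp using Submodule.span_induction with
      | mem w hw =>
        obtain ⟨⟨u, v⟩, rfl⟩ := hw
        intro hw
        have : (mkA 0 0 0 ⟨D.m u v, hw⟩ : A D) = (2 : ℂ) • (mkA 0 u 0 0 * mkA 0 0 v 0 : A D) := by
          apply ext'
          · simp
          · simp
          · simp
          · rw [smul_4, mul_4]; simp
        exact this ▸ Submodule.smul_mem _ _ (Submodule.subset_span ⟨_, _, rfl⟩)
      | zero => intro hw; exact Submodule.zero_mem _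
      | add w w' h h' ih ih' =>
        intro hw
        have h3 := Submodule.add_mem _ (ih (span_le_W h)) (ih' (span_le_W h'))
        have : (mkA 0 0 0 ⟨w + w', hw⟩ : A D) =
            mkA 0 0 0 ⟨w, span_le_W h⟩ + mkA 0 0 0 ⟨w', span_le_W h'⟩ := by
          apply ext'
          · simp
          · simp
          · simp
          · rfl
        exact this ▸ h3
      | smul c w h ih =>
        intro hw
        have h1 := Submodule.smul_mem _ c (ih (span_le_W h))
        have : (mkA 0 0 0 ⟨c • w, hw⟩ : A D) = c • mkA 0 0 0 ⟨w, span_le_W h⟩ := by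
          apply ext'
          · simp
          · simp
          · simp
          · rfl
        exact this ▸ h1
    exact key w (D.span w.2) w.2
  have h1 : mkA a.1 a.2.1 0 0 ∈ Submodule.span ℂ {z : A D | ∃ a b, z = a * b} := by
    refine Submodule.subset_span ⟨mkA a.1 a.2.1 0 0, mkA 1 0 0 0, ?_⟩
    apply ext' <;> simp
  have h2 : mkA 0 0 a.2.2.1 0 ∈ Submodule.span ℂ {z : A D | ∃ a b, z = a * b} := by
    refine Submodule.subset_span ⟨mkA 1 0 0 0, mkA 0 0 a.2.2.1 0, ?_⟩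
    apply ext' <;> simp
  have h3 := Submodule.add_mem _ (Submodule.add_mem _ h1 h2) (h4 a.2.2.2)
  have : a = mkA a.1 a.2.1 0 0 + mkA 0 0 a.2.2.1 0 + mkA 0 0 0 a.2.2.2 := by
    apply ext' <;> simp
  exact this ▸ h3

/-- a discontinuous functional on l1 -/
lemma exists_disc : ∃ φ : L κ →ₗ[ℂ] ℂ, ∀ n : ℕ, ∃ v : L κ, ‖v‖ ≤ 1 ∧ (n : ℝ) ≤ ‖φ v‖ := by
  classical
  have hinf : Infinite κ := by
    rw [Cardinal.infinite_iff, mk_kappa]
    exact Cardinal.aleph0_le_continuum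
  obtain ⟨q⟩ : Nonempty (ℕ ↪ κ) := ⟨Infinite.natEmbedding κ⟩
  let v : ℕ → L κ := fun n => lp.single 1 (q n) (1 : ℂ)
  have hli : LinearIndependent ℂ v := by
    rw [linearIndependent_iff']
    intro s c hc i hi
    have h1 := congrArg (fun w : L κ => w (q i)) hc
    simp only [lp.coeFn_sum, Finset.sum_apply, lp.coeFn_smul, Pi.smul_apply, lp.coeFn_zero,
      Pi.zero_apply] at h1
    rw [Finset.sum_eq_single i] at h1
    · simpa [v] using h1
    · intro j _ hj
      have : q i ≠ q j := fun h => hj (q.injective h).symm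
      simp only [v]
      rw [lp.single_apply_ne _ _ _ this, smul_zero]
    · intro h; exact absurd hi h
  let b := Module.Basis.span hli
  obtain ⟨φ, hφ⟩ := LinearMap.exists_extend (b.constr ℂ (fun n => (n : ℂ)))
  refine ⟨φ, fun n => ⟨v n, ?_, ?_⟩⟩
  · simp only [v]
    rw [lp.norm_single (by simp)]; simp
  · have h1 : φ (v n) = n := by
      have h2 : ((b n : Submodule.span ℂ (Set.range v)) : L κ) = v n := by
        simp only [b]; rw [Module.Basis.span_apply]
      have h3 := LinearMap.congr_fun hφ (b n)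
      rw [LinearMap.comp_apply, Submodule.subtype_apply, h2, Module.Basis.constr_basis] at h3
      exact h3
    rw [h1]; simp

/-- the twisted conjugate functional -/
noncomputable def ct (φ : L κ →ₗ[ℂ] ℂ) : L κ →ₗ[ℂ] ℂ where
  toFun u := conj (φ (cj u))
  map_add' x y := by rw [cj_add, map_add, map_add]
  map_smul' c x := by rw [cj_smul, map_smul]; simp

@[simp] lemma ct_apply (φ : L κ →ₗ[ℂ] ℂ) (u : L κ) : ct φ u = conj (φ (cj u)) := rfl

/-- the positive functional -/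
noncomputable def F (φ : L κ →ₗ[ℂ] ℂ) (g : L (κ × κ) →ₗ[ℂ] ℂ) : A D →ₗ[ℂ] ℂ where
  toFun a := a.1 + ct φ a.2.1 + φ a.2.2.1 + g a.2.2.2
  map_add' a b := by
    rw [add_1, add_2, add_3, add_4, map_add, map_add, map_add]; ring
  map_smul' c a := by
    rw [smul_1, smul_2, smul_3, smul_4, map_smul, map_smul, map_smul]
    simp only [smul_eq_mul, RingHom.id_apply]; ring

lemma F_apply (φ : L κ →ₗ[ℂ] ℂ) (g : L (κ × κ) →ₗ[ℂ] ℂ) (a : A D) :
    F φ g a = a.1 + ct φ a.2.1 + φ a.2.2.1 + g a.2.2.2 := rfl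

lemma F_pos (φ : L κ →ₗ[ℂ] ℂ) (g : L (κ × κ) →ₗ[ℂ] ℂ)
    (hg : ∀ x y, g (D.m x y) = ct φ x * (((2 : ℂ) • φ) y)) (a : A D) :
    F φ g (star a * a) = ((‖a.1 + φ a.2.2.1‖ ^ 2 : ℝ) : ℂ) := by
  rw [F_apply, mul_1, mul_2, mul_3, mul_4, star_1, star_2, map_smul g, hg, map_smul φ, ct_apply,
    ct_apply, cj_smul, cj_cj, map_smul φ]
  have h := Complex.mul_conj (a.1 + φ a.2.2.1)
  rw [Complex.normSq_eq_norm_sq] at h
  rw [← h]
  simp only [smul_eq_mul, LinearMap.smul_apply, map_add, map_mul, Complex.conj_conj]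
  ring

/-- in an algebra spanned by products, triple products span -/
lemma cube_top : Submodule.span ℂ {z : A D | ∃ a b c, z = a * b * c} = ⊤ := by
  rw [eq_top_iff, ← sq_top, Submodule.span_le]
  rintro _ ⟨a, b, rfl⟩
  have ha : a ∈ Submodule.span ℂ {z : A D | ∃ a b, z = a * b} := by rw [sq_top]; trivial
  induction ha using Submodule.span_induction with
  | mem a ha =>
    obtain ⟨a', b', rfl⟩ := ha
    exact Submodule.subset_span ⟨a', b', b, rfl⟩
  | zero => rw [zero_mul]; exact Submodule.zero_mem _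
  | add x y _ _ hx hy => rw [add_mul]; exact Submodule.add_mem _ hx hy
  | smul c x _ hx => rw [smul_mul_assoc]; exact Submodule.smul_mem _ _ hx

/-- The counterexample. -/
theorem counterexample : ∃ (A : Type) (_ : NonUnitalNormedRing A) (_ : NormedSpace ℂ A)
    (_ : IsScalarTower ℂ A A) (_ : SMulCommClass ℂ A A) (_ : CompleteSpace A) (_ : StarRing A)
    (_ : StarModule ℂ A), (∀ a : A, ‖star a‖ = ‖a‖) ∧
    Submodule.span ℂ {z : A | ∃ a b, z = a * b} = ⊤ ∧
    Submodule.span ℂ {z : A | ∃ a b c, z = a * b * c} = ⊤ ∧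
    ∃ f : A →ₗ[ℂ] ℂ, (∀ a, 0 ≤ (f (star a * a)).re ∧ (f (star a * a)).im = 0) ∧
      ¬ Continuous f := by
  obtain ⟨m, W, h1, h2, h3, h4, h5, h6, h7⟩ := BA5.main
  obtain ⟨φ, hφ⟩ := exists_disc
  let D : Data := ⟨m, W, h1, h2, h3, h4, h5, h6⟩
  obtain ⟨g, hg⟩ := h7 (ct φ) ((2 : ℂ) • φ)
  refine ⟨A D, inferInstance, inferInstance, inferInstance, inferInstance, inferInstance,
    inferInstance, inferInstance, norm_star, sq_top, cube_top, F φ g, ?_, ?_⟩
  · intro a
    rw [F_pos φ g hg]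
    refine ⟨?_, Complex.ofReal_im _⟩
    rw [Complex.ofReal_re]; positivity
  · intro hc
    let f' : A D →L[ℂ] ℂ := ⟨F (D := D) φ g, hc⟩
    obtain ⟨C, hC0, hC⟩ : ∃ C : ℝ, 0 ≤ C ∧ ∀ a : A D, ‖F φ g a‖ ≤ C * ‖a‖ :=
      ⟨‖f'‖, norm_nonneg _, f'.le_opNorm⟩
    obtain ⟨n, hn⟩ := exists_nat_gt C
    obtain ⟨v, hv1, hv2⟩ := hφ n
    have h := hC (mkA 0 0 v 0)
    rw [F_apply, mkA_1, mkA_2, mkA_3, mkA_4] at h
    have h8 : ‖(mkA 0 0 v 0 : A D)‖ = ‖v‖ := by
      rw [norm_def, mkA_1, mkA_2, mkA_3, mkA_4]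
      simp
    have h9 : (0 : ℂ) + (ct φ) 0 + φ v + g ((0 : D.W) : L (κ × κ)) = φ v := by
      rw [map_zero, Submodule.coe_zero, map_zero]; ring
    rw [h8, h9] at h
    have h10 : C * ‖v‖ ≤ C * 1 := by gcongr
    linarith

end Pool.Agent.Helper59.BA6
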