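import Mathlib

set_option autoImplicit false

/-! Hard core recursion with history, and the contraction estimate. -/

namespace Pool.Agent.Helper59.HC

open Finset

section defs

variable {𝕜 : Type*} [CommSemiring 𝕜]

open Classical in
/-- Weighted sum over sets `S` of sites in `[m, m+k)` compatible with the history `τ`. -/
noncomputable def R (ok : ℕ → ℕ → Prop) (x : ℕ → 𝕜) : ℕ → ℕ → Finset ℕ → 𝕜
  | 0, _, _ => 1
  | k+1, m, τ => R ok x k (m+1) τ +
      if (∀ a ∈ τ, ok a m) then x m * R ok x k (m+1) (insert m τ) else 0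

open Classical in
lemma R_succ (ok : ℕ → ℕ → Prop) (x : ℕ → 𝕜) (k m : ℕ) (τ : Finset ℕ) :
    R ok x (k+1) m τ = R ok x k (m+1) τ +
      if (∀ a ∈ τ, ok a m) then x m * R ok x k (m+1) (insert m τ) else 0 := rfl

/-- compatibility of a set with a history -/
def Comp (ok : ℕ → ℕ → Prop) (τ S : Finset ℕ) : Prop :=
  (∀ a ∈ S, ∀ c ∈ S, a < c → ok a c) ∧ ∀ a ∈ τ, ∀ c ∈ S, ok a c

open Classical in
lemma R_eq_sum (ok : ℕ → ℕ → Prop) (x : ℕ → 𝕜) (k m : ℕ) (τ : Finset ℕ) :
    R ok x k m τ = ∑ S ∈ (Ico m (m+k)).powerset, if Comp ok τ S then ∏ i ∈ S, x i else 0 := by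
  induction k generalizing m τ with
  | zero => simp [R, Comp]
  | succ k ih =>
    have h1 : Ico m (m + (k+1)) = insert m (Ico (m+1) (m+1+k)) := by
      ext i; simp only [mem_Ico, mem_insert]; omega
    have h2 : m ∉ Ico (m+1) (m+1+k) := by simp
    rw [R_succ, h1, sum_powerset_insert h2, ih (m+1) τ]
    congr 1
    by_cases hτ : ∀ a ∈ τ, ok a m
    · rw [if_pos hτ, ih (m+1) (insert m τ), mul_sum]
      apply sum_congr rfl
      intro S hS
      rw [mem_powerset] at hS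
      have hmS : m ∉ S := fun h => h2 (hS h)
      have hgt : ∀ c ∈ S, m < c := fun c hc => by
        have := hS hc; rw [mem_Ico] at this; omega
      have hiff : Comp ok (insert m τ) S ↔ Comp ok τ (insert m S) := by
        constructor
        · rintro ⟨h3, h4⟩
          refine ⟨?_, ?_⟩
          · intro a ha c hc hac
            rcases mem_insert.mp ha with rfl | ha'
            · rcases mem_insert.mp hc with rfl | hc'
              · omega
              · exact h4 _ (mem_insert_self _ _) _ hc'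
            · rcases mem_insert.mp hc with rfl | hc'
              · have := hgt a ha'; omega
              · exact h3 a ha' c hc' hac
          · intro a ha c hc
            rcases mem_insert.mp hc with rfl | hc'
            · exact hτ a ha
            · exact h4 a (mem_insert_of_mem ha) c hc'
        · rintro ⟨h3, h4⟩
          refine ⟨?_, ?_⟩
          · intro a ha c hc hac
            exact h3 a (mem_insert_of_mem ha) c (mem_insert_of_mem hc) hac
          · intro a ha c hc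
            rcases mem_insert.mp ha with rfl | ha'
            · exact h3 _ (mem_insert_self _ _) _ (mem_insert_of_mem hc) (hgt c hc)
            · exact h4 a ha' c (mem_insert_of_mem hc)
      by_cases hc : Comp ok (insert m τ) S
      · rw [if_pos hc, if_pos (hiff.mp hc), prod_insert hmS]
      · rw [if_neg hc, if_neg (fun h => hc (hiff.mpr h)), mul_zero]
    · rw [if_neg hτ]
      symm
      apply sum_eq_zero
      intro S hS
      rw [if_neg]
      rintro ⟨_, h4⟩
      apply hτ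
      intro a ha
      exact h4 a ha m (mem_insert_self _ _)

/-- range condition -/
def Range (ok : ℕ → ℕ → Prop) (D : ℕ) : Prop := ∀ a m, a + D ≤ m → ok a m

lemma R_union (ok : ℕ → ℕ → Prop) {D : ℕ} (hD : Range ok D) (x : ℕ → 𝕜) (k m : ℕ)
    (τ σ : Finset ℕ) (hτ : ∀ a ∈ τ, a + D ≤ m) : R ok x k m (σ ∪ τ) = R ok x k m σ := by
  induction k generalizing m σ with
  | zero => rfl
  | succ k ih =>
    rw [R_succ, R_succ, ih (m+1) σ (fun a ha => (hτ a ha).trans (Nat.le_succ m))]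
    congr 1
    have hiff : (∀ a ∈ σ ∪ τ, ok a m) ↔ (∀ a ∈ σ, ok a m) := by
      constructor
      · intro h a ha; exact h a (mem_union_left _ ha)
      · intro h a ha
        rcases mem_union.mp ha with h1 | h1
        · exact h a h1
        · exact hD a m (hτ a h1)
    by_cases hc : ∀ a ∈ σ, ok a m
    · rw [if_pos hc, if_pos (hiff.mpr hc), ← insert_union,
        ih (m+1) (insert m σ) (fun a ha => (hτ a ha).trans (Nat.le_succ m))]
    · rw [if_neg hc, if_neg (fun h => hc (hiff.mp h))]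

lemma R_far (ok : ℕ → ℕ → Prop) {D : ℕ} (hD : Range ok D) (x : ℕ → 𝕜) (k m : ℕ)
    (τ : Finset ℕ) (hτ : ∀ a ∈ τ, a + D ≤ m) : R ok x k m τ = R ok x k m ∅ := by
  have := R_union ok hD x k m τ ∅ hτ
  rwa [empty_union] at this

/-- periodicity -/
def Per (ok : ℕ → ℕ → Prop) (M : ℕ) : Prop := ∀ a m, ok (a + M) (m + M) ↔ ok a m

lemma R_shift (ok : ℕ → ℕ → Prop) {M : ℕ} (hM : Per ok M) (x : ℕ → 𝕜) (k m : ℕ)
    (τ : Finset ℕ) :
    R ok x k (m + M) (τ.image (· + M)) = R ok (fun i => x (i + M)) k m τ := by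
  induction k generalizing m τ with
  | zero => rfl
  | succ k ih =>
    rw [R_succ, R_succ]
    have h1 : m + M + 1 = (m + 1) + M := by ring
    have h2 : insert (m + M) (τ.image (· + M)) = (insert m τ).image (· + M) := by
      rw [image_insert]
    rw [h1, ih, h2, ih]
    congr 1
    have hiff : (∀ a ∈ τ.image (· + M), ok a (m + M)) ↔ (∀ a ∈ τ, ok a m) := by
      constructor
      · intro h a ha
        exact (hM a m).mp (h (a + M) (mem_image_of_mem _ ha))
      · intro h a ha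
        obtain ⟨b, hb, rfl⟩ := mem_image.mp ha
        exact (hM b m).mpr (h b hb)
    by_cases hc : ∀ a ∈ τ, ok a m
    · rw [if_pos hc, if_pos (hiff.mpr hc)]
    · rw [if_neg hc, if_neg (fun h => hc (hiff.mp h))]

lemma R_shift_empty (ok : ℕ → ℕ → Prop) {M : ℕ} (hM : Per ok M) (x : ℕ → 𝕜) (k : ℕ) :
    R ok x k M ∅ = R ok (fun i => x (i + M)) k 0 ∅ := by
  have := R_shift ok hM x k 0 ∅
  rwa [zero_add, image_empty] at this

end defs

section real

open scoped Classical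

variable (ok : ℕ → ℕ → Prop) (x : ℕ → ℝ)

lemma R_nonneg (hx : ∀ i, 0 ≤ x i) (k m : ℕ) (τ : Finset ℕ) : 0 ≤ R ok x k m τ := by
  induction k generalizing m τ with
  | zero => simp [R]
  | succ k ih =>
    rw [R_succ]
    apply add_nonneg (ih _ _)
    split_ifs
    · exact mul_nonneg (hx m) (ih _ _)
    · exact le_rfl

lemma R_succ_ge (hx : ∀ i, 0 ≤ x i) (k m : ℕ) (τ : Finset ℕ) :
    R ok x k (m+1) τ ≤ R ok x (k+1) m τ := by
  rw [R_succ]
  have : 0 ≤ (if (∀ a ∈ τ, ok a m) then x m * R ok x k (m+1) (insert m τ) else 0) := by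
    split_ifs
    · exact mul_nonneg (hx m) (R_nonneg ok x hx _ _ _)
    · exact le_rfl
  linarith

lemma one_le_R (hx : ∀ i, 0 ≤ x i) (k m : ℕ) (τ : Finset ℕ) : 1 ≤ R ok x k m τ := by
  induction k generalizing m τ with
  | zero => simp [R]
  | succ k ih => exact (ih _ _).trans (R_succ_ge ok x hx k m τ)

lemma R_pos (hx : ∀ i, 0 ≤ x i) (k m : ℕ) (τ : Finset ℕ) : 0 < R ok x k m τ :=
  lt_of_lt_of_le one_pos (one_le_R ok x hx k m τ)

lemma R_anti (hx : ∀ i, 0 ≤ x i) (k m : ℕ) {σ τ : Finset ℕ} (h : σ ⊆ τ) :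
    R ok x k m τ ≤ R ok x k m σ := by
  induction k generalizing m σ τ with
  | zero => simp [R]
  | succ k ih =>
    rw [R_succ, R_succ]
    apply add_le_add (ih _ h)
    by_cases hc : ∀ a ∈ τ, ok a m
    · rw [if_pos hc, if_pos (fun a ha => hc a (h ha))]
      exact mul_le_mul_of_nonneg_left (ih _ (insert_subset_insert _ h)) (hx m)
    · rw [if_neg hc]
      split_ifs
      · exact mul_nonneg (hx m) (R_nonneg ok x hx _ _ _)
      · exact le_rfl

lemma R_succ_le (hx : ∀ i, 0 ≤ x i) (k m : ℕ) (τ : Finset ℕ) :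
    R ok x (k+1) m τ ≤ (1 + x m) * R ok x k (m+1) τ := by
  rw [R_succ, add_mul, one_mul]
  have : (if (∀ a ∈ τ, ok a m) then x m * R ok x k (m+1) (insert m τ) else 0) ≤
      x m * R ok x k (m+1) τ := by
    split_ifs
    · exact mul_le_mul_of_nonneg_left (R_anti ok x hx _ _ (subset_insert _ _)) (hx m)
    · exact mul_nonneg (hx m) (R_nonneg ok x hx _ _ _)
  linarith

/-- adding the last site -/
lemma R_last (hx : ∀ i, 0 ≤ x i) (k m : ℕ) (τ : Finset ℕ) :
    R ok x k m τ ≤ R ok x (k+1) m τ ∧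
      R ok x (k+1) m τ ≤ (1 + x (m+k)) * R ok x k m τ := by
  induction k generalizing m τ with
  | zero =>
    have h1 := R_succ_ge ok x hx 0 m τ
    have h2 := R_succ_le ok x hx 0 m τ
    simpa [R] using And.intro h1 h2
  | succ k ih =>
    have e1 := R_succ ok x (k+1) m τ
    have e2 := R_succ ok x k m τ
    obtain ⟨a1, a2⟩ := ih (m+1) τ
    obtain ⟨b1, b2⟩ := ih (m+1) (insert m τ)
    have h3 : m + 1 + k = m + (k + 1) := by ring
    rw [h3] at a2 b2
    constructor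
    · rw [e1, e2]
      apply add_le_add a1
      split_ifs
      · exact mul_le_mul_of_nonneg_left b1 (hx m)
      · exact le_rfl
    · rw [e1, e2, mul_add]
      apply add_le_add a2
      split_ifs
      · calc x m * R ok x (k+1) (m+1) (insert m τ)
            ≤ x m * ((1 + x (m+(k+1))) * R ok x k (m+1) (insert m τ)) :=
              mul_le_mul_of_nonneg_left b2 (hx m)
          _ = _ := by ring
      · simp

lemma R_add_ge (hx : ∀ i, 0 ≤ x i) (k j m : ℕ) (τ : Finset ℕ) :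
    R ok x k (m+j) τ ≤ R ok x (k+j) m τ := by
  induction j generalizing m with
  | zero => exact le_rfl
  | succ j ih =>
    calc R ok x k (m+(j+1)) τ = R ok x k ((m+1)+j) τ := by congr 1; ring
      _ ≤ R ok x (k+j) (m+1) τ := ih (m+1)
      _ ≤ R ok x (k+j+1) m τ := R_succ_ge ok x hx _ _ _

lemma R_add_le (hx : ∀ i, 0 ≤ x i) (hx1 : ∀ i, x i ≤ 1) (k j m : ℕ) :
    R ok x (k+j) m ∅ ≤ 2^j * R ok x k (m+j) ∅ := by
  induction j generalizing m with
  | zero => simp
  | succ j ih =>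
    have h1 : R ok x (k+j+1) m ∅ ≤ (1 + x m) * R ok x (k+j) (m+1) ∅ := R_succ_le ok x hx _ _ _
    have h2 := R_nonneg ok x hx (k+j) (m+1) ∅
    have h3 : (1 + x m) * R ok x (k+j) (m+1) ∅ ≤ 2 * R ok x (k+j) (m+1) ∅ :=
      mul_le_mul_of_nonneg_right (by linarith [hx1 m]) h2
    have h4 := ih (m+1)
    have h5 : m + 1 + j = m + (j+1) := by ring
    rw [h5] at h4
    calc R ok x (k+(j+1)) m ∅ ≤ 2 * R ok x (k+j) (m+1) ∅ := h1.trans h3
      _ ≤ 2 * (2^j * R ok x k (m+(j+1)) ∅) := by linarith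
      _ = _ := by ring

/-- propagation of nonnegativity of a linear combination -/
lemma prop_nonneg (hx : ∀ i, 0 ≤ x i) (p q : ℝ) (k j m : ℕ)
    (h : ∀ τ : Finset ℕ, (∀ a ∈ τ, a < m + j) →
      0 ≤ p * R ok x k (m+j) τ + q * R ok x (k+1) (m+j) τ)
    (τ : Finset ℕ) (hτ : ∀ a ∈ τ, a < m) :
    0 ≤ p * R ok x (k+j) m τ + q * R ok x (k+j+1) m τ ∧
    p * R ok x k (m+j) τ + q * R ok x (k+1) (m+j) τ ≤
      p * R ok x (k+j) m τ + q * R ok x (k+j+1) m τ := by
  induction j generalizing m τ with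
  | zero => exact ⟨h τ (by simpa using hτ), le_rfl⟩
  | succ j ih =>
    have e : m + (j+1) = (m+1) + j := by ring
    rw [e] at h ⊢
    have h' := ih (m+1) h
    obtain ⟨a1, a2⟩ := h' τ (fun a ha => (hτ a ha).trans (Nat.lt_succ_self m))
    obtain ⟨b1, b2⟩ := h' (insert m τ) (fun a ha => by
      rcases mem_insert.mp ha with rfl | ha
      · exact Nat.lt_succ_self _
      · exact (hτ a ha).trans (Nat.lt_succ_self m))
    have e1 : R ok x (k+(j+1)) m τ = _ := R_succ ok x (k+j) m τ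
    have e2 : R ok x (k+(j+1)+1) m τ = _ := R_succ ok x (k+j+1) m τ
    have key : p * R ok x (k+(j+1)) m τ + q * R ok x (k+(j+1)+1) m τ =
      (p * R ok x (k+j) (m+1) τ + q * R ok x (k+j+1) (m+1) τ) +
        (if (∀ a ∈ τ, ok a m) then x m * (p * R ok x (k+j) (m+1) (insert m τ) +
          q * R ok x (k+j+1) (m+1) (insert m τ)) else 0) := by
      rw [e1, e2]
      split_ifs
      · ring
      · ring
    rw [key]
    have h3 : 0 ≤ (if (∀ a ∈ τ, ok a m) then x m * (p * R ok x (k+j) (m+1) (insert m τ) +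
          q * R ok x (k+j+1) (m+1) (insert m τ)) else 0) := by
      split_ifs
      · exact mul_nonneg (hx m) b1
      · exact le_rfl
    constructor
    · linarith
    · linarith

/-- `Bd k m α β`: the ratio of consecutive partition functions lies in `[α, β]`, for all
histories below `m`. -/
def Bd (k m : ℕ) (α β : ℝ) : Prop := ∀ τ : Finset ℕ, (∀ a ∈ τ, a < m) →
  α * R ok x k m τ ≤ R ok x (k+1) m τ ∧ R ok x (k+1) m τ ≤ β * R ok x k m τ

lemma Bd_base (hx : ∀ i, 0 ≤ x i) (k m : ℕ) : Bd ok x k m 1 (1 + x (m+k)) := by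
  intro τ _
  have := R_last ok x hx k m τ
  rw [one_mul]
  exact this

lemma Bd_prop (hx : ∀ i, 0 ≤ x i) {k j m : ℕ} {α β : ℝ} (h : Bd ok x k (m+j) α β) :
    Bd ok x (k+j) m α β := by
  intro τ hτ
  have h1 := prop_nonneg ok x hx (-α) 1 k j m (fun σ hσ => by linarith [(h σ hσ).1]) τ hτ
  have h2 := prop_nonneg ok x hx β (-1) k j m (fun σ hσ => by linarith [(h σ hσ).2]) τ hτ
  exact ⟨by linarith [h1.1], by linarith [h2.1]⟩

lemma Bd_contract {D : ℕ} (hD : Range ok D) (hx : ∀ i, 0 ≤ x i) (hx1 : ∀ i, x i ≤ 1)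
    {k m : ℕ} {α β : ℝ} (hα : 1 ≤ α) (hαβ : α ≤ β) (h : Bd ok x k (m+D) α β) :
    ∃ α' β', 1 ≤ α' ∧ α' ≤ β' ∧ β' - α' = (1 - (1/2)^D) * (β - α) ∧ Bd ok x (k+D) m α' β' := by
  set δ : ℝ := (1/2)^D with hδ
  have hδ0 : 0 < δ := by positivity
  have hδ1 : δ ≤ 1 := pow_le_one₀ (by norm_num) (by norm_num)
  set γ : ℝ := R ok x (k+1) (m+D) ∅ / R ok x k (m+D) ∅ with hγ
  have hpos := R_pos ok x hx k (m+D) ∅
  have hγ' : R ok x (k+1) (m+D) ∅ = γ * R ok x k (m+D) ∅ := by
    rw [hγ, div_mul_cancel₀ _ hpos.ne']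
  have hb := h ∅ (by simp)
  rw [hγ'] at hb
  have hγα : α ≤ γ := le_of_mul_le_mul_right hb.1 hpos
  have hγβ : γ ≤ β := le_of_mul_le_mul_right hb.2 hpos
  refine ⟨α + (γ - α) * δ, β - (β - γ) * δ, ?_, ?_, by ring, ?_⟩
  · nlinarith [mul_nonneg (sub_nonneg.mpr hγα) hδ0.le]
  · nlinarith [mul_nonneg (sub_nonneg.mpr hαβ) (sub_nonneg.mpr hδ1)]
  intro τ hτ
  have hfar : ∀ a ∈ τ, a + D ≤ m + D := fun a ha => by have := hτ a ha; omega
  have h1 := (prop_nonneg ok x hx (-α) 1 k D m (fun σ hσ => by linarith [(h σ hσ).1]) τ hτ).2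
  have h2 := (prop_nonneg ok x hx β (-1) k D m (fun σ hσ => by linarith [(h σ hσ).2]) τ hτ).2
  rw [R_far ok hD x k (m+D) τ hfar, R_far ok hD x (k+1) (m+D) τ hfar, hγ'] at h1 h2
  have h3 : δ * R ok x (k+D) m τ ≤ R ok x k (m+D) ∅ := by
    have h4 := R_anti ok x hx (k+D) m (empty_subset τ)
    have h5 := R_add_le ok x hx hx1 k D m
    have h6 : R ok x (k+D) m τ ≤ 2^D * R ok x k (m+D) ∅ := h4.trans h5
    have h7 : δ * 2^D = 1 := by
      rw [hδ, ← mul_pow]; norm_num
    calc δ * R ok x (k+D) m τ ≤ δ * (2^D * R ok x k (m+D) ∅) :=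
          mul_le_mul_of_nonneg_left h6 hδ0.le
      _ = (δ * 2^D) * R ok x k (m+D) ∅ := by ring
      _ = _ := by rw [h7, one_mul]
  have h8 := mul_le_mul_of_nonneg_left h3 (sub_nonneg.mpr hγα)
  have h9 := mul_le_mul_of_nonneg_left h3 (sub_nonneg.mpr hγβ)
  constructor
  · nlinarith
  · nlinarith

lemma Bd_iter {D : ℕ} (hD : Range ok D) (hx : ∀ i, 0 ≤ x i) (hx1 : ∀ i, x i ≤ 1)
    (j k m : ℕ) : ∃ α β, 1 ≤ α ∧ α ≤ β ∧ β - α = (1 - (1/2)^D)^j * x (m + j*D + k) ∧
      Bd ok x (k + j*D) m α β := by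
  induction j generalizing m with
  | zero =>
    refine ⟨1, 1 + x (m+k), le_rfl, by linarith [hx (m+k)], by simp, ?_⟩
    simpa using Bd_base ok x hx k m
  | succ j ih =>
    obtain ⟨α, β, h1, h2, h3, h4⟩ := ih (m+D)
    obtain ⟨α', β', g1, g2, g3, g4⟩ := Bd_contract ok x hD hx hx1 h1 h2 h4
    refine ⟨α', β', g1, g2, ?_, ?_⟩
    · rw [g3, h3]
      have : m + D + j * D + k = m + (j+1) * D + k := by ring
      rw [this]; ring
    · have : k + j * D + D = k + (j+1)*D := by ring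
      rw [← this]; exact g4

lemma abs_log_sub_le {α β p q : ℝ} (hα : 1 ≤ α) (hp : α ≤ p) (hp' : p ≤ β) (hq : α ≤ q)
    (hq' : q ≤ β) : |Real.log p - Real.log q| ≤ β - α := by
  have key : ∀ p q : ℝ, α ≤ p → p ≤ β → α ≤ q → q ≤ β → Real.log p - Real.log q ≤ β - α := by
    intro p q hp hp' hq hq'
    have hq0 : 0 < q := by linarith
    have hp0 : 0 < p := by linarith
    rw [← Real.log_div hp0.ne' hq0.ne']
    have h1 := Real.log_le_sub_one_of_pos (div_pos hp0 hq0)
    have h2 : p / q - 1 ≤ β - α := by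
      rw [div_sub_one hq0.ne', div_le_iff₀ hq0]
      nlinarith
    linarith
  rw [abs_le]
  constructor
  · have := key q p hq hq' hp hp'
    linarith
  · exact key p q hp hp' hq hq'

/-- forgetting estimate, block form -/
lemma forget_block {D : ℕ} (hD : Range ok D) (hx : ∀ i, 0 ≤ x i) (hx1 : ∀ i, x i ≤ 1)
    (L j k : ℕ) :
    |(Real.log (R ok x (L + (k + j*D) + 1) 0 ∅) - Real.log (R ok x (L + (k+j*D)) 0 ∅)) -
      (Real.log (R ok x (k + j*D + 1) L ∅) - Real.log (R ok x (k + j*D) L ∅))| ≤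
      (1 - (1/2)^D)^j * x (L + j*D + k) := by
  obtain ⟨α, β, h1, h2, h3, h4⟩ := Bd_iter ok x hD hx hx1 j k L
  have h4' : Bd ok x (k + j*D) (0 + L) α β := by rwa [zero_add]
  have h5 := Bd_prop ok x hx h4'
  have e1 : k + j * D + L = L + (k + j*D) := by ring
  rw [e1] at h5
  have p1 := R_pos ok x hx (L + (k + j*D)) 0 ∅
  have p1' := R_pos ok x hx (L + (k + j*D) + 1) 0 ∅
  have p2 := R_pos ok x hx (k + j*D) L ∅
  have p2' := R_pos ok x hx (k + j*D + 1) L ∅
  rw [← Real.log_div p1'.ne' p1.ne', ← Real.log_div p2'.ne' p2.ne', ← h3]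
  obtain ⟨a1, a2⟩ := h4 ∅ (by simp)
  obtain ⟨b1, b2⟩ := h5 ∅ (by simp)
  apply abs_log_sub_le h1
  · rwa [le_div_iff₀ p1]
  · rwa [div_le_iff₀ p1]
  · rwa [le_div_iff₀ p2]
  · rwa [div_le_iff₀ p2]

/-- forgetting estimate with an exponential rate -/
lemma forget {D : ℕ} (hD : Range ok D) (hD1 : 1 ≤ D) (L : ℕ) :
    ∃ θ K : ℝ, 0 < θ ∧ θ < 1 ∧ 0 < K ∧ ∀ (x : ℕ → ℝ), (∀ i, 0 ≤ x i) → (∀ i, x i ≤ 1) → ∀ N, L ≤ N →
      |(Real.log (R ok x (N + 1) 0 ∅) - Real.log (R ok x N 0 ∅)) -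
      (Real.log (R ok x (N + 1 - L) L ∅) - Real.log (R ok x (N - L) L ∅))| ≤ K * θ^N * x N := by
  set ρ : ℝ := 1 - (1/2)^D with hρ
  have hδ0 : (0:ℝ) < (1/2)^D := by positivity
  have hδ1 : (1/2:ℝ)^D ≤ 1/2 := by
    calc (1/2:ℝ)^D ≤ (1/2)^1 := pow_le_pow_of_le_one (by norm_num) (by norm_num) hD1
      _ = 1/2 := by norm_num
  have hρ0 : 0 < ρ := by rw [hρ]; linarith
  have hρ1 : ρ < 1 := by rw [hρ]; linarith
  set θ : ℝ := ρ ^ ((1:ℝ)/D) with hθ
  have hDpos : (0:ℝ) < D := by exact_mod_cast hD1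
  have hθ0 : 0 < θ := Real.rpow_pos_of_pos hρ0 _
  have hθ1 : θ < 1 := Real.rpow_lt_one hρ0.le hρ1 (by positivity)
  have hθD : θ^D = ρ := by
    rw [hθ, ← Real.rpow_natCast, ← Real.rpow_mul hρ0.le, one_div, inv_mul_cancel₀ hDpos.ne',
      Real.rpow_one]
  refine ⟨θ, (θ^(L+D))⁻¹, hθ0, hθ1, by positivity, ?_⟩
  intro x hx hx1 N hN
  set n := N - L with hn
  have e1 : n % D + (n / D) * D = n := by
    rw [mul_comm]; exact Nat.mod_add_div n D
  have h := forget_block ok x hD hx hx1 L (n / D) (n % D)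
  rw [e1] at h
  have e2 : L + n = N := by omega
  have e3 : N + 1 - L = n + 1 := by omega
  have e4 : L + n / D * D + n % D = N := by omega
  rw [e2, e4] at h
  rw [e3]
  refine h.trans ?_
  apply mul_le_mul_of_nonneg_right _ (hx N)
  rw [← hρ, ← hθD, ← pow_mul]
  have h5 : N ≤ D * (n / D) + (L + D) := by
    have := Nat.mod_lt n (by omega : 0 < D)
    have h6 : D * (n/D) = n / D * D := mul_comm _ _
    omega
  have h6 : θ^(D * (n/D) + (L+D)) ≤ θ^N := pow_le_pow_of_le_one hθ0.le hθ1.le h5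
  rw [pow_add] at h6
  rw [inv_mul_eq_div, le_div_iff₀ (by positivity)]
  exact h6

/-- lower bound: free sites every `D` steps -/
lemma R_free {D : ℕ} (hD : Range ok D) (hD1 : 1 ≤ D) (hx : ∀ i, 0 ≤ x i) (k m : ℕ) :
    (1 + x m) * R ok x k (m+D) ∅ ≤ R ok x (k+D) m ∅ := by
  obtain ⟨d, rfl⟩ : ∃ d, D = d + 1 := ⟨D - 1, by omega⟩
  have e : R ok x (k + (d+1)) m ∅ = R ok x (k+d) (m+1) ∅ + x m * R ok x (k+d) (m+1) {m} := by
    have := R_succ ok x (k+d) m ∅
    rw [← add_assoc, this]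
    simp
  rw [e, add_mul, one_mul]
  have e2 : m + (d+1) = (m+1) + d := by ring
  have h1 := R_add_ge ok x hx k d (m+1) ∅
  have h2 := R_add_ge ok x hx k d (m+1) {m}
  have h3 : R ok x k (m+1+d) {m} = R ok x k (m+1+d) ∅ := R_far ok hD x k (m+1+d) {m} (by
    intro a ha
    rw [mem_singleton] at ha
    omega)
  rw [h3] at h2
  rw [e2]
  have h4 := mul_le_mul_of_nonneg_left h2 (hx m)
  linarith

end real

end Pool.Agent.Helper59.HC
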