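import Mathlib
import Pool.Agent.Helper59.HC1

set_option autoImplicit false

/-! Log-sum-exp bounds. -/

namespace Pool.Agent.Helper59.HC

open Finset

section lse

variable {ι : Type*} (s : Finset ι) (c b : ι → ℝ)

/-- weighted sum -/
noncomputable def SE (g : ι → ℝ) (σ : ℝ) : ℝ := ∑ i ∈ s, g i * Real.exp (-(c i + σ * b i))

/-- expectation -/
noncomputable def EE (g : ι → ℝ) (σ : ℝ) : ℝ := SE s c b g σ / SE s c b (fun _ => 1) σ

lemma SE_one_pos (hs : s.Nonempty) (σ : ℝ) : 0 < SE s c b (fun _ => 1) σ := by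
  unfold SE
  apply sum_pos _ hs
  intro i _
  positivity

lemma SE_deriv (g : ι → ℝ) (σ : ℝ) :
    HasDerivAt (SE s c b g) (-(SE s c b (fun i => g i * b i) σ)) σ := by
  have h : ∀ i ∈ s, HasDerivAt (fun σ => g i * Real.exp (-(c i + σ * b i)))
      (-(g i * b i * Real.exp (-(c i + σ * b i)))) σ := by
    intro i _
    have h0 : HasDerivAt (fun σ : ℝ => c i + σ * b i) (b i) σ := by
      simpa using ((hasDerivAt_id σ).mul_const (b i)).const_add (c i)
    have h1 : HasDerivAt (fun σ : ℝ => -(c i + σ * b i)) (-(b i)) σ := h0.neg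
    have h2 := (h1.exp).const_mul (g i)
    exact h2.congr_deriv (by ring)
  have h2 := HasDerivAt.fun_sum h
  have h3 : SE s c b g = fun σ => ∑ i ∈ s, g i * Real.exp (-(c i + σ * b i)) := by
    funext σ; rfl
  rw [h3]
  exact h2.congr_deriv (by unfold SE; rw [sum_neg_distrib])

lemma log_deriv (hs : s.Nonempty) (σ : ℝ) :
    HasDerivAt (fun σ => Real.log (SE s c b (fun _ => 1) σ)) (-(EE s c b b σ)) σ := by
  have h1 := (SE_deriv s c b (fun _ => 1) σ).log (SE_one_pos s c b hs σ).ne'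
  refine h1.congr_deriv ?_
  unfold EE
  rw [neg_div]
  simp only [one_mul]

lemma EE_deriv (hs : s.Nonempty) (g : ι → ℝ) (σ : ℝ) :
    HasDerivAt (EE s c b g) (-(EE s c b (fun i => g i * b i) σ - EE s c b g σ * EE s c b b σ)) σ := by
  have hp := SE_one_pos s c b hs σ
  have h1 := (SE_deriv s c b g σ).div (SE_deriv s c b (fun _ => 1) σ) hp.ne'
  have h3 : EE s c b g = fun σ => SE s c b g σ / SE s c b (fun _ => 1) σ := by
    funext σ; rfl
  rw [h3]
  refine h1.congr_deriv ?_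
  unfold EE
  simp only [one_mul]
  field_simp
  ring

lemma SE_mono {g g' : ι → ℝ} (h : ∀ i ∈ s, g i ≤ g' i) (σ : ℝ) : SE s c b g σ ≤ SE s c b g' σ := by
  unfold SE
  apply sum_le_sum
  intro i hi
  exact mul_le_mul_of_nonneg_right (h i hi) (Real.exp_pos _).le

lemma EE_mono (hs : s.Nonempty) {g g' : ι → ℝ} (h : ∀ i ∈ s, g i ≤ g' i) (σ : ℝ) :
    EE s c b g σ ≤ EE s c b g' σ := by
  unfold EE
  exact div_le_div_of_nonneg_right (SE_mono s c b h σ) (SE_one_pos s c b hs σ).le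

lemma EE_nonneg (hs : s.Nonempty) {g : ι → ℝ} (h : ∀ i ∈ s, 0 ≤ g i) (σ : ℝ) :
    0 ≤ EE s c b g σ := by
  unfold EE
  apply div_nonneg _ (SE_one_pos s c b hs σ).le
  unfold SE
  apply sum_nonneg
  intro i hi
  exact mul_nonneg (h i hi) (Real.exp_pos _).le

lemma EE_const_mul (A : ℝ) (g : ι → ℝ) (σ : ℝ) :
    EE s c b (fun i => A * g i) σ = A * EE s c b g σ := by
  unfold EE SE
  rw [← mul_div_assoc, mul_sum]
  congr 1
  apply sum_congr rfl
  intro i _
  ring

lemma EE_one (hs : s.Nonempty) (σ : ℝ) : EE s c b (fun _ => 1) σ = 1 := by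
  unfold EE
  exact div_self (SE_one_pos s c b hs σ).ne'

/-- covariance bound -/
lemma cov_bound (hs : s.Nonempty) {g : ι → ℝ} {A : ℝ} (hg : ∀ i ∈ s, 0 ≤ g i)
    (hgA : ∀ i ∈ s, g i ≤ A) (hb : ∀ i ∈ s, 0 ≤ b i) (σ : ℝ) :
    |-(EE s c b (fun i => g i * b i) σ - EE s c b g σ * EE s c b b σ)| ≤ A * EE s c b b σ := by
  have h1 : EE s c b (fun i => g i * b i) σ ≤ A * EE s c b b σ := by
    rw [← EE_const_mul]
    exact EE_mono s c b hs (fun i hi => mul_le_mul_of_nonneg_right (hgA i hi) (hb i hi)) σ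
  have h2 : 0 ≤ EE s c b (fun i => g i * b i) σ :=
    EE_nonneg s c b hs (fun i hi => mul_nonneg (hg i hi) (hb i hi)) σ
  have h3 : EE s c b g σ ≤ A := by
    have := EE_mono s c b hs (g := g) (g' := fun _ => A * 1) (fun i hi => by
      rw [mul_one]; exact hgA i hi) σ
    rw [EE_const_mul, EE_one s c b hs, mul_one] at this
    exact this
  have h4 : 0 ≤ EE s c b g σ := EE_nonneg s c b hs hg σ
  have h5 : 0 ≤ EE s c b b σ := EE_nonneg s c b hs hb σ
  have h6 : EE s c b g σ * EE s c b b σ ≤ A * EE s c b b σ := mul_le_mul_of_nonneg_right h3 h5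
  have h7 : 0 ≤ EE s c b g σ * EE s c b b σ := mul_nonneg h4 h5
  rw [abs_neg, abs_le]
  constructor <;> linarith

end lse

section model

open scoped Classical

variable (ok : ℕ → ℕ → Prop)

/-- the admissible sets of sites below `N` -/
noncomputable def Adm (N : ℕ) : Finset (Finset ℕ) :=
  (range N).powerset.filter (fun S => ∀ a ∈ S, ∀ c ∈ S, a < c → ok a c)

lemma Adm_nonempty (N : ℕ) : (Adm ok N).Nonempty := by
  refine ⟨∅, ?_⟩
  simp [Adm]

lemma Adm_erase {N : ℕ} {S : Finset ℕ} (hS : S ∈ Adm ok N) (i : ℕ) : S.erase i ∈ Adm ok N := by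
  unfold Adm at *
  rw [mem_filter, mem_powerset] at *
  refine ⟨(erase_subset _ _).trans hS.1, ?_⟩
  intro a ha c hc
  exact hS.2 a (mem_of_mem_erase ha) c (mem_of_mem_erase hc)

lemma R_eq_Adm {𝕜 : Type*} [CommSemiring 𝕜] (x : ℕ → 𝕜) (N : ℕ) :
    R ok x N 0 ∅ = ∑ S ∈ Adm ok N, ∏ i ∈ S, x i := by
  rw [R_eq_sum, Adm, sum_filter]
  have : Ico 0 (0 + N) = range N := by rw [zero_add, range_eq_Ico]
  rw [this]
  apply sum_congr rfl
  intro S _
  have : Comp ok ∅ S ↔ ∀ a ∈ S, ∀ c ∈ S, a < c → ok a c := by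
    simp [Comp]
  by_cases h : Comp ok ∅ S
  · rw [if_pos h, if_pos (this.mp h)]
  · rw [if_neg h, if_neg (fun h' => h (this.mpr h'))]

/-- weights -/
noncomputable def wt (u t : ℝ) (i : ℕ) : ℝ := Real.exp (-(u + i * t))

/-- logarithm of the partition function -/
noncomputable def X (N : ℕ) (u t : ℝ) : ℝ := Real.log (R ok (wt u t) N 0 ∅)

/-- number of sites -/
def cd (S : Finset ℕ) : ℝ := S.card
/-- sum of sites -/
def sm (S : Finset ℕ) : ℝ := ∑ i ∈ S, (i : ℝ)

lemma prod_wt (u t : ℝ) (S : Finset ℕ) :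
    ∏ i ∈ S, wt u t i = Real.exp (-(u * cd S + t * sm S)) := by
  unfold wt cd sm
  rw [← Real.exp_sum]
  congr 1
  rw [sum_neg_distrib, sum_add_distrib, sum_const, nsmul_eq_mul, mul_comm u, mul_comm t, sum_mul]

lemma R_wt (N : ℕ) (u t : ℝ) :
    R ok (wt u t) N 0 ∅ = ∑ S ∈ Adm ok N, Real.exp (-(u * cd S + t * sm S)) := by
  rw [R_eq_Adm]
  exact sum_congr rfl (fun S _ => prod_wt u t S)

lemma wt_nonneg (u t : ℝ) (i : ℕ) : 0 ≤ wt u t i := (Real.exp_pos _).le

lemma wt_le {u t : ℝ} (ht : 0 ≤ t) (i : ℕ) : wt u t i ≤ Real.exp (-u) := by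
  unfold wt
  apply Real.exp_le_exp.mpr
  have : (0:ℝ) ≤ i * t := by positivity
  linarith

lemma wt_le_one {u t : ℝ} (hu : 0 ≤ u) (ht : 0 ≤ t) (i : ℕ) : wt u t i ≤ 1 :=
  (wt_le ht i).trans (Real.exp_le_one_iff.mpr (by linarith))

/-- X as a function of t with u fixed -/
lemma X_t (N : ℕ) (u : ℝ) : (fun t => X ok N u t) =
    fun t => Real.log (SE (Adm ok N) (fun S => u * cd S) sm (fun _ => 1) t) := by
  funext t
  unfold X SE
  rw [R_wt]
  simp only [one_mul]

/-- X as a function of u with t fixed -/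
lemma X_u (N : ℕ) (t : ℝ) : (fun u => X ok N u t) =
    fun u => Real.log (SE (Adm ok N) (fun S => t * sm S) cd (fun _ => 1) u) := by
  funext u
  unfold X SE
  rw [R_wt]
  congr 1
  apply sum_congr rfl
  intro S _
  rw [one_mul]
  congr 1
  ring

/-- expectation under the weights -/
noncomputable def Ex (N : ℕ) (g : Finset ℕ → ℝ) (u t : ℝ) : ℝ :=
  (∑ S ∈ Adm ok N, g S * Real.exp (-(u * cd S + t * sm S))) /
    ∑ S ∈ Adm ok N, Real.exp (-(u * cd S + t * sm S))

lemma Ex_t (N : ℕ) (g : Finset ℕ → ℝ) (u t : ℝ) :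
    Ex ok N g u t = EE (Adm ok N) (fun S => u * cd S) sm g t := by
  unfold Ex EE SE
  simp only [one_mul]

lemma Ex_u (N : ℕ) (g : Finset ℕ → ℝ) (u t : ℝ) :
    Ex ok N g u t = EE (Adm ok N) (fun S => t * sm S) cd g u := by
  unfold Ex EE SE
  simp only [one_mul]
  congr 1
  · apply sum_congr rfl
    intro S _
    congr 2
    ring
  · apply sum_congr rfl
    intro S _
    congr 1
    ring

lemma sum_mem_le (N : ℕ) (u t : ℝ) (i : ℕ) :
    ∑ S ∈ Adm ok N, (if i ∈ S then Real.exp (-(u * cd S + t * sm S)) else 0) ≤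
      wt u t i * ∑ S ∈ Adm ok N, Real.exp (-(u * cd S + t * sm S)) := by
  rw [← sum_filter]
  have h1 : ∀ S ∈ (Adm ok N).filter (fun S => i ∈ S), Real.exp (-(u * cd S + t * sm S)) =
      wt u t i * Real.exp (-(u * cd (S.erase i) + t * sm (S.erase i))) := by
    intro S hS
    rw [mem_filter] at hS
    rw [← prod_wt, ← prod_wt, mul_prod_erase _ _ hS.2]
  rw [sum_congr rfl h1, ← mul_sum]
  apply mul_le_mul_of_nonneg_left _ (wt_nonneg u t i)
  have hinj : Set.InjOn (fun S : Finset ℕ => S.erase i)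
      ((Adm ok N).filter (fun S => i ∈ S) : Finset (Finset ℕ)) := by
    intro S hS T hT h
    simp only [coe_filter, Set.mem_ofPred_eq] at hS hT
    simp only at h
    rw [← insert_erase hS.2, h, insert_erase hT.2]
  rw [← sum_image (f := fun S => Real.exp (-(u * cd S + t * sm S))) hinj]
  apply sum_le_sum_of_subset_of_nonneg
  · intro S hS
    obtain ⟨T, hT, rfl⟩ := mem_image.mp hS
    exact Adm_erase ok (mem_filter.mp hT).1 i
  · intro S _ _
    exact (Real.exp_pos _).le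

lemma Ex_site (N : ℕ) (g : ℕ → ℝ) (hg : ∀ i, 0 ≤ g i) (u t : ℝ) :
    Ex ok N (fun S => ∑ i ∈ S, g i) u t ≤ ∑ i ∈ range N, g i * wt u t i := by
  unfold Ex
  have hpos : 0 < ∑ S ∈ Adm ok N, Real.exp (-(u * cd S + t * sm S)) :=
    sum_pos (fun _ _ => Real.exp_pos _) (Adm_nonempty ok N)
  rw [div_le_iff₀ hpos]
  have h1 : ∑ S ∈ Adm ok N, (∑ i ∈ S, g i) * Real.exp (-(u * cd S + t * sm S)) =
      ∑ i ∈ range N, g i * ∑ S ∈ Adm ok N, (if i ∈ S then Real.exp (-(u * cd S + t * sm S)) else 0) := by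
    simp only [mul_sum]
    rw [sum_comm]
    apply sum_congr rfl
    intro S hS
    have hsub : S ⊆ range N := mem_powerset.mp (mem_filter.mp hS).1
    rw [sum_mul]
    have h2 : ∀ i ∈ range N, g i * (if i ∈ S then Real.exp (-(u * cd S + t * sm S)) else 0) =
      if i ∈ S then g i * Real.exp (-(u * cd S + t * sm S)) else 0 := by
      intro i _
      split_ifs <;> simp
    rw [sum_congr rfl h2, ← sum_filter]
    apply sum_congr _ (fun _ _ => rfl)
    ext i
    simp only [mem_filter, mem_range]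
    constructor
    · intro h; exact ⟨mem_range.mp (hsub h), h⟩
    · exact fun h => h.2
  rw [h1, sum_mul]
  apply sum_le_sum
  intro i _
  rw [mul_assoc]
  exact mul_le_mul_of_nonneg_left (sum_mem_le ok N u t i) (hg i)

lemma Ex_cd_le (N : ℕ) {u t : ℝ} (ht : 0 ≤ t) : Ex ok N cd u t ≤ N * Real.exp (-u) := by
  have h := Ex_site ok N (fun _ => 1) (fun _ => zero_le_one) u t
  have e : (fun S : Finset ℕ => ∑ i ∈ S, (1:ℝ)) = cd := by
    funext S; simp [cd]
  rw [e] at h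
  refine h.trans ?_
  calc ∑ i ∈ range N, 1 * wt u t i ≤ ∑ i ∈ range N, Real.exp (-u) := by
        apply sum_le_sum; intro i _; rw [one_mul]; exact wt_le ht i
    _ = N * Real.exp (-u) := by simp

lemma Ex_sm_le (N : ℕ) {u t : ℝ} (ht : 0 ≤ t) : Ex ok N sm u t ≤ N^2 * Real.exp (-u) := by
  have h := Ex_site ok N (fun i => (i:ℝ)) (fun i => Nat.cast_nonneg i) u t
  refine h.trans ?_
  calc ∑ i ∈ range N, (i:ℝ) * wt u t i ≤ ∑ i ∈ range N, (N:ℝ) * Real.exp (-u) := by
        apply sum_le_sum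
        intro i hi
        have : (i:ℝ) ≤ N := by exact_mod_cast (mem_range.mp hi).le
        apply mul_le_mul this (wt_le ht i) (wt_nonneg _ _ _) (by positivity)
    _ = N^2 * Real.exp (-u) := by simp; ring

lemma cd_le {N : ℕ} {S : Finset ℕ} (hS : S ∈ Adm ok N) : cd S ≤ N := by
  have hsub : S ⊆ range N := mem_powerset.mp (mem_filter.mp hS).1
  have := card_le_card hsub
  rw [card_range] at this
  unfold cd
  exact_mod_cast this

lemma sm_le {N : ℕ} {S : Finset ℕ} (hS : S ∈ Adm ok N) : sm S ≤ N^2 := by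
  have hsub : S ⊆ range N := mem_powerset.mp (mem_filter.mp hS).1
  unfold sm
  calc ∑ i ∈ S, (i:ℝ) ≤ ∑ i ∈ range N, (i:ℝ) :=
        sum_le_sum_of_subset_of_nonneg hsub (fun _ _ _ => Nat.cast_nonneg _)
    _ ≤ ∑ i ∈ range N, (N:ℝ) := by
        apply sum_le_sum; intro i hi; exact_mod_cast (mem_range.mp hi).le
    _ = N^2 := by simp; ring

lemma cd_nonneg (S : Finset ℕ) : 0 ≤ cd S := Nat.cast_nonneg _
lemma sm_nonneg (S : Finset ℕ) : 0 ≤ sm S := sum_nonneg (fun _ _ => Nat.cast_nonneg _)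

lemma X_deriv_t (N : ℕ) (u t : ℝ) : HasDerivAt (fun t => X ok N u t) (-(Ex ok N sm u t)) t := by
  rw [X_t, Ex_t]
  exact log_deriv _ _ _ (Adm_nonempty ok N) t

lemma X_deriv_u (N : ℕ) (u t : ℝ) : HasDerivAt (fun u => X ok N u t) (-(Ex ok N cd u t)) u := by
  rw [X_u, Ex_u]
  exact log_deriv _ _ _ (Adm_nonempty ok N) u

/-- Lipschitz bound from a derivative bound, decreasing exponential weight -/
lemma lip_of_deriv {φ φ' : ℝ → ℝ} {K : ℝ} (hK : 0 ≤ K) (hd : ∀ v, HasDerivAt φ (φ' v) v)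
    (hb : ∀ v, 0 ≤ v → |φ' v| ≤ K * Real.exp (-v)) {a b : ℝ} (ha : 0 ≤ a) (hab : a ≤ b) :
    |φ b - φ a| ≤ K * Real.exp (-a) * (b - a) := by
  have h := (convex_Icc a b).norm_image_sub_le_of_norm_hasDerivWithin_le (f := φ) (f' := φ')
    (C := K * Real.exp (-a)) (fun v _ => (hd v).hasDerivWithinAt) (fun v hv => by
      rw [Real.norm_eq_abs]
      refine (hb v (ha.trans hv.1)).trans ?_
      apply mul_le_mul_of_nonneg_left _ hK
      exact Real.exp_le_exp.mpr (by linarith [hv.1])) (Set.left_mem_Icc.mpr hab)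
      (Set.right_mem_Icc.mpr hab)
  rw [Real.norm_eq_abs, Real.norm_eq_abs, abs_of_nonneg (by linarith : 0 ≤ b - a)] at h
  exact h

/-- E(card) is Lipschitz in u -/
lemma Ex_cd_lip (N : ℕ) {t : ℝ} (ht : 0 ≤ t) {a b : ℝ} (ha : 0 ≤ a) (hab : a ≤ b) :
    |Ex ok N cd b t - Ex ok N cd a t| ≤ (N:ℝ)^2 * Real.exp (-a) * (b - a) := by
  have hd : ∀ v, HasDerivAt (fun u => Ex ok N cd u t)
      (-(EE (Adm ok N) (fun S => t * sm S) cd (fun i => cd i * cd i) v -
        EE (Adm ok N) (fun S => t * sm S) cd cd v * EE (Adm ok N) (fun S => t * sm S) cd cd v)) v := by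
    intro v
    have : (fun u => Ex ok N cd u t) = EE (Adm ok N) (fun S => t * sm S) cd cd := by
      funext u; exact Ex_u ok N cd u t
    rw [this]
    exact EE_deriv _ _ _ (Adm_nonempty ok N) cd v
  apply lip_of_deriv (by positivity) hd _ ha hab
  intro v hv
  refine (cov_bound (Adm ok N) (fun S => t * sm S) cd (Adm_nonempty ok N) (A := N)
    (fun S _ => cd_nonneg S) (fun S hS => cd_le ok hS) (fun S _ => cd_nonneg S) v).trans ?_
  rw [← Ex_u]
  have := Ex_cd_le ok N (u := v) ht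
  calc (N:ℝ) * Ex ok N cd v t ≤ N * (N * Real.exp (-v)) :=
        mul_le_mul_of_nonneg_left this (Nat.cast_nonneg _)
    _ = _ := by ring

/-- E(sum) is Lipschitz in u -/
lemma Ex_sm_lip_u (N : ℕ) {t : ℝ} (ht : 0 ≤ t) {a b : ℝ} (ha : 0 ≤ a) (hab : a ≤ b) :
    |Ex ok N sm b t - Ex ok N sm a t| ≤ (N:ℝ)^3 * Real.exp (-a) * (b - a) := by
  have hd : ∀ v, HasDerivAt (fun u => Ex ok N sm u t)
      (-(EE (Adm ok N) (fun S => t * sm S) cd (fun i => sm i * cd i) v -
        EE (Adm ok N) (fun S => t * sm S) cd sm v * EE (Adm ok N) (fun S => t * sm S) cd cd v)) v := by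
    intro v
    have : (fun u => Ex ok N sm u t) = EE (Adm ok N) (fun S => t * sm S) cd sm := by
      funext u; exact Ex_u ok N sm u t
    rw [this]
    exact EE_deriv _ _ _ (Adm_nonempty ok N) sm v
  apply lip_of_deriv (by positivity) hd _ ha hab
  intro v hv
  refine (cov_bound (Adm ok N) (fun S => t * sm S) cd (Adm_nonempty ok N) (A := (N:ℝ)^2)
    (fun S _ => sm_nonneg S) (fun S hS => sm_le ok hS) (fun S _ => cd_nonneg S) v).trans ?_
  rw [← Ex_u]
  have := Ex_cd_le ok N (u := v) ht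
  calc (N:ℝ)^2 * Ex ok N cd v t ≤ N^2 * (N * Real.exp (-v)) :=
        mul_le_mul_of_nonneg_left this (by positivity)
    _ = _ := by ring

/-- first order expansion of X in t -/
lemma X_taylor_t (N : ℕ) {u t : ℝ} (ht : 0 ≤ t) :
    |X ok N u t - X ok N u 0 - t * (-(Ex ok N sm u 0))| ≤ (N:ℝ)^4 * Real.exp (-u) * t^2 := by
  -- Lipschitz bound of E(sum) in t
  have hd : ∀ v, HasDerivAt (fun s => Ex ok N sm u s)
      (-(EE (Adm ok N) (fun S => u * cd S) sm (fun i => sm i * sm i) v -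
        EE (Adm ok N) (fun S => u * cd S) sm sm v * EE (Adm ok N) (fun S => u * cd S) sm sm v)) v := by
    intro v
    have : (fun s => Ex ok N sm u s) = EE (Adm ok N) (fun S => u * cd S) sm sm := by
      funext s; exact Ex_t ok N sm u s
    rw [this]
    exact EE_deriv _ _ _ (Adm_nonempty ok N) sm v
  have hlip : ∀ s ∈ Set.Icc 0 t, |Ex ok N sm u s - Ex ok N sm u 0| ≤ (N:ℝ)^4 * Real.exp (-u) * t := by
    intro s hs
    have h := (convex_Icc 0 t).norm_image_sub_le_of_norm_hasDerivWithin_le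
      (f := fun s => Ex ok N sm u s) (C := (N:ℝ)^4 * Real.exp (-u))
      (fun v _ => (hd v).hasDerivWithinAt) (fun v hv => by
        rw [Real.norm_eq_abs]
        refine (cov_bound (Adm ok N) (fun S => u * cd S) sm (Adm_nonempty ok N) (A := (N:ℝ)^2)
          (fun S _ => sm_nonneg S) (fun S hS => sm_le ok hS) (fun S _ => sm_nonneg S) v).trans ?_
        rw [← Ex_t]
        have := Ex_sm_le ok N (u := u) hv.1
        calc (N:ℝ)^2 * Ex ok N sm u v ≤ N^2 * (N^2 * Real.exp (-u)) :=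
              mul_le_mul_of_nonneg_left this (by positivity)
          _ = _ := by ring) (Set.left_mem_Icc.mpr ht) hs
    rw [Real.norm_eq_abs, Real.norm_eq_abs, sub_zero, abs_of_nonneg hs.1] at h
    refine h.trans ?_
    exact mul_le_mul_of_nonneg_left hs.2 (by positivity)
  have hd2 : ∀ v, HasDerivAt (fun s => X ok N u s + s * Ex ok N sm u 0)
      (-(Ex ok N sm u v) + Ex ok N sm u 0) v := by
    intro v
    have h1 := X_deriv_t ok N u v
    have h2 : HasDerivAt (fun s : ℝ => s * Ex ok N sm u 0) (Ex ok N sm u 0) v := by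
      simpa using (hasDerivAt_id v).mul_const (Ex ok N sm u 0)
    exact h1.add h2
  have h := (convex_Icc 0 t).norm_image_sub_le_of_norm_hasDerivWithin_le
      (f := fun s => X ok N u s + s * Ex ok N sm u 0) (C := (N:ℝ)^4 * Real.exp (-u) * t)
      (fun v _ => (hd2 v).hasDerivWithinAt) (fun v hv => by
        rw [Real.norm_eq_abs, neg_add_eq_sub, abs_sub_comm]
        exact hlip v hv) (Set.left_mem_Icc.mpr ht) (Set.right_mem_Icc.mpr ht)
  rw [Real.norm_eq_abs, Real.norm_eq_abs, sub_zero, abs_of_nonneg ht] at h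
  have e : X ok N u t - X ok N u 0 - t * (-(Ex ok N sm u 0)) =
    X ok N u t + t * Ex ok N sm u 0 - (X ok N u 0 + 0 * Ex ok N sm u 0) := by ring
  rw [e]
  refine h.trans (le_of_eq ?_)
  ring

/-- bounds on X -/
lemma X_nonneg (N : ℕ) (u t : ℝ) : 0 ≤ X ok N u t :=
  Real.log_nonneg (one_le_R ok _ (wt_nonneg u t) _ _ _)

lemma X_mono (N : ℕ) (u t : ℝ) : X ok N u t ≤ X ok (N+1) u t :=
  Real.log_le_log (R_pos ok _ (wt_nonneg u t) _ _ _) (R_last ok _ (wt_nonneg u t) N 0 ∅).1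

lemma X_succ_le (N : ℕ) (u t : ℝ) : X ok (N+1) u t ≤ X ok N u t + wt u t N := by
  unfold X
  have h := (R_last ok _ (wt_nonneg u t) N 0 ∅).2
  have hp := R_pos ok _ (wt_nonneg u t) N 0 ∅
  have hp' := R_pos ok _ (wt_nonneg u t) (N+1) 0 ∅
  rw [zero_add] at h
  have h1 := Real.log_le_log hp' h
  rw [Real.log_mul (by linarith [wt_nonneg u t N]) hp.ne'] at h1
  have h2 := Real.log_le_sub_one_of_pos (x := 1 + wt u t N) (by linarith [wt_nonneg u t N])
  linarith

lemma X_le_sum (N : ℕ) (u t : ℝ) : X ok N u t ≤ ∑ i ∈ range N, wt u t i := by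
  induction N with
  | zero => simp [X, R]
  | succ N ih =>
    rw [sum_range_succ]
    linarith [X_succ_le ok N u t]

lemma X_le (N : ℕ) {u t : ℝ} (ht : 0 ≤ t) : X ok N u t ≤ N * Real.exp (-u) := by
  refine (X_le_sum ok N u t).trans ?_
  calc ∑ i ∈ range N, wt u t i ≤ ∑ i ∈ range N, Real.exp (-u) :=
        sum_le_sum (fun i _ => wt_le ht i)
    _ = _ := by simp

lemma X_le' (N : ℕ) {u t : ℝ} (ht : 0 < t) :
    X ok N u t ≤ Real.exp (-u) / (1 - Real.exp (-t)) := by
  refine (X_le_sum ok N u t).trans ?_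
  have h1 : Real.exp (-t) < 1 := Real.exp_lt_one_iff.mpr (by linarith)
  have h2 : ∀ i ∈ range N, wt u t i = Real.exp (-u) * (Real.exp (-t))^i := by
    intro i _
    unfold wt
    rw [← Real.exp_nat_mul, ← Real.exp_add]
    congr 1; ring
  rw [sum_congr rfl h2, ← mul_sum, div_eq_mul_inv]
  apply mul_le_mul_of_nonneg_left _ (Real.exp_pos _).le
  have h3 := geom_sum_eq h1.ne N
  have h4 : ∑ i ∈ range N, Real.exp (-t)^i = (1 - Real.exp (-t)^N) / (1 - Real.exp (-t)) := by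
    rw [h3, ← neg_sub (Real.exp (-t)) 1, ← neg_sub ((Real.exp (-t))^N) 1, neg_div_neg_eq]
  rw [h4, ← one_div]
  apply div_le_div_of_nonneg_right _ (by linarith)
  have : 0 ≤ Real.exp (-t)^N := by positivity
  linarith

/-- forgetting estimate in terms of X -/
lemma X_forget {D M : ℕ} (hD : Range ok D) (hD1 : 1 ≤ D) (hM : Per ok M) :
    ∃ θ K : ℝ, 0 < θ ∧ θ < 1 ∧ 0 < K ∧ ∀ u t : ℝ, 0 ≤ u → 0 ≤ t → ∀ N, M ≤ N →
      |(X ok (N+1) u t - X ok (N + 1 - M) (u + M * t) t) -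
        (X ok N u t - X ok (N - M) (u + M * t) t)| ≤ K * θ^N * Real.exp (-u) := by
  obtain ⟨θ, K, h1, h2, h3, h4⟩ := forget ok hD hD1 M
  refine ⟨θ, K, h1, h2, h3, ?_⟩
  intro u t hu ht N hN
  have h := h4 (wt u t) (wt_nonneg u t) (wt_le_one hu ht) N hN
  have hs : (fun i => wt u t (i + M)) = wt (u + M * t) t := by
    funext i
    unfold wt
    congr 1
    push_cast
    ring
  rw [R_shift_empty ok hM, R_shift_empty ok hM, hs] at h
  unfold X
  have e : ∀ a b c d : ℝ, (a - c) - (b - d) = (a - b) - (c - d) := by intros; ring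
  rw [e]
  refine h.trans ?_
  exact mul_le_mul_of_nonneg_left (wt_le ht N) (by positivity)

end model

end Pool.Agent.Helper59.HC
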