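import Mathlib
import Pool.Agent.Helper59.HC2

set_option autoImplicit false

/-! Riemann sums and the Euler-Maclaurin estimate. -/

namespace Pool.Agent.Helper59.HC

open Set MeasureTheory Filter Topology

lemma expsum {h : ℝ} (hh : 0 < h) : Summable (fun k : ℕ => Real.exp (-(k * h))) ∧
    ∑' k : ℕ, Real.exp (-(k * h)) ≤ (1 + h) / h := by
  have h1 : Real.exp (-h) < 1 := Real.exp_lt_one_iff.mpr (by linarith)
  have e : (fun k : ℕ => Real.exp (-(k * h))) = fun k : ℕ => Real.exp (-h) ^ k := by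
    funext k
    rw [← Real.exp_nat_mul]; congr 1; ring
  rw [e]
  refine ⟨summable_geometric_of_lt_one (Real.exp_pos _).le h1, ?_⟩
  rw [tsum_geometric_of_lt_one (Real.exp_pos _).le h1]
  have h2 : 1 + h ≤ Real.exp h := by linarith [Real.add_one_le_exp h]
  have h3 : Real.exp (-h) ≤ 1 / (1 + h) := by
    rw [Real.exp_neg, ← one_div]
    exact one_div_le_one_div_of_le (by linarith) h2
  have h4 : h / (1 + h) ≤ 1 - Real.exp (-h) := by
    have : h / (1 + h) = 1 - 1 / (1 + h) := by field_simp; ring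
    linarith
  have h5 : (1 - Real.exp (-h))⁻¹ ≤ (h / (1 + h))⁻¹ :=
    inv_anti₀ (by positivity) h4
  rwa [inv_div] at h5

lemma integrable_dom {f : ℝ → ℝ} {K : ℝ} (hf : ContinuousOn f (Ici 0))
    (hb : ∀ v, 0 ≤ v → |f v| ≤ K * Real.exp (-v)) : IntegrableOn f (Ioi 0) := by
  have h1 : IntegrableOn (fun v : ℝ => K * Real.exp (-v)) (Ioi 0) :=
    (exp_neg_integrableOn_Ioi 0 one_pos |>.congr_fun (by intro v _; simp) measurableSet_Ioi).const_mul K
  refine Integrable.mono' h1 ?_ ?_
  · exact (hf.mono Ioi_subset_Ici_self).aestronglyMeasurable measurableSet_Ioi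
  · rw [ae_restrict_iff' measurableSet_Ioi]
    exact ae_of_all _ (fun v hv => by
      rw [Real.norm_eq_abs]; exact hb v (le_of_lt hv))

lemma sum_int {f : ℝ → ℝ} {K B h : ℝ} (hK : 0 ≤ K) (hf : ContinuousOn f (Ici 0))
    (hb : ∀ v, 0 ≤ v → |f v| ≤ K * Real.exp (-v)) (hh : 0 < h) (A : ℕ → ℝ)
    (hA : ∀ k : ℕ, |(∫ v in (k*h:ℝ)..((k*h)+h), f v) - A k| ≤ B * Real.exp (-(k*h))) :
    Summable A ∧ |(∫ v in Ioi (0:ℝ), f v) - ∑' k, A k| ≤ B * ((1 + h) / h) := by
  obtain ⟨s1, s2⟩ := expsum hh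
  set J : ℕ → ℝ := fun k => ∫ v in (k*h:ℝ)..((k*h)+h), f v with hJ
  have hInt : IntegrableOn f (Ioi 0) := integrable_dom hf hb
  have hB : 0 ≤ B := by
    have := (abs_nonneg _).trans (hA 0)
    simpa using this
  have hJb : ∀ k, ‖J k‖ ≤ (K * h) * Real.exp (-(k*h)) := by
    intro k
    have := intervalIntegral.norm_integral_le_of_norm_le_const (a := (k*h:ℝ)) (b := (k*h)+h)
      (f := f) (C := K * Real.exp (-(k*h))) (fun v hv => by
        rw [uIoc_of_le (by linarith)] at hv
        have h0 : (0:ℝ) ≤ k*h := by positivity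
        rw [Real.norm_eq_abs]
        refine (hb v (by linarith [hv.1])).trans ?_
        apply mul_le_mul_of_nonneg_left _ hK
        exact Real.exp_le_exp.mpr (by linarith [hv.1]))
    rw [add_sub_cancel_left, abs_of_pos hh] at this
    calc ‖J k‖ ≤ K * Real.exp (-(k*h)) * h := this
      _ = _ := by ring
  have hJs : Summable J := Summable.of_norm_bounded (s1.mul_left _) hJb
  have hJA : Summable (fun k => J k - A k) := by
    apply Summable.of_norm_bounded (s1.mul_left B)
    intro k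
    exact hA k
  have hAs : Summable A := by
    have := hJs.sub hJA
    simpa using this
  refine ⟨hAs, ?_⟩
  have hJsum : ∑' k, J k = ∫ v in Ioi (0:ℝ), f v := by
    have h1 : Tendsto (fun n : ℕ => ∑ k ∈ Finset.range n, J k) atTop (𝓝 (∑' k, J k)) :=
      hJs.hasSum.tendsto_sum_nat
    have h2 : Tendsto (fun n : ℕ => ∫ v in (0:ℝ)..(n*h), f v) atTop (𝓝 (∫ v in Ioi (0:ℝ), f v)) := by
      apply intervalIntegral_tendsto_integral_Ioi 0 hInt
      exact tendsto_natCast_atTop_atTop.atTop_mul_const hh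
    have h3 : (fun n : ℕ => ∑ k ∈ Finset.range n, J k) = fun n : ℕ => ∫ v in (0:ℝ)..(n*h), f v := by
      funext n
      have hii : ∀ a b : ℝ, 0 ≤ a → a ≤ b → IntervalIntegrable f volume a b := by
        intro a b ha hab
        apply ContinuousOn.intervalIntegrable
        apply hf.mono
        rw [uIcc_of_le hab]
        intro v hv
        exact ha.trans hv.1
      have := intervalIntegral.sum_integral_adjacent_intervals (a := fun k : ℕ => (k:ℝ)*h)
        (f := f) (μ := volume) (n := n) (fun k _ => by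
          apply hii
          · positivity
          · push_cast; nlinarith)
      simp only [Nat.cast_zero, zero_mul] at this
      rw [← this]
      apply Finset.sum_congr rfl
      intro k _
      simp only [hJ]
      congr 1
      push_cast
      ring
    rw [h3] at h1
    exact tendsto_nhds_unique h1 h2
  rw [← hJsum, ← hJs.tsum_sub hAs]
  calc |∑' k, (J k - A k)| ≤ ∑' k, |J k - A k| := by
        have := norm_tsum_le_tsum_norm (f := fun k => J k - A k) hJA.norm
        simpa [Real.norm_eq_abs] using this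
    _ ≤ ∑' k : ℕ, B * Real.exp (-(k*h)) := by
        apply Summable.tsum_le_tsum (fun k => hA k) hJA.abs (s1.mul_left B)
    _ = B * ∑' k : ℕ, Real.exp (-(k*h)) := tsum_mul_left
    _ ≤ _ := mul_le_mul_of_nonneg_left s2 hB

lemma contOn_of_lip {ψ : ℝ → ℝ} {K : ℝ} (hK : 0 ≤ K)
    (hl : ∀ a b, 0 ≤ a → a ≤ b → |ψ b - ψ a| ≤ K * Real.exp (-a) * (b - a)) :
    ContinuousOn ψ (Ici 0) := by
  have : LipschitzOnWith (K.toNNReal) ψ (Ici 0) := by
    apply LipschitzOnWith.of_dist_le_mul
    intro x hx y hy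
    rw [Real.coe_toNNReal _ hK, Real.dist_eq, Real.dist_eq]
    have key : ∀ a b : ℝ, 0 ≤ a → a ≤ b → |ψ b - ψ a| ≤ K * (b - a) := by
      intro a b ha hab
      refine (hl a b ha hab).trans ?_
      apply mul_le_mul_of_nonneg_right _ (by linarith)
      have : Real.exp (-a) ≤ 1 := Real.exp_le_one_iff.mpr (by linarith)
      nlinarith
    rcases le_total x y with h | h
    · rw [abs_sub_comm, abs_sub_comm x y, abs_of_nonneg (by linarith : 0 ≤ y - x)]
      exact key x y hx h
    · rw [abs_of_nonneg (by linarith : 0 ≤ x - y)]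
      exact key y x hy h
  exact this.continuousOn

/-- Riemann sum estimate -/
lemma RS {ψ : ℝ → ℝ} {K h : ℝ} (hK : 0 ≤ K)
    (hb : ∀ v, 0 ≤ v → |ψ v| ≤ K * Real.exp (-v))
    (hl : ∀ a b, 0 ≤ a → a ≤ b → |ψ b - ψ a| ≤ K * Real.exp (-a) * (b - a)) (hh : 0 < h) :
    Summable (fun k : ℕ => ψ (k*h)) ∧
    |(∫ v in Ioi (0:ℝ), ψ v) - h * ∑' k : ℕ, ψ (k*h)| ≤ K * h * (1 + h) := by
  have hc := contOn_of_lip hK hl
  obtain ⟨h1, h2⟩ := sum_int (f := ψ) (K := K) (B := K * h^2) hK hc hb hh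
    (fun k => h * ψ (k*h)) (by
      intro k
      have h0 : (0:ℝ) ≤ k*h := by positivity
      have e1 : (∫ v in (k*h:ℝ)..((k*h)+h), ψ v) - h * ψ (k*h) =
          ∫ v in (k*h:ℝ)..((k*h)+h), (ψ v - ψ (k*h)) := by
        rw [intervalIntegral.integral_sub, intervalIntegral.integral_const, smul_eq_mul,
          add_sub_cancel_left]
        · apply ContinuousOn.intervalIntegrable
          apply hc.mono
          rw [uIcc_of_le (by linarith)]
          intro v hv
          exact h0.trans hv.1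
        · exact intervalIntegrable_const
      rw [e1]
      have := intervalIntegral.norm_integral_le_of_norm_le_const (a := (k*h:ℝ)) (b := (k*h)+h)
        (f := fun v => ψ v - ψ (k*h)) (C := K * Real.exp (-(k*h)) * h) (fun v hv => by
          rw [uIoc_of_le (by linarith)] at hv
          rw [Real.norm_eq_abs]
          refine (hl (k*h) v h0 hv.1.le).trans ?_
          apply mul_le_mul_of_nonneg_left (by linarith [hv.2]) (by positivity))
      rw [add_sub_cancel_left, abs_of_pos hh, Real.norm_eq_abs] at this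
      refine this.trans (le_of_eq ?_)
      ring)
  have hs : Summable (fun k : ℕ => ψ (k*h)) := by
    have := h1.mul_left (h⁻¹)
    have e : (fun k : ℕ => h⁻¹ * (h * ψ (k*h))) = fun k : ℕ => ψ (k*h) := by
      funext k; field_simp
    rwa [e] at this
  refine ⟨hs, ?_⟩
  rw [tsum_mul_left] at h2
  refine h2.trans (le_of_eq ?_)
  field_simp

/-- Euler-Maclaurin of first order -/
lemma EM {φ φ1 : ℝ → ℝ} {K h : ℝ} (hK : 0 ≤ K) (hd : ∀ v, HasDerivAt φ (φ1 v) v)
    (hb : ∀ v, 0 ≤ v → |φ v| ≤ K * Real.exp (-v))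
    (hb1 : ∀ v, 0 ≤ v → |φ1 v| ≤ K * Real.exp (-v))
    (hl : ∀ a b, 0 ≤ a → a ≤ b → |φ1 b - φ1 a| ≤ K * Real.exp (-a) * (b - a)) (hh : 0 < h) :
    Summable (fun k : ℕ => φ (k*h)) ∧
    |(∑' k : ℕ, φ (k*h)) - (∫ v in Ioi (0:ℝ), φ v) / h - φ 0 / 2| ≤ 2 * K * h * (1 + h) := by
  have hφc : Continuous φ := continuous_iff_continuousAt.mpr fun v => (hd v).continuousAt
  obtain ⟨r1, r2⟩ := RS hK hb1 hl hh
  -- integral of φ1
  have hI1 : ∫ v in Ioi (0:ℝ), φ1 v = - φ 0 := by
    have htend : Tendsto φ atTop (𝓝 0) := by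
      apply squeeze_zero_norm' (a := fun v => K * Real.exp (-v))
      · filter_upwards [eventually_ge_atTop (0:ℝ)] with v hv
        exact hb v hv
      · have : Tendsto (fun v : ℝ => K * Real.exp (-v)) atTop (𝓝 (K * 0)) :=
          (Real.tendsto_exp_neg_atTop_nhds_zero).const_mul K
        simpa using this
    have := integral_Ioi_of_hasDerivAt_of_tendsto (f := φ) (f' := φ1) (a := 0) (m := 0)
      hφc.continuousWithinAt (fun v _ => hd v)
      (integrable_dom (contOn_of_lip hK hl) hb1) htend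
    rw [this, zero_sub]
  obtain ⟨h1, h2⟩ := sum_int (f := φ) (K := K) (B := K * h^3) hK hφc.continuousOn hb hh
    (fun k => h * φ (k*h) + h^2/2 * φ1 (k*h)) (by
      intro k
      have h0 : (0:ℝ) ≤ k*h := by positivity
      set a : ℝ := k*h with ha
      have e1 : (∫ v in a..(a+h), φ v) - (h * φ a + h^2/2 * φ1 a) =
          ∫ v in a..(a+h), (φ v - (φ a + φ1 a * (v - a))) := by
        have hid : ∫ x in a..(a+h), (x - a) = h^2/2 := by
          rw [intervalIntegral.integral_comp_sub_right (fun x => x) a]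
          simp
        rw [intervalIntegral.integral_sub (hφc.intervalIntegrable _ _)
          ((by fun_prop : Continuous (fun v => φ a + φ1 a * (v - a))).intervalIntegrable _ _),
          intervalIntegral.integral_add (continuous_const.intervalIntegrable _ _)
          ((by fun_prop : Continuous (fun v => φ1 a * (v - a))).intervalIntegrable _ _),
          intervalIntegral.integral_const, intervalIntegral.integral_const_mul, hid]
        simp only [smul_eq_mul]
        ring
      rw [e1]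
      have hk : ∀ v ∈ Icc a (a+h), |φ v - (φ a + φ1 a * (v - a))| ≤ K * Real.exp (-a) * h * h := by
        intro v hv
        have hd2 : ∀ w, HasDerivAt (fun w => φ w - (φ a + φ1 a * (w - a))) (φ1 w - φ1 a) w := by
          intro w
          have g1 : HasDerivAt (fun w => φ a + φ1 a * (w - a)) (φ1 a) w := by
            have := (((hasDerivAt_id w).sub_const a).const_mul (φ1 a)).const_add (φ a)
            simpa using this
          exact (hd w).sub g1
        have := (convex_Icc a v).norm_image_sub_le_of_norm_hasDerivWithin_le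
          (f := fun w => φ w - (φ a + φ1 a * (w - a))) (C := K * Real.exp (-a) * h)
          (fun w _ => (hd2 w).hasDerivWithinAt) (fun w hw => by
            rw [Real.norm_eq_abs]
            refine (hl a w h0 hw.1).trans ?_
            apply mul_le_mul_of_nonneg_left (by linarith [hw.2, hv.2]) (by positivity))
          (left_mem_Icc.mpr hv.1) (right_mem_Icc.mpr hv.1)
        simp only [sub_self, mul_zero, add_zero, sub_zero, Real.norm_eq_abs] at this
        refine this.trans ?_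
        apply mul_le_mul_of_nonneg_left _ (by positivity)
        rw [abs_of_nonneg (by linarith [hv.1])]
        linarith [hv.2]
      have := intervalIntegral.norm_integral_le_of_norm_le_const (a := a) (b := a+h)
        (f := fun v => φ v - (φ a + φ1 a * (v - a))) (C := K * Real.exp (-a) * h * h)
        (fun v hv => by
          rw [uIoc_of_le (by linarith)] at hv
          rw [Real.norm_eq_abs]
          exact hk v ⟨hv.1.le, hv.2⟩)
      rw [add_sub_cancel_left, abs_of_pos hh, Real.norm_eq_abs] at this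
      refine this.trans (le_of_eq ?_)
      ring)
  have hs : Summable (fun k : ℕ => φ (k*h)) := by
    have g1 := (h1.sub (r1.mul_left (h^2/2))).mul_left (h⁻¹)
    have e : (fun k : ℕ => h⁻¹ * (h * φ (k*h) + h^2/2 * φ1 (k*h) - h^2/2 * φ1 (k*h))) =
        fun k : ℕ => φ (k*h) := by
      funext k; field_simp; ring
    rwa [e] at g1
  refine ⟨hs, ?_⟩
  rw [Summable.tsum_add (hs.mul_left h) (r1.mul_left (h^2/2)), tsum_mul_left, tsum_mul_left] at h2
  rw [hI1] at r2
  set S := ∑' k : ℕ, φ (k*h)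
  set S1 := ∑' k : ℕ, φ1 (k*h)
  set I := ∫ v in Ioi (0:ℝ), φ v
  have e1 : K * h^3 * ((1 + h)/h) = K * h^2 * (1+h) := by field_simp
  rw [e1] at h2
  have h3 : |I - h * S + h/2 * φ 0| ≤ 2 * K * h^2 * (1 + h) := by
    have e2 : I - h * S + h/2 * φ 0 = (I - (h * S + h^2/2 * S1)) - (h/2) * (-φ 0 - h * S1) := by
      ring
    rw [e2]
    calc |(I - (h * S + h^2/2 * S1)) - (h/2) * (-φ 0 - h * S1)|
        ≤ |I - (h * S + h^2/2 * S1)| + |(h/2) * (-φ 0 - h * S1)| := abs_sub _ _
      _ ≤ K * h^2 * (1+h) + (h/2) * (K * h * (1+h)) := by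
          apply add_le_add h2
          rw [abs_mul, abs_of_pos (by positivity : 0 < h/2)]
          exact mul_le_mul_of_nonneg_left r2 (by positivity)
      _ ≤ _ := by nlinarith [mul_nonneg (mul_nonneg hK (sq_nonneg h)) (by linarith : 0 ≤ 1 + h)]
  have e3 : S - I / h - φ 0 / 2 = -(I - h * S + h/2 * φ 0) / h := by field_simp; ring
  rw [e3, abs_div, abs_neg, abs_of_pos hh, div_le_iff₀ hh]
  refine h3.trans (le_of_eq ?_)
  ring

section model

variable (ok : ℕ → ℕ → Prop)

/-- the sum over starting levels -/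
noncomputable def W (M N : ℕ) (t : ℝ) : ℝ := ∑' k : ℕ, X ok N (k * (M * t)) t

lemma npow_le (N : ℕ) : (N:ℝ) ≤ ((N:ℝ)+1)^4 ∧ (N:ℝ)^2 ≤ ((N:ℝ)+1)^4 ∧ (N:ℝ)^3 ≤ ((N:ℝ)+1)^4 ∧
    (N:ℝ)^4 ≤ ((N:ℝ)+1)^4 := by
  have h0 : (0:ℝ) ≤ N := Nat.cast_nonneg N
  have h1 : (1:ℝ) ≤ (N:ℝ)+1 := by linarith
  have h2 : ∀ j ≤ 4, (N:ℝ)^j ≤ ((N:ℝ)+1)^4 := by
    intro j hj
    calc (N:ℝ)^j ≤ ((N:ℝ)+1)^j := pow_le_pow_left₀ h0 (by linarith) j
      _ ≤ _ := pow_le_pow_right₀ h1 hj
  refine ⟨by simpa using h2 1 (by norm_num), h2 2 (by norm_num), h2 3 (by norm_num), h2 4 le_rfl⟩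

lemma W_summable {M : ℕ} (hM : 1 ≤ M) (N : ℕ) {t : ℝ} (ht : 0 < t) :
    Summable (fun k : ℕ => X ok N (k * (M * t)) t) := by
  have hMpos : (0:ℝ) < M := by exact_mod_cast hM
  have hh : 0 < M * t := by positivity
  obtain ⟨s1, _⟩ := expsum hh
  apply Summable.of_norm_bounded (s1.mul_left (N:ℝ))
  intro k
  rw [Real.norm_eq_abs, abs_of_nonneg (X_nonneg ok N _ _)]
  exact X_le ok N ht.le

lemma W_asymp {M : ℕ} (hM : 1 ≤ M) (N : ℕ) : ∃ w ω : ℝ, ∀ t, 0 < t → t ≤ 1 →
    |W ok M N t - w / t - ω| ≤ (2 * (1 + M)^2) * ((N:ℝ)+1)^4 * t := by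
  have hMpos : (0:ℝ) < M := by exact_mod_cast hM
  set K : ℝ := ((N:ℝ)+1)^4 with hKdef
  obtain ⟨n1, n2, n3, n4⟩ := npow_le N
  have hK : 0 ≤ K := by positivity
  set φ : ℝ → ℝ := fun v => X ok N v 0 with hφ
  set φ1 : ℝ → ℝ := fun v => -(Ex ok N cd v 0) with hφ1
  set ψ : ℝ → ℝ := fun v => -(Ex ok N sm v 0) with hψ
  have Exnn : ∀ (g : Finset ℕ → ℝ) (hg : ∀ S, 0 ≤ g S) u t, 0 ≤ Ex ok N g u t := by
    intro g hg u t
    unfold Ex
    apply div_nonneg
    · exact Finset.sum_nonneg (fun S _ => mul_nonneg (hg S) (Real.exp_pos _).le)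
    · exact Finset.sum_nonneg (fun S _ => (Real.exp_pos _).le)
  set I := ∫ v in Ioi (0:ℝ), φ v with hI
  set J := ∫ v in Ioi (0:ℝ), ψ v with hJ
  refine ⟨I / M, φ 0 / 2 + J / M, ?_⟩
  intro t ht ht1
  set h : ℝ := M * t with hh
  have hhpos : 0 < h := by positivity
  have hhM : h ≤ M := by rw [hh]; nlinarith
  obtain ⟨s1, s2⟩ := expsum hhpos
  obtain ⟨a1, a2⟩ := EM (φ := φ) (φ1 := φ1) (K := K) (h := h) hK (fun v => X_deriv_u ok N v 0)
    (fun v _ => by
      rw [abs_of_nonneg (X_nonneg ok N _ _)]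
      refine (X_le ok N le_rfl).trans ?_
      exact mul_le_mul_of_nonneg_right n1 (Real.exp_pos _).le)
    (fun v _ => by
      simp only [hφ1]
      rw [abs_neg, abs_of_nonneg (Exnn cd cd_nonneg _ _)]
      refine (Ex_cd_le ok N le_rfl).trans ?_
      exact mul_le_mul_of_nonneg_right n1 (Real.exp_pos _).le)
    (fun a b ha hab => by
      simp only [hφ1]
      rw [neg_sub_neg, abs_sub_comm]
      refine (Ex_cd_lip ok N le_rfl ha hab).trans ?_
      apply mul_le_mul_of_nonneg_right _ (by linarith)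
      exact mul_le_mul_of_nonneg_right n2 (Real.exp_pos _).le) hhpos
  obtain ⟨b1, b2⟩ := RS (ψ := ψ) (K := K) (h := h) hK
    (fun v _ => by
      simp only [hψ]
      rw [abs_neg, abs_of_nonneg (Exnn sm sm_nonneg _ _)]
      refine (Ex_sm_le ok N le_rfl).trans ?_
      exact mul_le_mul_of_nonneg_right n2 (Real.exp_pos _).le)
    (fun a b ha hab => by
      simp only [hψ]
      rw [neg_sub_neg, abs_sub_comm]
      refine (Ex_sm_lip_u ok N le_rfl ha hab).trans ?_
      apply mul_le_mul_of_nonneg_right _ (by linarith)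
      exact mul_le_mul_of_nonneg_right n3 (Real.exp_pos _).le) hhpos
  -- Taylor
  have c1 : |W ok M N t - (∑' k : ℕ, φ (k*h)) - t * ∑' k : ℕ, ψ (k*h)| ≤ K * t^2 * ((1+h)/h) := by
    have hW := W_summable ok hM N ht
    have e1 : W ok M N t - (∑' k : ℕ, φ (k*h)) - t * ∑' k : ℕ, ψ (k*h) =
        ∑' k : ℕ, (X ok N (k * h) t - φ (k*h) - t * ψ (k*h)) := by
      unfold W
      rw [← tsum_mul_left, ← hW.tsum_sub a1, ← (hW.sub a1).tsum_sub (b1.mul_left t)]
    have hbd : ∀ k : ℕ, ‖X ok N (k * h) t - φ (k*h) - t * ψ (k*h)‖ ≤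
        (K * t^2) * Real.exp (-(k*h)) := by
      intro k
      rw [Real.norm_eq_abs]
      refine (X_taylor_t ok N ht.le).trans ?_
      have : (N:ℝ)^4 * Real.exp (-(k*h)) ≤ K * Real.exp (-(k*h)) :=
        mul_le_mul_of_nonneg_right n4 (Real.exp_pos _).le
      nlinarith [sq_nonneg t]
    rw [e1]
    have hsum : Summable (fun k : ℕ => X ok N (k * h) t - φ (k*h) - t * ψ (k*h)) :=
      Summable.of_norm_bounded (s1.mul_left _) hbd
    calc _ ≤ ∑' k : ℕ, ‖X ok N (k * h) t - φ (k*h) - t * ψ (k*h)‖ := norm_tsum_le_tsum_norm hsum.norm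
      _ ≤ ∑' k : ℕ, (K * t^2) * Real.exp (-(k*h)) :=
          Summable.tsum_le_tsum hbd hsum.norm (s1.mul_left _)
      _ = (K * t^2) * ∑' k : ℕ, Real.exp (-(k*h)) := tsum_mul_left
      _ ≤ _ := mul_le_mul_of_nonneg_left s2 (by positivity)
  set S0 := ∑' k : ℕ, φ (k*h)
  set S1 := ∑' k : ℕ, ψ (k*h)
  have c2 : |t * S1 - J / M| ≤ K * t * (1 + h) := by
    have : t * S1 - J / M = -(J - h * S1) / M := by
      rw [hh]; field_simp; ring
    rw [this, abs_div, abs_neg, abs_of_pos hMpos, div_le_iff₀ hMpos]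
    refine b2.trans (le_of_eq ?_)
    rw [hh]; ring
  have e2 : W ok M N t - I / M / t - (φ 0 / 2 + J / M) =
      (W ok M N t - S0 - t * S1) + (S0 - I / h - φ 0 / 2) + (t * S1 - J / M) := by
    rw [hh]; field_simp; ring
  rw [e2]
  have c3 : K * t^2 * ((1+h)/h) ≤ K * t * (1 + M) := by
    have e3 : K * t^2 * ((1+h)/h) = K * t * ((1 + h) / M) := by rw [hh]; field_simp
    rw [e3]
    apply mul_le_mul_of_nonneg_left _ (by positivity)
    rw [div_le_iff₀ hMpos]
    have : (1:ℝ) ≤ M := by exact_mod_cast hM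
    nlinarith
  have c4 : 2 * K * h * (1 + h) ≤ K * t * (2 * M * (1 + M)) := by
    have : h * (1 + h) ≤ (M * t) * (1 + M) := by
      rw [hh]
      apply mul_le_mul_of_nonneg_left _ (by positivity)
      rw [← hh]; linarith
    nlinarith [mul_nonneg hK ht.le]
  have c5 : K * t * (1 + h) ≤ K * t * (1 + M) :=
    mul_le_mul_of_nonneg_left (by linarith) (by positivity)
  calc _ ≤ |W ok M N t - S0 - t * S1| + |S0 - I / h - φ 0 / 2| + |t * S1 - J / M| :=
        abs_add_three _ _ _
    _ ≤ K * t * (1 + M) + K * t * (2 * M * (1 + M)) + K * t * (1 + M) := by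
        linarith [c1.trans c3, a2.trans c4, c2.trans c5]
    _ = _ := by ring

end model

end Pool.Agent.Helper59.HC
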