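import Mathlib
import Pool.Agent.Helper59.HC3

set_option autoImplicit false

/-! The asymptotic expansion of the logarithm of the partition function. -/

namespace Pool.Agent.Helper59.HC

open Set MeasureTheory Filter Topology

/-- combination lemma -/
lemma comb {F : ℝ → ℝ} {g γ : ℕ → ℝ} {κ K : ℝ} (hκ0 : 0 < κ) (hκ1 : κ < 1) (hK : 0 ≤ K)
    (H : ∀ N : ℕ, ∀ t, 0 < t → t ≤ 1 → |F t - g N / t - γ N| ≤ K * (t / κ^N + κ^(4*N) / t)) :
    ∃ c C0 : ℝ, Tendsto (fun t => F t - c / t) (𝓝[>] 0) (𝓝 C0) := by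
  set K1 : ℝ := 5 * K + K / κ with hK1
  have hK1' : 0 ≤ K1 := by positivity
  have hp : ∀ N : ℕ, 0 < κ^N := fun N => by positivity
  have hp1 : ∀ N : ℕ, κ^N ≤ 1 := fun N => pow_le_one₀ hκ0.le hκ1.le
  -- comparison of consecutive levels
  have step : ∀ N : ℕ, |g (N+1) - g N| ≤ 2 * K1 * (κ^3)^N ∧ |γ (N+1) - γ N| ≤ 3 * K1 * κ^N := by
    intro N
    have hab : ∀ s : ℝ, s = 1 ∨ s = 1/2 →
        |(g (N+1) - g N) / (κ^(2*N) * s) + (γ (N+1) - γ N)| ≤ K1 * κ^N := by
      intro s hs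
      have hs0 : 0 < s := by rcases hs with rfl | rfl <;> norm_num
      have hs1 : s ≤ 1 := by rcases hs with rfl | rfl <;> norm_num
      have hs2 : 1/2 ≤ s := by rcases hs with rfl | rfl <;> norm_num
      set t : ℝ := κ^(2*N) * s with ht
      have ht0 : 0 < t := by positivity
      have ht1 : t ≤ 1 := by
        have := hp1 (2*N)
        nlinarith [hp (2*N)]
      have h1 := H N t ht0 ht1
      have h2 := H (N+1) t ht0 ht1
      have e : (g (N+1) - g N) / t + (γ (N+1) - γ N) =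
          (F t - g N / t - γ N) - (F t - g (N+1) / t - γ (N+1)) := by ring
      rw [e]
      refine (abs_sub _ _).trans ((add_le_add h1 h2).trans ?_)
      have b1 : t / κ^N ≤ κ^N := by
        rw [div_le_iff₀ (hp N), ht]
        have : κ^(2*N) = κ^N * κ^N := by rw [two_mul, pow_add]
        rw [this]
        nlinarith [hp N, mul_pos (hp N) (hp N)]
      have b2 : κ^(4*N) / t ≤ 2 * κ^N := by
        rw [div_le_iff₀ ht0, ht]
        have e1 : κ^(4*N) = κ^(2*N) * κ^N * κ^N := by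
          rw [← pow_add, ← pow_add]; congr 1; ring
        rw [e1]
        have := hp1 N
        have h3 : κ^(2*N) * κ^N * κ^N ≤ κ^(2*N) * κ^N * 1 :=
          mul_le_mul_of_nonneg_left this (by positivity)
        nlinarith [mul_pos (hp (2*N)) (hp N)]
      have b3 : t / κ^(N+1) ≤ κ^N / κ := by
        rw [pow_succ, div_mul_eq_div_div]
        exact div_le_div_of_nonneg_right b1 hκ0.le
      have b4 : κ^(4*(N+1)) / t ≤ 2 * κ^N := by
        refine le_trans ?_ b2
        apply div_le_div_of_nonneg_right _ ht0.le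
        exact pow_le_pow_of_le_one hκ0.le hκ1.le (by omega)
      calc K * (t / κ^N + κ^(4*N) / t) + K * (t / κ^(N+1) + κ^(4*(N+1)) / t)
          ≤ K * (κ^N + 2 * κ^N) + K * (κ^N / κ + 2 * κ^N) := by
            apply add_le_add
            · exact mul_le_mul_of_nonneg_left (add_le_add b1 b2) hK
            · exact mul_le_mul_of_nonneg_left (add_le_add b3 b4) hK
        _ = K1 * κ^N := by rw [hK1]; ring
    have h1 := hab 1 (Or.inl rfl)
    have h2 := hab (1/2) (Or.inr rfl)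
    set a := g (N+1) - g N
    set b := γ (N+1) - γ N
    set τ := κ^(2*N) with hτ
    have hτ0 : 0 < τ := by positivity
    have e1 : a / (τ * 1) = a / τ := by rw [mul_one]
    have e2 : a / (τ * (1/2)) = 2 * (a / τ) := by field_simp
    rw [e1] at h1
    rw [e2] at h2
    have h3 : |a / τ| ≤ 2 * (K1 * κ^N) := by
      have : a / τ = (2 * (a/τ) + b) - (a/τ + b) := by ring
      rw [this]
      refine (abs_sub _ _).trans (by linarith)
    constructor
    · rw [abs_div, abs_of_pos hτ0, div_le_iff₀ hτ0] at h3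
      refine h3.trans (le_of_eq ?_)
      rw [hτ, ← pow_mul]
      have : κ^(3*N) = κ^N * κ^(2*N) := by rw [← pow_add]; congr 1; ring
      rw [this]; ring
    · have : b = (a/τ + b) - a/τ := by ring
      rw [this]
      refine (abs_sub _ _).trans (by linarith)
  -- limits
  have hκ3 : κ^3 < 1 := pow_lt_one₀ hκ0.le hκ1 (by norm_num)
  have hg : ∀ n, dist (g n) (g (n+1)) ≤ 2 * K1 * (κ^3)^n := fun n => by
    rw [dist_comm, Real.dist_eq]; exact (step n).1
  have hγ : ∀ n, dist (γ n) (γ (n+1)) ≤ 3 * K1 * κ^n := fun n => by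
    rw [dist_comm, Real.dist_eq]; exact (step n).2
  obtain ⟨c, hc⟩ := cauchySeq_tendsto_of_complete (cauchySeq_of_le_geometric _ _ hκ3 hg)
  obtain ⟨C0, hC0⟩ := cauchySeq_tendsto_of_complete (cauchySeq_of_le_geometric _ _ hκ1 hγ)
  have hg2 : ∀ n, |g n - c| ≤ 2 * K1 * (κ^3)^n / (1 - κ^3) := fun n => by
    have := dist_le_of_le_geometric_of_tendsto (κ^3) (2 * K1) hκ3 hg hc n
    rwa [Real.dist_eq] at this
  have hγ2 : ∀ n, |γ n - C0| ≤ 3 * K1 * κ^n / (1 - κ) := fun n => by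
    have := dist_le_of_le_geometric_of_tendsto κ (3 * K1) hκ1 hγ hC0 n
    rwa [Real.dist_eq] at this
  refine ⟨c, C0, ?_⟩
  -- main estimate
  set A : ℝ := K * (1 + 1/κ^2) + 2 * K1 / (1 - κ^3) / κ^2 + 3 * K1 / (1 - κ) with hA
  have hA0 : 0 ≤ A := by
    have h1 : 0 < 1 - κ := by linarith
    have h2 : 0 < 1 - κ^3 := by linarith
    positivity
  have main : ∀ N : ℕ, ∀ t, t ≤ 1 → κ^(2*(N+1)) < t → t ≤ κ^(2*N) →
      |F t - c / t - C0| ≤ A * κ^N := by
    intro N t ht1 htl htu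
    have ht0 : 0 < t := lt_trans (by positivity) htl
    have h1 := H N t ht0 ht1
    have e : F t - c / t - C0 = (F t - g N / t - γ N) + (g N - c) / t + (γ N - C0) := by ring
    rw [e]
    have b1 : t / κ^N ≤ κ^N := by
      rw [div_le_iff₀ (hp N), ← pow_add, ← two_mul]; exact htu
    have e3 : κ^(2*(N+1)) = κ^N * κ^N * κ^2 := by rw [← pow_add, ← pow_add]; congr 1; ring
    rw [e3] at htl
    have b2 : κ^(4*N) / t ≤ κ^N * (1 / κ^2) := by
      rw [div_le_iff₀ ht0]
      have e1 : κ^(4*N) = κ^N * κ^N * (κ^N * κ^N) := by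
        rw [← pow_add, ← pow_add]; congr 1; ring
      rw [e1]
      have h2 : κ^N * κ^N * (κ^N * κ^N) ≤ κ^N * κ^N * (κ^N) := by
        apply mul_le_mul_of_nonneg_left _ (by positivity)
        nlinarith [hp N, hp1 N]
      have h3 : κ^N * (1/κ^2) * (κ^N * κ^N * κ^2) ≤ κ^N * (1/κ^2) * t :=
        mul_le_mul_of_nonneg_left htl.le (by positivity)
      have h4 : κ^N * (1/κ^2) * (κ^N * κ^N * κ^2) = κ^N * κ^N * κ^N := by field_simp
      linarith
    have b3 : |(g N - c) / t| ≤ 2 * K1 / (1 - κ^3) / κ^2 * κ^N := by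
      rw [abs_div, abs_of_pos ht0, div_le_iff₀ ht0]
      refine (hg2 N).trans ?_
      have h3pos : 0 < 1 - κ^3 := by linarith
      have e2 : (κ^3)^N = κ^N * κ^N * κ^N := by rw [← pow_mul, ← pow_add, ← pow_add]; congr 1; ring
      rw [e2]
      have h5 : 2 * K1 / (1 - κ^3) / κ^2 * κ^N * (κ^N * κ^N * κ^2) ≤
        2 * K1 / (1 - κ^3) / κ^2 * κ^N * t := mul_le_mul_of_nonneg_left htl.le (by positivity)
      refine le_trans (le_of_eq ?_) h5
      field_simp
    have b4 : |γ N - C0| ≤ 3 * K1 / (1 - κ) * κ^N := by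
      refine (hγ2 N).trans (le_of_eq ?_)
      ring
    calc _ ≤ |F t - g N / t - γ N| + |(g N - c) / t| + |γ N - C0| := abs_add_three _ _ _
      _ ≤ K * (κ^N + κ^N * (1/κ^2)) + 2 * K1 / (1 - κ^3) / κ^2 * κ^N + 3 * K1 / (1 - κ) * κ^N := by
          apply add_le_add (add_le_add (h1.trans _) b3) b4
          exact mul_le_mul_of_nonneg_left (add_le_add b1 b2) hK
      _ = A * κ^N := by rw [hA]; ring
  rw [Metric.tendsto_nhdsWithin_nhds]
  intro ε hε
  have hlim : Tendsto (fun N : ℕ => A * κ^N) atTop (𝓝 0) := by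
    have := (tendsto_pow_atTop_nhds_zero_of_lt_one hκ0.le hκ1).const_mul A
    simpa using this
  obtain ⟨N0, hN0⟩ := (hlim.eventually (gt_mem_nhds hε)).exists
  refine ⟨κ^(2*N0), by positivity, ?_⟩
  intro t ht htd
  have ht0 : 0 < t := ht
  rw [Real.dist_eq, sub_zero, abs_of_pos ht0] at htd
  have ht1 : t ≤ 1 := htd.le.trans (hp1 _)
  obtain ⟨N, hN1, hN2⟩ := exists_nat_pow_near_of_lt_one ht0 ht1
    (pow_pos hκ0 2) (pow_lt_one₀ hκ0.le hκ1 (by norm_num : (2:ℕ) ≠ 0))
  rw [← pow_mul] at hN1 hN2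
  have hNN : N0 ≤ N := by
    by_contra hcon
    push Not at hcon
    have : κ^(2*N0) ≤ κ^(2*(N+1)) := pow_le_pow_of_le_one hκ0.le hκ1.le (by omega)
    linarith
  rw [Real.dist_eq]
  refine lt_of_le_of_lt (main N t ht1 hN1 hN2) (lt_of_le_of_lt ?_ hN0)
  exact mul_le_mul_of_nonneg_left (pow_le_pow_of_le_one hκ0.le hκ1.le hNN) hA0

section model

variable (ok : ℕ → ℕ → Prop)

/-- limit of X -/
noncomputable def fX (u t : ℝ) : ℝ := ⨆ N, X ok N u t

lemma fX_tendsto {u t : ℝ} (ht : 0 < t) :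
    Tendsto (fun N => X ok N u t) atTop (𝓝 (fX ok u t)) := by
  apply tendsto_atTop_ciSup
  · exact monotone_nat_of_le_succ (fun N => X_mono ok N u t)
  · refine ⟨Real.exp (-u) / (1 - Real.exp (-t)), ?_⟩
    rintro _ ⟨N, rfl⟩
    exact X_le' ok N ht

lemma fX_bounds {u t : ℝ} (ht : 0 < t) :
    0 ≤ fX ok u t ∧ fX ok u t ≤ Real.exp (-u) / (1 - Real.exp (-t)) := by
  constructor
  · exact ge_of_tendsto' (fX_tendsto ok ht) (fun N => X_nonneg ok N u t)
  · exact le_of_tendsto' (fX_tendsto ok ht) (fun N => X_le' ok N ht)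

/-- G_N -/
noncomputable def GN (M N : ℕ) (t : ℝ) : ℝ := W ok M N t - W ok M (N - M) t + X ok (N - M) 0 t

lemma GN_eq {M : ℕ} (hM : 1 ≤ M) (N : ℕ) {t : ℝ} (ht : 0 < t) :
    Summable (fun k : ℕ => X ok N (k * (M * t)) t - X ok (N - M) ((k+1) * (M * t)) t) ∧
    GN ok M N t = ∑' k : ℕ, (X ok N (k * (M * t)) t - X ok (N - M) ((k+1) * (M * t)) t) := by
  have h1 := W_summable ok hM N ht
  have h2 := W_summable ok hM (N - M) ht
  have h3 : Summable (fun k : ℕ => X ok (N-M) ((k+1) * (M * t)) t) := by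
    have := (summable_nat_add_iff 1).mpr h2
    simpa using this
  refine ⟨h1.sub h3, ?_⟩
  rw [h1.tsum_sub h3]
  have h4 := h2.tsum_eq_zero_add
  simp only [Nat.cast_zero, zero_mul, Nat.cast_add, Nat.cast_one] at h4
  unfold GN W
  rw [h4]
  ring

lemma GN_step {D M : ℕ} (hD : Range ok D) (hD1 : 1 ≤ D) (hM : Per ok M) (hM1 : 1 ≤ M) :
    ∃ θ K : ℝ, 0 < θ ∧ θ < 1 ∧ 0 < K ∧ ∀ t : ℝ, 0 < t → t ≤ 1 → ∀ N, M ≤ N →
      |fX ok 0 t - GN ok M N t| ≤ K * θ^N / t := by
  obtain ⟨θ, K, h1, h2, h3, h4⟩ := X_forget ok hD hD1 hM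
  have hMpos : (0:ℝ) < M := by exact_mod_cast hM1
  have hθ' : 0 < 1 - θ := by linarith
  refine ⟨θ, K * (1 + M) / (1 - θ), h1, h2, by positivity, ?_⟩
  intro t ht ht1 N hN
  set h : ℝ := M * t with hh
  have hhpos : 0 < h := by positivity
  have hhM : h ≤ M := by rw [hh]; nlinarith
  obtain ⟨s1, s2⟩ := expsum hhpos
  -- one step
  have step : ∀ N, M ≤ N → |GN ok M (N+1) t - GN ok M N t| ≤ (K * (1+M) / t) * θ^N := by
    intro N hN
    obtain ⟨a1, a2⟩ := GN_eq ok hM1 N ht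
    obtain ⟨b1, b2⟩ := GN_eq ok hM1 (N+1) ht
    rw [a2, b2, ← b1.tsum_sub a1]
    have hbd : ∀ k : ℕ, ‖(X ok (N+1) (k * (M * t)) t - X ok (N + 1 - M) ((k+1) * (M * t)) t) -
        (X ok N (k * (M * t)) t - X ok (N - M) ((k+1) * (M * t)) t)‖ ≤
        (K * θ^N) * Real.exp (-(k*h)) := by
      intro k
      have := h4 (k * (M * t)) t (by positivity) ht.le N hN
      have e : (k:ℝ) * (M * t) + M * t = (k+1) * (M*t) := by ring
      rw [e] at this
      exact this
    have hs := b1.sub a1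
    calc _ ≤ ∑' k : ℕ, ‖(X ok (N+1) (k * (M * t)) t - X ok (N + 1 - M) ((k+1) * (M * t)) t) -
        (X ok N (k * (M * t)) t - X ok (N - M) ((k+1) * (M * t)) t)‖ :=
          norm_tsum_le_tsum_norm hs.norm
      _ ≤ ∑' k : ℕ, (K * θ^N) * Real.exp (-(k*h)) :=
          Summable.tsum_le_tsum hbd hs.norm (s1.mul_left _)
      _ = (K * θ^N) * ∑' k : ℕ, Real.exp (-(k*h)) := tsum_mul_left
      _ ≤ (K * θ^N) * ((1+h)/h) := mul_le_mul_of_nonneg_left s2 (by positivity)
      _ ≤ (K * θ^N) * ((1+M)/t) := by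
          apply mul_le_mul_of_nonneg_left _ (by positivity)
          rw [div_le_div_iff₀ hhpos ht, hh]
          have : (1:ℝ) ≤ M := by exact_mod_cast hM1
          have h5 : M * t ≤ (M:ℝ) := by nlinarith
          have h6 : (1 + M * t) ≤ (1 + M) * M := by nlinarith
          nlinarith
      _ = _ := by ring
  -- limit
  have hlim : Tendsto (fun N => GN ok M N t) atTop (𝓝 (fX ok 0 t)) := by
    have e1 : (fun N => GN ok M N t) = fun N => ∑' k : ℕ,
        (X ok N (k * (M * t)) t - X ok (N - M) ((k+1) * (M * t)) t) := by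
      funext N; exact (GN_eq ok hM1 N ht).2
    have hexp1 : 0 < 1 - Real.exp (-t) := by
      have := Real.exp_lt_one_iff.mpr (by linarith : -t < 0)
      linarith
    have hT : Tendsto (fun N => ∑' k : ℕ,
        (X ok N (k * (M * t)) t - X ok (N - M) ((k+1) * (M * t)) t)) atTop
        (𝓝 (∑' k : ℕ, (fX ok (k * (M * t)) t - fX ok ((k+1) * (M * t)) t))) := by
      apply tendsto_tsum_of_dominated_convergence
        (bound := fun k : ℕ => (2 / (1 - Real.exp (-t))) * Real.exp (-(k*h)))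
      · exact s1.mul_left _
      · intro k
        apply Tendsto.sub (fX_tendsto ok ht)
        exact (fX_tendsto ok ht).comp (tendsto_sub_atTop_nat M)
      · apply Eventually.of_forall
        intro N k
        have c1 := X_le' ok N (u := k * (M*t)) ht
        have c2 := X_le' ok (N-M) (u := (k+1) * (M*t)) ht
        have c3 := X_nonneg ok N (k * (M*t)) t
        have c4 := X_nonneg ok (N-M) ((k+1) * (M*t)) t
        have c5 : Real.exp (-((k+1) * (M*t))) / (1 - Real.exp (-t)) ≤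
            Real.exp (-(k * (M*t))) / (1 - Real.exp (-t)) := by
          apply div_le_div_of_nonneg_right _ hexp1.le
          apply Real.exp_le_exp.mpr
          nlinarith
        rw [Real.norm_eq_abs, abs_le]
        have c6 : (2 / (1 - Real.exp (-t))) * Real.exp (-(k*h)) =
          Real.exp (-(k * (M*t))) / (1 - Real.exp (-t)) +
          Real.exp (-(k * (M*t))) / (1 - Real.exp (-t)) := by rw [hh]; ring
        rw [c6]
        have c7 : 0 ≤ Real.exp (-(k * (M*t))) / (1 - Real.exp (-t)) := by positivity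
        constructor <;> linarith
    have hsum : ∑' k : ℕ, (fX ok (k * (M * t)) t - fX ok ((k+1) * (M * t)) t) = fX ok 0 t := by
      have hs : Summable (fun k : ℕ => fX ok (k * (M * t)) t) := by
        apply Summable.of_norm_bounded (s1.mul_left (1 / (1 - Real.exp (-t))))
        intro k
        obtain ⟨q1, q2⟩ := fX_bounds ok (u := k * (M*t)) ht
        rw [Real.norm_eq_abs, abs_of_nonneg q1]
        refine q2.trans (le_of_eq ?_)
        rw [hh]; ring
      have h3 : Summable (fun k : ℕ => fX ok ((k+1) * (M * t)) t) := by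
        have := (summable_nat_add_iff 1).mpr hs
        simpa using this
      rw [hs.tsum_sub h3]
      have h4 := hs.tsum_eq_zero_add
      simp only [Nat.cast_zero, zero_mul, Nat.cast_add, Nat.cast_one] at h4
      rw [h4]
      ring
    rw [e1, ← hsum]
    exact hT
  -- geometric bound with shift
  set q : ℕ → ℝ := fun n => GN ok M (n + M) t with hq
  have hqs : ∀ n, dist (q n) (q (n+1)) ≤ (K * (1+M) / t * θ^M) * θ^n := by
    intro n
    rw [dist_comm, Real.dist_eq]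
    have := step (n + M) (by omega)
    have e : n + 1 + M = n + M + 1 := by ring
    simp only [hq]
    rw [e]
    refine this.trans (le_of_eq ?_)
    rw [pow_add]; ring
  have hqlim : Tendsto q atTop (𝓝 (fX ok 0 t)) := hlim.comp (tendsto_add_atTop_nat M)
  have := dist_le_of_le_geometric_of_tendsto θ _ h2 hqs hqlim (N - M)
  rw [dist_comm, Real.dist_eq] at this
  simp only [hq] at this
  rw [Nat.sub_add_cancel hN] at this
  refine this.trans (le_of_eq ?_)
  have e5 : θ^N = θ^M * θ^(N-M) := by rw [← pow_add]; congr 1; omega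
  rw [e5]
  field_simp

lemma GN_asymp {M : ℕ} (hM : 1 ≤ M) (N : ℕ) : ∃ g γ : ℝ, ∀ t, 0 < t → t ≤ 1 →
    |GN ok M N t - g / t - γ| ≤ (4 * (1 + M)^2 + 1) * ((N:ℝ)+1)^4 * t := by
  obtain ⟨w1, o1, h1⟩ := W_asymp ok hM N
  obtain ⟨w2, o2, h2⟩ := W_asymp ok hM (N - M)
  refine ⟨w1 - w2, o1 - o2 + X ok (N-M) 0 0, ?_⟩
  intro t ht ht1
  have a1 := h1 t ht ht1
  have a2 := h2 t ht ht1
  have hNM : ((N - M : ℕ):ℝ) ≤ N := by exact_mod_cast Nat.sub_le N M
  have hNM0 : (0:ℝ) ≤ ((N - M : ℕ):ℝ) := Nat.cast_nonneg _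
  have hp : (((N - M : ℕ):ℝ)+1)^4 ≤ ((N:ℝ)+1)^4 :=
    pow_le_pow_left₀ (by linarith) (by linarith) 4
  have a3 : |X ok (N-M) 0 t - X ok (N-M) 0 0| ≤ ((N:ℝ)+1)^4 * t := by
    have h := (convex_Icc 0 t).norm_image_sub_le_of_norm_hasDerivWithin_le
      (f := fun s => X ok (N-M) 0 s) (f' := fun s => -(Ex ok (N-M) sm 0 s))
      (C := ((N:ℝ)+1)^4)
      (fun v _ => (X_deriv_t ok (N-M) 0 v).hasDerivWithinAt) (fun v hv => by
        have Exnn : 0 ≤ Ex ok (N-M) sm 0 v := by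
          unfold Ex
          apply div_nonneg
          · exact Finset.sum_nonneg (fun S _ => mul_nonneg (sm_nonneg S) (Real.exp_pos _).le)
          · exact Finset.sum_nonneg (fun S _ => (Real.exp_pos _).le)
        rw [Real.norm_eq_abs, abs_neg, abs_of_nonneg Exnn]
        refine (Ex_sm_le ok (N-M) (u := 0) hv.1).trans ?_
        rw [neg_zero, Real.exp_zero, mul_one]
        exact (npow_le (N-M)).2.1.trans hp) (Set.left_mem_Icc.mpr ht.le)
        (Set.right_mem_Icc.mpr ht.le)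
    rw [Real.norm_eq_abs, Real.norm_eq_abs, sub_zero, abs_of_pos ht] at h
    exact h
  have e : GN ok M N t - (w1 - w2) / t - (o1 - o2 + X ok (N-M) 0 0) =
      (W ok M N t - w1 / t - o1) + (-(W ok M (N-M) t - w2 / t - o2)) +
      (X ok (N-M) 0 t - X ok (N-M) 0 0) := by
    unfold GN; ring
  rw [e]
  refine (abs_add_three _ _ _).trans ?_
  rw [abs_neg]
  have hMM : 0 ≤ 2 * (1 + (M:ℝ))^2 := by positivity
  have a4 : 2 * (1 + (M:ℝ))^2 * (((N - M : ℕ):ℝ)+1)^4 * t ≤ 2 * (1 + (M:ℝ))^2 * ((N:ℝ)+1)^4 * t := by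
    apply mul_le_mul_of_nonneg_right _ ht.le
    exact mul_le_mul_of_nonneg_left hp hMM
  calc _ ≤ 2 * (1 + (M:ℝ))^2 * ((N:ℝ)+1)^4 * t + 2 * (1 + (M:ℝ))^2 * ((N:ℝ)+1)^4 * t +
        ((N:ℝ)+1)^4 * t := add_le_add (add_le_add a1 (a2.trans a4)) a3
    _ = _ := by ring

lemma poly_exp_bound {κ : ℝ} (hκ0 : 0 < κ) (hκ1 : κ < 1) (M : ℕ) :
    ∃ B : ℝ, 0 ≤ B ∧ ∀ N : ℕ, (((N + M : ℕ):ℝ)+1)^4 * κ^N ≤ B := by
  have h1 := tendsto_pow_const_mul_const_pow_of_abs_lt_one 4 (r := κ)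
    (by rw [abs_of_pos hκ0]; exact hκ1)
  obtain ⟨B, hB⟩ := h1.bddAbove_range
  have hB' : ∀ n : ℕ, (n:ℝ)^4 * κ^n ≤ B := fun n => hB ⟨n, rfl⟩
  have hB0 : 0 ≤ B := by
    have := hB' 0
    simpa using this
  refine ⟨B / κ^(M+1), by positivity, ?_⟩
  intro N
  rw [le_div_iff₀ (by positivity), mul_assoc, ← pow_add]
  have := hB' (N + M + 1)
  push_cast at this ⊢
  have e : N + (M + 1) = N + M + 1 := by ring
  rw [e]
  exact this

/-- Part II: the expansion -/
theorem fX_asymp {D M : ℕ} (hD : Range ok D) (hD1 : 1 ≤ D) (hM : Per ok M) (hM1 : 1 ≤ M) :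
    ∃ c C0 : ℝ, Tendsto (fun t => fX ok 0 t - c / t) (𝓝[>] 0) (𝓝 C0) := by
  obtain ⟨θ, K, h1, h2, h3, h4⟩ := GN_step ok hD hD1 hM hM1
  choose g γ hgγ using fun N => GN_asymp ok hM1 N
  set κ : ℝ := θ ^ ((1:ℝ)/4) with hκ
  have hκ0 : 0 < κ := Real.rpow_pos_of_pos h1 _
  have hκ1 : κ < 1 := Real.rpow_lt_one h1.le h2 (by norm_num)
  have hκ4 : κ^4 = θ := by
    rw [hκ, ← Real.rpow_natCast, ← Real.rpow_mul h1.le]
    norm_num
  obtain ⟨B, hB0, hB⟩ := poly_exp_bound hκ0 hκ1 M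
  set C : ℝ := (4 * (1 + M)^2 + 1) with hC
  have hC0 : 0 ≤ C := by positivity
  apply comb (F := fun t => fX ok 0 t) (g := fun N => g (N + M)) (γ := fun N => γ (N + M))
    (κ := κ) (K := C * B + K) hκ0 hκ1 (by positivity)
  intro N t ht ht1
  have a1 := h4 t ht ht1 (N + M) (by omega)
  have a2 := hgγ (N + M) t ht ht1
  have e : fX ok 0 t - g (N+M) / t - γ (N+M) = (fX ok 0 t - GN ok M (N+M) t) +
    (GN ok M (N+M) t - g (N+M) / t - γ (N+M)) := by ring
  rw [e]
  refine (abs_add_le _ _).trans ?_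
  have b1 : K * θ^(N+M) / t ≤ K * (κ^(4*N) / t) := by
    rw [mul_div_assoc]
    apply mul_le_mul_of_nonneg_left _ h3.le
    apply div_le_div_of_nonneg_right _ ht.le
    rw [pow_mul, hκ4]
    exact pow_le_pow_of_le_one h1.le h2.le (by omega)
  have b2 : C * (((N + M : ℕ):ℝ)+1)^4 * t ≤ C * B * (t / κ^N) := by
    have := hB N
    have hpos : 0 < κ^N := by positivity
    have h5 : (((N + M : ℕ):ℝ)+1)^4 ≤ B / κ^N := by rwa [le_div_iff₀ hpos]
    calc C * (((N + M : ℕ):ℝ)+1)^4 * t ≤ C * (B / κ^N) * t := by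
          apply mul_le_mul_of_nonneg_right _ ht.le
          exact mul_le_mul_of_nonneg_left h5 hC0
      _ = _ := by ring
  have b3 : 0 ≤ t / κ^N := by positivity
  have b4 : 0 ≤ κ^(4*N) / t := by positivity
  have b5 : 0 ≤ C * B := by positivity
  calc _ ≤ K * (κ^(4*N) / t) + C * B * (t / κ^N) := add_le_add (a1.trans b1) (a2.trans b2)
    _ ≤ (C * B + K) * (t / κ^N + κ^(4*N) / t) := by nlinarith [mul_nonneg b5 b4, mul_nonneg h3.le b3]

end model

end Pool.Agent.Helper59.HC
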