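import Mathlib
import Pool.Agent.Helper59.HC4

set_option autoImplicit false

/-! The model with finitely many excluded sites, and its generating function. -/

namespace Pool.Agent.Helper59.HC

open Set MeasureTheory Filter Topology

section gen

variable (ok : ℕ → ℕ → Prop)

lemma logR_succ_le (x : ℕ → ℝ) (hx : ∀ i, 0 ≤ x i) (N : ℕ) :
    Real.log (R ok x (N+1) 0 ∅) ≤ Real.log (R ok x N 0 ∅) + x N := by
  have h := (R_last ok _ hx N 0 ∅).2
  have hp := R_pos ok _ hx N 0 ∅
  have hp' := R_pos ok _ hx (N+1) 0 ∅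
  rw [zero_add] at h
  have h1 := Real.log_le_log hp' h
  rw [Real.log_mul (by linarith [hx N]) hp.ne'] at h1
  have h2 := Real.log_le_sub_one_of_pos (x := 1 + x N) (by linarith [hx N])
  linarith

lemma logR_le_sum (x : ℕ → ℝ) (hx : ∀ i, 0 ≤ x i) (N : ℕ) :
    Real.log (R ok x N 0 ∅) ≤ ∑ i ∈ Finset.range N, x i := by
  induction N with
  | zero => simp [R]
  | succ N ih =>
    rw [Finset.sum_range_succ]
    linarith [logR_succ_le ok x hx N]

open scoped Classical in
/-- real weights with excluded set -/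
noncomputable def mw (E : Finset ℕ) (t : ℝ) (i : ℕ) : ℝ := if i ∈ E then 0 else Real.exp (-(i * t))

lemma mw_nonneg (E : Finset ℕ) (t : ℝ) (i : ℕ) : 0 ≤ mw E t i := by
  unfold mw; split_ifs
  · exact le_rfl
  · exact (Real.exp_pos _).le

lemma mw_le (E : Finset ℕ) (t : ℝ) (i : ℕ) : mw E t i ≤ wt 0 t i := by
  unfold mw wt; split_ifs
  · exact (Real.exp_pos _).le
  · rw [zero_add]

lemma mw_le_one (E : Finset ℕ) {t : ℝ} (ht : 0 ≤ t) (i : ℕ) : mw E t i ≤ 1 :=
  (mw_le E t i).trans (wt_le_one le_rfl ht i)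

/-- logarithm of the partition function with excluded set -/
noncomputable def Y (E : Finset ℕ) (N : ℕ) (t : ℝ) : ℝ := Real.log (R ok (mw E t) N 0 ∅)

lemma Y_mono (E : Finset ℕ) (N : ℕ) (t : ℝ) : Y ok E N t ≤ Y ok E (N+1) t :=
  Real.log_le_log (R_pos ok _ (mw_nonneg E t) _ _ _) (R_last ok _ (mw_nonneg E t) N 0 ∅).1

lemma wt_sum_le (N : ℕ) {t : ℝ} (ht : 0 < t) :
    ∑ i ∈ Finset.range N, wt 0 t i ≤ 1 / (1 - Real.exp (-t)) := by
  have h1 : Real.exp (-t) < 1 := Real.exp_lt_one_iff.mpr (by linarith)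
  have h2 : ∀ i ∈ Finset.range N, wt 0 t i = (Real.exp (-t))^i := by
    intro i _
    unfold wt
    rw [← Real.exp_nat_mul]
    congr 1; ring
  rw [Finset.sum_congr rfl h2]
  have h3 := geom_sum_eq h1.ne N
  have h4 : ∑ i ∈ Finset.range N, Real.exp (-t)^i =
      (1 - Real.exp (-t)^N) / (1 - Real.exp (-t)) := by
    rw [h3, ← neg_sub (Real.exp (-t)) 1, ← neg_sub ((Real.exp (-t))^N) 1, neg_div_neg_eq]
  rw [h4]
  apply div_le_div_of_nonneg_right _ (by linarith)
  have : 0 ≤ Real.exp (-t)^N := by positivity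
  linarith

lemma Y_le (E : Finset ℕ) (N : ℕ) {t : ℝ} (ht : 0 < t) : Y ok E N t ≤ 1 / (1 - Real.exp (-t)) := by
  refine (logR_le_sum ok _ (mw_nonneg E t) N).trans (le_trans ?_ (wt_sum_le N ht))
  exact Finset.sum_le_sum (fun i _ => mw_le E t i)

/-- limit -/
noncomputable def FE (E : Finset ℕ) (t : ℝ) : ℝ := ⨆ N, Y ok E N t

lemma FE_tendsto (E : Finset ℕ) {t : ℝ} (ht : 0 < t) :
    Tendsto (fun N => Y ok E N t) atTop (𝓝 (FE ok E t)) := by
  apply tendsto_atTop_ciSup
  · exact monotone_nat_of_le_succ (fun N => Y_mono ok E N t)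
  · refine ⟨1 / (1 - Real.exp (-t)), ?_⟩
    rintro _ ⟨N, rfl⟩
    exact Y_le ok E N ht

lemma R_congr {𝕜 : Type*} [CommSemiring 𝕜] (x y : ℕ → 𝕜) (k m : ℕ) (τ : Finset ℕ)
    (h : ∀ i, m ≤ i → x i = y i) : R ok x k m τ = R ok y k m τ := by
  induction k generalizing m τ with
  | zero => rfl
  | succ k ih =>
    rw [R_succ, R_succ, ih (m+1) τ (fun i hi => h i (by omega)),
      ih (m+1) (insert m τ) (fun i hi => h i (by omega)), h m le_rfl]

lemma R_cont (x : ℝ → ℕ → ℝ) (hx : ∀ i, Continuous (fun t => x t i)) (k m : ℕ) (τ : Finset ℕ) :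
    Continuous (fun t => R ok (x t) k m τ) := by
  induction k generalizing m τ with
  | zero => simp only [R]; exact continuous_const
  | succ k ih =>
    simp only [R_succ]
    apply (ih (m+1) τ).add
    by_cases h : ∀ a ∈ τ, ok a m
    · simp only [if_pos h]
      exact (hx m).mul (ih _ _)
    · simp only [if_neg h]
      exact continuous_const

lemma mw_cont (E : Finset ℕ) (i : ℕ) : Continuous (fun t => mw E t i) := by
  unfold mw
  by_cases h : i ∈ E
  · simp only [if_pos h]; exact continuous_const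
  · simp only [if_neg h]; fun_prop

lemma wt_cont (i : ℕ) : Continuous (fun t => wt 0 t i) := by
  unfold wt; fun_prop

lemma sigma_limit {D : ℕ} (hD : Range ok D) (hD1 : 1 ≤ D) (E : Finset ℕ) :
    ∃ σ0 : ℝ, Tendsto (fun t => FE ok E t - fX ok 0 t) (𝓝[>] 0) (𝓝 σ0) := by
  obtain ⟨L, hL⟩ : ∃ L : ℕ, ∀ i ∈ E, i < L := by
    refine ⟨E.sup id + 1, fun i hi => Nat.lt_succ_of_le (Finset.le_sup (f := id) hi)⟩
  obtain ⟨θ, K, h1, h2, h3, h4⟩ := forget ok hD hD1 L
  set s : ℕ → ℝ → ℝ := fun N t => Y ok E (N + L) t - X ok (N + L) 0 t with hs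
  have heq : ∀ t i, L ≤ i → mw E t i = wt 0 t i := by
    intro t i hi
    unfold mw wt
    rw [if_neg (fun h => absurd (hL i h) (by omega)), zero_add]
  have hstep : ∀ t, 0 ≤ t → ∀ n, dist (s n t) (s (n+1) t) ≤ (2 * K) * θ^n := by
    intro t ht n
    have a1 := h4 (mw E t) (mw_nonneg E t) (mw_le_one E ht) (n + L) (by omega)
    have a2 := h4 (wt 0 t) (wt_nonneg 0 t) (wt_le_one le_rfl ht) (n + L) (by omega)
    have e1 : R ok (mw E t) (n + L + 1 - L) L ∅ = R ok (wt 0 t) (n + L + 1 - L) L ∅ :=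
      R_congr ok _ _ _ _ _ (heq t)
    have e2 : R ok (mw E t) (n + L - L) L ∅ = R ok (wt 0 t) (n + L - L) L ∅ :=
      R_congr ok _ _ _ _ _ (heq t)
    rw [e1, e2] at a1
    have b1 : K * θ^(n+L) * mw E t (n+L) ≤ K * θ^n := by
      have c1 := mw_le_one E ht (n+L)
      have c2 : θ^(n+L) ≤ θ^n := pow_le_pow_of_le_one h1.le h2.le (by omega)
      have c3 := mw_nonneg E t (n+L)
      calc K * θ^(n+L) * mw E t (n+L) ≤ K * θ^(n+L) * 1 :=
            mul_le_mul_of_nonneg_left c1 (by positivity)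
        _ ≤ K * θ^n := by rw [mul_one]; exact mul_le_mul_of_nonneg_left c2 h3.le
    have b2 : K * θ^(n+L) * wt 0 t (n+L) ≤ K * θ^n := by
      have c1 := wt_le_one (u := 0) le_rfl ht (n+L)
      have c2 : θ^(n+L) ≤ θ^n := pow_le_pow_of_le_one h1.le h2.le (by omega)
      have c3 := wt_nonneg 0 t (n+L)
      calc K * θ^(n+L) * wt 0 t (n+L) ≤ K * θ^(n+L) * 1 :=
            mul_le_mul_of_nonneg_left c1 (by positivity)
        _ ≤ K * θ^n := by rw [mul_one]; exact mul_le_mul_of_nonneg_left c2 h3.le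
    have a1' := abs_le.mp (a1.trans b1)
    have a2' := abs_le.mp (a2.trans b2)
    rw [dist_comm, Real.dist_eq]
    simp only [hs]
    unfold Y X
    have e3 : n + 1 + L = n + L + 1 := by ring
    rw [e3, abs_le]
    constructor <;> linarith [a1'.1, a1'.2, a2'.1, a2'.2]
  -- limit at each t ≥ 0
  have hlim : ∀ t, 0 ≤ t → ∃ l, Tendsto (fun n => s n t) atTop (𝓝 l) := fun t ht =>
    cauchySeq_tendsto_of_complete (cauchySeq_of_le_geometric _ _ h2 (hstep t ht))
  obtain ⟨σ0, hσ0⟩ := hlim 0 le_rfl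
  refine ⟨σ0, ?_⟩
  have hpos : ∀ t, 0 < t → Tendsto (fun n => s n t) atTop (𝓝 (FE ok E t - fX ok 0 t)) := by
    intro t ht
    exact ((FE_tendsto ok E ht).comp (tendsto_add_atTop_nat L)).sub
      ((fX_tendsto ok ht).comp (tendsto_add_atTop_nat L))
  have hb0 : ∀ n, |s n 0 - σ0| ≤ 2 * K * θ^n / (1 - θ) := fun n => by
    have := dist_le_of_le_geometric_of_tendsto θ _ h2 (hstep 0 le_rfl) hσ0 n
    rwa [Real.dist_eq] at this
  have hbt : ∀ t, 0 < t → ∀ n, |s n t - (FE ok E t - fX ok 0 t)| ≤ 2 * K * θ^n / (1 - θ) := by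
    intro t ht n
    have := dist_le_of_le_geometric_of_tendsto θ _ h2 (hstep t ht.le) (hpos t ht) n
    rwa [Real.dist_eq] at this
  have hcont : ∀ n, Continuous (s n) := by
    intro n
    simp only [hs]
    unfold Y X
    apply Continuous.sub
    · exact (R_cont ok (fun t => mw E t) (mw_cont E) _ _ _).log
        (fun t => (R_pos ok _ (mw_nonneg E t) _ _ _).ne')
    · exact (R_cont ok (fun t => wt 0 t) wt_cont _ _ _).log
        (fun t => (R_pos ok _ (wt_nonneg 0 t) _ _ _).ne')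
  rw [Metric.tendsto_nhdsWithin_nhds]
  intro ε hε
  have hθ' : 0 < 1 - θ := by linarith
  have hg : Tendsto (fun n : ℕ => 2 * K * θ^n / (1 - θ)) atTop (𝓝 0) := by
    have := ((tendsto_pow_atTop_nhds_zero_of_lt_one h1.le h2).const_mul (2 * K)).div_const (1 - θ)
    simpa using this
  obtain ⟨n, hn⟩ := (hg.eventually (gt_mem_nhds (by linarith : 0 < ε/3))).exists
  have hc := Metric.continuous_iff.mp (hcont n) 0 (ε/3) (by linarith)
  obtain ⟨δ, hδ, hc⟩ := hc
  refine ⟨δ, hδ, ?_⟩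
  intro t ht htd
  have q1 := hc t htd
  rw [Real.dist_eq] at q1 ⊢
  have q2 := hbt t ht n
  have q3 := hb0 n
  have e : FE ok E t - fX ok 0 t - σ0 = -(s n t - (FE ok E t - fX ok 0 t)) + (s n t - s n 0) +
    (s n 0 - σ0) := by ring
  rw [e]
  refine lt_of_le_of_lt (abs_add_three _ _ _) ?_
  rw [abs_neg]
  linarith

lemma fX_lower {D : ℕ} (hD : Range ok D) (hD1 : 1 ≤ D) {t : ℝ} (ht : 0 < t) :
    Real.log (1 + Real.exp (-1)) / D ≤ t * fX ok 0 t := by
  have hDpos : (0:ℝ) < D := by exact_mod_cast hD1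
  -- lower bound for X (n D)
  have key : ∀ n m : ℕ, ∀ x : ℕ → ℝ, (∀ i, 0 ≤ x i) →
      ∑ j ∈ Finset.range n, Real.log (1 + x (m + j * D)) ≤ Real.log (R ok x (n * D) m ∅) := by
    intro n
    induction n with
    | zero => intro m x hx; simp [R]
    | succ n ih =>
      intro m x hx
      have h1 := R_free ok x hD hD1 hx (n * D) m
      have h2 := ih (m + D) x hx
      have hp := R_pos ok x hx (n * D) (m + D) ∅
      have h3 : Real.log ((1 + x m) * R ok x (n*D) (m+D) ∅) ≤ Real.log (R ok x (n*D + D) m ∅) :=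
        Real.log_le_log (mul_pos (by linarith [hx m]) hp) h1
      rw [Real.log_mul (by linarith [hx m]) hp.ne'] at h3
      rw [Finset.sum_range_succ']
      have e : (n+1) * D = n * D + D := by ring
      rw [e]
      have e2 : ∀ j, m + (j+1) * D = m + D + j * D := fun j => by ring
      simp only [e2, zero_mul, add_zero]
      linarith
  set n := ⌊1 / (D * t)⌋₊ + 1 with hn
  have h1 := key n 0 (wt 0 t) (wt_nonneg 0 t)
  have hn1 : 1 / (D * t) ≤ n := by
    rw [hn]; push_cast; exact (Nat.lt_floor_add_one _).le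
  have h2 : (n:ℝ) * Real.log (1 + Real.exp (-1)) ≤ ∑ j ∈ Finset.range n, Real.log (1 + wt 0 t (0 + j * D)) := by
    have : ∑ j ∈ Finset.range n, Real.log (1 + Real.exp (-1)) = (n:ℝ) * Real.log (1 + Real.exp (-1)) := by
      simp
    rw [← this]
    apply Finset.sum_le_sum
    intro j hj
    have hj' : j ≤ ⌊1 / (D * t)⌋₊ := by
      have := Finset.mem_range.mp hj
      omega
    have hj2 : (j:ℝ) ≤ 1 / (D * t) := (Nat.cast_le.mpr hj').trans (Nat.floor_le (by positivity))
    rw [le_div_iff₀ (by positivity)] at hj2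
    apply Real.log_le_log (by positivity)
    have : Real.exp (-1) ≤ wt 0 t (0 + j * D) := by
      unfold wt
      apply Real.exp_le_exp.mpr
      push_cast
      nlinarith
    linarith
  have h3 : X ok (n * D) 0 t ≤ fX ok 0 t := by
    have hmono : Monotone (fun N => X ok N 0 t) := monotone_nat_of_le_succ (fun N => X_mono ok N 0 t)
    exact hmono.ge_of_tendsto (fX_tendsto ok ht) _
  have hlogpos : 0 < Real.log (1 + Real.exp (-1)) := by
    apply Real.log_pos
    linarith [Real.exp_pos (-1)]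
  have h4 : 1 / (D * t) * Real.log (1 + Real.exp (-1)) ≤ fX ok 0 t := by
    calc _ ≤ (n:ℝ) * Real.log (1 + Real.exp (-1)) := mul_le_mul_of_nonneg_right hn1 hlogpos.le
      _ ≤ _ := h2
      _ ≤ X ok (n * D) 0 t := h1
      _ ≤ _ := h3
  calc Real.log (1 + Real.exp (-1)) / D = t * (1 / (D * t) * Real.log (1 + Real.exp (-1))) := by
        field_simp
    _ ≤ _ := mul_le_mul_of_nonneg_left h4 ht.le

/-- the expansion for the model with excluded sites -/
theorem FE_asymp {D M : ℕ} (hD : Range ok D) (hD1 : 1 ≤ D) (hM : Per ok M) (hM1 : 1 ≤ M)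
    (E : Finset ℕ) :
    ∃ c C0 : ℝ, 0 < c ∧ Tendsto (fun t => FE ok E t - c / t) (𝓝[>] 0) (𝓝 C0) := by
  obtain ⟨c, C1, h1⟩ := fX_asymp ok hD hD1 hM hM1
  obtain ⟨σ0, h2⟩ := sigma_limit ok hD hD1 E
  have hDpos : (0:ℝ) < D := by exact_mod_cast hD1
  refine ⟨c, C1 + σ0, ?_, ?_⟩
  · have h3 : Tendsto (fun t : ℝ => t * (fX ok 0 t - c / t)) (𝓝[>] 0) (𝓝 (0 * C1)) := by
      apply Tendsto.mul _ h1
      exact tendsto_nhdsWithin_of_tendsto_nhds tendsto_id
    rw [zero_mul] at h3
    have h4 : Tendsto (fun t : ℝ => t * fX ok 0 t) (𝓝[>] 0) (𝓝 (0 + c)) := by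
      have h5 := h3.add_const c
      refine h5.congr' ?_
      filter_upwards [self_mem_nhdsWithin] with t ht
      have ht0 : (0:ℝ) < t := ht
      field_simp
      ring
    rw [zero_add] at h4
    have h6 : Real.log (1 + Real.exp (-1)) / D ≤ c := by
      apply ge_of_tendsto h4
      filter_upwards [self_mem_nhdsWithin] with t ht
      exact fX_lower ok hD hD1 ht
    have hlogpos : 0 < Real.log (1 + Real.exp (-1)) := by
      apply Real.log_pos
      linarith [Real.exp_pos (-1)]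
    exact lt_of_lt_of_le (by positivity) h6
  · have := h1.add h2
    refine this.congr ?_
    intro t
    ring

end gen

section genfun

open scoped Classical

variable (ok : ℕ → ℕ → Prop) (E : Finset ℕ)

/-- admissible sets below N avoiding E -/
noncomputable def AS (N : ℕ) : Finset (Finset ℕ) := (Adm ok N).filter (fun S => ∀ i ∈ S, i ∉ E)

/-- number of those with a given sum -/
noncomputable def BN (N n : ℕ) : ℕ := ((AS ok E N).filter (fun S => ∑ i ∈ S, i = n)).card

/-- number of admissible sets with a given sum -/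
noncomputable def Bn (n : ℕ) : ℕ := BN ok E (n+1) n

lemma mem_AS {N : ℕ} {S : Finset ℕ} : S ∈ AS ok E N ↔
    (S ⊆ Finset.range N ∧ (∀ a ∈ S, ∀ c ∈ S, a < c → ok a c)) ∧ ∀ i ∈ S, i ∉ E := by
  unfold AS Adm
  rw [Finset.mem_filter, Finset.mem_filter, Finset.mem_powerset]

lemma BN_sub {N n : ℕ} : (AS ok E N).filter (fun S => ∑ i ∈ S, i = n) ⊆
    (AS ok E (n+1)).filter (fun S => ∑ i ∈ S, i = n) := by
  intro S hS
  rw [Finset.mem_filter, mem_AS] at *
  obtain ⟨⟨⟨h1, h2⟩, h3⟩, h4⟩ := hS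
  refine ⟨⟨⟨?_, h2⟩, h3⟩, h4⟩
  intro i hi
  rw [Finset.mem_range]
  have : i ≤ ∑ j ∈ S, j := Finset.single_le_sum (f := fun j => j) (fun _ _ => Nat.zero_le _) hi
  omega

lemma BN_le (N n : ℕ) : BN ok E N n ≤ Bn ok E n := Finset.card_le_card (BN_sub ok E)

lemma BN_eq {N n : ℕ} (h : n < N) : BN ok E N n = Bn ok E n := by
  unfold Bn BN
  congr 1
  apply Finset.Subset.antisymm (BN_sub ok E)
  intro S hS
  rw [Finset.mem_filter, mem_AS] at *
  obtain ⟨⟨⟨h1, h2⟩, h3⟩, h4⟩ := hS
  refine ⟨⟨⟨?_, h2⟩, h3⟩, h4⟩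
  intro i hi
  have := Finset.mem_range.mp (h1 hi)
  rw [Finset.mem_range]
  omega

/-- complex weights -/
noncomputable def cw (s : ℂ) (i : ℕ) : ℂ := if i ∈ E then 0 else Complex.exp (-(i * s))

lemma norm_cw (s : ℂ) (i : ℕ) : ‖cw E s i‖ = mw E s.re i := by
  unfold cw mw
  split_ifs
  · simp
  · rw [Complex.norm_exp]
    simp

lemma prod_cw (s : ℂ) (S : Finset ℕ) :
    ∏ i ∈ S, cw E s i = if ∀ i ∈ S, i ∉ E then Complex.exp (-((∑ i ∈ S, i : ℕ) * s)) else 0 := by
  split_ifs with h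
  · have : ∀ i ∈ S, cw E s i = Complex.exp (-(i * s)) := fun i hi => by
      unfold cw; rw [if_neg (h i hi)]
    rw [Finset.prod_congr rfl this, ← Complex.exp_sum]
    congr 1
    rw [Finset.sum_neg_distrib, ← Finset.sum_mul]
    push_cast
    rfl
  · push Not at h
    obtain ⟨i, hi, hiE⟩ := h
    apply Finset.prod_eq_zero hi
    unfold cw
    rw [if_pos hiE]

lemma R_cw (s : ℂ) (N : ℕ) : R ok (cw E s) N 0 ∅ =
    ∑' n : ℕ, (BN ok E N n : ℂ) * Complex.exp (-(n * s)) := by
  rw [R_eq_Adm]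
  have h1 : ∑ S ∈ Adm ok N, ∏ i ∈ S, cw E s i =
      ∑ S ∈ AS ok E N, Complex.exp (-((∑ i ∈ S, i : ℕ) * s)) := by
    unfold AS
    rw [Finset.sum_filter]
    apply Finset.sum_congr rfl
    intro S _
    exact prod_cw E s S
  rw [h1]
  have hsum : ∀ S ∈ AS ok E N, ∑ i ∈ S, i ∈ Finset.range (N^2 + 1) := by
    intro S hS
    rw [mem_AS] at hS
    have h2 : ∑ i ∈ S, i ≤ ∑ i ∈ Finset.range N, i := Finset.sum_le_sum_of_subset hS.1.1
    have h3 : ∑ i ∈ Finset.range N, i ≤ ∑ i ∈ Finset.range N, N :=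
      Finset.sum_le_sum (fun i hi => (Finset.mem_range.mp hi).le)
    have h4 : ∑ i ∈ Finset.range N, N = N^2 := by simp [sq]
    rw [Finset.mem_range]
    omega
  rw [← Finset.sum_fiberwise_of_maps_to hsum]
  rw [tsum_eq_sum (s := Finset.range (N^2+1))]
  · apply Finset.sum_congr rfl
    intro n _
    have : ∀ S ∈ (AS ok E N).filter (fun S => ∑ i ∈ S, i = n),
        Complex.exp (-((∑ i ∈ S, i : ℕ) * s)) = Complex.exp (-(n * s)) := by
      intro S hS
      rw [(Finset.mem_filter.mp hS).2]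
    rw [Finset.sum_congr rfl this, Finset.sum_const, nsmul_eq_mul]
    rfl
  · intro n hn
    have : BN ok E N n = 0 := by
      unfold BN
      rw [Finset.card_eq_zero, Finset.filter_eq_empty_iff]
      intro S hS h
      exact hn (h ▸ hsum S hS)
    rw [this]
    simp

lemma R_ofReal (x : ℕ → ℝ) (k m : ℕ) (τ : Finset ℕ) :
    R ok (fun i => (x i : ℂ)) k m τ = ((R ok x k m τ : ℝ) : ℂ) := by
  induction k generalizing m τ with
  | zero => simp [R]
  | succ k ih =>
    rw [R_succ, R_succ, ih, ih]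
    push_cast
    split_ifs <;> simp

lemma R_mw (t : ℝ) (N : ℕ) : R ok (mw E t) N 0 ∅ =
    ∑' n : ℕ, (BN ok E N n : ℝ) * Real.exp (-(n * t)) := by
  have h := R_cw ok E (t : ℂ) N
  have h1 : cw E (t:ℂ) = fun i => (mw E t i : ℂ) := by
    funext i
    unfold cw mw
    split_ifs
    · simp
    · push_cast; rfl
  rw [h1, R_ofReal] at h
  have h2 : (∑' n : ℕ, (BN ok E N n : ℂ) * Complex.exp (-(n * (t:ℂ)))) =
      ((∑' n : ℕ, (BN ok E N n : ℝ) * Real.exp (-(n * t)) : ℝ) : ℂ) := by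
    rw [Complex.ofReal_tsum]
    congr 1
    funext n
    push_cast
    rfl
  rw [h2] at h
  exact_mod_cast h

lemma Bn_summable {t : ℝ} (ht : 0 < t) : Summable (fun n : ℕ => (Bn ok E n : ℝ) * Real.exp (-(n * t))) := by
  apply summable_of_sum_range_le (c := Real.exp (1 / (1 - Real.exp (-t))))
  · intro n; positivity
  · intro N
    have h1 : ∑ n ∈ Finset.range N, (Bn ok E n : ℝ) * Real.exp (-(n * t)) ≤ R ok (mw E t) N 0 ∅ := by
      rw [R_mw]
      have h2 : ∑ n ∈ Finset.range N, (Bn ok E n : ℝ) * Real.exp (-(n * t)) =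
          ∑ n ∈ Finset.range N, (BN ok E N n : ℝ) * Real.exp (-(n * t)) := by
        apply Finset.sum_congr rfl
        intro n hn
        rw [BN_eq ok E (Finset.mem_range.mp hn)]
      rw [h2]
      apply Summable.sum_le_tsum
      · intro n _; positivity
      · apply summable_of_ne_finset_zero (s := Finset.range (N^2+1))
        intro n hn
        have : BN ok E N n = 0 := by
          unfold BN
          rw [Finset.card_eq_zero, Finset.filter_eq_empty_iff]
          intro S hS h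
          apply hn
          rw [mem_AS] at hS
          have h2 : ∑ i ∈ S, i ≤ ∑ i ∈ Finset.range N, i := Finset.sum_le_sum_of_subset hS.1.1
          have h3 : ∑ i ∈ Finset.range N, i ≤ ∑ i ∈ Finset.range N, N :=
            Finset.sum_le_sum (fun i hi => (Finset.mem_range.mp hi).le)
          have h4 : ∑ i ∈ Finset.range N, N = N^2 := by simp [sq]
          rw [Finset.mem_range]
          omega
        rw [this]; simp
    refine h1.trans ?_
    have h3 := Y_le ok E N ht
    unfold Y at h3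
    have hp := R_pos ok _ (mw_nonneg E t) N 0 ∅
    rw [Real.log_le_iff_le_exp hp] at h3
    exact h3

/-- the generating function -/
noncomputable def G (s : ℂ) : ℂ := ∑' n : ℕ, (Bn ok E n : ℂ) * Complex.exp (-(n * s))

/-- the generating function on the real axis -/
noncomputable def Gr (t : ℝ) : ℝ := ∑' n : ℕ, (Bn ok E n : ℝ) * Real.exp (-(n * t))

lemma norm_term (n : ℕ) (s : ℂ) : ‖(Bn ok E n : ℂ) * Complex.exp (-(n * s))‖ =
    (Bn ok E n : ℝ) * Real.exp (-(n * s.re)) := by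
  rw [norm_mul, Complex.norm_natCast, Complex.norm_exp]
  simp

lemma G_tendsto {s : ℂ} (hs : 0 < s.re) :
    Tendsto (fun N => R ok (cw E s) N 0 ∅) atTop (𝓝 (G ok E s)) := by
  have e : (fun N => R ok (cw E s) N 0 ∅) =
      fun N => ∑' n : ℕ, (BN ok E N n : ℂ) * Complex.exp (-(n * s)) := by
    funext N; exact R_cw ok E s N
  rw [e]
  apply tendsto_tsum_of_dominated_convergence (Bn_summable ok E hs)
  · intro n
    apply tendsto_const_nhds.congr'
    filter_upwards [eventually_gt_atTop n] with N hN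
    rw [BN_eq ok E hN]
  · apply Eventually.of_forall
    intro N n
    rw [norm_mul, Complex.norm_natCast, Complex.norm_exp]
    have h1 : (-(n * s)).re = -(n * s.re) := by simp
    rw [h1]
    apply mul_le_mul_of_nonneg_right _ (Real.exp_pos _).le
    exact_mod_cast BN_le ok E N n

lemma G_ofReal (t : ℝ) : G ok E (t : ℂ) = (Gr ok E t : ℂ) := by
  unfold G Gr
  rw [Complex.ofReal_tsum]
  congr 1
  funext n
  push_cast
  rfl

lemma Gr_tendsto {t : ℝ} (ht : 0 < t) :
    Tendsto (fun N => R ok (mw E t) N 0 ∅) atTop (𝓝 (Gr ok E t)) := by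
  have h := G_tendsto ok E (s := (t:ℂ)) (by simpa using ht)
  rw [G_ofReal] at h
  have h1 : cw E (t:ℂ) = fun i => (mw E t i : ℂ) := by
    funext i
    unfold cw mw
    split_ifs
    · simp
    · push_cast; rfl
  rw [h1] at h
  simp only [R_ofReal] at h
  have h2 := (Complex.continuous_re.tendsto _).comp h
  simpa [Function.comp_def] using h2

lemma Gr_eq {t : ℝ} (ht : 0 < t) : Gr ok E t = Real.exp (FE ok E t) := by
  have h1 := Gr_tendsto ok E ht
  have h2 := (Real.continuous_exp.tendsto _).comp (FE_tendsto ok E ht)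
  have h3 : (fun N => R ok (mw E t) N 0 ∅) = Real.exp ∘ (fun N => Y ok E N t) := by
    funext N
    simp only [Function.comp]
    unfold Y
    rw [Real.exp_log (R_pos ok _ (mw_nonneg E t) _ _ _)]
  rw [h3] at h1
  exact tendsto_nhds_unique h1 h2

end genfun

end Pool.Agent.Helper59.HC
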