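import Mathlib
import Pool.Agent.Helper59.HC5

set_option autoImplicit false

/-! Bound for the generating function off the real axis. -/

namespace Pool.Agent.Helper59.HC

open Set MeasureTheory Filter Topology

section cb

open scoped Classical

variable (ok : ℕ → ℕ → Prop) (z : ℕ → ℂ)

lemma cb_prop {ρ : ℝ} (k j m : ℕ)
    (h : ∀ σ : Finset ℕ, (∀ a ∈ σ, a < m + j) →
      ‖R ok z k (m+j) σ‖ ≤ ρ * R ok (fun i => ‖z i‖) k (m+j) σ)
    (τ : Finset ℕ) (hτ : ∀ a ∈ τ, a < m) :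
    ‖R ok z (k+j) m τ - R ok z k (m+j) τ‖ ≤
      ρ * (R ok (fun i => ‖z i‖) (k+j) m τ - R ok (fun i => ‖z i‖) k (m+j) τ) ∧
    ‖R ok z (k+j) m τ‖ ≤ ρ * R ok (fun i => ‖z i‖) (k+j) m τ := by
  have main : ∀ j m, (∀ σ : Finset ℕ, (∀ a ∈ σ, a < m + j) →
      ‖R ok z k (m+j) σ‖ ≤ ρ * R ok (fun i => ‖z i‖) k (m+j) σ) →
      ∀ τ : Finset ℕ, (∀ a ∈ τ, a < m) → ‖R ok z (k+j) m τ - R ok z k (m+j) τ‖ ≤
      ρ * (R ok (fun i => ‖z i‖) (k+j) m τ - R ok (fun i => ‖z i‖) k (m+j) τ) := by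
    intro j
    induction j with
    | zero => intro m _ τ _; simp
    | succ j ih =>
      intro m h τ hτ
      have e : m + (j+1) = (m+1) + j := by ring
      rw [e] at h ⊢
      have h1 := ih (m+1) h τ (fun a ha => (hτ a ha).trans (Nat.lt_succ_self m))
      have hins : ∀ a ∈ insert m τ, a < m + 1 := fun a ha => by
        rcases Finset.mem_insert.mp ha with rfl | ha
        · exact Nat.lt_succ_self _
        · exact (hτ a ha).trans (Nat.lt_succ_self m)
      have h2 := ih (m+1) h (insert m τ) hins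
      have h3 := h (insert m τ) (fun a ha => by have := hins a ha; omega)
      have h4 : ‖R ok z (k+j) (m+1) (insert m τ)‖ ≤
          ρ * R ok (fun i => ‖z i‖) (k+j) (m+1) (insert m τ) := by
        have e5 : R ok z (k+j) (m+1) (insert m τ) =
          (R ok z (k+j) (m+1) (insert m τ) - R ok z k (m+1+j) (insert m τ)) +
            R ok z k (m+1+j) (insert m τ) := by ring
        rw [e5]
        refine (norm_add_le _ _).trans ?_
        linarith
      have e1 : R ok z (k+(j+1)) m τ = _ := R_succ ok z (k+j) m τ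
      have e2 : R ok (fun i => ‖z i‖) (k+(j+1)) m τ = _ := R_succ ok (fun i => ‖z i‖) (k+j) m τ
      rw [e1, e2]
      by_cases hc : ∀ a ∈ τ, ok a m
      · rw [if_pos hc, if_pos hc]
        have e3 : R ok z (k + j) (m + 1) τ + z m * R ok z (k + j) (m + 1) (insert m τ) -
            R ok z k (m + 1 + j) τ = (R ok z (k + j) (m + 1) τ - R ok z k (m + 1 + j) τ) +
            z m * R ok z (k + j) (m + 1) (insert m τ) := by ring
        rw [e3]
        refine (norm_add_le _ _).trans ?_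
        rw [norm_mul]
        have := mul_le_mul_of_nonneg_left h4 (norm_nonneg (z m))
        linarith
      · rw [if_neg hc, if_neg hc, add_zero, add_zero]
        exact h1
  have h1 := main j m h τ hτ
  refine ⟨h1, ?_⟩
  have h3 := h τ (fun a ha => by have := hτ a ha; omega)
  have e5 : R ok z (k+j) m τ = (R ok z (k+j) m τ - R ok z k (m+j) τ) + R ok z k (m+j) τ := by ring
  rw [e5]
  refine (norm_add_le _ _).trans ?_
  linarith

/-- deficit -/
noncomputable def eta (i : ℕ) : ℝ := 1 + ‖z i‖ - ‖1 + z i‖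

lemma eta_nonneg (i : ℕ) : 0 ≤ eta z i := by
  unfold eta
  have := norm_add_le (1:ℂ) (z i)
  rw [norm_one] at this
  linarith

lemma eta_le (i : ℕ) (h : ‖z i‖ ≤ 1) : eta z i ≤ 2 := by
  unfold eta
  have := norm_nonneg (1 + z i)
  linarith

lemma cb_site {D : ℕ} (hD : Range ok D) (hD1 : 1 ≤ D) {ρ : ℝ} (k i : ℕ)
    (h : ∀ σ : Finset ℕ, (∀ a ∈ σ, a < i + D) →
      ‖R ok z k (i+D) σ‖ ≤ ρ * R ok (fun i => ‖z i‖) k (i+D) σ) :
    ‖R ok z (k+D) i ∅‖ ≤ ρ * (R ok (fun i => ‖z i‖) (k+D) i ∅ -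
      eta z i * R ok (fun i => ‖z i‖) k (i+D) ∅) := by
  obtain ⟨d, rfl⟩ : ∃ d, D = d + 1 := ⟨D - 1, by omega⟩
  have e0 : i + (d+1) = (i+1) + d := by ring
  rw [e0] at h ⊢
  have h1 := (cb_prop ok z k d (i+1) h ∅ (by simp)).1
  have h2 := (cb_prop ok z k d (i+1) h {i} (by simp)).1
  have hfz : R ok z k (i+1+d) {i} = R ok z k (i+1+d) ∅ := R_far ok hD z k _ {i} (by
    intro a ha; rw [Finset.mem_singleton] at ha; omega)
  have hfx : R ok (fun i => ‖z i‖) k (i+1+d) {i} = R ok (fun i => ‖z i‖) k (i+1+d) ∅ :=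
    R_far ok hD _ k _ {i} (by intro a ha; rw [Finset.mem_singleton] at ha; omega)
  rw [hfz, hfx] at h2
  have h3 := h ∅ (by simp)
  have e1 : R ok z (k + (d+1)) i ∅ = R ok z (k+d) (i+1) ∅ + z i * R ok z (k+d) (i+1) {i} := by
    have := R_succ ok z (k+d) i ∅
    rw [← add_assoc, this]; simp
  have e2 : R ok (fun i => ‖z i‖) (k + (d+1)) i ∅ = R ok (fun i => ‖z i‖) (k+d) (i+1) ∅ +
      ‖z i‖ * R ok (fun i => ‖z i‖) (k+d) (i+1) {i} := by
    have := R_succ ok (fun i => ‖z i‖) (k+d) i ∅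
    rw [← add_assoc, this]; simp
  rw [e1, e2]
  set T := R ok z k (i+1+d) ∅
  set T' := R ok (fun i => ‖z i‖) k (i+1+d) ∅
  set A := R ok z (k+d) (i+1) ∅
  set B := R ok z (k+d) (i+1) {i}
  have e3 : A + z i * B = (1 + z i) * T + (A - T) + z i * (B - T) := by ring
  rw [e3]
  have h4 : ‖(1 + z i) * T + (A - T) + z i * (B - T)‖ ≤ ‖1 + z i‖ * ‖T‖ + ‖A - T‖ +
      ‖z i‖ * ‖B - T‖ := by
    refine (norm_add_le _ _).trans ?_
    rw [norm_mul]
    have := norm_add_le ((1 + z i) * T) (A - T)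
    rw [norm_mul] at this
    linarith
  have h5 := mul_le_mul_of_nonneg_left h3 (norm_nonneg (1 + z i))
  have h6 := mul_le_mul_of_nonneg_left h2 (norm_nonneg (z i))
  unfold eta
  nlinarith

lemma cb_window {D : ℕ} (hD : Range ok D) (hD1 : 1 ≤ D) (hz : ∀ i, ‖z i‖ ≤ 1) {ρ : ℝ}
    (hρ : 0 ≤ ρ) (k m : ℕ)
    (h : ∀ σ : Finset ℕ, (∀ a ∈ σ, a < m + 2*D) →
      ‖R ok z k (m+2*D) σ‖ ≤ ρ * R ok (fun i => ‖z i‖) k (m+2*D) σ)
    (τ : Finset ℕ) (hτ : ∀ a ∈ τ, a < m) :
    ‖R ok z (k+2*D) m τ‖ ≤ ρ * (1 - (1/2)^(2*D) * eta z (m+D)) *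
      R ok (fun i => ‖z i‖) (k+2*D) m τ := by
  have hx : ∀ i, 0 ≤ ‖z i‖ := fun i => norm_nonneg _
  have e0 : m + 2*D = (m + D) + D := by ring
  have e1 : k + 2*D = (k + D) + D := by ring
  have h' := h
  rw [e0] at h'
  have h1 : ∀ σ : Finset ℕ, (∀ a ∈ σ, a < m + D) →
      ‖R ok z (k+D) (m+D) σ‖ ≤ ρ * R ok (fun i => ‖z i‖) (k+D) (m+D) σ := fun σ hσ =>
    (cb_prop ok z k D (m+D) h' σ hσ).2
  have h2 := (cb_prop ok z (k+D) D m h1 τ hτ).1
  have h3 := cb_site ok z hD hD1 k (m+D) h'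
  have hfar : ∀ a ∈ τ, a + D ≤ m + D := fun a ha => by have := hτ a ha; omega
  rw [R_far ok hD z (k+D) (m+D) τ hfar, R_far ok hD _ (k+D) (m+D) τ hfar] at h2
  rw [e1]
  set P := R ok z (k+D+D) m τ
  set P' := R ok (fun i => ‖z i‖) (k+D+D) m τ with hP'
  set Q := R ok z (k+D) (m+D) ∅
  set Q' := R ok (fun i => ‖z i‖) (k+D) (m+D) ∅
  set T' := R ok (fun i => ‖z i‖) k (m+D+D) ∅ with hT'
  have h4 : ‖P‖ ≤ ρ * (P' - eta z (m+D) * T') := by
    have : P = (P - Q) + Q := by ring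
    rw [this]
    refine (norm_add_le _ _).trans ?_
    linarith
  have h5 : (1/2)^(2*D) * P' ≤ T' := by
    have a1 := R_anti ok _ hx (k+D+D) m (Finset.empty_subset τ)
    have a2 := R_add_le ok _ hx hz k (2*D) m
    have e3 : k + 2*D = k+D+D := by ring
    have e4 : m + 2*D = m+D+D := by ring
    rw [e3, e4] at a2
    have a3 : P' ≤ 2^(2*D) * T' := a1.trans a2
    have a4 : (1/2:ℝ)^(2*D) * 2^(2*D) = 1 := by rw [← mul_pow]; norm_num
    calc (1/2)^(2*D) * P' ≤ (1/2)^(2*D) * (2^(2*D) * T') :=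
          mul_le_mul_of_nonneg_left a3 (by positivity)
      _ = ((1/2:ℝ)^(2*D) * 2^(2*D)) * T' := by ring
      _ = T' := by rw [a4, one_mul]
  have h6 := mul_le_mul_of_nonneg_left h5 (eta_nonneg z (m+D))
  have h7 : ρ * (P' - eta z (m+D) * T') ≤ ρ * (P' - eta z (m+D) * ((1/2)^(2*D) * P')) :=
    mul_le_mul_of_nonneg_left (by linarith) hρ
  refine h4.trans (h7.trans (le_of_eq ?_))
  ring

lemma cb_iter {D : ℕ} (hD : Range ok D) (hD1 : 1 ≤ D) (hz : ∀ i, ‖z i‖ ≤ 1) (l : ℕ) :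
    ∀ k m : ℕ, ∀ τ : Finset ℕ, (∀ a ∈ τ, a < m) →
    ‖R ok z (k + l*(2*D)) m τ‖ ≤
      Real.exp (-((1/2)^(2*D) * ∑ j ∈ Finset.range l, eta z (m + D + j*(2*D)))) *
      R ok (fun i => ‖z i‖) (k+l*(2*D)) m τ := by
  induction l with
  | zero =>
    intro k m τ hτ
    have h0 : ∀ k m : ℕ, ∀ τ : Finset ℕ, ‖R ok z k m τ‖ ≤ R ok (fun i => ‖z i‖) k m τ := by
      intro k
      induction k with
      | zero => intro m τ; simp [R]
      | succ k ih =>
        intro m τ
        rw [R_succ, R_succ]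
        refine (norm_add_le _ _).trans (add_le_add (ih _ _) ?_)
        split_ifs
        · rw [norm_mul]
          exact mul_le_mul_of_nonneg_left (ih _ _) (norm_nonneg _)
        · simp
    simpa using h0 k m τ
  | succ l ih =>
    intro k m τ hτ
    have e1 : k + (l+1)*(2*D) = (k + l*(2*D)) + 2*D := by ring
    have h1 := cb_window ok z hD hD1 hz (Real.exp_pos _).le (k + l*(2*D)) m
      (ih k (m+2*D)) τ hτ
    rw [e1]
    refine h1.trans ?_
    apply mul_le_mul_of_nonneg_right _ (R_nonneg ok _ (fun i => norm_nonneg _) _ _ _)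
    rw [Finset.sum_range_succ', zero_mul, add_zero, mul_add, neg_add, Real.exp_add]
    have e2 : ∀ j, m + 2*D + D + j*(2*D) = m + D + (j+1)*(2*D) := fun j => by ring
    simp only [e2]
    apply mul_le_mul_of_nonneg_left _ (Real.exp_pos _).le
    have := Real.add_one_le_exp (-((1/2)^(2*D) * eta z (m+D)))
    linarith

lemma double_sum (f : ℕ → ℝ) (P l : ℕ) :
    ∑ r ∈ Finset.range P, ∑ j ∈ Finset.range l, f (r + j*P) = ∑ i ∈ Finset.range (l*P), f i := by
  induction l with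
  | zero => simp
  | succ l ih =>
    have e : (l+1)*P = l*P + P := by ring
    rw [e, Finset.sum_range_add, ← ih, ← Finset.sum_add_distrib]
    apply Finset.sum_congr rfl
    intro r _
    rw [Finset.sum_range_succ, add_comm r (l*P)]

/-- the bound at finite level -/
lemma cb_final {D : ℕ} (hD : Range ok D) (hD1 : 1 ≤ D) (hz : ∀ i, ‖z i‖ ≤ 1) (l N : ℕ)
    (hN : (l+1)*(2*D) ≤ N) :
    ‖R ok z N 0 ∅‖ ≤ Real.exp (-((1/2)^(2*D) / (2*D) *
      ∑ i ∈ Finset.range (l*(2*D)), eta z (D + i))) * R ok (fun i => ‖z i‖) N 0 ∅ := by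
  have hDpos : (0:ℝ) < D := by exact_mod_cast hD1
  set a : ℕ → ℝ := fun r => ∑ j ∈ Finset.range l, eta z (r + D + j*(2*D)) with ha
  have h1 : ∀ r < 2*D, ‖R ok z N 0 ∅‖ ≤ Real.exp (-((1/2)^(2*D) * a r)) *
      R ok (fun i => ‖z i‖) N 0 ∅ := by
    intro r hr
    obtain ⟨k, hk⟩ : ∃ k, N = (k + l*(2*D)) + r := ⟨N - r - l*(2*D), by
      have : (l+1)*(2*D) = l*(2*D) + 2*D := by ring
      omega⟩
    have h2 := (cb_prop ok z (k + l*(2*D)) r 0 (ρ := Real.exp (-((1/2)^(2*D) * a r)))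
      (fun σ hσ => by
        have := cb_iter ok z hD hD1 hz l k (0 + r) σ hσ
        simpa [ha] using this) ∅ (by simp)).2
    rw [← hk] at h2
    exact h2
  have hne : (Finset.range (2*D)).Nonempty := ⟨0, Finset.mem_range.mpr (by omega)⟩
  obtain ⟨r, hr, hmax⟩ := Finset.exists_max_image (Finset.range (2*D)) a hne
  have h3 : ∑ i ∈ Finset.range (l*(2*D)), eta z (D + i) ≤ (2*D) * a r := by
    rw [← double_sum (fun i => eta z (D + i)) (2*D) l]
    calc ∑ r ∈ Finset.range (2*D), ∑ j ∈ Finset.range l, eta z (D + (r + j*(2*D)))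
        = ∑ r ∈ Finset.range (2*D), a r := by
          apply Finset.sum_congr rfl
          intro r _
          simp only [ha]
          apply Finset.sum_congr rfl
          intro j _
          congr 1; ring
      _ ≤ ∑ _r ∈ Finset.range (2*D), a r := Finset.sum_le_sum (fun i hi => hmax i hi)
      _ = (2*D) * a r := by simp
  refine (h1 r (Finset.mem_range.mp hr)).trans ?_
  apply mul_le_mul_of_nonneg_right _ (R_nonneg ok _ (fun i => norm_nonneg _) _ _ _)
  apply Real.exp_le_exp.mpr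
  rw [neg_le_neg_iff, div_mul_eq_mul_div, div_le_iff₀ (by positivity)]
  have := mul_le_mul_of_nonneg_left h3 (by positivity : (0:ℝ) ≤ (1/2)^(2*D))
  linarith

end cb

section bound

variable (ok : ℕ → ℕ → Prop) (E : Finset ℕ)

lemma eta_cw (s : ℂ) (i : ℕ) (hi : i ∉ E) (hs : 0 ≤ s.re) :
    Real.exp (-(i * s.re)) * (1 - Real.cos (i * s.im)) / 2 ≤ eta (cw E s) i := by
  have hx : ‖cw E s i‖ = Real.exp (-(i * s.re)) := by
    rw [norm_cw]; unfold mw; rw [if_neg hi]
  set x := Real.exp (-(i * s.re)) with hxdef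
  have hx0 : 0 < x := Real.exp_pos _
  have hx1 : x ≤ 1 := Real.exp_le_one_iff.mpr (by
    have : (0:ℝ) ≤ i * s.re := by positivity
    linarith)
  have hz : cw E s i = (x : ℂ) * Complex.exp (((-(i * s.im) : ℝ) : ℂ) * Complex.I) := by
    unfold cw
    rw [if_neg hi, hxdef, Complex.ofReal_exp, ← Complex.exp_add]
    congr 1
    apply Complex.ext
    · simp
    · simp
  set w := 1 - Real.cos (i * s.im) with hw
  have hw0 : 0 ≤ w := by rw [hw]; linarith [Real.cos_le_one (i * s.im)]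
  have hw2 : w ≤ 2 := by rw [hw]; linarith [Real.neg_one_le_cos (i * s.im)]
  have hnorm : ‖1 + cw E s i‖^2 = 1 + 2 * x * (1 - w) + x^2 := by
    rw [hz, Complex.exp_mul_I, ← Complex.ofReal_cos, ← Complex.ofReal_sin, Complex.sq_norm,
      Complex.normSq_apply]
    simp only [Complex.add_re, Complex.one_re, Complex.mul_re, Complex.ofReal_re,
      Complex.ofReal_im, Complex.add_im, Complex.one_im, Complex.mul_im, Complex.I_re,
      Complex.I_im, mul_zero, mul_one, zero_mul, sub_zero, add_zero, zero_add]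
    rw [hw, Real.cos_neg, Real.sin_neg]
    have := Real.sin_sq_add_cos_sq (i * s.im)
    nlinarith
  unfold eta
  rw [hx]
  have h1 : ‖1 + cw E s i‖ ≤ 1 + x - x * w / 2 := by
    have hpos : 0 ≤ 1 + x - x * w / 2 := by nlinarith
    rw [← pow_le_pow_iff_left₀ (norm_nonneg _) hpos two_ne_zero, hnorm]
    nlinarith [mul_nonneg hx0.le hw0, mul_nonneg (mul_nonneg hx0.le hw0) (by linarith : 0 ≤ 1 - x),
      sq_nonneg (x * w)]
  linarith

/-- closed form lower bound for the sum -/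
lemma S_lower {t θ : ℝ} (ht : 0 < t) (ht1 : t ≤ 1) (hθ : |θ| ≤ Real.pi) :
    Summable (fun i : ℕ => Real.exp (-(i * t)) * (1 - Real.cos (i * θ))) ∧
    (2 * θ^2 / Real.pi^2) / (3 * t * (t^2 + 2 * (2 * θ^2 / Real.pi^2))) ≤
      ∑' i : ℕ, Real.exp (-(i * t)) * (1 - Real.cos (i * θ)) := by
  set q := Real.exp (-t) with hq
  have hq0 : 0 < q := Real.exp_pos _
  have hq1 : q < 1 := Real.exp_lt_one_iff.mpr (by linarith)
  have hqt : 1 - q ≤ t := by
    have := Real.add_one_le_exp (-t); linarith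
  have hq3 : 1/3 ≤ q := by
    have h1 : Real.exp (-1) ≤ q := Real.exp_le_exp.mpr (by linarith)
    have h2 : (1:ℝ)/3 ≤ Real.exp (-1) := by
      rw [Real.exp_neg, ← one_div]
      apply one_div_le_one_div_of_le (Real.exp_pos _)
      linarith [Real.exp_one_lt_d9]
    linarith
  set w : ℂ := (q:ℂ) * Complex.exp ((θ:ℂ) * Complex.I) with hw
  have hwn : ‖w‖ = q := by
    rw [hw, norm_mul, Complex.norm_exp_ofReal_mul_I, mul_one, Complex.norm_real,
      Real.norm_of_nonneg hq0.le]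
  have hwn1 : ‖w‖ < 1 := by rw [hwn]; exact hq1
  have hgeo := hasSum_geometric_of_norm_lt_one hwn1
  have hre := Complex.hasSum_re hgeo
  have hterm : ∀ i : ℕ, (w^i).re = Real.exp (-(i*t)) * Real.cos (i*θ) := by
    intro i
    rw [hw, mul_pow, ← Complex.exp_nat_mul, ← Complex.ofReal_pow, Complex.re_ofReal_mul,
      ← Real.exp_nat_mul]
    have e1 : (i:ℂ) * ((θ:ℂ) * Complex.I) = ((i*θ : ℝ) : ℂ) * Complex.I := by push_cast; ring
    rw [e1, Complex.exp_ofReal_mul_I_re]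
    congr 2
    ring
  simp only [hterm] at hre
  have hgeo2 := hasSum_geometric_of_lt_one hq0.le hq1
  have e2 : (fun n : ℕ => q^n) = fun n : ℕ => Real.exp (-(n*t)) := by
    funext n; rw [hq, ← Real.exp_nat_mul]; congr 1; ring
  rw [e2] at hgeo2
  have hS := hgeo2.sub hre
  have e3 : (fun i : ℕ => Real.exp (-(i*t)) - Real.exp (-(i*t)) * Real.cos (i*θ)) =
      fun i : ℕ => Real.exp (-(i * t)) * (1 - Real.cos (i * θ)) := by
    funext i; ring
  rw [e3] at hS
  refine ⟨hS.summable, ?_⟩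
  rw [hS.tsum_eq]
  set v := 1 - Real.cos θ with hv
  have hv0 : 0 ≤ v := by rw [hv]; linarith [Real.cos_le_one θ]
  have hpi := Real.pi_pos
  set u := 2 * θ^2 / Real.pi^2 with hu
  have hu0 : 0 ≤ u := by positivity
  have hvu : u ≤ v := by
    have := Real.cos_le_one_sub_mul_cos_sq hθ
    rw [hv, hu]
    have e : 2 * θ^2 / Real.pi^2 = 2 / Real.pi^2 * θ^2 := by ring
    rw [e]; linarith
  -- the value
  have hns : Complex.normSq (1 - w) = (1-q)^2 + 2*q*v := by
    rw [hw, Complex.exp_mul_I, ← Complex.ofReal_cos, ← Complex.ofReal_sin, Complex.normSq_apply]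
    simp only [Complex.sub_re, Complex.one_re, Complex.mul_re, Complex.ofReal_re, Complex.add_re,
      Complex.ofReal_im, Complex.sub_im, Complex.add_im, Complex.one_im, Complex.mul_im,
      Complex.I_re, Complex.I_im, mul_zero, mul_one, zero_mul, sub_zero, add_zero, zero_add]
    rw [hv]
    have := Real.sin_sq_add_cos_sq θ
    nlinarith
  have hwre : (1 - w).re = 1 - q * (1 - v) := by
    rw [hw, Complex.exp_mul_I, ← Complex.ofReal_cos, ← Complex.ofReal_sin]
    simp only [Complex.sub_re, Complex.one_re, Complex.mul_re, Complex.ofReal_re, Complex.add_re,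
      Complex.ofReal_im, Complex.I_re, Complex.I_im, mul_zero, zero_mul, sub_zero, add_zero]
    rw [hv]; ring
  have hval : ((1 - w)⁻¹).re = (1 - q * (1 - v)) / ((1-q)^2 + 2*q*v) := by
    rw [Complex.inv_re, hns, hwre]
  rw [hval]
  have hden : 0 < (1-q)^2 + 2*q*v := by
    have : 0 < (1-q)^2 := by
      apply pow_pos; linarith
    positivity
  have h1q : 0 < 1 - q := by linarith
  have hform : (1-q)⁻¹ - (1 - q * (1 - v)) / ((1-q)^2 + 2*q*v) =
      q * (1 + q) * v / ((1-q) * ((1-q)^2 + 2*q*v)) := by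
    field_simp
    ring
  rw [hform]
  have hden2 : 0 < (1-q) * ((1-q)^2 + 2*q*v) := mul_pos h1q hden
  have htu : 0 < t^2 + 2*u := by positivity
  rcases eq_or_lt_of_le hu0 with hu00 | hupos
  · rw [← hu00, zero_div]
    positivity
  have hvpos : 0 < v := lt_of_lt_of_le hupos hvu
  have htv : 0 < t^2 + 2*v := by positivity
  calc u / (3 * t * (t^2 + 2*u)) ≤ v / (3 * t * (t^2 + 2*v)) := by
        rw [div_le_div_iff₀ (by positivity) (by positivity)]
        have : u * t^2 ≤ v * t^2 := mul_le_mul_of_nonneg_right hvu (by positivity)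
        nlinarith
    _ ≤ q * (1+q) * v / ((1-q) * ((1-q)^2 + 2*q*v)) := by
        have a1 : (1-q) * ((1-q)^2 + 2*q*v) ≤ t * (t^2 + 2*v) := by
          apply mul_le_mul hqt _ hden.le ht.le
          have b1 : (1-q)^2 ≤ t^2 := pow_le_pow_left₀ h1q.le hqt 2
          have b2 : 2*q*v ≤ 2*v := by nlinarith
          linarith
        have a2 : v / 3 ≤ q * (1+q) * v := by
          have : 1/3 ≤ q * (1+q) := by nlinarith
          nlinarith
        calc v / (3 * t * (t^2 + 2*v)) = (v/3) / (t * (t^2 + 2*v)) := by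
              field_simp
          _ ≤ (q * (1+q) * v) / ((1-q) * ((1-q)^2 + 2*q*v)) :=
              div_le_div₀ (by positivity) a2 hden2 a1

lemma min_lower {t θ : ℝ} (ht : 0 < t) :
    (1/9) * min ((2 * θ^2 / Real.pi^2) / t^3) (1/t) ≤
    (2 * θ^2 / Real.pi^2) / (3 * t * (t^2 + 2 * (2 * θ^2 / Real.pi^2))) := by
  have hpi := Real.pi_pos
  set u := 2 * θ^2 / Real.pi^2 with hu
  have hu0 : 0 ≤ u := by positivity
  have htu : 0 < t^2 + 2*u := by positivity
  rcases le_total u (t^2) with h | h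
  · calc (1/9) * min (u/t^3) (1/t) ≤ (1/9) * (u/t^3) :=
          mul_le_mul_of_nonneg_left (min_le_left _ _) (by norm_num)
      _ = u / (9 * t^3) := by field_simp
      _ ≤ u / (3 * t * (t^2 + 2*u)) := by
          apply div_le_div_of_nonneg_left hu0 (by positivity)
          nlinarith
  · have hupos : 0 < u := lt_of_lt_of_le (by positivity) h
    calc (1/9) * min (u/t^3) (1/t) ≤ (1/9) * (1/t) :=
          mul_le_mul_of_nonneg_left (min_le_right _ _) (by norm_num)
      _ = u / (9 * t * u) := by field_simp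
      _ ≤ u / (3 * t * (t^2 + 2*u)) := by
          apply div_le_div_of_nonneg_left hu0 (by positivity)
          nlinarith

theorem G_bound {D : ℕ} (hD : Range ok D) (hD1 : 1 ≤ D) :
    ∃ κ t0 : ℝ, 0 < κ ∧ 0 < t0 ∧ t0 ≤ 1 ∧ ∀ t θ : ℝ, 0 < t → t ≤ t0 → |θ| ≤ Real.pi →
      ‖G ok E (t + θ * Complex.I)‖ ≤ Gr ok E t * Real.exp (-(κ * min (θ^2 / t^3) (1/t))) := by
  have hpi := Real.pi_pos
  have hDpos : (0:ℝ) < D := by exact_mod_cast hD1
  obtain ⟨L, hL⟩ : ∃ L : ℕ, ∀ i ∈ E, i < L :=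
    ⟨E.sup id + 1, fun i hi => Nat.lt_succ_of_le (Finset.le_sup (f := id) hi)⟩
  set L0 := L + D with hL0
  have hL0pos : (0:ℝ) < L0 := by
    have : 0 < L0 := by omega
    exact_mod_cast this
  set δ : ℝ := (1/2)^(2*D) / (2*D) with hδ
  have hδ0 : 0 < δ := by positivity
  set t0 : ℝ := min 1 (1 / (36 * Real.pi^2 * (L0:ℝ)^3)) with ht0
  have ht0pos : 0 < t0 := lt_min one_pos (by positivity)
  refine ⟨δ / 2 * (1/18) * (2/Real.pi^2), t0, by positivity, ht0pos, min_le_left _ _, ?_⟩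
  intro t θ ht htt0 hθ
  have ht1 : t ≤ 1 := htt0.trans (min_le_left _ _)
  have ht2 : t * (36 * Real.pi^2 * (L0:ℝ)^3) ≤ 1 := by
    have := htt0.trans (min_le_right _ _)
    rwa [le_div_iff₀ (by positivity)] at this
  set s : ℂ := t + θ * Complex.I with hs
  have hre : s.re = t := by simp [hs]
  have him : s.im = θ := by simp [hs]
  set g : ℕ → ℝ := fun i => Real.exp (-(i * t)) * (1 - Real.cos (i * θ)) with hg
  have hg0 : ∀ i, 0 ≤ g i := fun i => mul_nonneg (Real.exp_pos _).le (by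
    linarith [Real.cos_le_one (i * θ)])
  obtain ⟨S1, S2⟩ := S_lower ht ht1 hθ
  -- bound at each l
  have hz : ∀ i, ‖cw E s i‖ ≤ 1 := by
    intro i; rw [norm_cw, hre]; exact mw_le_one E ht.le i
  have hzx : (fun i => ‖cw E s i‖) = mw E t := by
    funext i; rw [norm_cw, hre]
  have key : ∀ l : ℕ, ‖G ok E s‖ ≤ Real.exp (-(δ * ∑ i ∈ Finset.range (l*(2*D)), eta (cw E s) (D + i))) *
      Gr ok E t := by
    intro l
    have h1 := (G_tendsto ok E (s := s) (by rw [hre]; exact ht)).norm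
    have h2 := (Gr_tendsto ok E ht).const_mul
      (Real.exp (-(δ * ∑ i ∈ Finset.range (l*(2*D)), eta (cw E s) (D + i))))
    apply le_of_tendsto_of_tendsto h1 h2
    filter_upwards [eventually_ge_atTop ((l+1)*(2*D))] with N hN
    have := cb_final ok (cw E s) hD hD1 hz l N hN
    rwa [hzx] at this
  have hsum : ∀ l : ℕ, (∑ i ∈ Finset.range (D + l*(2*D)), g i) / 2 - (L0:ℝ)^3 * θ^2 ≤
      ∑ i ∈ Finset.range (l*(2*D)), eta (cw E s) (D + i) := by
    intro l
    have a1 : ∑ i ∈ Finset.range (D + l*(2*D)), g i =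
      ∑ i ∈ Finset.range D, g i + ∑ i ∈ Finset.range (l*(2*D)), g (D+i) :=
        Finset.sum_range_add g D (l*(2*D))
    -- small indices
    have a2 : ∀ i < L0, g i ≤ (L0:ℝ)^2 * θ^2 := by
      intro i hi
      have b1 := Real.one_sub_sq_div_two_le_cos (x := i * θ)
      have b2 : Real.exp (-(i * t)) ≤ 1 := Real.exp_le_one_iff.mpr (by
        have : (0:ℝ) ≤ i * t := by positivity
        linarith)
      have b3 : (i:ℝ) ≤ L0 := by exact_mod_cast hi.le
      have b4 : (i:ℝ)^2 ≤ (L0:ℝ)^2 := pow_le_pow_left₀ (Nat.cast_nonneg i) b3 2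
      have b5 : 1 - Real.cos (i * θ) ≤ (i:ℝ)^2 * θ^2 := by nlinarith [sq_nonneg ((i:ℝ)*θ)]
      have b6 : 0 ≤ 1 - Real.cos (i * θ) := by linarith [Real.cos_le_one (i * θ)]
      calc g i ≤ 1 * (1 - Real.cos (i * θ)) := mul_le_mul_of_nonneg_right b2 b6
        _ ≤ (i:ℝ)^2 * θ^2 := by rw [one_mul]; exact b5
        _ ≤ _ := mul_le_mul_of_nonneg_right b4 (sq_nonneg _)
    have a3 : ∀ i, g (D+i) / 2 - (if D + i < L0 then (L0:ℝ)^2 * θ^2 / 2 else 0) ≤ eta (cw E s) (D+i) := by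
      intro i
      split_ifs with h
      · have := a2 (D+i) h
        have h2 := eta_nonneg (cw E s) (D+i)
        linarith
      · have hiE : D + i ∉ E := fun hh => by
          have := hL _ hh; omega
        have := eta_cw E s (D+i) hiE (by rw [hre]; exact ht.le)
        rw [hre, him] at this
        simp only [hg]
        rw [sub_zero]
        exact this
    have a4 : ∑ i ∈ Finset.range (l*(2*D)), (if D + i < L0 then (L0:ℝ)^2 * θ^2 / 2 else 0) ≤
        (L:ℝ) * ((L0:ℝ)^2 * θ^2 / 2) := by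
      rw [← Finset.sum_filter, Finset.sum_const, nsmul_eq_mul]
      apply mul_le_mul_of_nonneg_right _ (by positivity)
      have : (Finset.range (l*(2*D))).filter (fun i => D + i < L0) ⊆ Finset.range L := by
        intro i hi
        rw [Finset.mem_filter] at hi
        rw [Finset.mem_range]
        omega
      have := Finset.card_le_card this
      rw [Finset.card_range] at this
      exact_mod_cast this
    have a5 : ∑ i ∈ Finset.range D, g i ≤ (D:ℝ) * ((L0:ℝ)^2 * θ^2) := by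
      calc ∑ i ∈ Finset.range D, g i ≤ ∑ i ∈ Finset.range D, (L0:ℝ)^2 * θ^2 := by
            apply Finset.sum_le_sum
            intro i hi
            apply a2
            have := Finset.mem_range.mp hi
            omega
        _ = _ := by simp
    have a6 : ∑ i ∈ Finset.range (l*(2*D)), (g (D+i) / 2 -
        (if D + i < L0 then (L0:ℝ)^2 * θ^2 / 2 else 0)) ≤
        ∑ i ∈ Finset.range (l*(2*D)), eta (cw E s) (D + i) := Finset.sum_le_sum (fun i _ => a3 i)
    rw [Finset.sum_sub_distrib, ← Finset.sum_div] at a6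
    have a7 : (L0:ℝ) = L + D := by rw [hL0]; push_cast; ring
    have a8 : 0 ≤ (L0:ℝ)^2 * θ^2 := by positivity
    have a9 : (L0:ℝ)^3 * θ^2 = (L:ℝ) * ((L0:ℝ)^2 * θ^2) + D * ((L0:ℝ)^2 * θ^2) := by
      rw [← add_mul, ← a7]; ring
    rw [a1, a9]
    have hLnn : (0:ℝ) ≤ (L:ℝ) * ((L0:ℝ)^2 * θ^2) := by positivity
    have hDnn : (0:ℝ) ≤ (D:ℝ) * ((L0:ℝ)^2 * θ^2) := by positivity
    linarith
  -- pass to the limit in l
  have hlim : Tendsto (fun l : ℕ => (∑ i ∈ Finset.range (D + l*(2*D)), g i) / 2 - (L0:ℝ)^3 * θ^2)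
      atTop (𝓝 ((∑' i, g i) / 2 - (L0:ℝ)^3 * θ^2)) := by
    apply Tendsto.sub_const
    apply Tendsto.div_const
    apply S1.hasSum.tendsto_sum_nat.comp
    apply tendsto_atTop_mono (f := fun l : ℕ => l)
    · intro l; nlinarith
    · exact tendsto_id
  have hGr0 : 0 < Gr ok E t := by rw [Gr_eq ok E ht]; exact Real.exp_pos _
  have hfin : ‖G ok E s‖ ≤ Real.exp (-(δ * ((∑' i, g i) / 2 - (L0:ℝ)^3 * θ^2))) * Gr ok E t := by
    have h2 : Tendsto (fun l : ℕ => Real.exp (-(δ * ((∑ i ∈ Finset.range (D + l*(2*D)), g i) / 2 -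
        (L0:ℝ)^3 * θ^2))) * Gr ok E t) atTop
        (𝓝 (Real.exp (-(δ * ((∑' i, g i) / 2 - (L0:ℝ)^3 * θ^2))) * Gr ok E t)) := by
      apply Tendsto.mul_const
      exact (Real.continuous_exp.tendsto _).comp ((hlim.const_mul δ).neg)
    apply ge_of_tendsto' h2
    intro l
    refine (key l).trans ?_
    apply mul_le_mul_of_nonneg_right _ hGr0.le
    apply Real.exp_le_exp.mpr
    rw [neg_le_neg_iff]
    exact mul_le_mul_of_nonneg_left (hsum l) hδ0.le
  -- numerical lower bound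
  set u := 2 * θ^2 / Real.pi^2 with hu
  have hu0 : 0 ≤ u := by positivity
  have hu2 : u ≤ 2 := by
    rw [hu, div_le_iff₀ (by positivity)]
    have := sq_le_sq' (abs_le.mp hθ).1 (abs_le.mp hθ).2
    linarith
  have c1 : (1/9) * min (u / t^3) (1/t) ≤ ∑' i, g i := (min_lower ht).trans S2
  have c2 : (L0:ℝ)^3 * θ^2 ≤ (1/36) * min (u/t^3) (1/t) := by
    have e1 : (L0:ℝ)^3 * θ^2 = (L0:ℝ)^3 * Real.pi^2 / 2 * u := by
      rw [hu]; field_simp
    rw [e1]
    have hmin : (L0:ℝ)^3 * Real.pi^2 / 2 * u * 36 ≤ min (u/t^3) (1/t) := by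
      apply le_min
      · rw [le_div_iff₀ (by positivity)]
        have d1 : t^3 ≤ t := by
          calc t^3 = t * (t*t) := by ring
            _ ≤ t * 1 := mul_le_mul_of_nonneg_left (by nlinarith) ht.le
            _ = t := mul_one t
        have d2 : (L0:ℝ)^3 * Real.pi^2 * 18 * t^3 ≤ 1 := by
          calc (L0:ℝ)^3 * Real.pi^2 * 18 * t^3 ≤ (L0:ℝ)^3 * Real.pi^2 * 18 * t :=
                mul_le_mul_of_nonneg_left d1 (by positivity)
            _ ≤ 1 := by
                have : 0 ≤ t * (18 * Real.pi^2 * (L0:ℝ)^3) := by positivity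
                linarith
        calc (L0:ℝ)^3 * Real.pi^2 / 2 * u * 36 * t^3 = ((L0:ℝ)^3 * Real.pi^2 * 18 * t^3) * u := by ring
          _ ≤ 1 * u := mul_le_mul_of_nonneg_right d2 hu0
          _ = u := one_mul u
      · rw [le_div_iff₀ ht]
        -- need (L0^3 π²/2 · u · 36) t ≤ 1
        have d3 : (L0:ℝ)^3 * Real.pi^2 / 2 * u * 36 * t = (t * (36 * Real.pi^2 * (L0:ℝ)^3)) * (u/2) := by
          ring
        rw [d3]
        calc (t * (36 * Real.pi^2 * (L0:ℝ)^3)) * (u/2) ≤ 1 * (u/2) :=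
              mul_le_mul_of_nonneg_right ht2 (by positivity)
          _ ≤ 1 := by linarith
    linarith
  have c3 : (2/Real.pi^2) * min (θ^2/t^3) (1/t) ≤ min (u/t^3) (1/t) := by
    have hpi2 : 2 / Real.pi^2 ≤ 1 := by
      rw [div_le_one (by positivity)]
      nlinarith [Real.pi_gt_three]
    apply le_min
    · calc (2/Real.pi^2) * min (θ^2/t^3) (1/t) ≤ (2/Real.pi^2) * (θ^2/t^3) :=
            mul_le_mul_of_nonneg_left (min_le_left _ _) (by positivity)
        _ = u / t^3 := by rw [hu]; ring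
    · calc (2/Real.pi^2) * min (θ^2/t^3) (1/t) ≤ (2/Real.pi^2) * (1/t) :=
            mul_le_mul_of_nonneg_left (min_le_right _ _) (by positivity)
        _ ≤ 1 * (1/t) := mul_le_mul_of_nonneg_right hpi2 (by positivity)
        _ = 1/t := one_mul _
  rw [mul_comm (Gr ok E t)]
  refine hfin.trans ?_
  apply mul_le_mul_of_nonneg_right _ hGr0.le
  apply Real.exp_le_exp.mpr
  rw [neg_le_neg_iff]
  have c4 : (1/36) * ((2/Real.pi^2) * min (θ^2/t^3) (1/t)) ≤ (∑' i, g i) / 2 - (L0:ℝ)^3 * θ^2 := by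
    linarith
  have c5 := mul_le_mul_of_nonneg_left c4 hδ0.le
  refine le_trans (le_of_eq ?_) c5
  ring

end bound

end Pool.Agent.Helper59.HC
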