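import Mathlib
import Pool.Agent.Helper59.HC6

set_option autoImplicit false

/-! Local limit theorem. -/

namespace Pool.Agent.Helper59.HC

open Set MeasureTheory Filter Topology

/-- two constants lemma in a half strip -/
lemma two_const {f : ℂ → ℂ} {K ε y : ℝ} (hy : 0 ≤ y) (hε : 0 < ε) (hεK : ε ≤ K)
    (hd : ∀ z : ℂ, |z.re| ≤ 1 → DifferentiableAt ℂ f z)
    (hK : ∀ z : ℂ, |z.re| ≤ 1 → ‖f z‖ ≤ K)
    (hb : ∀ x : ℝ, |x| ≤ 1 → ‖f x‖ ≤ ε) :
    ‖f (y * Complex.I)‖ ≤ K * Real.exp (-(Real.log (K/ε) *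
      (Real.exp (-(Real.pi/2*y)) - Real.exp (-(Real.pi/2*(y+1)))))) := by
  have hpi := Real.pi_pos
  have hKpos : 0 < K := lt_of_lt_of_le hε hεK
  set Λ := Real.log (K/ε) with hΛ
  have hΛ0 : 0 ≤ Λ := Real.log_nonneg (by rwa [one_le_div hε])
  have hexpΛ : Real.exp Λ = K/ε := Real.exp_log (by positivity)
  set g : ℂ → ℂ := fun z => Complex.exp (Complex.I * (Real.pi/2) * z) with hg
  have hgre : ∀ z : ℂ, (g z).re = Real.exp (-(Real.pi/2 * z.im)) * Real.cos (Real.pi/2 * z.re) := by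
    intro z
    simp only [hg]
    rw [Complex.exp_re]
    have h1 : (Complex.I * (Real.pi/2) * z).re = -(Real.pi/2 * z.im) := by
      simp [Complex.mul_re, Complex.mul_im]
    have h2 : (Complex.I * (Real.pi/2) * z).im = Real.pi/2 * z.re := by
      simp [Complex.mul_re, Complex.mul_im]
    rw [h1, h2]
  set H : ℂ → ℂ := fun z => f z * Complex.exp (Λ * g z) with hH
  have hHn : ∀ z, ‖H z‖ = ‖f z‖ * Real.exp (Λ * (Real.exp (-(Real.pi/2 * z.im)) *
      Real.cos (Real.pi/2 * z.re))) := by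
    intro z
    simp only [hH]
    rw [norm_mul, Complex.norm_exp, Complex.re_ofReal_mul, hgre]
  set U : Set ℂ := (Ioo (-1) 1 : Set ℝ) ×ℂ (Ioo 0 (y+1) : Set ℝ) with hU
  have hy1 : (0:ℝ) < y + 1 := by linarith
  have hcl : closure U = (Icc (-1) 1 : Set ℝ) ×ℂ (Icc 0 (y+1) : Set ℝ) := by
    rw [hU, Complex.closure_reProdIm, closure_Ioo (by norm_num), closure_Ioo hy1.ne]
  have hbd : Bornology.IsBounded U := by
    have : U ⊆ closure U := subset_closure
    apply Bornology.IsBounded.subset _ this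
    rw [hcl]
    exact ((isCompact_Icc.reProdIm isCompact_Icc)).isBounded
  have hdiff : DiffContOnCl ℂ H U := by
    apply DifferentiableOn.diffContOnCl
    rw [hcl]
    intro z hz
    rw [Complex.mem_reProdIm] at hz
    apply DifferentiableAt.differentiableWithinAt
    apply DifferentiableAt.mul (hd z (abs_le.mpr hz.1))
    simp only [hg]
    fun_prop
  set C := K * Real.exp (Λ * Real.exp (-(Real.pi/2*(y+1)))) with hC
  have hCK : K ≤ C := by
    rw [hC]
    have : 1 ≤ Real.exp (Λ * Real.exp (-(Real.pi/2*(y+1)))) := Real.one_le_exp (by positivity)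
    nlinarith
  have hfr : ∀ z ∈ frontier U, ‖H z‖ ≤ C := by
    intro z hz
    rw [hU, Complex.frontier_reProdIm, frontier_Ioo (by norm_num : (-1:ℝ) < 1), frontier_Ioo hy1,
      closure_Ioo (by norm_num), closure_Ioo hy1.ne] at hz
    rw [hHn]
    have hcase : ∀ z : ℂ, |z.re| ≤ 1 → (z.im = 0 ∨ z.im = y+1) → ‖f z‖ * Real.exp (Λ *
        (Real.exp (-(Real.pi/2 * z.im)) * Real.cos (Real.pi/2 * z.re))) ≤ C := by
      intro z hz1 hz2
      rcases hz2 with h0 | h1
      · have hzr : z = (z.re : ℂ) := by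
          apply Complex.ext <;> simp [h0]
        have hf : ‖f z‖ ≤ ε := by rw [hzr]; exact hb z.re hz1
        rw [h0, mul_zero, neg_zero, Real.exp_zero, one_mul]
        have h2 : Real.exp (Λ * Real.cos (Real.pi/2 * z.re)) ≤ K/ε := by
          rw [← hexpΛ]
          apply Real.exp_le_exp.mpr
          nlinarith [Real.cos_le_one (Real.pi/2 * z.re)]
        calc _ ≤ ε * (K/ε) := mul_le_mul hf h2 (Real.exp_pos _).le hε.le
          _ = K := by field_simp
          _ ≤ C := hCK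
      · rw [h1, hC]
        apply mul_le_mul (hK z hz1) _ (Real.exp_pos _).le hKpos.le
        apply Real.exp_le_exp.mpr
        apply mul_le_mul_of_nonneg_left _ hΛ0
        have := Real.cos_le_one (Real.pi/2 * z.re)
        have h3 := Real.exp_pos (-(Real.pi/2*(y+1)))
        nlinarith
    rcases hz with hz | hz
    · rw [Complex.mem_reProdIm] at hz
      exact hcase z (abs_le.mpr hz.1) hz.2
    · rw [Complex.mem_reProdIm] at hz
      obtain ⟨hz1, hz2⟩ := hz
      have hcos : Real.cos (Real.pi/2 * z.re) = 0 := by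
        rcases hz1 with h | h
        · rw [h]
          have : Real.pi/2 * (-1) = -(Real.pi/2) := by ring
          rw [this, Real.cos_neg, Real.cos_pi_div_two]
        · rw [mem_singleton_iff] at h
          rw [h, mul_one, Real.cos_pi_div_two]
      rw [hcos, mul_zero, mul_zero, Real.exp_zero, mul_one]
      refine (hK z ?_).trans hCK
      rcases hz1 with h | h
      · rw [h]; norm_num
      · rw [mem_singleton_iff] at h
        rw [h]; norm_num
  have hmem : (y * Complex.I) ∈ closure U := by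
    rw [hcl, Complex.mem_reProdIm]
    constructor
    · simp
    · simp [hy]
  have hfin := Complex.norm_le_of_forall_mem_frontier_norm_le hbd hdiff hfr hmem
  rw [hHn] at hfin
  have e1 : (y * Complex.I : ℂ).re = 0 := by simp
  have e2 : (y * Complex.I : ℂ).im = y := by simp
  rw [e1, e2, mul_zero, Real.cos_zero, mul_one, hC] at hfin
  have hpos := Real.exp_pos (Λ * Real.exp (-(Real.pi/2*y)))
  rw [← le_div_iff₀ hpos, mul_div_assoc, ← Real.exp_sub] at hfin
  refine hfin.trans (le_of_eq ?_)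
  congr 2
  ring

section llt

variable (ok : ℕ → ℕ → Prop) (E : Finset ℕ)

lemma G_diff {s : ℂ} (hs : 0 < s.re) : DifferentiableAt ℂ (G ok E) s := by
  set a := s.re / 2 with ha
  have ha0 : 0 < a := by positivity
  have hopen : IsOpen {w : ℂ | a < w.re} := isOpen_lt continuous_const Complex.continuous_re
  have h := Complex.differentiableOn_tsum_of_summable_norm (Bn_summable ok E ha0)
    (F := fun n w => (Bn ok E n : ℂ) * Complex.exp (-(n * w))) (U := {w : ℂ | a < w.re})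
    (fun n => by
      apply Differentiable.differentiableOn
      fun_prop) hopen (fun n w hw => by
      rw [norm_term]
      apply mul_le_mul_of_nonneg_left _ (Nat.cast_nonneg _)
      apply Real.exp_le_exp.mpr
      have hw' : a < w.re := hw
      have : (n:ℝ) * a ≤ n * w.re := mul_le_mul_of_nonneg_left hw'.le (Nat.cast_nonneg _)
      linarith)
  have hmem : s ∈ {w : ℂ | a < w.re} := by
    simp only [mem_ofPred_eq]
    rw [ha]; linarith
  exact (h.differentiableAt (hopen.mem_nhds hmem))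

lemma G_norm_le {s : ℂ} (hs : 0 < s.re) : ‖G ok E s‖ ≤ Gr ok E s.re := by
  unfold G Gr
  have hsum : Summable (fun n : ℕ => ‖(Bn ok E n : ℂ) * Complex.exp (-(n * s))‖) := by
    simp only [norm_term]
    exact Bn_summable ok E hs
  refine (norm_tsum_le_tsum_norm hsum).trans (le_of_eq ?_)
  congr 1
  funext n
  exact norm_term ok E n s

variable {c C0 : ℝ}

/-- scaled generating function -/
noncomputable def Hs (c : ℝ) (r : ℝ) (z : ℂ) : ℂ :=
  G ok E ((r^2 : ℝ) - (r^3 : ℝ) * z) / (Gr ok E (r^2) : ℂ) * Complex.exp (-(z * ((c / r : ℝ) : ℂ)))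

/-- its logarithm on the real axis -/
noncomputable def La (c : ℝ) (r x : ℝ) : ℝ := FE ok E (r^2 - r^3*x) - FE ok E (r^2) - x * (c/r)

lemma arg_pos {r x : ℝ} (hr : 0 < r) (hr1 : r < 1) (hx : |x| ≤ 1) : 0 < r^2 - r^3*x := by
  have h1 := (abs_le.mp hx).2
  have h2 : r^3 * x ≤ r^3 := by
    have : 0 < r^3 := by positivity
    nlinarith
  have h3 : r^3 < r^2 := by
    have : r^3 = r^2 * r := by ring
    rw [this]
    have h4 : 0 < r^2 := by positivity
    nlinarith
  linarith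

lemma Hs_norm {r : ℝ} (hr : 0 < r) (hr1 : r < 1) {z : ℂ} (hz : |z.re| ≤ 1) :
    ‖Hs ok E c r z‖ ≤ Real.exp (La ok E c r z.re) := by
  have hpos := arg_pos hr hr1 hz
  have hre : (((r^2 : ℝ) : ℂ) - ((r^3 : ℝ) : ℂ) * z).re = r^2 - r^3 * z.re := by
    rw [Complex.sub_re, Complex.ofReal_re, Complex.re_ofReal_mul]
  have h1 := G_norm_le ok E (s := ((r^2 : ℝ) : ℂ) - ((r^3 : ℝ) : ℂ) * z) (by rw [hre]; exact hpos)
  rw [hre, Gr_eq ok E hpos] at h1
  have hg : 0 < Gr ok E (r^2) := by rw [Gr_eq ok E (by positivity)]; exact Real.exp_pos _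
  unfold Hs La
  rw [norm_mul, norm_div, Complex.norm_real, Real.norm_of_nonneg hg.le, Complex.norm_exp,
    Gr_eq ok E (by positivity : 0 < r^2)]
  have hre2 : (-(z * ((c / r : ℝ) : ℂ))).re = -(z.re * (c/r)) := by
    rw [Complex.neg_re, Complex.re_mul_ofReal]
  rw [hre2]
  have e2 : Real.exp (FE ok E (r^2 - r^3*z.re) - FE ok E (r^2) - z.re * (c/r)) =
      Real.exp (FE ok E (r^2 - r^3*z.re)) / Real.exp (FE ok E (r^2)) * Real.exp (-(z.re * (c/r))) := by
    rw [sub_eq_add_neg (FE ok E (r^2 - r^3*z.re) - FE ok E (r^2)), Real.exp_add, Real.exp_sub]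
  rw [e2]
  exact mul_le_mul_of_nonneg_right (div_le_div_of_nonneg_right h1 (Real.exp_pos _).le)
    (Real.exp_pos _).le

lemma Hs_real {r : ℝ} (hr : 0 < r) (hr1 : r < 1) {x : ℝ} (hx : |x| ≤ 1) :
    Hs ok E c r (x : ℂ) = ((Real.exp (La ok E c r x) : ℝ) : ℂ) := by
  have hpos := arg_pos hr hr1 hx
  unfold Hs La
  have e1 : ((r^2 : ℝ) : ℂ) - ((r^3 : ℝ) : ℂ) * (x : ℂ) = ((r^2 - r^3*x : ℝ) : ℂ) := by push_cast; ring
  have e2 : Real.exp (FE ok E (r^2 - r^3*x) - FE ok E (r^2) - x * (c/r)) =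
      Real.exp (FE ok E (r^2 - r^3*x)) / Real.exp (FE ok E (r^2)) * Real.exp (-(x * (c/r))) := by
    rw [sub_eq_add_neg (FE ok E (r^2 - r^3*x) - FE ok E (r^2)), Real.exp_add, Real.exp_sub]
  rw [e2, e1, G_ofReal, Gr_eq ok E hpos, Gr_eq ok E (by positivity : 0 < r^2)]
  push_cast
  rfl

lemma La_lim (hc : 0 < c) (hF : Tendsto (fun t => FE ok E t - c / t) (𝓝[>] 0) (𝓝 C0)) {η : ℝ}
    (hη : 0 < η) : ∃ r0, 0 < r0 ∧ r0 ≤ 1/2 ∧ ∀ r, 0 < r → r < r0 → ∀ x, |x| ≤ 1 →
      |La ok E c r x - c * x^2| ≤ η := by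
  rw [Metric.tendsto_nhdsWithin_nhds] at hF
  obtain ⟨δ, hδ, hF⟩ := hF (η/4) (by positivity)
  refine ⟨min (1/2) (min (δ/2) (η / (4 * c))), by positivity, min_le_left _ _, ?_⟩
  intro r hr hrr x hx
  simp only [lt_min_iff] at hrr
  obtain ⟨h1, h2, h3⟩ := hrr
  rw [lt_div_iff₀ (by positivity)] at h3
  have hpos := arg_pos hr (by linarith) hx
  have hxx := abs_le.mp hx
  have hr2 : r^2 < δ/2 := by nlinarith
  have hr3 : r^3 ≤ r^2 := by
    have : r^3 = r^2 * r := by ring
    rw [this]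
    have h4 : 0 < r^2 := by positivity
    nlinarith
  have hr30 : 0 < r^3 := by positivity
  have hlt : r^2 - r^3*x < δ := by nlinarith
  have a1 := hF (x := r^2 - r^3*x) hpos (by
    rw [Real.dist_eq, sub_zero, abs_of_pos hpos]; exact hlt)
  have a2 := hF (x := r^2) (by positivity : 0 < r^2) (by
    rw [Real.dist_eq, sub_zero, abs_of_pos (by positivity)]; linarith)
  rw [Real.dist_eq] at a1 a2
  have hrx : 0 < 1 - r*x := by nlinarith
  have e1 : La ok E c r x - c*x^2 = (FE ok E (r^2 - r^3*x) - c / (r^2 - r^3*x) - C0) -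
      (FE ok E (r^2) - c / r^2 - C0) + c * x^2 * (r*x) / (1 - r*x) := by
    unfold La
    have e2 : r^2 - r^3*x = r^2 * (1 - r*x) := by ring
    rw [e2]
    field_simp
    ring
  rw [e1]
  have a3 : |c * x^2 * (r*x) / (1 - r*x)| ≤ η/2 := by
    rw [abs_div, abs_of_pos hrx, div_le_iff₀ hrx, abs_mul, abs_mul, abs_mul, abs_of_pos hc,
      abs_of_nonneg (sq_nonneg x), abs_of_pos hr]
    have b1 : x^2 ≤ 1 := by nlinarith
    have b2 : 1/2 ≤ 1 - r*x := by nlinarith
    have b3 : c * x^2 * (r * |x|) ≤ c * 1 * (r * 1) := by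
      apply mul_le_mul
      · exact mul_le_mul_of_nonneg_left b1 hc.le
      · exact mul_le_mul_of_nonneg_left hx hr.le
      · positivity
      · positivity
    nlinarith
  calc _ ≤ |(FE ok E (r^2 - r^3*x) - c / (r^2 - r^3*x) - C0) - (FE ok E (r^2) - c / r^2 - C0)| +
        |c * x^2 * (r*x) / (1 - r*x)| := abs_add_le _ _
    _ ≤ (|FE ok E (r^2 - r^3*x) - c / (r^2 - r^3*x) - C0| + |FE ok E (r^2) - c / r^2 - C0|) + η/2 := by
        apply add_le_add (abs_sub _ _) a3
    _ ≤ η := by linarith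

/-- pointwise convergence on the imaginary axis -/
lemma Hs_tendsto (hc : 0 < c) (hF : Tendsto (fun t => FE ok E t - c / t) (𝓝[>] 0) (𝓝 C0))
    (y : ℝ) : Tendsto (fun r => Hs ok E c r (y * Complex.I)) (𝓝[>] 0)
      (𝓝 (((Real.exp (-(c*y^2)) : ℝ) : ℂ))) := by
  -- difference function
  set h : ℝ → ℂ → ℂ := fun r z => Hs ok E c r z - Complex.exp (c * z^2) with hh
  have hval : Complex.exp (c * (y * Complex.I)^2) = ((Real.exp (-(c*y^2)) : ℝ) : ℂ) := by
    rw [mul_pow, Complex.I_sq]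
    push_cast
    congr 1
    ring
  set K : ℝ := Real.exp (c+1) + Real.exp c with hK
  have hKpos : 0 < K := by positivity
  -- uniform bound
  obtain ⟨r1, hr1, hr1h, hbd1⟩ := La_lim ok E hc hF one_pos
  have hexpn : ∀ z : ℂ, |z.re| ≤ 1 → ‖Complex.exp (c * z^2)‖ ≤ Real.exp c := by
    intro z hz
    rw [Complex.norm_exp]
    apply Real.exp_le_exp.mpr
    rw [Complex.re_ofReal_mul]
    have : (z^2).re = z.re^2 - z.im^2 := by
      rw [sq, Complex.mul_re]; ring
    rw [this]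
    have := abs_le.mp hz
    have h2 : z.re^2 ≤ 1 := by nlinarith
    nlinarith [sq_nonneg z.im]
  have hbound : ∀ r, 0 < r → r < r1 → ∀ z : ℂ, |z.re| ≤ 1 → ‖h r z‖ ≤ K := by
    intro r hr hrr z hz
    simp only [hh]
    refine (norm_sub_le _ _).trans ?_
    rw [hK]
    apply add_le_add _ (hexpn z hz)
    refine (Hs_norm ok E hr (by linarith) hz).trans ?_
    apply Real.exp_le_exp.mpr
    have h1 := (abs_le.mp (hbd1 r hr hrr z.re hz)).2
    have := abs_le.mp hz
    have h2 : z.re^2 ≤ 1 := by nlinarith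
    nlinarith
  have hdiff : ∀ r, 0 < r → r < 1 → ∀ z : ℂ, |z.re| ≤ 1 → DifferentiableAt ℂ (h r) z := by
    intro r hr hr1 z hz
    have hpos := arg_pos hr hr1 hz
    have hre : (((r^2 : ℝ) : ℂ) - ((r^3 : ℝ) : ℂ) * z).re = r^2 - r^3 * z.re := by
      rw [Complex.sub_re, Complex.ofReal_re, Complex.re_ofReal_mul]
    have hG := G_diff ok E (s := ((r^2 : ℝ) : ℂ) - ((r^3 : ℝ) : ℂ) * z) (by rw [hre]; exact hpos)
    simp only [hh]
    unfold Hs
    apply DifferentiableAt.sub
    · apply DifferentiableAt.mul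
      · apply DifferentiableAt.div_const
        have : (fun z : ℂ => G ok E (((r^2 : ℝ) : ℂ) - ((r^3 : ℝ) : ℂ) * z)) =
          (G ok E) ∘ (fun z : ℂ => ((r^2 : ℝ) : ℂ) - ((r^3 : ℝ) : ℂ) * z) := rfl
        rw [this]
        apply DifferentiableAt.comp z hG
        fun_prop
      · fun_prop
    · fun_prop
  -- smallness on the real segment
  have hsmall : ∀ ε : ℝ, 0 < ε → ∃ r0, 0 < r0 ∧ ∀ r, 0 < r → r < r0 → ∀ x : ℝ, |x| ≤ 1 →
      ‖h r (x:ℂ)‖ ≤ ε := by
    intro ε hε
    -- |e^a - e^b| ≤ e^{c} (e^{|a-b|} - 1)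
    obtain ⟨η, hη, hηε⟩ : ∃ η, 0 < η ∧ Real.exp c * (Real.exp η - 1) ≤ ε := by
      have hcont : Tendsto (fun η : ℝ => Real.exp c * (Real.exp η - 1)) (𝓝[>] 0)
          (𝓝 (Real.exp c * (Real.exp 0 - 1))) := by
        apply tendsto_nhdsWithin_of_tendsto_nhds
        exact (Continuous.tendsto (by fun_prop) 0)
      rw [Real.exp_zero, sub_self, mul_zero] at hcont
      obtain ⟨η, hη1, hη2⟩ := ((hcont.eventually (gt_mem_nhds hε)).and self_mem_nhdsWithin).exists
      exact ⟨η, hη2, hη1.le⟩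
    obtain ⟨r0, hr0, hr0h, hbd0⟩ := La_lim ok E hc hF hη
    refine ⟨r0, hr0, ?_⟩
    intro r hr hrr x hx
    simp only [hh]
    rw [Hs_real ok E hr (by linarith) hx]
    have e1 : Complex.exp (c * (x:ℂ)^2) = ((Real.exp (c * x^2) : ℝ) : ℂ) := by push_cast; rfl
    rw [e1, ← Complex.ofReal_sub, Complex.norm_real, Real.norm_eq_abs]
    have h1 := abs_le.mp (hbd0 r hr hrr x hx)
    have hxx : x^2 ≤ 1 := by have := abs_le.mp hx; nlinarith
    set a := La ok E c r x
    have e2 : Real.exp a - Real.exp (c*x^2) = Real.exp (c*x^2) * (Real.exp (a - c*x^2) - 1) := by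
      rw [mul_sub, ← Real.exp_add]; ring_nf
    rw [e2, abs_mul, abs_of_pos (Real.exp_pos _)]
    have h2 : Real.exp (c*x^2) ≤ Real.exp c := Real.exp_le_exp.mpr (by nlinarith)
    have h3 : |Real.exp (a - c*x^2) - 1| ≤ Real.exp η - 1 := by
      rw [abs_le]
      constructor
      · have h4 : Real.exp (-η) ≤ Real.exp (a - c*x^2) := Real.exp_le_exp.mpr (by linarith)
        have h5 := Real.add_one_le_exp η
        have h6 := Real.add_one_le_exp (-η)
        linarith
      · have h4 : Real.exp (a - c*x^2) ≤ Real.exp η := Real.exp_le_exp.mpr (by linarith)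
        linarith
    calc _ ≤ Real.exp c * (Real.exp η - 1) := mul_le_mul h2 h3 (abs_nonneg _) (Real.exp_pos _).le
      _ ≤ ε := hηε
  -- main
  set a : ℝ := Real.exp (-(Real.pi/2*|y|)) - Real.exp (-(Real.pi/2*(|y|+1))) with ha
  have ha0 : 0 < a := by
    rw [ha, sub_pos]
    apply Real.exp_lt_exp.mpr
    nlinarith [Real.pi_pos]
  have hmain : ∀ ε : ℝ, 0 < ε → ε ≤ K → ∀ r, 0 < r → r < r1 →
      (∀ x : ℝ, |x| ≤ 1 → ‖h r (x:ℂ)‖ ≤ ε) →
      ‖h r (y * Complex.I)‖ ≤ K * Real.exp (-(Real.log (K/ε) * a)) := by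
    intro ε hε hεK r hr hrr hx
    rcases le_total 0 y with hy | hy
    · have := two_const (f := h r) hy hε hεK (hdiff r hr (by linarith)) (hbound r hr hrr) hx
      rw [ha, abs_of_nonneg hy]
      exact this
    · have := two_const (f := fun z => h r (-z)) (y := -y) (by linarith) hε hεK
        (fun z hz => by
          have h1 := hdiff r hr (by linarith) (-z) (by simpa using hz)
          have h2 : (fun z => h r (-z)) = (h r) ∘ (fun z => -z) := rfl
          rw [h2]
          exact DifferentiableAt.comp z h1 (by fun_prop))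
        (fun z hz => hbound r hr hrr (-z) (by simpa using hz))
        (fun x hx' => by
          have := hx (-x) (by simpa using hx')
          simpa using this)
      rw [ha, abs_of_nonpos hy]
      have e3 : -(((-y : ℝ) : ℂ) * Complex.I) = (y:ℂ) * Complex.I := by push_cast; ring
      simp only [e3] at this
      exact this
  rw [← hval]
  have hlim0 : Tendsto (fun ε : ℝ => K * Real.exp (-(Real.log (K/ε) * a))) (𝓝[>] 0) (𝓝 0) := by
    have h1 : Tendsto (fun ε : ℝ => K / ε) (𝓝[>] 0) atTop :=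
      Tendsto.const_mul_atTop hKpos tendsto_inv_nhdsGT_zero |>.congr (fun ε => by
        rw [div_eq_mul_inv])
    have h2 := Real.tendsto_log_atTop.comp h1
    have h3 : Tendsto (fun ε : ℝ => Real.log (K/ε) * a) (𝓝[>] 0) atTop := h2.atTop_mul_const ha0
    have h4 := (Real.tendsto_exp_neg_atTop_nhds_zero.comp h3).const_mul K
    simpa using h4
  rw [Metric.tendsto_nhdsWithin_nhds]
  intro ε' hε'
  have hev1 : ∀ᶠ ε in 𝓝[>] (0:ℝ), K * Real.exp (-(Real.log (K/ε) * a)) < ε' :=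
    hlim0.eventually (gt_mem_nhds hε')
  have hev2 : ∀ᶠ ε in 𝓝[>] (0:ℝ), 0 < ε := self_mem_nhdsWithin
  have hev3 : ∀ᶠ ε in 𝓝[>] (0:ℝ), ε ≤ K :=
    (nhdsWithin_le_nhds (Iic_mem_nhds hKpos) : ∀ᶠ ε in 𝓝[>] (0:ℝ), ε ∈ Iic K)
  obtain ⟨ε, ⟨hε1, hε2⟩, hε3⟩ := ((hev1.and hev2).and hev3).exists
  obtain ⟨r0, hr0, hsm⟩ := hsmall ε hε2
  refine ⟨min r0 r1, lt_min hr0 hr1, ?_⟩
  intro r hr hrd
  have hr' : 0 < r := hr
  rw [Real.dist_eq, sub_zero, abs_of_pos hr', lt_min_iff] at hrd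
  rw [dist_eq_norm]
  exact lt_of_le_of_lt (hmain ε hε2 hε3 r hr' hrd.2 (hsm r hr' hrd.1)) hε1

end llt

end Pool.Agent.Helper59.HC
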