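import Mathlib
import Pool.Agent.Helper59.HC7

set_option autoImplicit false

/-! Fourier inversion and the asymptotic formula. -/

namespace Pool.Agent.Helper59.HC

open Set MeasureTheory Filter Topology

section inv

variable (ok : ℕ → ℕ → Prop) (E : Finset ℕ)

lemma int_exp (k : ℤ) : ∫ θ in (-Real.pi)..Real.pi, Complex.exp ((k * Complex.I) * θ) =
    if k = 0 then (2 * Real.pi : ℂ) else 0 := by
  by_cases hk : k = 0
  · subst hk
    rw [if_pos rfl]
    simp
    ring
  · rw [if_neg hk]
    have hc : (k * Complex.I : ℂ) ≠ 0 := mul_ne_zero (by exact_mod_cast hk) Complex.I_ne_zero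
    rw [integral_exp_mul_complex hc]
    have : Complex.exp (k * Complex.I * (Real.pi : ℝ)) = Complex.exp (k * Complex.I * ((-Real.pi : ℝ) : ℂ)) := by
      have h2 := Complex.exp_int_mul_two_pi_mul_I k
      have e : (k * Complex.I * (Real.pi : ℝ) : ℂ) = k * Complex.I * ((-Real.pi : ℝ) : ℂ) +
        k * (2 * Real.pi * Complex.I) := by push_cast; ring
      rw [e, Complex.exp_add, h2, mul_one]
    rw [this, sub_self, zero_div]

lemma inversion {t : ℝ} (ht : 0 < t) (n : ℕ) :
    ∫ θ in (-Real.pi)..Real.pi, G ok E (t - θ * Complex.I) * Complex.exp (-(n * θ * Complex.I)) =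
      ((2 * Real.pi * Bn ok E n * Real.exp (-(n*t)) : ℝ) : ℂ) := by
  have hpi := Real.pi_pos
  set F : ℕ → ℝ → ℂ := fun m θ => (Bn ok E m : ℂ) * Complex.exp (-(m * (t - θ * Complex.I))) *
    Complex.exp (-(n * θ * Complex.I)) with hF
  have hsum := Bn_summable ok E ht
  have hH : HasSum (fun m => ∫ θ in (-Real.pi)..Real.pi, F m θ)
      (∫ θ in (-Real.pi)..Real.pi, G ok E (t - θ * Complex.I) * Complex.exp (-(n * θ * Complex.I))) := by
    apply intervalIntegral.hasSum_integral_of_dominated_convergence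
      (bound := fun m _ => (Bn ok E m : ℝ) * Real.exp (-(m * t)))
    · intro m
      apply Continuous.aestronglyMeasurable
      simp only [hF]
      fun_prop
    · intro m
      apply ae_of_all
      intro θ _
      simp only [hF]
      rw [norm_mul, norm_term, Complex.norm_exp]
      have e1 : (-(n * θ * Complex.I : ℂ)).re = 0 := by simp
      have e2 : ((t:ℂ) - θ * Complex.I).re = t := by simp
      rw [e1, e2, Real.exp_zero, mul_one]
    · exact ae_of_all _ (fun θ _ => hsum)
    · exact intervalIntegrable_const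
    · apply ae_of_all
      intro θ _
      have h1 : Summable (fun m : ℕ => (Bn ok E m : ℂ) * Complex.exp (-(m * ((t:ℂ) - θ * Complex.I)))) := by
        apply Summable.of_norm
        simp only [norm_term]
        have e2 : ((t:ℂ) - θ * Complex.I).re = t := by simp
        rw [e2]
        exact hsum
      exact h1.hasSum.mul_right _
  have hval : ∀ m, ∫ θ in (-Real.pi)..Real.pi, F m θ =
      if m = n then ((2 * Real.pi * Bn ok E n * Real.exp (-(n*t)) : ℝ) : ℂ) else 0 := by
    intro m
    have e1 : ∀ θ : ℝ, F m θ = ((Bn ok E m : ℂ) * Complex.exp (-(m * t))) *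
        Complex.exp ((((m - n : ℤ) : ℂ) * Complex.I) * θ) := by
      intro θ
      simp only [hF]
      have e0 : Complex.exp (-(m * (t - θ * Complex.I))) * Complex.exp (-(n * θ * Complex.I)) =
          Complex.exp (-(m * t)) * Complex.exp ((((m - n : ℤ) : ℂ) * Complex.I) * θ) := by
        rw [← Complex.exp_add, ← Complex.exp_add]
        congr 1
        push_cast
        ring
      rw [mul_assoc (Bn ok E m : ℂ), e0, ← mul_assoc]
    simp only [e1]
    rw [intervalIntegral.integral_const_mul, int_exp]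
    by_cases h : m = n
    · subst h
      simp
      ring
    · rw [if_neg h, if_neg (by omega), mul_zero]
  simp only [hval] at hH
  have h2 : HasSum (fun m => if m = n then ((2 * Real.pi * Bn ok E n * Real.exp (-(n*t)) : ℝ) : ℂ) else 0)
      ((2 * Real.pi * Bn ok E n * Real.exp (-(n*t)) : ℝ) : ℂ) := hasSum_ite_eq n _
  exact hH.unique h2

/-- the scaled integral -/
noncomputable def In (c r : ℝ) : ℂ :=
  ∫ y in (-(Real.pi/r^3))..(Real.pi/r^3), Hs ok E c r (y * Complex.I)

lemma scaled {c r : ℝ} (hr : 0 < r) (n : ℕ) (hn : (n:ℝ) * r^4 = c) :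
    ((Bn ok E n : ℝ) : ℂ) = ((Real.exp (n*r^2) * Gr ok E (r^2) * (r^3 / (2 * Real.pi)) : ℝ) : ℂ) *
      In ok E c r := by
  have hpi := Real.pi_pos
  have ht : 0 < r^2 := by positivity
  have hr3 : 0 < r^3 := by positivity
  have hg : 0 < Gr ok E (r^2) := by rw [Gr_eq ok E ht]; exact Real.exp_pos _
  have h1 := inversion ok E ht n
  set f : ℝ → ℂ := fun θ => G ok E (((r^2 : ℝ) : ℂ) - θ * Complex.I) * Complex.exp (-(n * θ * Complex.I)) with hf
  have h2 : (∫ y in (-(Real.pi/r^3))..(Real.pi/r^3), f (r^3 * y)) =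
      ((r^3 : ℝ)⁻¹ : ℝ) • ∫ θ in (-Real.pi)..Real.pi, f θ := by
    rw [intervalIntegral.integral_comp_mul_left f hr3.ne']
    congr 2
    · field_simp
    · field_simp
  have h3 : ∀ y : ℝ, f (r^3 * y) = (Gr ok E (r^2) : ℂ) * Hs ok E c r (y * Complex.I) := by
    intro y
    simp only [hf]
    unfold Hs
    have hg' : (Gr ok E (r^2) : ℂ) ≠ 0 := by exact_mod_cast hg.ne'
    have e1 : (((r^2 : ℝ) : ℂ) - ((r^3 * y : ℝ) : ℂ) * Complex.I) =
      (((r^2 : ℝ) : ℂ) - ((r^3 : ℝ) : ℂ) * (y * Complex.I)) := by push_cast; ring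
    have e2 : (-(n * ((r^3 * y : ℝ) : ℂ) * Complex.I)) = (-(y * Complex.I * ((c / r : ℝ) : ℂ))) := by
      have : c / r = n * r^3 := by rw [← hn]; field_simp
      rw [this]; push_cast; ring
    rw [e1, e2]
    field_simp
  simp only [h3] at h2
  rw [intervalIntegral.integral_const_mul, h1] at h2
  unfold In
  have hg' : (Gr ok E (r^2) : ℂ) ≠ 0 := by exact_mod_cast hg.ne'
  set I := ∫ y in (-(Real.pi/r^3))..(Real.pi/r^3), Hs ok E c r (y * Complex.I) with hI
  have h4 : ((Real.exp (n*r^2) * Gr ok E (r^2) * (r^3 / (2 * Real.pi)) : ℝ) : ℂ) * I =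
      ((Real.exp (n*r^2) * (r^3 / (2 * Real.pi)) : ℝ) : ℂ) * ((Gr ok E (r^2) : ℂ) * I) := by
    push_cast; ring
  rw [h4, h2]
  rw [Complex.real_smul, ← Complex.ofReal_mul, ← Complex.ofReal_mul]
  congr 1
  have h5 : Real.exp (n*r^2) * Real.exp (-(n*r^2)) = 1 := by rw [← Real.exp_add]; simp
  field_simp
  linarith [h5, mul_comm (Real.exp (n*r^2)) (Real.exp (-(n*r^2))),
    congrArg (fun x => x * (Bn ok E n : ℝ)) h5]

variable {c C0 : ℝ}

lemma In_tendsto {D : ℕ} (hD : Range ok D) (hD1 : 1 ≤ D) (hc : 0 < c)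
    (hF : Tendsto (fun t => FE ok E t - c / t) (𝓝[>] 0) (𝓝 C0)) :
    Tendsto (fun r => In ok E c r) (𝓝[>] 0) (𝓝 ((Real.sqrt (Real.pi / c) : ℝ) : ℂ)) := by
  have hpi := Real.pi_pos
  obtain ⟨κ, t0, hκ, ht0, ht01, hGb⟩ := G_bound ok E hD hD1
  set C : ℝ := 6 * (1 + Real.pi^2) / κ^3 with hC
  have hCpos : 0 < C := by positivity
  set F : ℝ → ℝ → ℂ := fun r y => (Ioc (-(Real.pi/r^3)) (Real.pi/r^3)).indicator
    (fun y => Hs ok E c r ((y:ℝ) * Complex.I)) y with hFdef
  have e1 : ∀ r, 0 < r → In ok E c r = ∫ y, F r y := by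
    intro r hr
    unfold In
    have : -(Real.pi/r^3) ≤ Real.pi/r^3 := by
      have : 0 < Real.pi/r^3 := by positivity
      linarith
    rw [intervalIntegral.integral_of_le this, ← integral_indicator measurableSet_Ioc]
  have e2 : (((Real.sqrt (Real.pi / c) : ℝ)) : ℂ) = ∫ y : ℝ, ((Real.exp (-(c*y^2)) : ℝ) : ℂ) := by
    rw [integral_complex_ofReal]
    congr 1
    rw [← integral_gaussian]
    congr 1
    funext y
    congr 1; ring
  rw [e2]
  have e3 : (fun r => ∫ y, F r y) =ᶠ[𝓝[>] 0] (fun r => In ok E c r) := by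
    filter_upwards [self_mem_nhdsWithin] with r hr
    exact (e1 r hr).symm
  refine Tendsto.congr' e3 ?_
  apply tendsto_integral_filter_of_dominated_convergence
    (bound := fun y => Real.exp (-κ * y^2) + C * (1 + y^2)⁻¹)
  · -- measurability
    have : ∀ᶠ r in 𝓝[>] (0:ℝ), r < 1 := nhdsWithin_le_nhds (Iio_mem_nhds one_pos)
    filter_upwards [self_mem_nhdsWithin, this] with r hr hr1
    have hr' : 0 < r := hr
    apply AEStronglyMeasurable.indicator _ measurableSet_Ioc
    apply Continuous.aestronglyMeasurable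
    unfold Hs
    apply Continuous.mul
    · apply Continuous.div_const
      rw [continuous_iff_continuousAt]
      intro y
      have hre : (((r^2 : ℝ) : ℂ) - ((r^3 : ℝ) : ℂ) * ((y:ℂ) * Complex.I)).re = r^2 := by
        rw [Complex.sub_re, Complex.ofReal_re, Complex.re_ofReal_mul]
        simp
      have h1 := (G_diff ok E (s := ((r^2 : ℝ) : ℂ) - ((r^3 : ℝ) : ℂ) * ((y:ℂ) * Complex.I))
        (by rw [hre]; positivity)).continuousAt
      have h2 : (fun y : ℝ => G ok E (((r^2 : ℝ) : ℂ) - ((r^3 : ℝ) : ℂ) * ((y:ℂ) * Complex.I))) =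
        (G ok E) ∘ (fun y : ℝ => ((r^2 : ℝ) : ℂ) - ((r^3 : ℝ) : ℂ) * ((y:ℂ) * Complex.I)) := rfl
      rw [h2]
      exact ContinuousAt.comp (x := y)
        (f := fun y : ℝ => ((r^2 : ℝ) : ℂ) - ((r^3 : ℝ) : ℂ) * ((y:ℂ) * Complex.I)) h1 (by fun_prop)
    · fun_prop
  · -- domination
    have hsq : ∀ᶠ r in 𝓝[>] (0:ℝ), r^2 ≤ t0 := by
      have : Tendsto (fun r : ℝ => r^2) (𝓝[>] 0) (𝓝 (0^2)) :=
        tendsto_nhdsWithin_of_tendsto_nhds ((continuous_pow 2).tendsto 0)
      rw [zero_pow two_ne_zero] at this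
      exact this.eventually (Iic_mem_nhds ht0)
    filter_upwards [self_mem_nhdsWithin, hsq] with r hr hrt
    have hr' : 0 < r := hr
    apply ae_of_all
    intro y
    simp only [hFdef]
    have hpos1 : 0 < C * (1 + y^2)⁻¹ := by positivity
    by_cases hy : y ∈ Ioc (-(Real.pi/r^3)) (Real.pi/r^3)
    · rw [indicator_of_mem hy]
      set t : ℝ := r^2 with ht
      have htpos : 0 < t := by positivity
      have ht1 : t ≤ 1 := hrt.trans ht01
      have hr3 : 0 < r^3 := by positivity
      have hyabs : |r^3 * y| ≤ Real.pi := by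
        rw [abs_mul, abs_of_pos hr3]
        have : |y| ≤ Real.pi/r^3 := abs_le.mpr ⟨hy.1.le, hy.2⟩
        rwa [le_div_iff₀ hr3, mul_comm] at this
      have hb := hGb t (-(r^3*y)) htpos hrt (by rwa [abs_neg])
      have hg : 0 < Gr ok E t := by rw [Gr_eq ok E htpos]; exact Real.exp_pos _
      have hHn : ‖Hs ok E c r ((y:ℝ) * Complex.I)‖ ≤ Real.exp (-(κ * min (y^2) (1/t))) := by
        unfold Hs
        rw [norm_mul, norm_div, Complex.norm_real, Complex.norm_exp]
        have q1 : (-((y:ℂ) * Complex.I * ((c/r : ℝ) : ℂ))).re = 0 := by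
          rw [Complex.neg_re, Complex.re_mul_ofReal]; simp
        rw [q1, Real.exp_zero, mul_one, ← ht, Real.norm_of_nonneg hg.le, div_le_iff₀ hg]
        have q2 : ((t:ℂ) - ((r^3 : ℝ) : ℂ) * ((y:ℂ) * Complex.I)) = (t:ℂ) + ((-(r^3*y) : ℝ) : ℂ) * Complex.I := by
          push_cast; ring
        rw [q2, mul_comm (Real.exp _)]
        refine hb.trans (le_of_eq ?_)
        have q3 : (-(r^3*y))^2 / t^3 = y^2 := by rw [ht]; field_simp
        rw [q3]
      refine hHn.trans ?_
      rcases le_total (y^2) (1/t) with h | h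
      · rw [min_eq_left h]
        have : -(κ * y^2) = -κ * y^2 := by ring
        rw [this]; linarith
      · rw [min_eq_right h]
        have hk : Real.exp (-(κ * (1/t))) ≤ C * (1 + y^2)⁻¹ := by
          have q3 : (κ/t)^3 / (Nat.factorial 3 : ℝ) ≤ Real.exp (κ/t) :=
            Real.pow_div_factorial_le_exp _ (by positivity) 3
          have q4 : ((Nat.factorial 3 : ℕ) : ℝ) = 6 := by norm_num [Nat.factorial]
          rw [q4] at q3
          have q5 : Real.exp (-(κ * (1/t))) ≤ 6 * t^3 / κ^3 := by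
            have : -(κ * (1/t)) = -(κ/t) := by ring
            rw [this, Real.exp_neg]
            have h6 : 0 < (κ/t)^3 / 6 := by positivity
            calc (Real.exp (κ/t))⁻¹ ≤ ((κ/t)^3 / 6)⁻¹ := inv_anti₀ h6 q3
              _ = 6 * t^3 / κ^3 := by field_simp
          have q6 : t^3 * (1 + y^2) ≤ 1 + Real.pi^2 := by
            have s1 : t^3 * y^2 = (r^3*y)^2 := by rw [ht]; ring
            have s2 : (r^3*y)^2 ≤ Real.pi^2 := sq_le_sq' (abs_le.mp hyabs).1 (abs_le.mp hyabs).2
            have s3 : t^3 ≤ 1 := pow_le_one₀ htpos.le ht1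
            nlinarith
          have hy2 : 0 < 1 + y^2 := by positivity
          refine q5.trans ?_
          rw [hC, ← div_eq_mul_inv, le_div_iff₀ hy2]
          have hk3 : 0 < κ^3 := by positivity
          rw [div_mul_eq_mul_div, div_le_div_iff_of_pos_right hk3]
          nlinarith
        have := Real.exp_pos (-κ * y^2)
        linarith
    · rw [indicator_of_notMem hy, norm_zero]
      have := Real.exp_pos (-κ * y^2)
      linarith
  · -- integrability of the bound
    apply Integrable.add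
    · exact integrable_exp_neg_mul_sq hκ
    · exact integrable_inv_one_add_sq.const_mul C
  · -- pointwise convergence
    apply ae_of_all
    intro y
    have h1 := Hs_tendsto ok E hc hF y
    refine h1.congr' ?_
    have h2 : ∀ᶠ r in 𝓝[>] (0:ℝ), |y| + 1 < Real.pi / r^3 := by
      have : Tendsto (fun r : ℝ => Real.pi / r^3) (𝓝[>] 0) atTop := by
        have h3 : Tendsto (fun r : ℝ => (r^3)⁻¹) (𝓝[>] 0) atTop := by
          have h4 : Tendsto (fun r : ℝ => r^3) (𝓝[>] 0) (𝓝[>] 0) := by
            apply tendsto_nhdsWithin_iff.mpr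
            refine ⟨?_, ?_⟩
            · have : Tendsto (fun r : ℝ => r^3) (𝓝[>] 0) (𝓝 (0^3)) :=
                tendsto_nhdsWithin_of_tendsto_nhds ((continuous_pow 3).tendsto 0)
              rwa [zero_pow three_ne_zero] at this
            · filter_upwards [self_mem_nhdsWithin] with r hr
              have hr' : 0 < r := hr
              exact (by positivity : 0 < r^3)
          exact tendsto_inv_nhdsGT_zero.comp h4
        exact (h3.const_mul_atTop hpi).congr (fun r => by rw [div_eq_mul_inv])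
      exact this.eventually_gt_atTop _
    filter_upwards [h2] with r hr
    simp only [hFdef]
    rw [indicator_of_mem]
    have := abs_le.mp (le_refl |y|)
    constructor
    · linarith [neg_abs_le y]
    · linarith [le_abs_self y]

/-- the asymptotic formula for the number of admissible sets -/
theorem Bn_asymp {D M : ℕ} (hD : Range ok D) (hD1 : 1 ≤ D) (hM : Per ok M) (hM1 : 1 ≤ M) :
    ∃ α β : ℝ, 0 < α ∧ Tendsto (fun n : ℕ => (Bn ok E n : ℝ) /
      ((n:ℝ) ^ (-(3/4) : ℝ) * Real.exp (β * Real.sqrt n))) atTop (𝓝 α) := by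
  have hpi := Real.pi_pos
  obtain ⟨c, C0, hc, hF⟩ := FE_asymp ok hD hD1 hM hM1 E
  have hI := In_tendsto ok E hD hD1 hc hF
  refine ⟨Real.exp C0 * (c^(3/4:ℝ) / (2 * Real.pi)) * Real.sqrt (Real.pi / c), 2 * Real.sqrt c,
    by positivity, ?_⟩
  -- function of r
  set Φ : ℝ → ℝ := fun r => Real.exp (FE ok E (r^2) - c / r^2) * (c^(3/4:ℝ) / (2 * Real.pi)) *
    (In ok E c r).re with hΦ
  have hsq : Tendsto (fun r : ℝ => r^2) (𝓝[>] 0) (𝓝[>] 0) := by
    apply tendsto_nhdsWithin_iff.mpr
    refine ⟨?_, ?_⟩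
    · have : Tendsto (fun r : ℝ => r^2) (𝓝[>] 0) (𝓝 (0^2)) :=
        tendsto_nhdsWithin_of_tendsto_nhds ((continuous_pow 2).tendsto 0)
      rwa [zero_pow two_ne_zero] at this
    · filter_upwards [self_mem_nhdsWithin] with r hr
      have hr' : 0 < r := hr
      exact (by positivity : 0 < r^2)
  have hΦlim : Tendsto Φ (𝓝[>] 0) (𝓝 (Real.exp C0 * (c^(3/4:ℝ) / (2 * Real.pi)) *
      Real.sqrt (Real.pi / c))) := by
    apply Tendsto.mul
    · apply Tendsto.mul_const
      exact (Real.continuous_exp.tendsto _).comp (hF.comp hsq)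
    · have := (Complex.continuous_re.tendsto _).comp hI
      rw [Complex.ofReal_re] at this
      exact this
  -- sequence of radii
  set r : ℕ → ℝ := fun n => (c / n)^(1/4:ℝ) with hr
  have hrpos : ∀ n : ℕ, 1 ≤ n → 0 < r n := fun n hn => by
    have : (0:ℝ) < n := by exact_mod_cast hn
    exact Real.rpow_pos_of_pos (by positivity) _
  have hrlim : Tendsto r atTop (𝓝[>] 0) := by
    apply tendsto_nhdsWithin_iff.mpr
    refine ⟨?_, ?_⟩
    · have h1 : Tendsto (fun n : ℕ => c / (n:ℝ)) atTop (𝓝 0) :=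
        tendsto_const_nhds.div_atTop tendsto_natCast_atTop_atTop
      have h2 := h1.rpow_const (p := (1/4:ℝ)) (Or.inr (by norm_num))
      rwa [Real.zero_rpow (by norm_num)] at h2
    · filter_upwards [eventually_ge_atTop 1] with n hn
      exact hrpos n hn
  refine (hΦlim.comp hrlim).congr' ?_
  filter_upwards [eventually_ge_atTop 1] with n hn
  have hnpos : (0:ℝ) < n := by exact_mod_cast hn
  have hrn := hrpos n hn
  have hr4 : (r n)^4 = c / n := by
    simp only [hr]
    rw [← Real.rpow_natCast, ← Real.rpow_mul (by positivity)]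
    norm_num
  have hn4 : (n:ℝ) * (r n)^4 = c := by rw [hr4]; field_simp
  have hs := scaled ok E hrn n hn4
  have hBre : (Bn ok E n : ℝ) = (Real.exp (n*(r n)^2) * Gr ok E ((r n)^2) *
      ((r n)^3 / (2 * Real.pi))) * (In ok E c (r n)).re := by
    have := congrArg Complex.re hs
    rw [Complex.ofReal_re, Complex.re_ofReal_mul] at this
    exact this
  simp only [Function.comp, hΦ]
  rw [hBre, Gr_eq ok E (by positivity : 0 < (r n)^2)]
  have hnr2 : (n:ℝ) * (r n)^2 = c / (r n)^2 := by
    rw [← hn4]; field_simp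
  have hsqrt : 2 * Real.sqrt c * Real.sqrt n = c / (r n)^2 + c / (r n)^2 := by
    have h1 : Real.sqrt c * Real.sqrt n = c / (r n)^2 := by
      rw [← Real.sqrt_mul hc.le]
      have h2 : c * n = (c / (r n)^2)^2 := by
        rw [← hn4]; field_simp
      rw [h2, Real.sqrt_sq (by positivity)]
    rw [mul_assoc, h1]; ring
  have hn34 : (n:ℝ)^(-(3/4) : ℝ) = (r n)^3 / c^(3/4:ℝ) := by
    have h1 : (n:ℝ) = c / (r n)^4 := by rw [hr4]; field_simp
    rw [h1, Real.div_rpow hc.le (by positivity), ← Real.rpow_natCast (r n) 4, ← Real.rpow_mul hrn.le]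
    have h2 : ((4:ℕ):ℝ) * (-(3/4)) = -((3:ℕ):ℝ) := by norm_num
    rw [h2, Real.rpow_neg hrn.le, Real.rpow_natCast, Real.rpow_neg hc.le]
    field_simp
  rw [hn34, hsqrt, hnr2, Real.exp_add, Real.exp_sub]
  have hcpos : 0 < c^(3/4:ℝ) := Real.rpow_pos_of_pos hc _
  field_simp

end inv

end Pool.Agent.Helper59.HC
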